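import Mathlib

/-!
A chain model of the rational homology of the K-theory spectrum of a field, of its rank
filtration, of the rank spectral sequence and of the Adams eigenspaces.
-/

open CategoryTheory

namespace Pool.Agent.SR

/-- The inequalities defining the index poset. -/
abbrev IdxP (p : ℕ) (q : ℕ →₀ ℕ) (t : ℕ × (ℕ → ℕ) × (ℕ → ℕ)) : Prop :=
  t.1 ≤ p ∧ ∀ k, t.2.1 k ≤ t.2.2 k ∧ t.2.2 k ≤ q k + 1

/-- The poset `[p] × ∏ₖ Ar[q k + 1]`: a vertex `n ≤ p` of the nerve direction and, in each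
`S`-direction `k`, an arrow `a k ≤ b k` of `[q k + 1]`. -/
abbrev Idx (p : ℕ) (q : ℕ →₀ ℕ) : Type := Subtype (IdxP p q)

/-- The product order. -/
instance idxPre (p : ℕ) (q : ℕ →₀ ℕ) : Preorder (Idx p q) := Subtype.preorder _

/-- Diagrams of shape `[p] × ∏ₖ Ar[q k + 1]` in `C`. -/
def Raw (C : Type 1) [Category.{0} C] : Type 1 := Σ (p : ℕ) (q : ℕ →₀ ℕ), Idx p q ⥤ C

theorem skip_mono (i : ℕ) : Monotone fun n : ℕ => if n < i then n else n + 1 := by
  intro a b h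
  dsimp only
  split_ifs <;> omega

/-- The coface map omitting `i`. -/
def skip (i : ℕ) : ℕ →o ℕ := ⟨fun n => if n < i then n else n + 1, skip_mono i⟩

theorem reidx_mem (p : ℕ) (q : ℕ →₀ ℕ) {p' : ℕ} {q' : ℕ →₀ ℕ} (f0 : ℕ →o ℕ) (f : ℕ → ℕ →o ℕ)
    (t : Idx p' q') : min (f0 t.1.1) p ≤ p ∧ ∀ k,
      min (f k (t.1.2.1 k)) (q k + 1) ≤ min (f k (t.1.2.2 k)) (q k + 1) ∧
      min (f k (t.1.2.2 k)) (q k + 1) ≤ q k + 1 :=
  ⟨min_le_right _ _, fun k =>
    ⟨min_le_min_right _ ((f k).monotone (t.2.2 k).1), min_le_right _ _⟩⟩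

/-- The map of index posets induced by monotone maps of the simplicial coordinates. -/
def reidx (p : ℕ) (q : ℕ →₀ ℕ) {p' : ℕ} {q' : ℕ →₀ ℕ} (f0 : ℕ →o ℕ) (f : ℕ → ℕ →o ℕ)
    (t : Idx p' q') : Idx p q :=
  ⟨(min (f0 t.1.1) p, fun k => min (f k (t.1.2.1 k)) (q k + 1),
    fun k => min (f k (t.1.2.2 k)) (q k + 1)), reidx_mem p q f0 f t⟩

theorem reidx_mono (p : ℕ) (q : ℕ →₀ ℕ) (p' : ℕ) (q' : ℕ →₀ ℕ) (f0 : ℕ →o ℕ)
    (f : ℕ → ℕ →o ℕ) : Monotone (reidx p q f0 f : Idx p' q' → Idx p q) :=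
  fun _ _ h => ⟨min_le_min_right _ (f0.monotone h.1),
    fun k => min_le_min_right _ ((f k).monotone (h.2.1 k)),
    fun k => min_le_min_right _ ((f k).monotone (h.2.2 k))⟩

variable {C : Type 1} [Category.{0} C] {C' : Type 1} [Category.{0} C']

/-- Restriction of a diagram along monotone maps of the simplicial coordinates. -/
def pull (x : Raw C) (p' : ℕ) (q' : ℕ →₀ ℕ) (f0 : ℕ →o ℕ) (f : ℕ → ℕ →o ℕ) : Raw C :=
  ⟨p', q', (reidx_mono x.1 x.2.1 p' q' f0 f).functor ⋙ x.2.2⟩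

/-- The `i`-th face in the nerve direction. -/
def faceN (x : Raw C) (i : ℕ) : Raw C :=
  pull x (x.1 - 1) x.2.1 (skip i) fun _ => OrderHom.id

/-- The `i`-th face in the `k`-th `S`-direction. -/
noncomputable def faceS (x : Raw C) (k i : ℕ) : Raw C :=
  pull x x.1 (x.2.1 - Finsupp.single k 1) OrderHom.id
    (Function.update (fun _ => OrderHom.id) k (skip i))

/-- The total boundary of one diagram (faces landing in simplicial degree `0` of an
`S`-direction are the base point and are omitted). -/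
noncomputable def bd1 (x : Raw C) : Raw C →₀ ℚ :=
  (∑ i ∈ Finset.range (if x.1 = 0 then 0 else x.1 + 1),
    (-1 : ℚ) ^ i • Finsupp.single (faceN x i) 1) +
  ∑ k ∈ x.2.1.support, ∑ i ∈ Finset.range (x.2.1 k + 2),
    (-1 : ℚ) ^ (x.1 + ∑ l ∈ Finset.range k, (x.2.1 l + 1) + i) • Finsupp.single (faceS x k i) 1

/-- The total boundary. -/
noncomputable def bd (C : Type 1) [Category.{0} C] : (Raw C →₀ ℚ) →ₗ[ℚ] (Raw C →₀ ℚ) :=
  Finsupp.linearCombination ℚ bd1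

/-- Applying a functor to a diagram. -/
def post (T : C ⥤ C') (x : Raw C) : Raw C' := ⟨x.1, x.2.1, x.2.2 ⋙ T⟩

/-- The stable degree `p + ∑ₖ q k`. -/
def deg (x : Raw C) : ℕ := x.1 + x.2.1.sum fun _ n => n

variable (F : Type) [Field F]

/-- The linear map of a diagram of vector spaces along `a ≤ b`. -/
def mp {p : ℕ} {q : ℕ →₀ ℕ} (X : Idx p q ⥤ ModuleCat.{0} F) {a b : Idx p q} (h : a ≤ b) :
    X.obj a →ₗ[F] X.obj b := (X.map (homOfLE h)).hom

/-- `a` and `b` differ only in the `k`-th `S`-direction. -/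
def Along {p : ℕ} {q : ℕ →₀ ℕ} (k : ℕ) (a b : Idx p q) : Prop :=
  a.1.1 = b.1.1 ∧ ∀ l, l ≠ k → a.1.2.1 l = b.1.2.1 l ∧ a.1.2.2 l = b.1.2.2 l

/-- The maps in the nerve direction are isomorphisms. -/
def GIso {p : ℕ} {q : ℕ →₀ ℕ} (X : Idx p q ⥤ ModuleCat.{0} F) : Prop :=
  ∀ a b (h : a ≤ b), a.1.2 = b.1.2 → Function.Bijective (mp F X h)

/-- The diagram vanishes on degenerate arrows. -/
def GZero {p : ℕ} {q : ℕ →₀ ℕ} (X : Idx p q ⥤ ModuleCat.{0} F) : Prop :=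
  ∀ (a : Idx p q) (k : ℕ), a.1.2.1 k = a.1.2.2 k → Subsingleton (X.obj a)

/-- `0 → A → B → C → 0` is exact. -/
abbrev SES {A B C : ModuleCat.{0} F} (f : A →ₗ[F] B) (g : B →ₗ[F] C) : Prop :=
  Function.Injective f ∧ Function.Exact f g ∧ Function.Surjective g

/-- The diagram is short exact in each `S`-direction. -/
def GExact {p : ℕ} {q : ℕ →₀ ℕ} (X : Idx p q ⥤ ModuleCat.{0} F) : Prop :=
  ∀ a b c (h : a ≤ b) (h' : b ≤ c) (k : ℕ), Along k a b → Along k b c →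
    a.1.2.1 k = b.1.2.1 k → a.1.2.2 k = c.1.2.1 k → b.1.2.2 k = c.1.2.2 k →
    SES F (mp F X h) (mp F X h')

/-- The terminal vertices have dimension at most `r`. -/
def GRank (r : ℕ) {p : ℕ} {q : ℕ →₀ ℕ} (X : Idx p q ⥤ ModuleCat.{0} F) : Prop :=
  ∀ a : Idx p q, (∀ k, a.1.2.1 k = 0 ∧ a.1.2.2 k = q k + 1) → Module.finrank F (X.obj a) ≤ r

/-- Multisimplices of the nerve of isomorphisms of the iterated `S`-construction whose terminal
vertices have dimension at most `r`. -/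
structure GoodX (r : ℕ) {p : ℕ} {q : ℕ →₀ ℕ} (X : Idx p q ⥤ ModuleCat.{0} F) : Prop where
  fin : ∀ a, Module.Finite F (X.obj a)
  iso : GIso F X
  zero : GZero F X
  exact : GExact F X
  rank : GRank F r X

/-- The same for an element of `Raw`. -/
abbrev Good (r : ℕ) (x : Raw (ModuleCat.{0} F)) : Prop := GoodX F r x.2.2

/-- Rational chains. -/
abbrev Ch : Type 1 := Raw (ModuleCat.{0} F) →₀ ℚ

/-- The rank filtration: chains of `F_r K(F)`. -/
noncomputable def Fil (r : ℕ) : Submodule ℚ (Ch F) := Finsupp.supported ℚ ℚ {x | Good F r x}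

/-- Chains of degree `j`. -/
noncomputable def Deg (j : ℕ) : Submodule ℚ (Ch F) := Finsupp.supported ℚ ℚ {x | deg x = j}

/-- `Z^ρ`: chains of rank `≤ r` and degree `j` whose boundary has rank `≤ r - ρ`. -/
noncomputable def Zs (ρ r j : ℕ) : Submodule ℚ (Ch F) :=
  Fil F r ⊓ Deg F j ⊓ (Fil F (r - ρ)).comap (bd _)

/-- The denominator `Z^{ρ-1}_{r-1} + ∂ Z^{ρ-1}_{r+ρ-1}` of the page `E^ρ`. -/
noncomputable def Bs (ρ r j : ℕ) : Submodule ℚ (Ch F) :=
  Zs F (ρ - 1) (r - 1) j ⊔ (Zs F (ρ - 1) (r + ρ - 1) (j + 1)).map (bd _)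

/-- Cycles of degree `j` of the reduced complex. -/
noncomputable def Cyc (j : ℕ) : Submodule ℚ (Ch F) :=
  (⨆ r, Fil F r) ⊓ Deg F j ⊓ (Fil F 0).comap (bd _)

/-- Chains that are zero in reduced homology. -/
noncomputable def Bd : Submodule ℚ (Ch F) := Fil F 0 ⊔ (⨆ r, Fil F r).map (bd _)

open MonoidalCategory in
/-- The functor `V ↦ Λ^{i₁} V ⊗ ⋯ ⊗ Λ^{iₘ} V ⊗ Λ⁰ V`. -/
noncomputable def lamL : List ℕ → (ModuleCat.{0} F ⥤ ModuleCat.{0} F)
  | [] => ModuleCat.exteriorPower.functor F 0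
  | i :: l => ModuleCat.exteriorPower.functor F i ⊗ lamL l

/-- The Adams operation `ψ^k` (Newton's formula in the exterior powers, unrolled) on chains. -/
noncomputable def adams (k : ℕ) : Ch F →ₗ[ℚ] Ch F :=
  ∑ c : Composition k, ((-1 : ℚ) ^ (k - c.length) * c.blocks.headI) •
    Finsupp.lmapDomain ℚ ℚ (post (lamL F c.blocks))

/-- Elements on which each `ψ k`, `k ≥ 1`, is `k^t` modulo `B`. -/
noncomputable abbrev eigSub {M : Type 1} [AddCommGroup M] [Module ℚ M] (B : Submodule ℚ M)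
    (ψ : ℕ → M →ₗ[ℚ] M) (t : ℕ) : Submodule ℚ M :=
  ⨅ k : ℕ, B.comap (ψ (k + 1) - ((k + 1 : ℚ) ^ t) • LinearMap.id)

/-- Cycles of the nerve of the groupoid of vector spaces on which each `ψ^k` is `k^t`. Their
classes form the Adams eigenspace `K_j(F)^{(t)}_ℚ` inside `H_j(K(F); ℚ) = Cyc j / Bd`. -/
noncomputable def Eig (t j : ℕ) : Submodule ℚ (Ch F) :=
  Cyc F j ⊓ Finsupp.supported ℚ ℚ {x | x.2.1 = 0} ⊓ eigSub (Bd F) (adams F) t

/-- The subquotient `Z / (D ⊓ Z)`. -/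
abbrev SQ {M : Type 1} [AddCommGroup M] [Module ℚ M] (Z D : Submodule ℚ M) : Type 1 :=
  Z ⧸ D.submoduleOf Z

/-- `y` and `e` are the classes of one element of `C ⊓ Z`. -/
def Rel {M : Type 1} [AddCommGroup M] [Module ℚ M] (C B Z D : Submodule ℚ M) (y : SQ C B)
    (e : SQ Z D) : Prop :=
  ∃ (c : M) (h1 : c ∈ C) (h2 : c ∈ Z),
    y = Submodule.Quotient.mk ⟨c, h1⟩ ∧ e = Submodule.Quotient.mk ⟨c, h2⟩

/-- There is a linear isomorphism `φ` from `W` to `E` with `R y (φ y)` for all `y`. -/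
def IsoRel {A E : Type 1} [AddCommGroup A] [Module ℚ A] [AddCommGroup E] [Module ℚ E]
    (W : Submodule ℚ A) (R : A → E → Prop) : Prop :=
  ∃ φ : W ≃ₗ[ℚ] E, ∀ y, R y.1 (φ y)

/-- There is an isomorphism from the image of `W` in `C / B` to `Z / D` sending each class `y` to
the class of an element of `C ⊓ Z` that represents `y`. -/
def Cmp {M : Type 1} [AddCommGroup M] [Module ℚ M] (W C B Z D : Submodule ℚ M) : Prop :=
  IsoRel ((W.submoduleOf C).map (B.submoduleOf C).mkQ) (Rel C B Z D)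

end Pool.Agent.SR
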