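import Mathlib

section PartADefs
/-! Definitions for the analytic half: cross ratios, five term relation, cochains. -/

open MeasureTheory

namespace Pool.Agent.SR

section CR
variable {F : Type} [Field F]

def det2 (u v : Fin 2 → F) : F := u 0 * v 1 - u 1 * v 0

/-- Cross ratio of four vectors of the plane (junk value `0` when a denominator vanishes). -/
def crv (y : Fin 4 → Fin 2 → F) : F :=
  det2 (y 0) (y 2) * det2 (y 1) (y 3) / (det2 (y 0) (y 3) * det2 (y 1) (y 2))

end CR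

/-- The coboundary of a homogeneous cochain. -/
def cob {Y : Type*} {n : ℕ} (f : (Fin n → Y) → ℝ) (x : Fin (n + 1) → Y) : ℝ :=
  ∑ i : Fin (n + 1), (-1 : ℝ) ^ (i : ℕ) * f fun j => x (i.succAbove j)

/-- `D` vanishes at `0` and `1` and satisfies the five term relation on non-zero vectors. -/
structure FiveTerm {F : Type} [Field F] (D : F → ℝ) : Prop where
  zero : D 0 = 0
  one : D 1 = 0
  five : ∀ y : Fin 5 → Fin 2 → F, (∀ i, y i ≠ 0) → cob (fun w => D (crv w)) y = 0

def lo4 : Fin 4 → Fin 7 := ![0, 1, 2, 3]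
def hi4 : Fin 4 → Fin 7 := ![3, 4, 5, 6]

/-- Cup product of two 3-cochains. -/
def cup {Y : Type*} (a b : (Fin 4 → Y) → ℝ) (x : Fin 7 → Y) : ℝ :=
  a (fun i => x (lo4 i)) * b (fun i => x (hi4 i))

/-- The prism operator on 6-cochains, for two vertex maps `u`, `u'`. -/
def prism {X Y : Type*} (c : (Fin 7 → Y) → ℝ) (u u' : X → Y) (x : Fin 6 → X) : ℝ :=
  ∑ j : Fin 6, (-1 : ℝ) ^ (j : ℕ) *
    c fun i => if i ≤ j.castSucc then u (x (j.predAbove i)) else u' (x (j.predAbove i))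

/-- The derivative of the Bloch-Wigner function: `log|z| d arg(1-z) - log|1-z| d arg z`. -/
noncomputable def bwL (z : ℂ) : ℂ →L[ℝ] ℝ :=
  Real.log ‖z‖ • (Complex.imCLM.comp (ContinuousLinearMap.mul ℝ ℂ (z - 1)⁻¹)) -
    Real.log ‖1 - z‖ • (Complex.imCLM.comp (ContinuousLinearMap.mul ℝ ℂ z⁻¹))

structure BWcore (D : ℂ → ℝ) : Prop where
  cont : Continuous D
  real : ∀ x : ℝ, D x = 0
  conj : ∀ z, D ((starRingEnd ℂ) z) = -D z
  inv : ∀ z, D z⁻¹ = -D z
  one_sub : ∀ z, D (1 - z) = -D z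
  deriv : ∀ z, z ≠ 0 → z ≠ 1 → HasFDerivAt D (bwL z) z

/-- What is used of the Bloch-Wigner function. -/
structure BW (D : ℂ → ℝ) : Prop where
  five : FiveTerm D
  cont : Continuous D
  bdd : ∃ M, ∀ z, |D z| ≤ M
  conj : ∀ z, D ((starRingEnd ℂ) z) = -D z
  ne : ∃ z, D z ≠ 0

abbrev SL2 (F : Type) [Field F] : Type := Matrix.SpecialLinearGroup (Fin 2) F

noncomputable instance sl2Meas : MeasurableSpace (SL2 ℂ) := borel _
instance sl2Borel : BorelSpace (SL2 ℂ) := ⟨rfl⟩

/-- Unitary elements. -/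
def IsU (k : SL2 ℂ) : Prop := k.1 * k.1.conjTranspose = 1

/-- Entrywise image under a field embedding. -/
def slm {F K : Type} [Field F] [Field K] (φ : F →+* K) : SL2 F →* SL2 K :=
  Matrix.SpecialLinearGroup.map φ

/-- Entrywise complex conjugation. -/
noncomputable def sbar (g : SL2 ℂ) : SL2 ℂ := slm (starRingEnd ℂ) g

/-- First column. -/
def col0 {F : Type} [Field F] (g : SL2 F) : Fin 2 → F := fun j => g.1 j 0

/-- Squared Frobenius norm. -/
noncomputable def fro (g : SL2 ℂ) : ℝ := ∑ i, ∑ j, ‖g.1 i j‖ ^ 2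

/-- The averaged volume cocycle on vertices `Bool × SL₂(ℂ)`. -/
structure BHat (D : ℂ → ℝ) (b : (Fin 4 → Bool × SL2 ℂ) → ℝ) : Prop where
  coc : ∀ y : Fin 5 → Bool × SL2 ℂ, cob b y = 0
  inv : ∀ (g : SL2 ℂ) (y : Fin 4 → Bool × SL2 ℂ), b (fun i => ((y i).1, g * (y i).2)) = b y
  pt : ∀ x : Fin 4 → SL2 ℂ, b (fun i => (false, x i)) = D (crv fun i => col0 (x i))
  unit : ∀ x k : Fin 4 → SL2 ℂ, (∀ i, IsU (k i)) →
    b (fun i => (true, x i * k i)) = b fun i => (true, x i)
  meas : Measurable fun x : Fin 4 → SL2 ℂ => b fun i => (true, x i)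
  bdd : ∃ M, ∀ y, |b y| ≤ M
  ne : ∃ x : Fin 4 → SL2 ℂ, b (fun i => (true, sbar (x i))) ≠ b fun i => (true, x i)

/-- Arithmetic data: an order `O` in a field with an involution and two complex embeddings. -/
structure FieldData (F : Type) [Field F] (O : Subring F) (bar : F →+* F) (φ1 φ2 : F →+* ℂ) :
    Prop where
  invol : ∀ x, bar (bar x) = x
  mem : ∀ x ∈ O, bar x ∈ O
  fin : Module.Finite ℤ O
  aniso : ∀ α ∈ O, ∀ β ∈ O, α * bar α = 3 * (β * bar β) → α = 0 ∧ β = 0
  lat : ∃ b : Module.Basis (Fin 8) ℝ (Fin 4 → ℂ), ∀ v, v ∈ Submodule.span ℤ (Set.range b) ↔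
    ∃ α ∈ O, v = ![φ1 α, φ1 (bar α), φ2 α, φ2 (bar α)]

/-- A cocompact lattice in `SL₂(ℂ)²` defined over `F`. -/
structure Lattice {F : Type} [Field F] (Γ : Subgroup (SL2 F)) (φ1 φ2 : F →+* ℂ) : Prop where
  proper : ∀ R : ℝ, {γ : Γ | fro (slm φ1 γ.1) ≤ R ∧ fro (slm φ2 γ.1) ≤ R}.Finite
  cocpt : ∃ R : ℝ, ∀ g1 g2 : SL2 ℂ, ∃ γ : Γ,
    fro ((slm φ1 γ.1)⁻¹ * g1) ≤ R ∧ fro ((slm φ2 γ.1)⁻¹ * g2) ≤ R

end Pool.Agent.SR
end PartADefs

section PartBW0
namespace Pool.Agent.SR

open Complex in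
theorem bw0_strip : ∃ G : ℂ → ℂ, ∀ w : ℂ, w.im ∈ Set.Ioo (-Real.pi) Real.pi →
    HasDerivAt G (exp w / dslope exp 0 w) w := by
  have ho : IsOpen (im ⁻¹' Set.Ioo (-Real.pi) Real.pi) := isOpen_Ioo.preimage continuous_im
  have hc : Convex ℝ (im ⁻¹' Set.Ioo (-Real.pi) Real.pi) :=
    (convex_Ioo _ _).linear_preimage imLm
  have hd : DifferentiableOn ℂ (dslope exp 0) Set.univ :=
    (Complex.differentiableOn_dslope Filter.univ_mem).2 differentiable_exp.differentiableOn
  obtain ⟨G, hG⟩ := hc.exists_forall_hasDerivWithinAt (f := fun w => exp w / dslope exp 0 w)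
    (differentiable_exp.differentiableOn.div (hd.mono (Set.subset_univ _)) fun w hw => by
      by_cases h : w = 0
      · simp [h]
      · rw [dslope_of_ne _ h, slope_def_field, exp_zero, sub_zero]
        refine div_ne_zero (sub_ne_zero.2 fun e => h ?_) h
        rw [← log_exp hw.1 hw.2.le, e, log_one])
  exact ⟨G, fun w hw => (hG w hw).hasDerivAt (ho.mem_nhds hw)⟩

open Complex in
theorem bw0_li : ∃ L : ℂ → ℂ, L 0 = 0 ∧ ContinuousAt L 0 ∧
    ∀ z, 1 - z ∈ slitPlane → z ≠ 0 → HasDerivAt L (log (1 - z) / z) z := by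
  obtain ⟨G, hG⟩ := bw0_strip
  have key : ∀ z, 1 - z ∈ slitPlane → HasDerivAt (fun z => G (log (1 - z)) - G 0)
      (exp (log (1 - z)) / dslope exp 0 (log (1 - z)) * (-1 / (1 - z))) z := fun z hz => by
    have h1 : HasDerivAt (fun z => log (1 - z)) (-1 / (1 - z)) z :=
      ((hasDerivAt_id z).const_sub 1).clog hz
    have h2 := hG (log (1 - z)) (by
      rw [log_im]
      exact ⟨neg_pi_lt_arg _, (arg_le_pi _).lt_of_ne (slitPlane_arg_ne_pi hz)⟩)
    exact (h2.comp z h1).sub_const _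
  refine ⟨fun z => G (log (1 - z)) - G 0, by simp, (key 0 (by simp)).continuousAt,
    fun z hz h0 => ?_⟩
  have h1 : 1 - z ≠ 0 := slitPlane_ne_zero hz
  have h2 : log (1 - z) ≠ 0 := fun e => h0 (by
    have := exp_log h1
    rw [e, exp_zero] at this
    linear_combination this)
  refine (key z hz).congr_deriv ?_
  rw [dslope_of_ne _ h2, slope_def_field, exp_zero, sub_zero, exp_log h1, sub_sub_cancel_left]
  field_simp

/-- A primitive of `log (1 - z) / z` on the plane cut along `[1, ∞)`.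
Plan: `L z = ∫ t in (0:ℝ)..1, log (1 - t z) / t`; differentiate under the integral sign
(`intervalIntegral.hasDerivAt_integral_of_dominated_loc_of_deriv_le`; for `t ∈ [0,1]` and `z` near `z₀`,
`1 - t z` stays in a compact subset of the slit plane; the `z`-derivative of the integrand is
`-1 / (1 - t z)`, which is `d/dt (log (1 - t z) / z)`). `L` is differentiable at `0` too.
Any other construction is fine. -/
theorem exists_li : ∃ L : ℂ → ℂ, L 0 = 0 ∧ ContinuousAt L 0 ∧
    (∀ z, 1 - z ∈ Complex.slitPlane → z ≠ 0 → HasDerivAt L (Complex.log (1 - z) / z) z) ∧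
    ∀ z, 1 - z ∈ Complex.slitPlane → L ((starRingEnd ℂ) z) = (starRingEnd ℂ) (L z) := by
  obtain ⟨L, h0, hc, hd⟩ := bw0_li
  refine ⟨fun z => (L z + (starRingEnd ℂ) (L ((starRingEnd ℂ) z))) / 2, by simp [h0], ?_,
    fun z hz hz0 => ?_, fun z _ => ?_⟩
  · refine (hc.add (Complex.continuous_conj.continuousAt.comp ?_)).div_const 2
    exact ContinuousAt.comp_of_eq hc Complex.continuous_conj.continuousAt (map_zero _)
  · have e : 1 - (starRingEnd ℂ) z = (starRingEnd ℂ) (1 - z) := by rw [map_sub, map_one]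
    have h1 : 1 - (starRingEnd ℂ) z ∈ Complex.slitPlane := by
      rw [e, Complex.mem_slitPlane_iff, Complex.conj_re, Complex.conj_im, neg_ne_zero]
      exact hz
    have h2 := (hd _ h1 ((map_ne_zero _).2 hz0)).conj_conj
    rw [Complex.conj_conj, map_div₀, Complex.conj_conj, e,
      Complex.log_conj _ (Complex.slitPlane_arg_ne_pi hz), Complex.conj_conj] at h2
    refine (((hd z hz hz0).add h2).div_const 2).congr_deriv ?_
    ring
  · simp only [map_div₀, map_add, Complex.conj_conj, map_ofNat]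
    ring

end Pool.Agent.SR
end PartBW0

section PartBW1
namespace Pool.Agent.SR

theorem bw1_apply (z v : ℂ) :
    bwL z v = Real.log ‖z‖ * ((z - 1)⁻¹ * v).im - Real.log ‖1 - z‖ * (z⁻¹ * v).im := rfl

theorem bw1_im {f : ℂ → ℂ} {c z : ℂ} (h : HasDerivAt f c z) :
    HasFDerivAt (fun w => (f w).im) (Complex.imCLM.comp (ContinuousLinearMap.mul ℝ ℂ c)) z := by
  refine (Complex.imCLM.hasFDerivAt.comp z (h.hasFDerivAt.restrictScalars ℝ)).congr_fderiv ?_
  ext v
  simp [mul_comm v]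

theorem bw1_lognorm {z : ℂ} (hz : z ≠ 0) : HasFDerivAt (fun w : ℂ => Real.log ‖w‖)
    (Complex.reCLM.comp (ContinuousLinearMap.mul ℝ ℂ z⁻¹)) z := by
  have h1 : HasDerivAt (fun w : ℂ => Complex.log (w * z⁻¹)) z⁻¹ z := by
    have := ((hasDerivAt_id z).mul_const z⁻¹).clog (by simp [hz])
    simpa [hz] using this
  have h2 : HasFDerivAt (fun w : ℂ => (Complex.log (w * z⁻¹)).re + Real.log ‖z‖)
      (Complex.reCLM.comp (ContinuousLinearMap.mul ℝ ℂ z⁻¹)) z := by
    refine ((Complex.reCLM.hasFDerivAt.comp z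
      (h1.hasFDerivAt.restrictScalars ℝ)).congr_fderiv ?_).add_const _
    ext v
    simp [mul_comm v]
  refine h2.congr_of_eventuallyEq ?_
  filter_upwards [isOpen_ne.mem_nhds hz] with w hw
  rw [Complex.log_re, norm_mul, norm_inv, Real.log_mul (by simpa using hw) (by simpa using hz),
    Real.log_inv]
  ring

theorem bw1_deriv {L : ℂ → ℂ} {z : ℂ} (h1 : 1 - z ∈ Complex.slitPlane) (hz : z ≠ 0)
    (hL : HasDerivAt L (Complex.log (1 - z) / z) z) :
    HasFDerivAt (fun w => -(L w).im + (Complex.log (1 - w)).im * Real.log ‖w‖) (bwL z) z := by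
  have h2 : HasDerivAt (fun w : ℂ => Complex.log (1 - w)) (z - 1)⁻¹ z := by
    have := ((hasDerivAt_id z).const_sub 1).clog h1
    refine this.congr_deriv ?_
    rw [id, ← neg_sub 1 z, inv_neg, neg_div, one_div]
  refine ((bw1_im hL).neg.add ((bw1_im h2).mul (bw1_lognorm hz))).congr_fderiv ?_
  refine ContinuousLinearMap.ext fun v => ?_
  rw [bw1_apply, ← Complex.log_re (1 - z)]
  simp only [add_apply, neg_apply,
    smul_apply, ContinuousLinearMap.comp_apply, ContinuousLinearMap.mul_apply',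
    Complex.imCLM_apply, Complex.reCLM_apply, smul_eq_mul]
  rw [div_eq_mul_inv, mul_assoc, Complex.mul_im (Complex.log (1 - z))]
  ring

theorem bw1_const {f : ℂ → ℝ} (hd : ∀ z : ℂ, 0 < z.im → HasFDerivAt f (0 : ℂ →L[ℝ] ℝ) z) {a : ℂ}
    (ha : a.im = 0) (hc : ContinuousAt f a) (h0 : f a = 0) {z : ℂ} (hz : 0 < z.im) : f z = 0 := by
  have ho : IsOpen {z : ℂ | 0 < z.im} := isOpen_lt continuous_const Complex.continuous_im
  have h1 : ∀ w : ℂ, 0 < w.im → f w = f z := fun w hw =>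
    ho.is_const_of_fderiv_eq_zero (𝕜 := ℝ) (convex_halfSpace_im_gt 0).isPreconnected
      (fun u hu => (hd u hu).differentiableAt.differentiableWithinAt)
      (fun u hu => (hd u hu).fderiv) hw hz
  have h2 : a ∈ closure {z : ℂ | 0 < z.im} := by
    rw [Complex.closure_setOfPred_lt_im]
    exact ha.ge
  have := mem_closure_iff_nhdsWithin_neBot.1 h2
  have h3 : Filter.Tendsto f (nhdsWithin a {z : ℂ | 0 < z.im}) (nhds (f z)) :=
    tendsto_const_nhds.congr' (by
      filter_upwards [self_mem_nhdsWithin] with w hw using (h1 w hw).symm)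
  rw [← h0]
  exact tendsto_nhds_unique h3 hc.continuousWithinAt

theorem bw1_inv {D : ℂ → ℝ} {z : ℂ} (h0 : z ≠ 0) (h1 : z ≠ 1) (h : HasFDerivAt D (bwL z⁻¹) z⁻¹) :
    HasFDerivAt (fun w => D w⁻¹) (-bwL z) z := by
  refine (h.comp z ((hasDerivAt_inv h0).hasFDerivAt.restrictScalars ℝ)).congr_fderiv ?_
  refine ContinuousLinearMap.ext fun v => ?_
  have h2 : z - 1 ≠ 0 := sub_ne_zero.2 h1
  have h3 : 1 - z ≠ 0 := sub_ne_zero.2 h1.symm
  have e0 : ‖1 - z⁻¹‖ = ‖1 - z‖ * ‖z‖⁻¹ := by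
    rw [← norm_inv, ← norm_mul, ← norm_neg]
    congr 1
    field_simp
    ring
  have e1 : (z⁻¹ - 1)⁻¹ * (v * -(z ^ 2)⁻¹) = (z - 1)⁻¹ * v - z⁻¹ * v := by
    have : z⁻¹ - 1 = (1 - z) / z := by field_simp
    rw [this]
    field_simp
    ring
  have e2 : z⁻¹⁻¹ * (v * -(z ^ 2)⁻¹) = -(z⁻¹ * v) := by field_simp
  have e3 : ((bwL z⁻¹).comp (ContinuousLinearMap.restrictScalars ℝ
      (ContinuousLinearMap.toSpanSingleton ℂ (-(z ^ 2)⁻¹)))) v = bwL z⁻¹ (v * -(z ^ 2)⁻¹) := rfl
  rw [e3, neg_apply, bw1_apply, bw1_apply, e1, e2, e0, norm_inv,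
    Real.log_mul (by simpa using h3) (by simpa using h0), Real.log_inv, Complex.sub_im,
    Complex.neg_im]
  ring

theorem bw1_sub {D : ℂ → ℝ} {z : ℂ} (h : HasFDerivAt D (bwL (1 - z)) (1 - z)) :
    HasFDerivAt (fun w => D (1 - w)) (-bwL z) z := by
  refine (h.comp z ((hasFDerivAt_id z).const_sub 1)).congr_fderiv ?_
  refine ContinuousLinearMap.ext fun v => ?_
  have e3 : ((bwL (1 - z)).comp (-ContinuousLinearMap.id ℝ ℂ)) v = bwL (1 - z) (-v) := rfl
  have e1 : (1 - z - 1)⁻¹ * -v = z⁻¹ * v := by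
    rw [show 1 - z - 1 = -z by ring, inv_neg, neg_mul_neg]
  have e2 : (1 - z)⁻¹ * -v = (z - 1)⁻¹ * v := by
    rw [← neg_sub z 1, inv_neg, neg_mul_neg]
  rw [e3, neg_apply, bw1_apply, bw1_apply, e1, e2, sub_sub_cancel]
  ring

theorem bw1_zero :
    ContinuousAt (fun w : ℂ => (Complex.log (1 - w)).im * Real.log ‖w‖) 0 := by
  have h1 : Filter.Tendsto (fun w : ℂ => 3 / 2 * |‖w‖ * Real.log ‖w‖|) (nhds 0) (nhds 0) := by
    have : Continuous fun w : ℂ => 3 / 2 * |‖w‖ * Real.log ‖w‖| :=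
      continuous_const.mul (Real.continuous_mul_log.comp continuous_norm).abs
    simpa using this.tendsto 0
  rw [ContinuousAt, show (Complex.log (1 - 0)).im * Real.log ‖(0 : ℂ)‖ = 0 by simp]
  refine squeeze_zero_norm' ?_ h1
  filter_upwards [Metric.closedBall_mem_nhds (0 : ℂ) (by norm_num : (0 : ℝ) < 1 / 2)] with w hw
  have h2 := Complex.norm_log_one_add_half_le_self (z := -w) (by simpa using hw)
  rw [norm_neg, ← sub_eq_add_neg] at h2
  rw [Real.norm_eq_abs, abs_mul, abs_mul, abs_norm, ← mul_assoc]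
  exact mul_le_mul_of_nonneg_right ((Complex.abs_im_le_norm _).trans h2) (abs_nonneg _)

/-- The Bloch-Wigner function.
Plan: `D z = if z.im = 0 then 0 else -(L z).im + arg (1 - z) * log ‖z‖`. On the cut plane
`1 - z ∈ slitPlane` the `if` can be dropped (for real `z < 1` the formula gives `0` since `L z` is real).
So `D` has the derivative `bwL z` at `z ≠ 0` of the cut plane (`arg (1-z) = (log (1-z)).im`,
`log ‖z‖ = (log z).re` or `(log (-z)).re` locally), and is continuous at `0` (`|arg (1-z)| ≤ c ‖z‖`).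
`conj`: `Complex.arg_conj`. `inv` and `one_sub`: on the upper half plane (convex, open) the functions
`D z + D z⁻¹`, `D z + D (1 - z)` have derivative `0` (chain rule and `bwL` algebra), so are constant; the
constant is `0` by continuity at `z = -1`, resp. `z = 1/2`; lower half plane by `conj`; reals trivial.
Then the derivative at real `z > 1` comes from `D z = -D z⁻¹`, continuity at `1` from `one_sub`. -/
theorem exists_bwcore : ∃ D : ℂ → ℝ, BWcore D := by
  obtain ⟨L, -, hc, hd, hj⟩ := exists_li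
  let E : ℂ → ℝ := fun w => -(L w).im + (Complex.log (1 - w)).im * Real.log ‖w‖
  let D : ℂ → ℝ := fun w => if w.im = 0 then 0 else E w
  have slit : ∀ z : ℂ, z.im ≠ 0 → 1 - z ∈ Complex.slitPlane := fun z hz =>
    Or.inr (by simpa using hz)
  have D0 : ∀ z : ℂ, z.im = 0 → D z = 0 := fun z hz => if_pos hz
  have DE : ∀ z, 1 - z ∈ Complex.slitPlane → D z = E z := fun z hz => by
    by_cases h : z.im = 0
    · have h1 := hj z hz
      rw [Complex.conj_eq_iff_im.2 h] at h1
      have h2 : (L z).im = 0 := Complex.conj_eq_iff_im.1 h1.symm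
      have h3 : (1 - z).im = 0 := by simpa using h
      have h4 : (Complex.log (1 - z)).im = 0 := by
        rw [Complex.log_im, Complex.arg_eq_zero_iff]
        exact ⟨(hz.resolve_right fun c => c h3).le, h3⟩
      simp only [D, E, if_pos h, h2, h4, neg_zero, zero_mul, add_zero]
    · exact if_neg h
  have DE' : ∀ z, 1 - z ∈ Complex.slitPlane → D =ᶠ[nhds z] E := fun z hz => by
    have : IsOpen {w : ℂ | 1 - w ∈ Complex.slitPlane} :=
      Complex.isOpen_slitPlane.preimage (by fun_prop)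
    filter_upwards [this.mem_nhds hz] with w hw using DE w hw
  have dD : ∀ z, 1 - z ∈ Complex.slitPlane → z ≠ 0 → HasFDerivAt D (bwL z) z := fun z h1 h0 =>
    (bw1_deriv h1 h0 (hd z h1 h0)).congr_of_eventuallyEq (DE' z h1)
  have ne0 : ∀ z : ℂ, z.im ≠ 0 → z ≠ 0 := fun z hz e => hz (by rw [e]; rfl)
  have ne1 : ∀ z : ℂ, z.im ≠ 0 → z ≠ 1 := fun z hz e => hz (by rw [e]; rfl)
  have dD' : ∀ z : ℂ, z.im ≠ 0 → HasFDerivAt D (bwL z) z := fun z hz => dD z (slit z hz) (ne0 z hz)
  have cj : ∀ z, D ((starRingEnd ℂ) z) = -D z := fun z => by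
    by_cases h : z.im = 0
    · rw [D0 z h, D0 _ (by simpa using h), neg_zero]
    · have h1 : 1 - (starRingEnd ℂ) z = (starRingEnd ℂ) (1 - z) := by simp
      rw [DE z (slit z h), DE _ (slit _ (by simpa using h))]
      simp only [E]
      rw [hj z (slit z h), h1, Complex.log_conj _ (Complex.slitPlane_arg_ne_pi (slit z h)),
        Complex.conj_im, Complex.conj_im, Complex.norm_conj]
      ring
  have iim : ∀ z : ℂ, z⁻¹.im = 0 ↔ z.im = 0 := fun z => by
    rw [← Complex.conj_eq_iff_im, ← Complex.conj_eq_iff_im, map_inv₀, inv_inj]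
  have inv1 : ∀ z : ℂ, 0 < z.im → D z + D z⁻¹ = 0 := fun z hz => by
    have m1 : HasFDerivAt D (bwL (-1)) (-1) := dD _ (by norm_num) (by norm_num)
    have m2 : ((-1 : ℂ))⁻¹ = -1 := by norm_num
    refine bw1_const (f := fun w => D w + D w⁻¹) (a := -1) (fun w hw => ?_) (by simp)
      (m1.continuousAt.add (bw1_inv (by norm_num) (by norm_num) (m2.symm ▸ m1)).continuousAt)
      (by simp only [m2, D0 (-1) (by simp), add_zero]) hz
    have := (dD' w hw.ne').add (bw1_inv (ne0 w hw.ne') (ne1 w hw.ne')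
      (dD' _ fun c => hw.ne' ((iim w).1 c)))
    rwa [add_neg_cancel] at this
  have sub1 : ∀ z : ℂ, 0 < z.im → D z + D (1 - z) = 0 := fun z hz => by
    have m2 : (1 : ℂ) - 1 / 2 = 1 / 2 := by norm_num
    have m1 : HasFDerivAt D (bwL (1 / 2)) (1 / 2) :=
      dD _ (by rw [m2]; exact Or.inl (by norm_num)) (by norm_num)
    refine bw1_const (f := fun w => D w + D (1 - w)) (a := 1 / 2) (fun w hw => ?_) (by simp)
      (m1.continuousAt.add (bw1_sub (m2.symm ▸ m1)).continuousAt)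
      (by simp only [m2, D0 (1 / 2) (by simp), add_zero]) hz
    have := (dD' w hw.ne').add (bw1_sub (dD' (1 - w) (by simpa using hw.ne')))
    rwa [add_neg_cancel] at this
  have inv2 : ∀ z : ℂ, D z⁻¹ = -D z := fun z => by
    rcases lt_trichotomy 0 z.im with h | h | h
    · linarith [inv1 z h]
    · rw [D0 z h.symm, D0 _ ((iim z).2 h.symm), neg_zero]
    · have := inv1 ((starRingEnd ℂ) z) (by simpa using h)
      rw [← map_inv₀, cj, cj] at this
      linarith
  have sub2 : ∀ z : ℂ, D (1 - z) = -D z := fun z => by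
    rcases lt_trichotomy 0 z.im with h | h | h
    · linarith [sub1 z h]
    · rw [D0 z h.symm, D0 _ (by simpa using h.symm), neg_zero]
    · have := sub1 ((starRingEnd ℂ) z) (by simpa using h)
      rw [show 1 - (starRingEnd ℂ) z = (starRingEnd ℂ) (1 - z) by simp, cj, cj] at this
      linarith
  have eD : D = fun w => -D (1 - w) := funext fun w => by rw [sub2, neg_neg]
  have dA : ∀ z, z ≠ 0 → z ≠ 1 → HasFDerivAt D (bwL z) z := fun z h0 h1 => by
    by_cases h : 1 - z ∈ Complex.slitPlane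
    · exact dD z h h0
    · have h2 : 1 - (1 - z) ∈ Complex.slitPlane := by
        rw [Complex.mem_slitPlane_iff, not_or, not_lt] at h
        have := h.1
        rw [Complex.sub_re, Complex.one_re] at this
        rw [sub_sub_cancel]
        exact Or.inl (by linarith)
      have := (bw1_sub (dD _ h2 (sub_ne_zero.2 h1.symm))).neg
      rw [neg_neg] at this
      rw [eD]
      exact this
  have c0 : ContinuousAt D 0 :=
    ((Complex.continuous_im.continuousAt.comp hc).neg.add bw1_zero).congr (DE' 0 (by simp)).symm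
  refine ⟨D, continuous_iff_continuousAt.2 fun z => ?_, fun x => D0 _ (by simp), cj, inv2, sub2, dA⟩
  by_cases h0 : z = 0
  · exact h0 ▸ c0
  by_cases h1 : z = 1
  · rw [eD, h1]
    exact (ContinuousAt.comp (g := D) (f := fun w : ℂ => 1 - w) (x := 1) (by simpa using c0)
      (by fun_prop)).neg
  · exact (dA z h0 h1).continuousAt

end Pool.Agent.SR
end PartBW1

section PartBW2
namespace Pool.Agent.SR

theorem bw2_chain {D : ℂ → ℝ} (h : BWcore D) {g : ℂ → ℂ} {g' x s t : ℂ} {A B : ℝ}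
    (hg : HasDerivAt g g' x) (z0 : g x ≠ 0) (z1 : g x ≠ 1) (hs : (g x - 1)⁻¹ * g' = s)
    (ht : (g x)⁻¹ * g' = t) (hA : Real.log ‖g x‖ = A) (hB : Real.log ‖1 - g x‖ = B) :
    HasFDerivAt (fun y => D (g y))
      (A • Complex.imCLM.comp (ContinuousLinearMap.mul ℝ ℂ s) -
        B • Complex.imCLM.comp (ContinuousLinearMap.mul ℝ ℂ t)) x := by
  refine ((h.deriv _ z0 z1).comp x (hg.hasFDerivAt.restrictScalars ℝ)).congr_fderiv ?_
  refine ContinuousLinearMap.ext fun v => ?_
  subst hs ht hA hB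
  simp only [bwL, ContinuousLinearMap.comp_apply, sub_apply,
    smul_apply, ContinuousLinearMap.mul_apply',
    ContinuousLinearMap.coe_restrictScalars', ContinuousLinearMap.toSpanSingleton_apply,
    smul_eq_mul, mul_comm v, mul_assoc]

theorem bw2_deriv {D : ℂ → ℝ} (h : BWcore D) {x w : ℂ} (hx0 : x ≠ 0) (hx1 : x ≠ 1)
    (hw0 : w ≠ 0) (hw1 : w ≠ 1) (hxw : x ≠ w) :
    HasFDerivAt (fun x => D (x * (1 - w) / (w * (1 - x))) - D ((1 - w) / (1 - x)) + D (w / x) -
      D w + D x) (0 : ℂ →L[ℝ] ℝ) x := by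
  have a1 : 1 - x ≠ 0 := sub_ne_zero.2 hx1.symm
  have a1' : x - 1 ≠ 0 := sub_ne_zero.2 hx1
  have b1 : 1 - w ≠ 0 := sub_ne_zero.2 hw1.symm
  have c1 : x - w ≠ 0 := sub_ne_zero.2 hxw
  have n : ∀ {z : ℂ}, z ≠ 0 → ‖z‖ ≠ 0 := norm_ne_zero_iff.2
  have d1 : HasDerivAt (fun x : ℂ => 1 - x) (-1) x := (hasDerivAt_id' x).const_sub 1
  have e1 : 1 - x * (1 - w) / (w * (1 - x)) = -((x - w) / (w * (1 - x))) := by
    field_simp
    ring
  have e2 : 1 - (1 - w) / (1 - x) = -((x - w) / (1 - x)) := by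
    field_simp
    ring
  have e3 : 1 - w / x = (x - w) / x := by field_simp
  have t1 := bw2_chain h (s := (x - w)⁻¹ + (1 - x)⁻¹) (t := x⁻¹ + (1 - x)⁻¹)
    (A := Real.log ‖x‖ + Real.log ‖1 - w‖ - (Real.log ‖w‖ + Real.log ‖1 - x‖))
    (B := Real.log ‖x - w‖ - (Real.log ‖w‖ + Real.log ‖1 - x‖))
    (((hasDerivAt_id' x).mul_const (1 - w)).fun_div (d1.const_mul w) (mul_ne_zero hw0 a1))
    (div_ne_zero (mul_ne_zero hx0 b1) (mul_ne_zero hw0 a1))
    (fun e => by
      rw [e, sub_self, zero_eq_neg] at e1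
      exact div_ne_zero c1 (mul_ne_zero hw0 a1) e1)
    (by rw [← neg_sub 1, e1, neg_neg]; field_simp; ring) (by field_simp; ring)
    (by rw [norm_div, norm_mul, norm_mul, Real.log_div (mul_ne_zero (n hx0) (n b1))
          (mul_ne_zero (n hw0) (n a1)), Real.log_mul (n hx0) (n b1), Real.log_mul (n hw0) (n a1)])
    (by rw [e1, norm_neg, norm_div, norm_mul, Real.log_div (n c1) (mul_ne_zero (n hw0) (n a1)),
          Real.log_mul (n hw0) (n a1)])
  have t2 := bw2_chain h (s := (x - w)⁻¹ + (1 - x)⁻¹) (t := (1 - x)⁻¹)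
    (A := Real.log ‖1 - w‖ - Real.log ‖1 - x‖) (B := Real.log ‖x - w‖ - Real.log ‖1 - x‖)
    ((hasDerivAt_const x (1 - w)).fun_div d1 a1) (div_ne_zero b1 a1)
    (fun e => by
      rw [e, sub_self, zero_eq_neg] at e2
      exact div_ne_zero c1 a1 e2)
    (by rw [← neg_sub 1, e2, neg_neg]; field_simp; ring) (by field_simp; ring)
    (by rw [norm_div, Real.log_div (n b1) (n a1)])
    (by rw [e2, norm_neg, norm_div, Real.log_div (n c1) (n a1)])
  have t3 := bw2_chain h (s := (x - w)⁻¹ - x⁻¹) (t := -x⁻¹)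
    (A := Real.log ‖w‖ - Real.log ‖x‖) (B := Real.log ‖x - w‖ - Real.log ‖x‖)
    ((hasDerivAt_const x w).fun_div (hasDerivAt_id' x) hx0) (div_ne_zero hw0 hx0)
    (fun e => by
      rw [e, sub_self] at e3
      exact div_ne_zero c1 hx0 e3.symm)
    (by rw [← neg_sub 1, e3, inv_neg]; field_simp; ring) (by field_simp; ring)
    (by rw [norm_div, Real.log_div (n hw0) (n hx0)])
    (by rw [e3, norm_div, Real.log_div (n c1) (n hx0)])
  have t5 := bw2_chain h (s := -(1 - x)⁻¹) (t := x⁻¹) (hasDerivAt_id' x) hx0 hx1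
    (by rw [← neg_sub 1, inv_neg, mul_one]) (mul_one _) rfl rfl
  refine ((((t1.sub t2).add t3).sub_const (D w)).add t5).congr_fderiv ?_
  refine ContinuousLinearMap.ext fun v => ?_
  simp only [ContinuousLinearMap.comp_apply, sub_apply,
    add_apply, smul_apply, ContinuousLinearMap.mul_apply',
    smul_eq_mul, add_mul, sub_mul, neg_apply, map_add, map_sub, map_neg,
    zero_apply]
  ring

open Filter Topology in
/-- Five term relation. Plan: fix `w`; the left side as a function of `x` has real Frechet derivative `0` on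
the open connected set `U = {0, 1, w}ᶜ` (`Set.Countable.isConnected_compl_of_one_lt_rank` or the finite version;
`IsOpen.is_const_of_fderiv_eq_zero` / `IsOpen.eqOn_of_fderiv_eq`). For the derivative use the chain rule; the five arguments
`z` and the `1 - z` are products of powers of `x, 1 - x, x - w, w, 1 - w`:
`1 - w/x = (x-w)/x`, `1 - (1-w)/(1-x) = (w-x)/(1-x)`, `1 - x(1-w)/(w(1-x)) = (w-x)/(w(1-x))`;
expand `log ‖·‖` with `Real.log_mul/div` and the logarithmic derivatives, everything cancels.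
The function is continuous at `x = w` with value `D 1 - D 1 + D 1 - D w + D w = 0`, and `w` is in the closure of `U`. -/
theorem BWcore.five_xy {D : ℂ → ℝ} (h : BWcore D) (x w : ℂ) (hx0 : x ≠ 0) (hx1 : x ≠ 1)
    (hw0 : w ≠ 0) (hw1 : w ≠ 1) (hxw : x ≠ w) :
    D (x * (1 - w) / (w * (1 - x))) - D ((1 - w) / (1 - x)) + D (w / x) - D w + D x = 0 := by
  set Φ : ℂ → ℝ := fun x => D (x * (1 - w) / (w * (1 - x))) - D ((1 - w) / (1 - x)) + D (w / x) -
    D w + D x with hΦ
  have fin : ({0, 1, w} : Set ℂ).Finite := Set.toFinite _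
  have mem : ∀ y, y ∈ ({0, 1, w} : Set ℂ)ᶜ ↔ y ≠ 0 ∧ y ≠ 1 ∧ y ≠ w := fun y => by simp [not_or]
  have der : ∀ y ∈ ({0, 1, w} : Set ℂ)ᶜ, HasFDerivAt Φ (0 : ℂ →L[ℝ] ℝ) y := fun y hy =>
    bw2_deriv h ((mem y).1 hy).1 ((mem y).1 hy).2.1 hw0 hw1 ((mem y).1 hy).2.2
  have cst : ∀ y ∈ ({0, 1, w} : Set ℂ)ᶜ, Φ y = Φ x := fun y hy =>
    fin.isClosed.isOpen_compl.is_const_of_fderiv_eq_zero (𝕜 := ℝ)
      (fin.countable.isConnected_compl_of_one_lt_rank
        (by rw [Complex.rank_real_complex]; norm_num)).isPreconnected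
      (fun z hz => (der z hz).differentiableAt.differentiableWithinAt)
      (fun z hz => (der z hz).fderiv) hy ((mem x).2 ⟨hx0, hx1, hxw⟩)
  have b1 : 1 - w ≠ 0 := sub_ne_zero.2 hw1.symm
  have hc := h.cont
  have cw : ContinuousAt Φ w := by
    have c1 : ContinuousAt (fun x : ℂ => x * (1 - w) / (w * (1 - x))) w :=
      ContinuousAt.div (by fun_prop) (by fun_prop) (mul_ne_zero hw0 b1)
    have c2 : ContinuousAt (fun x : ℂ => (1 - w) / (1 - x)) w :=
      ContinuousAt.div (by fun_prop) (by fun_prop) b1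
    have c3 : ContinuousAt (fun x : ℂ => w / x) w :=
      ContinuousAt.div (by fun_prop) (by fun_prop) hw0
    exact ((((hc.continuousAt.comp c1).sub (hc.continuousAt.comp c2)).add
      (hc.continuousAt.comp c3)).sub continuousAt_const).add hc.continuousAt
  have v : Φ w = 0 := by
    have h1 : D 1 = 0 := by simpa using h.real 1
    simp only [hΦ, div_self (mul_ne_zero hw0 b1), div_self b1, div_self hw0, h1]
    ring
  have ev : ∀ᶠ y in 𝓝[≠] w, Φ y = Φ x := by
    filter_upwards [self_mem_nhdsWithin, mem_nhdsWithin_of_mem_nhds (isOpen_ne.mem_nhds hw0),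
      mem_nhdsWithin_of_mem_nhds (isOpen_ne.mem_nhds hw1)] with y h1 h2 h3
    exact cst y ((mem y).2 ⟨h2, h3, h1⟩)
  have := tendsto_nhds_unique (tendsto_const_nhds.congr' (ev.mono fun _ e => e.symm))
    (cw.tendsto.mono_left nhdsWithin_le_nhds)
  exact this.trans v

/-- Continuous on the closed unit disc, and `D z⁻¹ = -D z`. -/
theorem BWcore.bdd {D : ℂ → ℝ} (h : BWcore D) : ∃ M, ∀ z, |D z| ≤ M := by
  obtain ⟨M, hM⟩ := (isCompact_closedBall (0 : ℂ) 1).exists_bound_of_continuousOn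
    h.cont.continuousOn
  refine ⟨M, fun z => ?_⟩
  rcases le_total ‖z‖ 1 with hz | hz
  · exact hM z (mem_closedBall_zero_iff.2 hz)
  · have := hM z⁻¹ (mem_closedBall_zero_iff.2 (by rw [norm_inv]; exact inv_le_one_of_one_le₀ hz))
    rwa [h.inv, norm_neg] at this

/-- If `D = 0` then `bwL (-1) = 0`, but `bwL (-1) I = log 2`. -/
theorem BWcore.ne {D : ℂ → ℝ} (h : BWcore D) : ∃ z, D z ≠ 0 := by
  by_contra hc
  push Not at hc
  obtain rfl : D = fun _ => 0 := funext hc
  have e := (h.deriv (-1) (by norm_num) (by norm_num)).unique (hasFDerivAt_const 0 _)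
  have e2 := congrArg (fun L : ℂ →L[ℝ] ℝ => L Complex.I) e
  have l : Real.log ‖(1 : ℂ) - -1‖ ≠ 0 := by
    rw [show (1 : ℂ) - -1 = 2 by norm_num, Complex.norm_two]
    exact (Real.log_pos one_lt_two).ne'
  apply l
  simpa [bwL] using e2

end Pool.Agent.SR
end PartBW2

section PartBW3
namespace Pool.Agent.SR

section
variable {F : Type} [Field F]

theorem bw3_pl (a b c d : Fin 2 → F) :
    det2 a b * det2 c d = det2 a c * det2 b d - det2 a d * det2 b c := by
  simp only [det2]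
  ring

theorem bw3_sub (a b c d : Fin 2 → F) (h : det2 a d * det2 b c ≠ 0) :
    1 - det2 a c * det2 b d / (det2 a d * det2 b c) =
      -(det2 a b * det2 c d) / (det2 a d * det2 b c) := by
  rw [bw3_pl a b c d, one_sub_div h, neg_sub]

theorem bw3_par {a b : Fin 2 → F} (ha : a ≠ 0) (hb : b ≠ 0) (h : det2 a b = 0) :
    ∃ t : F, t ≠ 0 ∧ ∀ c, det2 b c = t * det2 a c := by
  obtain ⟨t, ht⟩ : ∃ t : F, b 0 = t * a 0 ∧ b 1 = t * a 1 := by
    rw [det2] at h
    by_cases h0 : a 0 = 0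
    · have h1 : a 1 ≠ 0 := fun h1 => ha (funext (Fin.forall_fin_two.2 ⟨h0, h1⟩))
      refine ⟨b 1 / a 1, ?_, by field_simp⟩
      field_simp
      linear_combination -h
    · refine ⟨b 0 / a 0, by field_simp, ?_⟩
      field_simp
      linear_combination h
  refine ⟨t, fun e => hb (funext (Fin.forall_fin_two.2 ⟨by simp [ht.1, e], by simp [ht.2, e]⟩)),
    fun c => ?_⟩
  rw [det2, det2, ht.1, ht.2]
  ring

/-- The value of `D` at the cross ratio. -/
def bw3b (D : F → ℝ) (a b c d : Fin 2 → F) : ℝ :=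
  D (det2 a c * det2 b d / (det2 a d * det2 b c))

/-- The five term relation for five given vectors. -/
def bw3Z (D : F → ℝ) (a b c d e : Fin 2 → F) : Prop :=
  bw3b D b c d e - bw3b D a c d e + bw3b D a b d e - bw3b D a b c e + bw3b D a b c d = 0

end

/-- From the two-variable form to non-zero vectors. Plan: put `d i j = det2 (y i) (y j)` (Pluecker relations by `ring`).
If all `d i j ≠ 0` (`i < j`): with `x = crv (y0,y1,y2,y3)`, `w = crv (y0,y1,y2,y4)` one has
`crv (y0,y1,y3,y4) = w / x`, `crv (y0,y2,y3,y4) = (1-w)/(1-x)`, `crv (y1,y2,y3,y4) = x(1-w)/(w(1-x))`,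
`1 - x = d01 d23 / (d03 d12) * (-1)^?` etc. Otherwise `y i = c • y j` for some `i < j`, `c ≠ 0`: show that
`β (a,b,c,d) = D (crv ![a,b,c,d])` is invariant under scaling one vector, changes sign under the adjacent swaps
(swap of the first two or last two: `z ↦ z⁻¹`; swap of the middle two: `z ↦ z/(z-1) = (1 - z⁻¹)⁻¹`; treat vanishing
determinants separately: both sides are `D 0` or `D 1`), and vanishes when two vectors are parallel; then three terms vanish
and two cancel. -/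
theorem fiveTerm_of_xy {F : Type} [Field F] (D : F → ℝ) (h0 : D 0 = 0) (h1 : D 1 = 0)
    (hinv : ∀ z, D z⁻¹ = -D z) (hsub : ∀ z, D (1 - z) = -D z)
    (hxy : ∀ x w : F, x ≠ 0 → x ≠ 1 → w ≠ 0 → w ≠ 1 → x ≠ w →
      D (x * (1 - w) / (w * (1 - x))) - D ((1 - w) / (1 - x)) + D (w / x) - D w + D x = 0) :
    FiveTerm D := by
  have s1 : ∀ a b c d, bw3b D b a c d = -bw3b D a b c d := fun a b c d => by
    rw [bw3b, bw3b, ← hinv, inv_div, mul_comm (det2 b c), mul_comm (det2 b d)]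
  have s3 : ∀ a b c d, bw3b D a b d c = -bw3b D a b c d := fun a b c d => by
    rw [bw3b, bw3b, ← hinv, inv_div]
  have s2 : ∀ a b c d, bw3b D a c b d = -bw3b D a b c d := fun a b c d => by
    have e : det2 c b = -det2 b c := by simp only [det2]; ring
    rw [bw3b, bw3b, e, mul_neg, div_neg, ← neg_div]
    by_cases h : det2 a d * det2 b c = 0
    · rw [h, div_zero, div_zero, h0, neg_zero]
    · rw [← bw3_sub a b c d h, hsub]
  have v : ∀ a b c d, det2 a b = 0 → bw3b D a b c d = 0 := fun a b c d h => by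
    have e := bw3_pl a b c d
    rw [h, zero_mul, eq_comm, sub_eq_zero] at e
    rw [bw3b, e]
    by_cases h : det2 a d * det2 b c = 0
    · rw [h, div_zero, h0]
    · rw [div_self h, h1]
  have t1 : ∀ {a b c d e}, bw3Z D b a c d e → bw3Z D a b c d e := fun {a b c d e} h => by
    rw [bw3Z] at h ⊢
    linarith [s1 a b d e, s1 a b c e, s1 a b c d]
  have t2 : ∀ {a b c d e}, bw3Z D a c b d e → bw3Z D a b c d e := fun {a b c d e} h => by
    rw [bw3Z] at h ⊢
    linarith [s1 b c d e, s2 a b c e, s2 a b c d]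
  have t3 : ∀ {a b c d e}, bw3Z D a b d c e → bw3Z D a b c d e := fun {a b c d e} h => by
    rw [bw3Z] at h ⊢
    linarith [s2 b c d e, s2 a c d e, s3 a b c d]
  have t4 : ∀ {a b c d e}, bw3Z D a b c e d → bw3Z D a b c d e := fun {a b c d e} h => by
    rw [bw3Z] at h ⊢
    linarith [s3 b c d e, s3 a c d e, s3 a b d e]
  have z : ∀ {a b}, a ≠ 0 → b ≠ 0 → det2 a b = 0 → ∀ c d e, bw3Z D a b c d e :=
    fun {a b} ha hb h c d e => by
      obtain ⟨t, h1, h2⟩ := bw3_par ha hb h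
      rw [bw3Z, v a b d e h, v a b c e h, v a b c d h, bw3b, bw3b, h2, h2, mul_assoc, mul_assoc,
        mul_div_mul_left _ _ h1]
      ring
  have key : ∀ a b c d e, a ≠ 0 → b ≠ 0 → c ≠ 0 → d ≠ 0 → e ≠ 0 → bw3Z D a b c d e := by
    intro a b c d e ha hb hc hd he
    by_cases ab : det2 a b = 0
    · exact z ha hb ab _ _ _
    by_cases ac : det2 a c = 0
    · exact t2 (z ha hc ac _ _ _)
    by_cases ad : det2 a d = 0
    · exact t3 (t2 (z ha hd ad _ _ _))
    by_cases ae : det2 a e = 0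
    · exact t4 (t3 (t2 (z ha he ae _ _ _)))
    by_cases bc : det2 b c = 0
    · exact t1 (t2 (z hb hc bc _ _ _))
    by_cases bd : det2 b d = 0
    · exact t1 (t3 (t2 (z hb hd bd _ _ _)))
    by_cases be : det2 b e = 0
    · exact t1 (t4 (t3 (t2 (z hb he be _ _ _))))
    by_cases cd : det2 c d = 0
    · exact t2 (t1 (t3 (t2 (z hc hd cd _ _ _))))
    by_cases ce : det2 c e = 0
    · exact t2 (t1 (t4 (t3 (t2 (z hc he ce _ _ _)))))
    by_cases de : det2 d e = 0
    · exact t3 (t2 (t1 (t4 (t3 (t2 (z hd he de _ _ _))))))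
    have e1 := bw3_sub a b c d (mul_ne_zero ad bc)
    have e2 := bw3_sub a b c e (mul_ne_zero ae bc)
    have := hxy (det2 a c * det2 b d / (det2 a d * det2 b c))
      (det2 a c * det2 b e / (det2 a e * det2 b c))
      (div_ne_zero (mul_ne_zero ac bd) (mul_ne_zero ad bc))
      (fun h => div_ne_zero (neg_ne_zero.2 (mul_ne_zero ab cd)) (mul_ne_zero ad bc)
        (by rw [← e1, h, sub_self]))
      (div_ne_zero (mul_ne_zero ac be) (mul_ne_zero ae bc))
      (fun h => div_ne_zero (neg_ne_zero.2 (mul_ne_zero ab ce)) (mul_ne_zero ae bc)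
        (by rw [← e2, h, sub_self]))
      fun h => mul_ne_zero ab de (by
        rw [bw3_pl]
        field_simp at h
        linear_combination -h)
    rw [e1, e2] at this
    rw [bw3Z, ← this]
    refine congrArg₂ _ (congrArg₂ _ (congrArg₂ _ (congrArg₂ _ (congrArg D ?_) (congrArg D ?_))
      (congrArg D ?_)) rfl) rfl <;> field_simp
  refine ⟨h0, h1, fun y hy => ?_⟩
  have := key _ _ _ _ _ (hy 0) (hy 1) (hy 2) (hy 3) (hy 4)
  rw [bw3Z] at this
  rw [cob, Fin.sum_univ_five, ← this]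
  change (-1 : ℝ) ^ 0 * bw3b D (y 1) (y 2) (y 3) (y 4) +
    (-1 : ℝ) ^ 1 * bw3b D (y 0) (y 2) (y 3) (y 4) +
    (-1 : ℝ) ^ 2 * bw3b D (y 0) (y 1) (y 3) (y 4) + (-1 : ℝ) ^ 3 * bw3b D (y 0) (y 1) (y 2) (y 4) +
    (-1 : ℝ) ^ 4 * bw3b D (y 0) (y 1) (y 2) (y 3) = _
  ring

/-- Transport along a field embedding. -/
theorem FiveTerm.comp {F K : Type} [Field F] [Field K] {D : K → ℝ} (h : FiveTerm D)
    (φ : F →+* K) : FiveTerm fun x => D (φ x) := by
  refine ⟨by rw [map_zero, h.zero], by rw [map_one, h.one], fun y hy => ?_⟩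
  have e : ∀ w : Fin 4 → Fin 2 → F, φ (crv w) = crv fun i j => φ (w i j) := fun w => by
    simp only [crv, det2, map_div₀, map_mul, map_sub]
  simp only [cob, e]
  exact h.five (fun i j => φ (y i j)) fun i hi =>
    hy i (funext fun j => (map_eq_zero φ).1 (congrFun hi j))

theorem map_crv {F K : Type} [Field F] [Field K] (φ : F →+* K) (y : Fin 4 → Fin 2 → F) :
    φ (crv y) = crv fun i j => φ (y i j) := by
  simp only [crv, det2, map_div₀, map_mul, map_sub]

end Pool.Agent.SR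
end PartBW3

section PartCoch
namespace Pool.Agent.SR

theorem coch_cob5 {Y : Type*} (c : (Fin 4 → Y) → ℝ) (y0 y1 y2 y3 y4 : Y) :
    cob c ![y0, y1, y2, y3, y4] =
      c ![y1, y2, y3, y4]
      - c ![y0, y2, y3, y4]
      + c ![y0, y1, y3, y4]
      - c ![y0, y1, y2, y4]
      + c ![y0, y1, y2, y3] := by
  have e0 : (fun j => ![y0, y1, y2, y3, y4] ((0 : Fin 5).succAbove j)) =
      ![y1, y2, y3, y4] := by
    funext j; fin_cases j <;> rfl
  have e1 : (fun j => ![y0, y1, y2, y3, y4] ((1 : Fin 5).succAbove j)) =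
      ![y0, y2, y3, y4] := by
    funext j; fin_cases j <;> rfl
  have e2 : (fun j => ![y0, y1, y2, y3, y4] ((2 : Fin 5).succAbove j)) =
      ![y0, y1, y3, y4] := by
    funext j; fin_cases j <;> rfl
  have e3 : (fun j => ![y0, y1, y2, y3, y4] ((3 : Fin 5).succAbove j)) =
      ![y0, y1, y2, y4] := by
    funext j; fin_cases j <;> rfl
  have e4 : (fun j => ![y0, y1, y2, y3, y4] ((4 : Fin 5).succAbove j)) =
      ![y0, y1, y2, y3] := by
    funext j; fin_cases j <;> rfl
  rw [cob, Fin.sum_univ_five, e0, e1, e2, e3, e4]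
  norm_num
  ring

theorem coch_cob7 {Y : Type*} (c : (Fin 6 → Y) → ℝ) (y0 y1 y2 y3 y4 y5 y6 : Y) :
    cob c ![y0, y1, y2, y3, y4, y5, y6] =
      c ![y1, y2, y3, y4, y5, y6]
      - c ![y0, y2, y3, y4, y5, y6]
      + c ![y0, y1, y3, y4, y5, y6]
      - c ![y0, y1, y2, y4, y5, y6]
      + c ![y0, y1, y2, y3, y5, y6]
      - c ![y0, y1, y2, y3, y4, y6]
      + c ![y0, y1, y2, y3, y4, y5] := by
  have e0 : (fun j => ![y0, y1, y2, y3, y4, y5, y6] ((0 : Fin 7).succAbove j)) =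
      ![y1, y2, y3, y4, y5, y6] := by
    funext j; fin_cases j <;> rfl
  have e1 : (fun j => ![y0, y1, y2, y3, y4, y5, y6] ((1 : Fin 7).succAbove j)) =
      ![y0, y2, y3, y4, y5, y6] := by
    funext j; fin_cases j <;> rfl
  have e2 : (fun j => ![y0, y1, y2, y3, y4, y5, y6] ((2 : Fin 7).succAbove j)) =
      ![y0, y1, y3, y4, y5, y6] := by
    funext j; fin_cases j <;> rfl
  have e3 : (fun j => ![y0, y1, y2, y3, y4, y5, y6] ((3 : Fin 7).succAbove j)) =
      ![y0, y1, y2, y4, y5, y6] := by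
    funext j; fin_cases j <;> rfl
  have e4 : (fun j => ![y0, y1, y2, y3, y4, y5, y6] ((4 : Fin 7).succAbove j)) =
      ![y0, y1, y2, y3, y5, y6] := by
    funext j; fin_cases j <;> rfl
  have e5 : (fun j => ![y0, y1, y2, y3, y4, y5, y6] ((5 : Fin 7).succAbove j)) =
      ![y0, y1, y2, y3, y4, y6] := by
    funext j; fin_cases j <;> rfl
  have e6 : (fun j => ![y0, y1, y2, y3, y4, y5, y6] ((6 : Fin 7).succAbove j)) =
      ![y0, y1, y2, y3, y4, y5] := by
    funext j; fin_cases j <;> rfl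
  rw [cob, Fin.sum_univ_seven, e0, e1, e2, e3, e4, e5, e6]
  norm_num
  ring

theorem coch_cob8 {Y : Type*} (c : (Fin 7 → Y) → ℝ) (y0 y1 y2 y3 y4 y5 y6 y7 : Y) :
    cob c ![y0, y1, y2, y3, y4, y5, y6, y7] =
      c ![y1, y2, y3, y4, y5, y6, y7]
      - c ![y0, y2, y3, y4, y5, y6, y7]
      + c ![y0, y1, y3, y4, y5, y6, y7]
      - c ![y0, y1, y2, y4, y5, y6, y7]
      + c ![y0, y1, y2, y3, y5, y6, y7]
      - c ![y0, y1, y2, y3, y4, y6, y7]
      + c ![y0, y1, y2, y3, y4, y5, y7]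
      - c ![y0, y1, y2, y3, y4, y5, y6] := by
  have e0 : (fun j => ![y0, y1, y2, y3, y4, y5, y6, y7] ((0 : Fin 8).succAbove j)) =
      ![y1, y2, y3, y4, y5, y6, y7] := by
    funext j; fin_cases j <;> rfl
  have e1 : (fun j => ![y0, y1, y2, y3, y4, y5, y6, y7] ((1 : Fin 8).succAbove j)) =
      ![y0, y2, y3, y4, y5, y6, y7] := by
    funext j; fin_cases j <;> rfl
  have e2 : (fun j => ![y0, y1, y2, y3, y4, y5, y6, y7] ((2 : Fin 8).succAbove j)) =
      ![y0, y1, y3, y4, y5, y6, y7] := by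
    funext j; fin_cases j <;> rfl
  have e3 : (fun j => ![y0, y1, y2, y3, y4, y5, y6, y7] ((3 : Fin 8).succAbove j)) =
      ![y0, y1, y2, y4, y5, y6, y7] := by
    funext j; fin_cases j <;> rfl
  have e4 : (fun j => ![y0, y1, y2, y3, y4, y5, y6, y7] ((4 : Fin 8).succAbove j)) =
      ![y0, y1, y2, y3, y5, y6, y7] := by
    funext j; fin_cases j <;> rfl
  have e5 : (fun j => ![y0, y1, y2, y3, y4, y5, y6, y7] ((5 : Fin 8).succAbove j)) =
      ![y0, y1, y2, y3, y4, y6, y7] := by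
    funext j; fin_cases j <;> rfl
  have e6 : (fun j => ![y0, y1, y2, y3, y4, y5, y6, y7] ((6 : Fin 8).succAbove j)) =
      ![y0, y1, y2, y3, y4, y5, y7] := by
    funext j; fin_cases j <;> rfl
  have e7 : (fun j => ![y0, y1, y2, y3, y4, y5, y6, y7] ((7 : Fin 8).succAbove j)) =
      ![y0, y1, y2, y3, y4, y5, y6] := by
    funext j; fin_cases j <;> rfl
  rw [cob, Fin.sum_univ_eight, e0, e1, e2, e3, e4, e5, e6, e7]
  norm_num
  ring

theorem coch_prism {X Y : Type*} (c : (Fin 7 → Y) → ℝ) (u u' : X → Y) (y0 y1 y2 y3 y4 y5 : X) :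
    prism c u u' ![y0, y1, y2, y3, y4, y5] =
      c ![u y0, u' y0, u' y1, u' y2, u' y3, u' y4, u' y5]
      - c ![u y0, u y1, u' y1, u' y2, u' y3, u' y4, u' y5]
      + c ![u y0, u y1, u y2, u' y2, u' y3, u' y4, u' y5]
      - c ![u y0, u y1, u y2, u y3, u' y3, u' y4, u' y5]
      + c ![u y0, u y1, u y2, u y3, u y4, u' y4, u' y5]
      - c ![u y0, u y1, u y2, u y3, u y4, u y5, u' y5] := by
  have e0 : (fun i : Fin 7 => if i ≤ (0 : Fin 6).castSucc
      then u (![y0, y1, y2, y3, y4, y5] ((0 : Fin 6).predAbove i))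
      else u' (![y0, y1, y2, y3, y4, y5] ((0 : Fin 6).predAbove i))) =
      ![u y0, u' y0, u' y1, u' y2, u' y3, u' y4, u' y5] := by
    funext i; fin_cases i <;> rfl
  have e1 : (fun i : Fin 7 => if i ≤ (1 : Fin 6).castSucc
      then u (![y0, y1, y2, y3, y4, y5] ((1 : Fin 6).predAbove i))
      else u' (![y0, y1, y2, y3, y4, y5] ((1 : Fin 6).predAbove i))) =
      ![u y0, u y1, u' y1, u' y2, u' y3, u' y4, u' y5] := by
    funext i; fin_cases i <;> rfl
  have e2 : (fun i : Fin 7 => if i ≤ (2 : Fin 6).castSucc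
      then u (![y0, y1, y2, y3, y4, y5] ((2 : Fin 6).predAbove i))
      else u' (![y0, y1, y2, y3, y4, y5] ((2 : Fin 6).predAbove i))) =
      ![u y0, u y1, u y2, u' y2, u' y3, u' y4, u' y5] := by
    funext i; fin_cases i <;> rfl
  have e3 : (fun i : Fin 7 => if i ≤ (3 : Fin 6).castSucc
      then u (![y0, y1, y2, y3, y4, y5] ((3 : Fin 6).predAbove i))
      else u' (![y0, y1, y2, y3, y4, y5] ((3 : Fin 6).predAbove i))) =
      ![u y0, u y1, u y2, u y3, u' y3, u' y4, u' y5] := by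
    funext i; fin_cases i <;> rfl
  have e4 : (fun i : Fin 7 => if i ≤ (4 : Fin 6).castSucc
      then u (![y0, y1, y2, y3, y4, y5] ((4 : Fin 6).predAbove i))
      else u' (![y0, y1, y2, y3, y4, y5] ((4 : Fin 6).predAbove i))) =
      ![u y0, u y1, u y2, u y3, u y4, u' y4, u' y5] := by
    funext i; fin_cases i <;> rfl
  have e5 : (fun i : Fin 7 => if i ≤ (5 : Fin 6).castSucc
      then u (![y0, y1, y2, y3, y4, y5] ((5 : Fin 6).predAbove i))
      else u' (![y0, y1, y2, y3, y4, y5] ((5 : Fin 6).predAbove i))) =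
      ![u y0, u y1, u y2, u y3, u y4, u y5, u' y5] := by
    funext i; fin_cases i <;> rfl
  rw [prism, Fin.sum_univ_six, e0, e1, e2, e3, e4, e5]
  norm_num
  ring

theorem coch_cup {Y : Type*} (a b : (Fin 4 → Y) → ℝ) (y0 y1 y2 y3 y4 y5 y6 : Y) :
    cup a b ![y0, y1, y2, y3, y4, y5, y6] = a ![y0, y1, y2, y3] * b ![y3, y4, y5, y6] := by
  have e0 : (fun i => ![y0, y1, y2, y3, y4, y5, y6] (lo4 i)) = ![y0, y1, y2, y3] := by
    funext i; fin_cases i <;> rfl
  have e1 : (fun i => ![y0, y1, y2, y3, y4, y5, y6] (hi4 i)) = ![y3, y4, y5, y6] := by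
    funext i; fin_cases i <;> rfl
  rw [cup, e0, e1]

/-- Leibniz rule: `δ(a ∪ b)(y0..y7) = δa(y0..y4) b(y4..y7) - a(y0..y3) δb(y3..y7)`.
Plan: write `x` through its eight values, `Fin.sum_univ_succ`, identify each `fun j => x (succAbove ..)` with a
vector literal (`funext j; fin_cases j <;> rfl`), then `linear_combination`. -/
theorem cob_cup {Y : Type*} (a b : (Fin 4 → Y) → ℝ) (x : Fin 8 → Y)
    (ha : cob a ![x 0, x 1, x 2, x 3, x 4] = 0) (hb : cob b ![x 3, x 4, x 5, x 6, x 7] = 0) :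
    cob (cup a b) x = 0 := by
  have e : x = ![x 0, x 1, x 2, x 3, x 4, x 5, x 6, x 7] := by
    funext j; fin_cases j <;> rfl
  rw [coch_cob5] at ha hb
  rw [e, coch_cob8]
  simp only [coch_cup]
  linear_combination b ![x 4, x 5, x 6, x 7] * ha - a ![x 0, x 1, x 2, x 3] * hb

/-- Prism identity (`∂ H + H ∂ = u' - u`, evaluated on a cocycle). Plan: brute force on the seven values of `x`:
the seven cocycle identities for `(u x0, .., u xj, u' xj, .., u' x6)`, `j = 0..6`, with signs `(-1)^j`. -/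
theorem cob_prism {X Y : Type*} (c : (Fin 7 → Y) → ℝ) (hc : ∀ y : Fin 8 → Y, cob c y = 0)
    (u u' : X → Y) (x : Fin 7 → X) :
    cob (prism c u u') x = c (fun i => u' (x i)) - c fun i => u (x i) := by
  have e : x = ![x 0, x 1, x 2, x 3, x 4, x 5, x 6] := by
    funext j; fin_cases j <;> rfl
  have e1 : (fun i => u' (x i)) =
      ![u' (x 0), u' (x 1), u' (x 2), u' (x 3), u' (x 4), u' (x 5), u' (x 6)] := by
    funext j; fin_cases j <;> rfl
  have e2 : (fun i => u (x i)) =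
      ![u (x 0), u (x 1), u (x 2), u (x 3), u (x 4), u (x 5), u (x 6)] := by
    funext j; fin_cases j <;> rfl
  have h0 := hc ![u (x 0), u' (x 0), u' (x 1), u' (x 2), u' (x 3), u' (x 4), u' (x 5), u' (x 6)]
  have h1 := hc ![u (x 0), u (x 1), u' (x 1), u' (x 2), u' (x 3), u' (x 4), u' (x 5), u' (x 6)]
  have h2 := hc ![u (x 0), u (x 1), u (x 2), u' (x 2), u' (x 3), u' (x 4), u' (x 5), u' (x 6)]
  have h3 := hc ![u (x 0), u (x 1), u (x 2), u (x 3), u' (x 3), u' (x 4), u' (x 5), u' (x 6)]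
  have h4 := hc ![u (x 0), u (x 1), u (x 2), u (x 3), u (x 4), u' (x 4), u' (x 5), u' (x 6)]
  have h5 := hc ![u (x 0), u (x 1), u (x 2), u (x 3), u (x 4), u (x 5), u' (x 5), u' (x 6)]
  have h6 := hc ![u (x 0), u (x 1), u (x 2), u (x 3), u (x 4), u (x 5), u (x 6), u' (x 6)]
  rw [coch_cob8] at h0 h1 h2 h3 h4 h5 h6
  rw [e1, e2]
  conv_lhs => rw [e]
  rw [coch_cob7]
  simp only [coch_prism]
  linear_combination -h0 + h1 - h2 + h3 - h4 + h5 - h6

end Pool.Agent.SR
end PartCoch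

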