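import Pool.Agent.MP_24d90f_al.PA

section PartShuf
namespace Pool.Agent.SR

theorem shuf_cob {Y : Type*} (G : (Fin 6 → Y) → ℝ) (x0 x1 x2 x3 x4 x5 x6 : Y) :
    cob G ![x0, x1, x2, x3, x4, x5, x6] =
      G ![x1, x2, x3, x4, x5, x6] - G ![x0, x2, x3, x4, x5, x6] + G ![x0, x1, x3, x4, x5, x6] -
        G ![x0, x1, x2, x4, x5, x6] + G ![x0, x1, x2, x3, x5, x6] - G ![x0, x1, x2, x3, x4, x6] +
        G ![x0, x1, x2, x3, x4, x5] := by
  have e0 : (fun j => ![x0, x1, x2, x3, x4, x5, x6] ((0 : Fin 7).succAbove j)) =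
      ![x1, x2, x3, x4, x5, x6] := by funext j; fin_cases j <;> rfl
  have e1 : (fun j => ![x0, x1, x2, x3, x4, x5, x6] ((1 : Fin 7).succAbove j)) =
      ![x0, x2, x3, x4, x5, x6] := by funext j; fin_cases j <;> rfl
  have e2 : (fun j => ![x0, x1, x2, x3, x4, x5, x6] ((2 : Fin 7).succAbove j)) =
      ![x0, x1, x3, x4, x5, x6] := by funext j; fin_cases j <;> rfl
  have e3 : (fun j => ![x0, x1, x2, x3, x4, x5, x6] ((3 : Fin 7).succAbove j)) =
      ![x0, x1, x2, x4, x5, x6] := by funext j; fin_cases j <;> rfl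
  have e4 : (fun j => ![x0, x1, x2, x3, x4, x5, x6] ((4 : Fin 7).succAbove j)) =
      ![x0, x1, x2, x3, x5, x6] := by funext j; fin_cases j <;> rfl
  have e5 : (fun j => ![x0, x1, x2, x3, x4, x5, x6] ((5 : Fin 7).succAbove j)) =
      ![x0, x1, x2, x3, x4, x6] := by funext j; fin_cases j <;> rfl
  have e6 : (fun j => ![x0, x1, x2, x3, x4, x5, x6] ((6 : Fin 7).succAbove j)) =
      ![x0, x1, x2, x3, x4, x5] := by funext j; fin_cases j <;> rfl
  rw [cob, Fin.sum_univ_seven, e0, e1, e2, e3, e4, e5, e6]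
  have v2 : ((2 : Fin 7) : ℕ) = 2 := rfl
  have v3 : ((3 : Fin 7) : ℕ) = 3 := rfl
  have v4 : ((4 : Fin 7) : ℕ) = 4 := rfl
  have v5 : ((5 : Fin 7) : ℕ) = 5 := rfl
  have v6 : ((6 : Fin 7) : ℕ) = 6 := rfl
  have v0 : ((0 : Fin 7) : ℕ) = 0 := rfl
  have v1 : ((1 : Fin 7) : ℕ) = 1 := rfl
  rw [v0, v1, v2, v3, v4, v5, v6]
  ring

theorem shuf_aux (G : (Fin 6 → Fin 4 × Fin 4) → ℝ) (β : (Fin 4 → Fin 4) → ℝ)
    (hG1 : ∀ (w : Fin 6 → Fin 4 × Fin 4) (m : Fin 4), (∀ i, (w i).1 ≠ m) → G w = 0)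
    (hG2 : ∀ (w : Fin 6 → Fin 4 × Fin 4) (m : Fin 4), (∀ i, (w i).2 ≠ m) → G w = 0)
    (hβ : ∀ (v : Fin 4 → Fin 4) (m : Fin 4), (∀ i, v i ≠ m) → β v = 0)
    (hd : ∀ x : Fin 7 → Fin 4 × Fin 4,
      cob G x = β (fun i => (x (lo4 i)).1) * β fun i => (x (hi4 i)).2) :
    β ![0, 1, 2, 3] * β ![0, 1, 2, 3] = 0 := by
  have key : ∀ x0 x1 x2 x3 x4 x5 x6 : Fin 4 × Fin 4,
      G ![x1, x2, x3, x4, x5, x6] - G ![x0, x2, x3, x4, x5, x6] + G ![x0, x1, x3, x4, x5, x6] -
        G ![x0, x1, x2, x4, x5, x6] + G ![x0, x1, x2, x3, x5, x6] - G ![x0, x1, x2, x3, x4, x6] +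
        G ![x0, x1, x2, x3, x4, x5] =
      β ![x0.1, x1.1, x2.1, x3.1] * β ![x3.2, x4.2, x5.2, x6.2] := by
    intro x0 x1 x2 x3 x4 x5 x6
    have e0 : (fun i => (![x0, x1, x2, x3, x4, x5, x6] (lo4 i)).1) =
        ![x0.1, x1.1, x2.1, x3.1] := by funext j; fin_cases j <;> rfl
    have e1 : (fun i => (![x0, x1, x2, x3, x4, x5, x6] (hi4 i)).2) =
        ![x3.2, x4.2, x5.2, x6.2] := by funext j; fin_cases j <;> rfl
    rw [← shuf_cob, hd, e0, e1]
  have h0 := key (0, 0) (1, 0) (2, 0) (3, 0) (3, 1) (3, 2) (3, 3)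
  have z0 : G ![(1, 0), (2, 0), (3, 0), (3, 1), (3, 2), (3, 3)] = 0 := hG1 _ 0 (by decide)
  rw [z0] at h0
  have z1 : G ![(0, 0), (2, 0), (3, 0), (3, 1), (3, 2), (3, 3)] = 0 := hG1 _ 1 (by decide)
  rw [z1] at h0
  have z2 : G ![(0, 0), (1, 0), (3, 0), (3, 1), (3, 2), (3, 3)] = 0 := hG1 _ 2 (by decide)
  rw [z2] at h0
  have z3 : G ![(0, 0), (1, 0), (2, 0), (3, 0), (3, 2), (3, 3)] = 0 := hG2 _ 1 (by decide)
  rw [z3] at h0
  have z4 : G ![(0, 0), (1, 0), (2, 0), (3, 0), (3, 1), (3, 3)] = 0 := hG2 _ 2 (by decide)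
  rw [z4] at h0
  have z5 : G ![(0, 0), (1, 0), (2, 0), (3, 0), (3, 1), (3, 2)] = 0 := hG2 _ 3 (by decide)
  rw [z5] at h0
  have h1 := key (0, 0) (1, 0) (2, 0) (2, 1) (3, 1) (3, 2) (3, 3)
  have z6 : G ![(1, 0), (2, 0), (2, 1), (3, 1), (3, 2), (3, 3)] = 0 := hG1 _ 0 (by decide)
  rw [z6] at h1
  have z7 : G ![(0, 0), (2, 0), (2, 1), (3, 1), (3, 2), (3, 3)] = 0 := hG1 _ 1 (by decide)
  rw [z7] at h1
  have z8 : G ![(0, 0), (1, 0), (2, 0), (2, 1), (3, 1), (3, 3)] = 0 := hG2 _ 2 (by decide)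
  rw [z8] at h1
  have z9 : G ![(0, 0), (1, 0), (2, 0), (2, 1), (3, 1), (3, 2)] = 0 := hG2 _ 3 (by decide)
  rw [z9] at h1
  rw [hβ ![0, 1, 2, 2] 3 (by decide), zero_mul] at h1
  have h2 := key (0, 0) (1, 0) (2, 0) (2, 1) (2, 2) (3, 2) (3, 3)
  have z10 : G ![(1, 0), (2, 0), (2, 1), (2, 2), (3, 2), (3, 3)] = 0 := hG1 _ 0 (by decide)
  rw [z10] at h2
  have z11 : G ![(0, 0), (2, 0), (2, 1), (2, 2), (3, 2), (3, 3)] = 0 := hG1 _ 1 (by decide)
  rw [z11] at h2
  have z12 : G ![(0, 0), (1, 0), (2, 0), (2, 2), (3, 2), (3, 3)] = 0 := hG2 _ 1 (by decide)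
  rw [z12] at h2
  have z13 : G ![(0, 0), (1, 0), (2, 0), (2, 1), (2, 2), (3, 2)] = 0 := hG2 _ 3 (by decide)
  rw [z13] at h2
  rw [hβ ![0, 1, 2, 2] 3 (by decide), zero_mul] at h2
  have h3 := key (0, 0) (1, 0) (2, 0) (2, 1) (2, 2) (2, 3) (3, 3)
  have z14 : G ![(1, 0), (2, 0), (2, 1), (2, 2), (2, 3), (3, 3)] = 0 := hG1 _ 0 (by decide)
  rw [z14] at h3
  have z15 : G ![(0, 0), (2, 0), (2, 1), (2, 2), (2, 3), (3, 3)] = 0 := hG1 _ 1 (by decide)
  rw [z15] at h3
  have z16 : G ![(0, 0), (1, 0), (2, 0), (2, 2), (2, 3), (3, 3)] = 0 := hG2 _ 1 (by decide)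
  rw [z16] at h3
  have z17 : G ![(0, 0), (1, 0), (2, 0), (2, 1), (2, 3), (3, 3)] = 0 := hG2 _ 2 (by decide)
  rw [z17] at h3
  have z18 : G ![(0, 0), (1, 0), (2, 0), (2, 1), (2, 2), (2, 3)] = 0 := hG1 _ 3 (by decide)
  rw [z18] at h3
  rw [hβ ![0, 1, 2, 2] 3 (by decide), zero_mul] at h3
  have h4 := key (0, 0) (1, 0) (1, 1) (2, 1) (3, 1) (3, 2) (3, 3)
  have z19 : G ![(1, 0), (1, 1), (2, 1), (3, 1), (3, 2), (3, 3)] = 0 := hG1 _ 0 (by decide)
  rw [z19] at h4
  have z20 : G ![(0, 0), (1, 0), (1, 1), (3, 1), (3, 2), (3, 3)] = 0 := hG1 _ 2 (by decide)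
  rw [z20] at h4
  have z21 : G ![(0, 0), (1, 0), (1, 1), (2, 1), (3, 1), (3, 3)] = 0 := hG2 _ 2 (by decide)
  rw [z21] at h4
  have z22 : G ![(0, 0), (1, 0), (1, 1), (2, 1), (3, 1), (3, 2)] = 0 := hG2 _ 3 (by decide)
  rw [z22] at h4
  rw [hβ ![0, 1, 1, 2] 3 (by decide), zero_mul] at h4
  have h5 := key (0, 0) (1, 0) (1, 1) (2, 1) (2, 2) (3, 2) (3, 3)
  have z23 : G ![(1, 0), (1, 1), (2, 1), (2, 2), (3, 2), (3, 3)] = 0 := hG1 _ 0 (by decide)
  rw [z23] at h5
  have z24 : G ![(0, 0), (1, 0), (1, 1), (2, 1), (2, 2), (3, 2)] = 0 := hG2 _ 3 (by decide)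
  rw [z24] at h5
  rw [hβ ![0, 1, 1, 2] 3 (by decide), zero_mul] at h5
  have h6 := key (0, 0) (1, 0) (1, 1) (2, 1) (2, 2) (2, 3) (3, 3)
  have z25 : G ![(1, 0), (1, 1), (2, 1), (2, 2), (2, 3), (3, 3)] = 0 := hG1 _ 0 (by decide)
  rw [z25] at h6
  have z26 : G ![(0, 0), (1, 0), (1, 1), (2, 1), (2, 3), (3, 3)] = 0 := hG2 _ 2 (by decide)
  rw [z26] at h6
  have z27 : G ![(0, 0), (1, 0), (1, 1), (2, 1), (2, 2), (2, 3)] = 0 := hG1 _ 3 (by decide)
  rw [z27] at h6
  rw [hβ ![0, 1, 1, 2] 3 (by decide), zero_mul] at h6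
  have h7 := key (0, 0) (1, 0) (1, 1) (1, 2) (2, 2) (3, 2) (3, 3)
  have z28 : G ![(1, 0), (1, 1), (1, 2), (2, 2), (3, 2), (3, 3)] = 0 := hG1 _ 0 (by decide)
  rw [z28] at h7
  have z29 : G ![(0, 0), (1, 0), (1, 2), (2, 2), (3, 2), (3, 3)] = 0 := hG2 _ 1 (by decide)
  rw [z29] at h7
  have z30 : G ![(0, 0), (1, 0), (1, 1), (1, 2), (3, 2), (3, 3)] = 0 := hG1 _ 2 (by decide)
  rw [z30] at h7
  have z31 : G ![(0, 0), (1, 0), (1, 1), (1, 2), (2, 2), (3, 2)] = 0 := hG2 _ 3 (by decide)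
  rw [z31] at h7
  rw [hβ ![0, 1, 1, 1] 3 (by decide), zero_mul] at h7
  have h8 := key (0, 0) (1, 0) (1, 1) (1, 2) (2, 2) (2, 3) (3, 3)
  have z32 : G ![(1, 0), (1, 1), (1, 2), (2, 2), (2, 3), (3, 3)] = 0 := hG1 _ 0 (by decide)
  rw [z32] at h8
  have z33 : G ![(0, 0), (1, 0), (1, 2), (2, 2), (2, 3), (3, 3)] = 0 := hG2 _ 1 (by decide)
  rw [z33] at h8
  have z34 : G ![(0, 0), (1, 0), (1, 1), (1, 2), (2, 2), (2, 3)] = 0 := hG1 _ 3 (by decide)
  rw [z34] at h8
  rw [hβ ![0, 1, 1, 1] 3 (by decide), zero_mul] at h8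
  have h9 := key (0, 0) (1, 0) (1, 1) (1, 2) (1, 3) (2, 3) (3, 3)
  have z35 : G ![(1, 0), (1, 1), (1, 2), (1, 3), (2, 3), (3, 3)] = 0 := hG1 _ 0 (by decide)
  rw [z35] at h9
  have z36 : G ![(0, 0), (1, 0), (1, 2), (1, 3), (2, 3), (3, 3)] = 0 := hG2 _ 1 (by decide)
  rw [z36] at h9
  have z37 : G ![(0, 0), (1, 0), (1, 1), (1, 3), (2, 3), (3, 3)] = 0 := hG2 _ 2 (by decide)
  rw [z37] at h9
  have z38 : G ![(0, 0), (1, 0), (1, 1), (1, 2), (1, 3), (3, 3)] = 0 := hG1 _ 2 (by decide)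
  rw [z38] at h9
  have z39 : G ![(0, 0), (1, 0), (1, 1), (1, 2), (1, 3), (2, 3)] = 0 := hG1 _ 3 (by decide)
  rw [z39] at h9
  rw [hβ ![0, 1, 1, 1] 3 (by decide), zero_mul] at h9
  have h10 := key (0, 0) (0, 1) (1, 1) (2, 1) (3, 1) (3, 2) (3, 3)
  have z40 : G ![(0, 1), (1, 1), (2, 1), (3, 1), (3, 2), (3, 3)] = 0 := hG2 _ 0 (by decide)
  rw [z40] at h10
  have z41 : G ![(0, 0), (0, 1), (2, 1), (3, 1), (3, 2), (3, 3)] = 0 := hG1 _ 1 (by decide)
  rw [z41] at h10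
  have z42 : G ![(0, 0), (0, 1), (1, 1), (3, 1), (3, 2), (3, 3)] = 0 := hG1 _ 2 (by decide)
  rw [z42] at h10
  have z43 : G ![(0, 0), (0, 1), (1, 1), (2, 1), (3, 1), (3, 3)] = 0 := hG2 _ 2 (by decide)
  rw [z43] at h10
  have z44 : G ![(0, 0), (0, 1), (1, 1), (2, 1), (3, 1), (3, 2)] = 0 := hG2 _ 3 (by decide)
  rw [z44] at h10
  rw [hβ ![0, 0, 1, 2] 3 (by decide), zero_mul] at h10
  have h11 := key (0, 0) (0, 1) (1, 1) (2, 1) (2, 2) (3, 2) (3, 3)
  have z45 : G ![(0, 1), (1, 1), (2, 1), (2, 2), (3, 2), (3, 3)] = 0 := hG2 _ 0 (by decide)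
  rw [z45] at h11
  have z46 : G ![(0, 0), (0, 1), (2, 1), (2, 2), (3, 2), (3, 3)] = 0 := hG1 _ 1 (by decide)
  rw [z46] at h11
  have z47 : G ![(0, 0), (0, 1), (1, 1), (2, 1), (2, 2), (3, 2)] = 0 := hG2 _ 3 (by decide)
  rw [z47] at h11
  rw [hβ ![0, 0, 1, 2] 3 (by decide), zero_mul] at h11
  have h12 := key (0, 0) (0, 1) (1, 1) (2, 1) (2, 2) (2, 3) (3, 3)
  have z48 : G ![(0, 1), (1, 1), (2, 1), (2, 2), (2, 3), (3, 3)] = 0 := hG2 _ 0 (by decide)
  rw [z48] at h12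
  have z49 : G ![(0, 0), (0, 1), (2, 1), (2, 2), (2, 3), (3, 3)] = 0 := hG1 _ 1 (by decide)
  rw [z49] at h12
  have z50 : G ![(0, 0), (0, 1), (1, 1), (2, 1), (2, 3), (3, 3)] = 0 := hG2 _ 2 (by decide)
  rw [z50] at h12
  have z51 : G ![(0, 0), (0, 1), (1, 1), (2, 1), (2, 2), (2, 3)] = 0 := hG1 _ 3 (by decide)
  rw [z51] at h12
  rw [hβ ![0, 0, 1, 2] 3 (by decide), zero_mul] at h12
  have h13 := key (0, 0) (0, 1) (1, 1) (1, 2) (2, 2) (3, 2) (3, 3)
  have z52 : G ![(0, 1), (1, 1), (1, 2), (2, 2), (3, 2), (3, 3)] = 0 := hG2 _ 0 (by decide)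
  rw [z52] at h13
  have z53 : G ![(0, 0), (0, 1), (1, 1), (1, 2), (3, 2), (3, 3)] = 0 := hG1 _ 2 (by decide)
  rw [z53] at h13
  have z54 : G ![(0, 0), (0, 1), (1, 1), (1, 2), (2, 2), (3, 2)] = 0 := hG2 _ 3 (by decide)
  rw [z54] at h13
  rw [hβ ![0, 0, 1, 1] 3 (by decide), zero_mul] at h13
  have h14 := key (0, 0) (0, 1) (1, 1) (1, 2) (2, 2) (2, 3) (3, 3)
  have z55 : G ![(0, 1), (1, 1), (1, 2), (2, 2), (2, 3), (3, 3)] = 0 := hG2 _ 0 (by decide)
  rw [z55] at h14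
  have z56 : G ![(0, 0), (0, 1), (1, 1), (1, 2), (2, 2), (2, 3)] = 0 := hG1 _ 3 (by decide)
  rw [z56] at h14
  rw [hβ ![0, 0, 1, 1] 3 (by decide), zero_mul] at h14
  have h15 := key (0, 0) (0, 1) (1, 1) (1, 2) (1, 3) (2, 3) (3, 3)
  have z57 : G ![(0, 1), (1, 1), (1, 2), (1, 3), (2, 3), (3, 3)] = 0 := hG2 _ 0 (by decide)
  rw [z57] at h15
  have z58 : G ![(0, 0), (0, 1), (1, 1), (1, 3), (2, 3), (3, 3)] = 0 := hG2 _ 2 (by decide)
  rw [z58] at h15
  have z59 : G ![(0, 0), (0, 1), (1, 1), (1, 2), (1, 3), (3, 3)] = 0 := hG1 _ 2 (by decide)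
  rw [z59] at h15
  have z60 : G ![(0, 0), (0, 1), (1, 1), (1, 2), (1, 3), (2, 3)] = 0 := hG1 _ 3 (by decide)
  rw [z60] at h15
  rw [hβ ![0, 0, 1, 1] 3 (by decide), zero_mul] at h15
  have h16 := key (0, 0) (0, 1) (0, 2) (1, 2) (2, 2) (3, 2) (3, 3)
  have z61 : G ![(0, 1), (0, 2), (1, 2), (2, 2), (3, 2), (3, 3)] = 0 := hG2 _ 0 (by decide)
  rw [z61] at h16
  have z62 : G ![(0, 0), (0, 2), (1, 2), (2, 2), (3, 2), (3, 3)] = 0 := hG2 _ 1 (by decide)
  rw [z62] at h16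
  have z63 : G ![(0, 0), (0, 1), (0, 2), (2, 2), (3, 2), (3, 3)] = 0 := hG1 _ 1 (by decide)
  rw [z63] at h16
  have z64 : G ![(0, 0), (0, 1), (0, 2), (1, 2), (3, 2), (3, 3)] = 0 := hG1 _ 2 (by decide)
  rw [z64] at h16
  have z65 : G ![(0, 0), (0, 1), (0, 2), (1, 2), (2, 2), (3, 2)] = 0 := hG2 _ 3 (by decide)
  rw [z65] at h16
  rw [hβ ![0, 0, 0, 1] 3 (by decide), zero_mul] at h16
  have h17 := key (0, 0) (0, 1) (0, 2) (1, 2) (2, 2) (2, 3) (3, 3)
  have z66 : G ![(0, 1), (0, 2), (1, 2), (2, 2), (2, 3), (3, 3)] = 0 := hG2 _ 0 (by decide)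
  rw [z66] at h17
  have z67 : G ![(0, 0), (0, 2), (1, 2), (2, 2), (2, 3), (3, 3)] = 0 := hG2 _ 1 (by decide)
  rw [z67] at h17
  have z68 : G ![(0, 0), (0, 1), (0, 2), (2, 2), (2, 3), (3, 3)] = 0 := hG1 _ 1 (by decide)
  rw [z68] at h17
  have z69 : G ![(0, 0), (0, 1), (0, 2), (1, 2), (2, 2), (2, 3)] = 0 := hG1 _ 3 (by decide)
  rw [z69] at h17
  rw [hβ ![0, 0, 0, 1] 3 (by decide), zero_mul] at h17
  have h18 := key (0, 0) (0, 1) (0, 2) (1, 2) (1, 3) (2, 3) (3, 3)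
  have z70 : G ![(0, 1), (0, 2), (1, 2), (1, 3), (2, 3), (3, 3)] = 0 := hG2 _ 0 (by decide)
  rw [z70] at h18
  have z71 : G ![(0, 0), (0, 2), (1, 2), (1, 3), (2, 3), (3, 3)] = 0 := hG2 _ 1 (by decide)
  rw [z71] at h18
  have z72 : G ![(0, 0), (0, 1), (0, 2), (1, 2), (1, 3), (3, 3)] = 0 := hG1 _ 2 (by decide)
  rw [z72] at h18
  have z73 : G ![(0, 0), (0, 1), (0, 2), (1, 2), (1, 3), (2, 3)] = 0 := hG1 _ 3 (by decide)
  rw [z73] at h18
  rw [hβ ![0, 0, 0, 1] 3 (by decide), zero_mul] at h18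
  have h19 := key (0, 0) (0, 1) (0, 2) (0, 3) (1, 3) (2, 3) (3, 3)
  have z74 : G ![(0, 1), (0, 2), (0, 3), (1, 3), (2, 3), (3, 3)] = 0 := hG2 _ 0 (by decide)
  rw [z74] at h19
  have z75 : G ![(0, 0), (0, 2), (0, 3), (1, 3), (2, 3), (3, 3)] = 0 := hG2 _ 1 (by decide)
  rw [z75] at h19
  have z76 : G ![(0, 0), (0, 1), (0, 3), (1, 3), (2, 3), (3, 3)] = 0 := hG2 _ 2 (by decide)
  rw [z76] at h19
  have z77 : G ![(0, 0), (0, 1), (0, 2), (0, 3), (2, 3), (3, 3)] = 0 := hG1 _ 1 (by decide)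
  rw [z77] at h19
  have z78 : G ![(0, 0), (0, 1), (0, 2), (0, 3), (1, 3), (3, 3)] = 0 := hG1 _ 2 (by decide)
  rw [z78] at h19
  have z79 : G ![(0, 0), (0, 1), (0, 2), (0, 3), (1, 3), (2, 3)] = 0 := hG1 _ 3 (by decide)
  rw [z79] at h19
  rw [hβ ![0, 0, 0, 0] 3 (by decide), zero_mul] at h19
  linear_combination -(h0 - h1 + h2 - h3 + h4 - h5 + h6 + h7 - h8 + h9 - h10 + h11 - h12 - h13 + h14 - h15 + h16 - h17 + h18 - h19)

/-- Eilenberg-Zilber shuffle argument. Plan: fix `σ`, put `σ' = bar ∘ σ`. For `w : Fin n → Fin 4 × Fin 4` and a function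
`u` on `Fin n → H × H` let `A u w = u(σ,σ) - u(σ',σ) - u(σ,σ') + u(σ',σ')`, where `u(α,β) = u fun i => (α (w i).1, β (w i).2)`.
(1) `A Φ w = 0` if the first or the second coordinates of `w` miss some `m : Fin 4` (factor through `m.succAbove`, use `h1`, `h2`).
(2) `∑ (-1)^i A Φ (w ∘ succAbove i) = (b (σ ∘ w₁ ∘ lo4) - b (σ' ∘ w₁ ∘ lo4)) * (b (σ ∘ w₂ ∘ hi4) - b (σ' ∘ w₂ ∘ hi4))` by `hd`.
(3) Sum (2) over the 20 monotone lattice paths `w` from `(0,0)` to `(3,3)` with the shuffle sign (`(-1)^(area)`): on the left the faces at a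
corner cancel in pairs, all other faces vanish by (1); on the right only the path `(0,0),(1,0),(2,0),(3,0),(3,1),(3,2),(3,3)` survives (`hb`).
So `(b σ - b σ')^2 = 0`. Generate the 20 paths by a script; a curried auxiliary statement about a function
`G : (Fin 6 → Fin 4 × Fin 4) → ℝ` vanishing on the index-missing `w` keeps it fast. -/
theorem shuffle {H : Type*} (bar : H → H) (Φ : (Fin 6 → H × H) → ℝ) (b : (Fin 4 → H) → ℝ)
    (h1 : ∀ (σ : Fin 3 → H) (w : Fin 6 → Fin 3) (τ : Fin 6 → H),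
      Φ (fun i => (bar (σ (w i)), τ i)) = Φ fun i => (σ (w i), τ i))
    (h2 : ∀ (σ : Fin 3 → H) (w : Fin 6 → Fin 3) (τ : Fin 6 → H),
      Φ (fun i => (τ i, bar (σ (w i)))) = Φ fun i => (τ i, σ (w i)))
    (hb : ∀ (σ : Fin 3 → H) (w : Fin 4 → Fin 3), b (fun i => bar (σ (w i))) = b fun i => σ (w i))
    (hd : ∀ x : Fin 7 → H × H,
      cob Φ x = b (fun i => (x (lo4 i)).1) * b fun i => (x (hi4 i)).2)
    (σ : Fin 4 → H) : b (fun i => bar (σ i)) = b σ := by
  have key := shuf_aux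
    (fun w => Φ (fun i => (σ (w i).1, σ (w i).2)) - Φ (fun i => (bar (σ (w i).1), σ (w i).2)) -
      Φ (fun i => (σ (w i).1, bar (σ (w i).2))) +
      Φ (fun i => (bar (σ (w i).1), bar (σ (w i).2))))
    (fun v => b (fun i => σ (v i)) - b fun i => bar (σ (v i))) ?_ ?_ ?_ ?_
  · have e : (![0, 1, 2, 3] : Fin 4 → Fin 4) = fun i => i := by funext j; fin_cases j <;> rfl
    rw [e, mul_self_eq_zero] at key
    exact (sub_eq_zero.mp key).symm
  · intro w m hw
    choose w' hw' using fun i => Fin.exists_succAbove_eq (hw i)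
    have a1 := h1 (fun j => σ (m.succAbove j)) w' fun i => σ (w i).2
    have a2 := h1 (fun j => σ (m.succAbove j)) w' fun i => bar (σ (w i).2)
    simp only [hw'] at a1 a2
    linear_combination a2 - a1
  · intro w m hw
    choose w' hw' using fun i => Fin.exists_succAbove_eq (hw i)
    have a1 := h2 (fun j => σ (m.succAbove j)) w' fun i => σ (w i).1
    have a2 := h2 (fun j => σ (m.succAbove j)) w' fun i => bar (σ (w i).1)
    simp only [hw'] at a1 a2
    linear_combination a2 - a1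
  · intro v m hv
    choose v' hv' using fun i => Fin.exists_succAbove_eq (hv i)
    have a1 := hb (fun j => σ (m.succAbove j)) v'
    simp only [hv'] at a1
    linear_combination -a1
  · intro x
    have a1 := hd fun i => (σ (x i).1, σ (x i).2)
    have a2 := hd fun i => (bar (σ (x i).1), σ (x i).2)
    have a3 := hd fun i => (σ (x i).1, bar (σ (x i).2))
    have a4 := hd fun i => (bar (σ (x i).1), bar (σ (x i).2))
    simp only [cob] at a1 a2 a3 a4 ⊢
    simp only [mul_add, mul_sub, Finset.sum_add_distrib, Finset.sum_sub_distrib]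
    linear_combination a1 - a2 - a3 + a4

end Pool.Agent.SR
end PartShuf

section PartSLtop
namespace Pool.Agent.SR

theorem sl2_locallyCompact : LocallyCompactSpace (SL2 ℂ) := by
  have : LocallyCompactSpace (Matrix (Fin 2) (Fin 2) ℂ) :=
    inferInstanceAs (LocallyCompactSpace (Fin 2 → Fin 2 → ℂ))
  exact Matrix.SpecialLinearGroup.isClosedEmbedding_val.locallyCompactSpace

theorem sl2_secondCountable : SecondCountableTopology (SL2 ℂ) := by
  have : SecondCountableTopology (Matrix (Fin 2) (Fin 2) ℂ) :=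
    inferInstanceAs (SecondCountableTopology (Fin 2 → Fin 2 → ℂ))
  exact Matrix.SpecialLinearGroup.isClosedEmbedding_val.isEmbedding.secondCountableTopology

theorem continuous_fro : Continuous fro := by
  refine continuous_finsetSum _ fun i _ => continuous_finsetSum _ fun j _ => ?_
  exact ((continuous_subtype_val.matrix_elem i j).norm).pow 2

theorem isCompact_fro (R : ℝ) : IsCompact {g : SL2 ℂ | fro g ≤ R} := by
  have hK : IsCompact (Set.pi Set.univ fun _ : Fin 2 => Set.pi Set.univ fun _ : Fin 2 =>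
      Metric.closedBall (0 : ℂ) (R + 1)) :=
    isCompact_univ_pi fun _ => isCompact_univ_pi fun _ => isCompact_closedBall _ _
  refine (Matrix.SpecialLinearGroup.isClosedEmbedding_val.isCompact_preimage
    (K := Set.pi Set.univ fun _ : Fin 2 => Set.pi Set.univ fun _ : Fin 2 =>
      Metric.closedBall (0 : ℂ) (R + 1)) hK).of_isClosed_subset
    (isClosed_le continuous_fro continuous_const) fun g hg i _ j _ => ?_
  have h1 : ‖g.1 i j‖ ^ 2 ≤ fro g :=
    (Finset.single_le_sum (f := fun j => ‖g.1 i j‖ ^ 2) (fun _ _ => sq_nonneg _)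
      (Finset.mem_univ j)).trans (Finset.single_le_sum (f := fun i => ∑ j, ‖g.1 i j‖ ^ 2)
        (fun _ _ => Finset.sum_nonneg fun _ _ => sq_nonneg _) (Finset.mem_univ i))
  have h2 : fro g ≤ R := hg
  rw [mem_closedBall_zero_iff]
  nlinarith [sq_nonneg (‖g.1 i j‖ - 1)]

theorem sltop_fro (g : SL2 ℂ) : (fro g : ℂ) = (g.1 * g.1.conjTranspose).trace := by
  simp only [fro, Matrix.trace, Matrix.diag, Matrix.mul_apply, Matrix.conjTranspose_apply,
    Complex.star_def, Complex.mul_conj, Complex.normSq_eq_norm_sq, Complex.ofReal_sum]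

theorem fro_mul_unitary (g k : SL2 ℂ) (hk : IsU k) : fro (g * k) = fro g := by
  apply Complex.ofReal_injective
  rw [sltop_fro, sltop_fro, Matrix.SpecialLinearGroup.coe_mul, Matrix.conjTranspose_mul,
    Matrix.mul_assoc, ← Matrix.mul_assoc k.1, hk, Matrix.one_mul]

/-- A vector orthogonal to a time-like vector is space-like. -/
theorem sltop_neg {p q u v α δ x y : ℝ} (_hp : 0 ≤ p) (_hq : 0 ≤ q) (h : p * q = 1 + u ^ 2 + v ^ 2)
    (ho : p * α + q * δ + 2 * u * x + 2 * v * y = 0)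
    (hn : ¬(α = 0 ∧ δ = 0 ∧ x = 0 ∧ y = 0)) : 0 < x ^ 2 + y ^ 2 - α * δ := by
  by_contra hc
  apply hn
  have h1 : x ^ 2 + y ^ 2 ≤ α * δ := by linarith
  have e : (p * α + q * δ) ^ 2 = (2 * u * x + 2 * v * y) ^ 2 := by
    rw [show p * α + q * δ = -(2 * u * x + 2 * v * y) by linarith, neg_sq]
  have h2 : 4 * (p * q) * (α * δ) ≤ (p * α + q * δ) ^ 2 := by nlinarith [sq_nonneg (p * α - q * δ)]
  have h3 : (2 * u * x + 2 * v * y) ^ 2 ≤ 4 * (u ^ 2 + v ^ 2) * (x ^ 2 + y ^ 2) := by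
    nlinarith [sq_nonneg (u * y - v * x)]
  have h4 := mul_le_mul_of_nonneg_left h1 (show 0 ≤ 4 * (u ^ 2 + v ^ 2) by positivity)
  rw [h] at h2
  have h5 : α * δ ≤ 0 := by nlinarith
  have hx : x = 0 := by nlinarith [sq_nonneg x, sq_nonneg y]
  have hy : y = 0 := by nlinarith [sq_nonneg x, sq_nonneg y]
  have h6 : α * δ = 0 := le_antisymm h5 (by nlinarith [sq_nonneg x, sq_nonneg y])
  have h7 : p * α + q * δ = 0 := by rw [hx, hy] at ho; linarith
  have hpq : 0 < p * q := by rw [h]; positivity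
  have hp' : p ≠ 0 := left_ne_zero_of_mul hpq.ne'
  have hq' : q ≠ 0 := right_ne_zero_of_mul hpq.ne'
  rcases mul_eq_zero.1 h6 with h8 | h8
  · rw [h8, mul_zero, zero_add] at h7
    exact ⟨h8, (mul_eq_zero.1 h7).resolve_left hq', hx, hy⟩
  · rw [h8, mul_zero, add_zero] at h7
    exact ⟨(mul_eq_zero.1 h7).resolve_left hp', h8, hx, hy⟩

theorem sltop_normal {p q u v : Fin 3 → ℝ} (hp : 0 ≤ p 0) (hq : 0 ≤ q 0)
    (h : p 0 * q 0 = 1 + u 0 ^ 2 + v 0 ^ 2) : ∃ α δ x y : ℝ, x ^ 2 + y ^ 2 - α * δ = 1 ∧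
      ∀ j, p j * α + q j * δ + 2 * u j * x + 2 * v j * y = 0 := by
  let A : Matrix (Fin 3) (Fin 4) ℝ := Matrix.of fun j => ![p j, q j, 2 * u j, 2 * v j]
  obtain ⟨w, hw, hw0⟩ := Submodule.exists_mem_ne_zero_of_ne_bot
    (LinearMap.ker_ne_bot_of_finrank_lt (f := A.mulVecLin) (by simp))
  have ho : ∀ j, p j * w 0 + q j * w 1 + 2 * u j * w 2 + 2 * v j * w 3 = 0 := fun j => by
    have := congrFun (LinearMap.mem_ker.1 hw) j
    simpa [A, Matrix.mulVec, dotProduct, Fin.sum_univ_four] using this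
  have hs := sltop_neg hp hq h (ho 0) fun hh => hw0 (by
    funext i
    fin_cases i
    exacts [hh.1, hh.2.1, hh.2.2.1, hh.2.2.2])
  obtain ⟨r, hr⟩ : ∃ r : ℝ, r ^ 2 * (w 2 ^ 2 + w 3 ^ 2 - w 0 * w 1) = 1 :=
    ⟨(Real.sqrt (w 2 ^ 2 + w 3 ^ 2 - w 0 * w 1))⁻¹, by
      rw [inv_pow, Real.sq_sqrt hs.le, inv_mul_cancel₀ hs.ne']⟩
  refine ⟨r * w 0, r * w 1, r * w 2, r * w 3, by linear_combination hr, fun j => ?_⟩
  linear_combination r * ho j

theorem sltop_conj (P : Matrix (Fin 2) (Fin 2) ℂ) {α δ w w' : ℂ} (hd : w * w' - α * δ = 1)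
    (ht : α * P 0 0 + δ * P 1 1 + w * P 1 0 + w' * P 0 1 = 0) :
    !![-(Complex.I * w'), -(Complex.I * δ); Complex.I * α, Complex.I * w] * P *
      !![Complex.I * w, -(Complex.I * α); Complex.I * δ, -(Complex.I * w')] = P.transpose := by
  have hI := Complex.I_mul_I
  ext i j
  fin_cases i <;> fin_cases j <;>
    simp only [Matrix.mul_apply, Fin.sum_univ_two, Matrix.transpose_apply, Matrix.of_apply,
      Matrix.cons_val', Matrix.cons_val_zero, Matrix.cons_val_one, Matrix.cons_val_fin_one,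
      Fin.zero_eta, Fin.mk_one, Fin.isValue]
  · linear_combination P 0 0 * hd + δ * ht -
      (w * w' * P 0 0 + δ * w * P 1 0 + δ * w' * P 0 1 + δ * δ * P 1 1) * hI
  · linear_combination P 1 0 * hd - w' * ht +
      (α * w' * P 0 0 + α * δ * P 1 0 + w' * w' * P 0 1 + δ * w' * P 1 1) * hI
  · linear_combination P 0 1 * hd - w * ht +
      (α * w * P 0 0 + w * w * P 1 0 + α * δ * P 0 1 + δ * w * P 1 1) * hI
  · linear_combination P 1 1 * hd + α * ht -
      (α * α * P 0 0 + α * w * P 1 0 + α * w' * P 0 1 + w * w' * P 1 1) * hI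

theorem sltop_unit (g s : SL2 ℂ) (h : s.1 * s.1.conjTranspose = g.1 * g.1.conjTranspose) :
    IsU (g⁻¹ * s) := by
  have e : (g⁻¹).1 * g.1 = 1 := by
    rw [← Matrix.SpecialLinearGroup.coe_mul, inv_mul_cancel, Matrix.SpecialLinearGroup.coe_one]
  rw [IsU, Matrix.SpecialLinearGroup.coe_mul, Matrix.conjTranspose_mul, Matrix.mul_assoc,
    ← Matrix.mul_assoc s.1, h, ← Matrix.mul_assoc, ← Matrix.mul_assoc, e, Matrix.one_mul,
    ← Matrix.conjTranspose_mul, e, Matrix.conjTranspose_one]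

theorem sltop_herm (t : SL2 ℂ) : ∃ p q u v : ℝ, 0 ≤ p ∧ 0 ≤ q ∧ p * q = 1 + u ^ 2 + v ^ 2 ∧
    (t.1 * t.1.conjTranspose) 0 0 = p ∧ (t.1 * t.1.conjTranspose) 1 1 = q ∧
    (t.1 * t.1.conjTranspose) 0 1 = u + v * Complex.I ∧
    (t.1 * t.1.conjTranspose) 1 0 = u - v * Complex.I := by
  have h0 : ∀ i, (t.1 * t.1.conjTranspose) i i = ((‖t.1 i 0‖ ^ 2 + ‖t.1 i 1‖ ^ 2 : ℝ) : ℂ) :=
    fun i => by
      simp only [Matrix.mul_apply, Matrix.conjTranspose_apply, Complex.star_def, Complex.mul_conj,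
        Complex.normSq_eq_norm_sq, Fin.sum_univ_two, Complex.ofReal_add]
  have h1 : (t.1 * t.1.conjTranspose) 0 1 = ((t.1 * t.1.conjTranspose) 0 1).re +
      ((t.1 * t.1.conjTranspose) 0 1).im * Complex.I := (Complex.re_add_im _).symm
  have h2 : (t.1 * t.1.conjTranspose) 1 0 = ((t.1 * t.1.conjTranspose) 0 1).re -
      ((t.1 * t.1.conjTranspose) 0 1).im * Complex.I := by
    rw [← (Matrix.isHermitian_mul_conjTranspose_self t.1).apply 1 0, Complex.star_def]
    apply Complex.ext <;> simp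
  refine ⟨_, _, _, _, by positivity, by positivity, ?_, h0 0, h0 1, h1, h2⟩
  have h3 : (t.1 * t.1.conjTranspose).det = 1 := by
    rw [Matrix.det_mul, Matrix.det_conjTranspose, t.2, star_one, mul_one]
  rw [Matrix.det_fin_two, h0 0, h0 1, h2] at h3
  generalize (t.1 * t.1.conjTranspose) 0 1 = z at h1 h3
  generalize ‖t.1 0 0‖ ^ 2 + ‖t.1 0 1‖ ^ 2 = p at h3
  generalize ‖t.1 1 0‖ ^ 2 + ‖t.1 1 1‖ ^ 2 = q at h3
  apply Complex.ofReal_injective
  push_cast
  linear_combination h3 + ((z.re : ℂ) - z.im * Complex.I) * h1 - (z.im : ℂ) ^ 2 * Complex.I_mul_I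

/-- Three points of hyperbolic 3-space lie in a plane. Plan: `P j = τ j (τ j)ᴴ` is Hermitian. The Hermitian matrices
`!![a, z; conj z, d]` form a real 4-space, so there is a Hermitian `N ≠ 0` with `trace (adjugate (P j) * N) = 0` for the three `j`
(these traces are real; `LinearMap.ker_ne_bot_of_finrank_lt` or similar). `N' = τ0⁻¹ N τ0⁻ᴴ` is Hermitian, non-zero, traceless,
so `det N = det N' = -(a² + |z|²) < 0`; rescale to `det N = -1`. For 2×2 matrices
`N * adjugate P * N = trace (adjugate P * N) • N - det N • P`, so `N * adjugate P * N = P`; and `adjugate P = J * conj P * Jᴴ` for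
Hermitian `P`, `J = !![0,1;-1,0]`. So `a' = I • N * J` has determinant `1` and `P j = a' * conj (P j) * a'ᴴ`. Take `a = a'⁻¹` and
`k j = (a * τ j)⁻¹ * sbar (τ j)`. -/
theorem reflection (τ : Fin 3 → SL2 ℂ) :
    ∃ (a : SL2 ℂ) (k : Fin 3 → SL2 ℂ), ∀ j, IsU (k j) ∧ sbar (τ j) = a * τ j * k j := by
  choose p q u v hp hq hd h00 h11 h01 h10 using fun j => sltop_herm (τ j)
  obtain ⟨α, δ, x, y, hn, ho⟩ := sltop_normal (hp 0) (hq 0) (hd 0)
  have hI := Complex.I_mul_I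
  have hn' : ((x : ℂ) + y * Complex.I) * (x - y * Complex.I) - α * δ = 1 := by
    have := congrArg (fun r : ℝ => (r : ℂ)) hn
    push_cast at this
    linear_combination this - (y : ℂ) ^ 2 * hI
  let a : SL2 ℂ := ⟨!![-(Complex.I * (x - y * Complex.I)), -(Complex.I * δ);
      Complex.I * α, Complex.I * (x + y * Complex.I)], by
    rw [Matrix.det_fin_two_of]
    linear_combination hn' -
      (((x : ℂ) + y * Complex.I) * (x - y * Complex.I) - α * δ) * hI⟩
  have ha : a.1.conjTranspose = !![Complex.I * (x + y * Complex.I), -(Complex.I * α);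
      Complex.I * δ, -(Complex.I * (x - y * Complex.I))] := by
    ext i j
    fin_cases i <;> fin_cases j <;> simp [a, Matrix.conjTranspose_apply, sub_eq_add_neg]
  refine ⟨a, fun j => (a * τ j)⁻¹ * sbar (τ j), fun j => ⟨sltop_unit _ _ ?_, ?_⟩⟩
  · have ht := sltop_conj ((τ j).1 * (τ j).1.conjTranspose) hn' (by
      have := congrArg (fun r : ℝ => (r : ℂ)) (ho j)
      push_cast at this
      rw [h00, h11, h01, h10]
      linear_combination this - 2 * (y : ℂ) * v j * hI)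
    rw [Matrix.SpecialLinearGroup.coe_mul, Matrix.conjTranspose_mul, Matrix.mul_assoc,
      ← Matrix.mul_assoc (τ j).1, ← Matrix.mul_assoc, ha]
    refine Eq.trans ?_ ht.symm
    ext i l
    simp [sbar, slm, Matrix.mul_apply, Matrix.conjTranspose_apply, mul_comm]
  · rw [mul_inv_cancel_left]

end Pool.Agent.SR
end PartSLtop

section PartNu
open MeasureTheory

namespace Pool.Agent.SR

theorem nu_form {k : SL2 ℂ} (hk : IsU k) (v : Fin 2 → ℂ) :
    star (k.1.mulVec v) ⬝ᵥ k.1.mulVec v = star v ⬝ᵥ v := by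
  rw [Matrix.star_mulVec, Matrix.dotProduct_mulVec, Matrix.vecMul_vecMul, mul_eq_one_comm.1 hk,
    Matrix.vecMul_one]

theorem nu_re (v : Fin 2 → ℂ) : (star v ⬝ᵥ v).re = ‖v 0‖ ^ 2 + ‖v 1‖ ^ 2 := by
  simp only [dotProduct, Fin.sum_univ_two, Pi.star_apply, Complex.star_def, Complex.conj_mul',
    Complex.add_re, ← Complex.ofReal_pow, Complex.ofReal_re]

/-- A unitarily invariant probability measure on `ℂ²` not charging the line `v 0 = 0`.
Plan: normalised restriction of `volume` to `B = {v | ‖v 0‖² + ‖v 1‖² ≤ 1}` (compact, non-empty interior). For unitary `k`, `map k volume` is an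
additive Haar measure (`Measure.map_linearMap_addHaar_eq_smul_addHaar`, or uniqueness), `= c • volume`, and `k` preserves `B`, so `c = 1`.
The line is a proper real subspace: `Measure.addHaar_submodule`. -/
theorem exists_nu : ∃ ν : Measure (Fin 2 → ℂ), IsProbabilityMeasure ν ∧ ν {v | v 0 = 0} = 0 ∧
    ∀ k : SL2 ℂ, IsU k → MeasurePreserving (fun v => k.1.mulVec v) ν ν := by
  let B : Set (Fin 2 → ℂ) := {v | (star v ⬝ᵥ v).re < 1}
  have hBo : IsOpen B := isOpen_lt (by simp only [nu_re]; fun_prop) continuous_const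
  have h0 : volume B ≠ 0 := hBo.measure_ne_zero _ ⟨0, by simp [B]⟩
  have h1 : volume B ≠ ⊤ := by
    refine ((measure_mono (t := Metric.closedBall 0 1) fun v hv => ?_).trans_lt
      (isCompact_closedBall _ _).measure_lt_top).ne
    have hv' : ‖v 0‖ ^ 2 + ‖v 1‖ ^ 2 < 1 := nu_re v ▸ hv
    rw [mem_closedBall_zero_iff, pi_norm_le_iff_of_nonneg zero_le_one, Fin.forall_fin_two]
    constructor <;> nlinarith [norm_nonneg (v 0), norm_nonneg (v 1)]
  refine ⟨(volume B)⁻¹ • volume.restrict B, ⟨?_⟩, ?_, fun k hk => ?_⟩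
  · rw [Measure.smul_apply, Measure.restrict_apply_univ, smul_eq_mul, ENNReal.inv_mul_cancel h0 h1]
  · have h2 : volume {v : Fin 2 → ℂ | v 0 = 0} = 0 :=
      Measure.addHaar_submodule volume
        (LinearMap.ker (LinearMap.proj (R := ℝ) (φ := fun _ : Fin 2 => ℂ) 0)) fun e => by
          simpa using Submodule.eq_top_iff'.1 e 1
    rw [Measure.smul_apply, Measure.restrict_le_self.absolutelyContinuous h2, smul_zero]
  · let f : (Fin 2 → ℂ) →ₗ[ℝ] Fin 2 → ℂ := k.1.mulVecLin.restrictScalars ℝ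
    let g : (Fin 2 → ℂ) →ₗ[ℝ] Fin 2 → ℂ := k.1.conjTranspose.mulVecLin.restrictScalars ℝ
    have hfg : f ∘ₗ g = LinearMap.id := LinearMap.ext fun v => by
      change k.1.mulVec (k.1.conjTranspose.mulVec v) = v
      rw [Matrix.mulVec_mulVec, hk, Matrix.one_mulVec]
    have hd : LinearMap.det f ≠ 0 := fun e => by
      have h3 := congrArg LinearMap.det hfg
      rw [LinearMap.det_comp, e, zero_mul, LinearMap.det_id] at h3
      exact zero_ne_one h3
    have hm : Measurable f := f.continuous_of_finiteDimensional.measurable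
    have hB : f ⁻¹' B = B := Set.ext fun v => by
      change (star (k.1.mulVec v) ⬝ᵥ k.1.mulVec v).re < 1 ↔ _
      rw [nu_form hk]
      rfl
    have h3 := Measure.map_linearMap_addHaar_eq_smul_addHaar volume hd
    have h4 := congrArg (fun μ : Measure (Fin 2 → ℂ) => μ B) h3
    simp only [Measure.map_apply hm hBo.measurableSet, hB, Measure.smul_apply, smul_eq_mul] at h4
    rw [← (ENNReal.mul_left_inj h0 h1).1 ((one_mul _).trans h4), one_smul] at h3
    have h5 := (MeasurePreserving.mk hm h3).restrict_preimage hBo.measurableSet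
    rw [hB] at h5
    exact h5.smul_measure _

end Pool.Agent.SR
end PartNu

section PartBhat
open MeasureTheory

namespace Pool.Agent.SR

/-- The vector attached to a vertex and a sample point. -/
noncomputable def bhat_vec (y : Bool × SL2 ℂ) (v : Fin 2 → ℂ) : Fin 2 → ℂ :=
  y.2.1.mulVec (if y.1 then v else ![1, 0])

/-- The averaged cochain. -/
noncomputable def bhat_b (D : ℂ → ℝ) (ν : Measure (Fin 2 → ℂ)) (y : Fin 4 → Bool × SL2 ℂ) : ℝ :=
  ∫ v : Fin 4 → Fin 2 → ℂ, D (crv fun i => bhat_vec (y i) (v i)) ∂(Measure.pi fun _ => ν)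

theorem bhat_crv_meas : Measurable (crv : (Fin 4 → Fin 2 → ℂ) → ℂ) := by
  unfold crv det2
  fun_prop

theorem bhat_mulVec_meas (A : Matrix (Fin 2) (Fin 2) ℂ) :
    Measurable fun v : Fin 2 → ℂ => A.mulVec v := by
  refine measurable_pi_lambda _ fun j => ?_
  simp only [Matrix.mulVec, dotProduct, Fin.sum_univ_two]
  fun_prop

theorem bhat_vec_meas (y : Bool × SL2 ℂ) : Measurable (bhat_vec y) := by
  unfold bhat_vec
  rcases y with ⟨_ | _, g⟩
  · simp only [Bool.false_eq_true, if_false]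
    exact measurable_const
  · simp only [if_true]
    exact bhat_mulVec_meas _

theorem bhat_int_meas {D : ℂ → ℝ} (hD : BW D) (y : Fin 4 → Bool × SL2 ℂ) :
    Measurable fun v : Fin 4 → Fin 2 → ℂ => D (crv fun i => bhat_vec (y i) (v i)) :=
  hD.cont.measurable.comp (bhat_crv_meas.comp
    (measurable_pi_lambda _ fun i => (bhat_vec_meas (y i)).comp (measurable_pi_apply i)))

theorem bhat_vec_ne (y : Bool × SL2 ℂ) {v : Fin 2 → ℂ} (hv : v 0 ≠ 0) : bhat_vec y v ≠ 0 := by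
  intro h
  have h1 : (if y.1 then v else ![1, 0]) = 0 :=
    Matrix.eq_zero_of_mulVec_eq_zero (by rw [y.2.2]; exact one_ne_zero) h
  have h2 := congrFun h1 0
  rcases y with ⟨_ | _, g⟩
  · simp at h2
  · simp only [if_true] at h2
    exact hv h2

theorem bhat_ae {ν : Measure (Fin 2 → ℂ)} [IsProbabilityMeasure ν] (h0 : ν {v | v 0 = 0} = 0)
    (n : ℕ) : ∀ᵐ v : Fin n → Fin 2 → ℂ ∂(Measure.pi fun _ => ν), ∀ i, v i 0 ≠ 0 := by
  rw [ae_all_iff]
  intro i
  have h1 : ∀ᵐ w ∂ν, w 0 ≠ 0 := by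
    rw [ae_iff]
    simpa using h0
  exact (measurePreserving_eval (fun _ : Fin n => ν) i).quasiMeasurePreserving.ae h1

theorem bhat_forget (ν : Measure (Fin 2 → ℂ)) [IsProbabilityMeasure ν] (i : Fin 5) :
    MeasurePreserving (fun (v : Fin 5 → Fin 2 → ℂ) (j : Fin 4) => v (i.succAbove j))
      (Measure.pi fun _ => ν) (Measure.pi fun _ => ν) :=
  measurePreserving_snd.comp (measurePreserving_piFinSuccAbove (fun _ : Fin 5 => ν) i)

theorem bhat_comp {α β : Type*} [MeasurableSpace α] [MeasurableSpace β] {μ : Measure α}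
    {μ' : Measure β} {T : α → β} (hT : MeasurePreserving T μ μ') {f : β → ℝ} (hf : Measurable f) :
    ∫ a, f (T a) ∂μ = ∫ b, f b ∂μ' := by
  rw [← hT.map_eq, integral_map hT.measurable.aemeasurable hf.aestronglyMeasurable]

theorem bhat_coc {D : ℂ → ℝ} (hD : BW D) {ν : Measure (Fin 2 → ℂ)} [IsProbabilityMeasure ν]
    (h0 : ν {v | v 0 = 0} = 0) (y : Fin 5 → Bool × SL2 ℂ) : cob (bhat_b D ν) y = 0 := by
  obtain ⟨M, hM⟩ := hD.bdd
  have h1 : ∀ i : Fin 5, bhat_b D ν (fun j => y (i.succAbove j)) =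
      ∫ v : Fin 5 → Fin 2 → ℂ, D (crv fun j => bhat_vec (y (i.succAbove j)) (v (i.succAbove j)))
        ∂(Measure.pi fun _ => ν) := fun i =>
    (bhat_comp (bhat_forget ν i) (bhat_int_meas hD fun j => y (i.succAbove j))).symm
  have h2 : ∀ i : Fin 5, Integrable (fun v : Fin 5 → Fin 2 → ℂ => (-1 : ℝ) ^ (i : ℕ) *
      D (crv fun j => bhat_vec (y (i.succAbove j)) (v (i.succAbove j))))
      (Measure.pi fun _ => ν) := fun i => by
    refine Integrable.const_mul ?_ _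
    refine Integrable.of_bound ((bhat_int_meas hD fun j => y (i.succAbove j)).comp
      (bhat_forget ν i).measurable).aestronglyMeasurable M (ae_of_all _ fun v => hM _)
  unfold cob
  simp only [h1, ← integral_const_mul]
  rw [← integral_finsetSum _ fun i _ => h2 i]
  refine integral_eq_zero_of_ae ?_
  filter_upwards [bhat_ae h0 5] with v hv
  exact hD.five.five (fun i => bhat_vec (y i) (v i)) fun i => bhat_vec_ne _ (hv i)

theorem bhat_det (g : SL2 ℂ) (u v : Fin 2 → ℂ) :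
    det2 (g.1.mulVec u) (g.1.mulVec v) = det2 u v := by
  have h := g.2
  rw [Matrix.det_fin_two] at h
  simp only [det2, Matrix.mulVec, dotProduct, Fin.sum_univ_two]
  linear_combination (u 0 * v 1 - u 1 * v 0) * h

theorem bhat_inv (D : ℂ → ℝ) (ν : Measure (Fin 2 → ℂ)) (g : SL2 ℂ) (y : Fin 4 → Bool × SL2 ℂ) :
    bhat_b D ν (fun i => ((y i).1, g * (y i).2)) = bhat_b D ν y := by
  have h : ∀ (z : Bool × SL2 ℂ) (v : Fin 2 → ℂ),
      bhat_vec (z.1, g * z.2) v = g.1.mulVec (bhat_vec z v) := fun z v => by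
    simp only [bhat_vec, Matrix.SpecialLinearGroup.coe_mul, Matrix.mulVec_mulVec]
  simp only [bhat_b, h, crv, bhat_det]

theorem bhat_pt (D : ℂ → ℝ) (ν : Measure (Fin 2 → ℂ)) [IsProbabilityMeasure ν]
    (x : Fin 4 → SL2 ℂ) : bhat_b D ν (fun i => (false, x i)) = D (crv fun i => col0 (x i)) := by
  have h : ∀ (g : SL2 ℂ) (v : Fin 2 → ℂ), bhat_vec (false, g) v = col0 g := fun g v => by
    funext j
    simp [bhat_vec, col0, Matrix.mulVec, dotProduct, Fin.sum_univ_two]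
  simp [bhat_b, h]

theorem bhat_unit {D : ℂ → ℝ} (hD : BW D) {ν : Measure (Fin 2 → ℂ)} [IsProbabilityMeasure ν]
    (hk : ∀ k : SL2 ℂ, IsU k → MeasurePreserving (fun v => k.1.mulVec v) ν ν)
    (x k : Fin 4 → SL2 ℂ) (hu : ∀ i, IsU (k i)) :
    bhat_b D ν (fun i => (true, x i * k i)) = bhat_b D ν fun i => (true, x i) := by
  have h : ∀ (g k : SL2 ℂ) (v : Fin 2 → ℂ),
      bhat_vec (true, g * k) v = bhat_vec (true, g) (k.1.mulVec v) := fun g k v => by
    simp only [bhat_vec, Matrix.SpecialLinearGroup.coe_mul, Matrix.mulVec_mulVec, if_true]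
  simp only [bhat_b, h]
  exact bhat_comp (measurePreserving_pi (fun _ => ν) (fun _ => ν) fun i => hk (k i) (hu i))
    (bhat_int_meas hD fun i => (true, x i))

theorem bhat_entry (i j : Fin 2) : Measurable fun g : SL2 ℂ => g.1 i j := by
  refine Continuous.measurable ?_
  exact (continuous_apply j).comp ((continuous_apply i).comp continuous_subtype_val)

theorem bhat_meas {D : ℂ → ℝ} (hD : BW D) (ν : Measure (Fin 2 → ℂ)) [IsProbabilityMeasure ν] :
    Measurable fun x : Fin 4 → SL2 ℂ => bhat_b D ν fun i => (true, x i) := by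
  have h : Measurable fun p : (Fin 4 → SL2 ℂ) × (Fin 4 → Fin 2 → ℂ) =>
      D (crv fun i => bhat_vec (true, p.1 i) (p.2 i)) := by
    refine hD.cont.measurable.comp (bhat_crv_meas.comp
      (measurable_pi_lambda _ fun i => measurable_pi_lambda _ fun j => ?_))
    simp only [bhat_vec, if_true, Matrix.mulVec, dotProduct, Fin.sum_univ_two]
    have e : ∀ l, Measurable fun p : (Fin 4 → SL2 ℂ) × (Fin 4 → Fin 2 → ℂ) => (p.1 i).1 j l :=
      fun l => (bhat_entry j l).comp ((measurable_pi_apply i).comp measurable_fst)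
    have e' : ∀ l, Measurable fun p : (Fin 4 → SL2 ℂ) × (Fin 4 → Fin 2 → ℂ) => p.2 i l :=
      fun l => (measurable_pi_apply l).comp ((measurable_pi_apply i).comp measurable_snd)
    exact ((e 0).mul (e' 0)).add ((e 1).mul (e' 1))
  exact (h.stronglyMeasurable.integral_prod_right' (ν := Measure.pi fun _ => ν)).measurable

theorem bhat_bdd {D : ℂ → ℝ} (hD : BW D) (ν : Measure (Fin 2 → ℂ)) [IsProbabilityMeasure ν] :
    ∃ M, ∀ y, |bhat_b D ν y| ≤ M := by
  obtain ⟨M, hM⟩ := hD.bdd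
  refine ⟨M, fun y => ?_⟩
  have h := norm_integral_le_of_norm_le_const (μ := Measure.pi fun _ : Fin 4 => ν)
    (f := fun v : Fin 4 → Fin 2 → ℂ => D (crv fun i => bhat_vec (y i) (v i))) (C := M)
    (ae_of_all _ fun v => hM _)
  simpa [bhat_b] using h

/-- The contracting diagonal matrices. -/
noncomputable def bhat_dg (n : ℕ) : SL2 ℂ :=
  ⟨!![(n : ℂ) + 1, 0; 0, ((n : ℂ) + 1)⁻¹], by
    rw [Matrix.det_fin_two_of, mul_inv_cancel₀ (Nat.cast_add_one_ne_zero n)]
    ring⟩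

/-- Four matrices whose first columns have cross ratio `w`. -/
noncomputable def bhat_a (w : ℂ) : Fin 4 → SL2 ℂ :=
  ![1, ⟨!![0, -1; 1, 0], by simp⟩, ⟨!![1, 0; 1, 1], by simp⟩, ⟨!![w, -1; 1, 0], by simp⟩]

theorem bhat_smul (c : Fin 4 → ℂ) (hc : ∀ i, c i ≠ 0) (u : Fin 4 → Fin 2 → ℂ) :
    crv (fun i => c i • u i) = crv u := by
  have h : ∀ i j, det2 (c i • u i) (c j • u j) = c i * c j * det2 (u i) (u j) := fun i j => by
    simp only [det2, Pi.smul_apply, smul_eq_mul]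
    ring
  simp only [crv, h]
  rw [← mul_div_mul_left (det2 (u 0) (u 2) * det2 (u 1) (u 3)) _
    (mul_ne_zero (mul_ne_zero (hc 0) (hc 1)) (mul_ne_zero (hc 2) (hc 3)))]
  congr 1 <;> ring

theorem bhat_dg_vec (g : SL2 ℂ) (n : ℕ) {v : Fin 2 → ℂ} (hv : v 0 ≠ 0) :
    bhat_vec (true, g * bhat_dg n) v =
      (((n : ℂ) + 1) * v 0) • g.1.mulVec ![1, v 1 / v 0 * ((n : ℂ) + 1)⁻¹ ^ 2] := by
  have hn : (n : ℂ) + 1 ≠ 0 := Nat.cast_add_one_ne_zero n
  simp only [bhat_vec, if_true, Matrix.SpecialLinearGroup.coe_mul, ← Matrix.mulVec_mulVec]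
  rw [← Matrix.mulVec_smul]
  congr 1
  funext j
  fin_cases j
  · simp [bhat_dg, Matrix.mulVec, dotProduct, Fin.sum_univ_two]
  · simp [bhat_dg, Matrix.mulVec, dotProduct, Fin.sum_univ_two]
    field_simp

theorem bhat_lim_pt (w : ℂ) (r : Fin 4 → ℂ) :
    Filter.Tendsto (fun n : ℕ => crv fun i =>
      (bhat_a w i).1.mulVec ![1, r i * ((n : ℂ) + 1)⁻¹ ^ 2]) Filter.atTop (nhds w) := by
  have h1 : Filter.Tendsto (fun n : ℕ => ((n : ℂ) + 1)⁻¹) Filter.atTop (nhds 0) := by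
    simpa using tendsto_one_div_add_atTop_nhds_zero_nat (𝕜 := ℂ)
  have h2 : ContinuousAt (fun t : ℂ => crv fun i => (bhat_a w i).1.mulVec ![1, r i * t ^ 2]) 0 := by
    simp only [crv, det2, Matrix.mulVec, dotProduct, Fin.sum_univ_two, Matrix.cons_val_zero,
      Matrix.cons_val_one]
    refine ContinuousAt.div (by fun_prop) (by fun_prop) ?_
    simp [bhat_a]
  have h3 : (crv fun i => (bhat_a w i).1.mulVec ![1, r i * (0 : ℂ) ^ 2]) = w := by
    simp [crv, det2, Matrix.mulVec, dotProduct, Fin.sum_univ_two, bhat_a]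
  have h4 := h2.tendsto.comp h1
  rw [h3] at h4
  exact h4

theorem bhat_lim {D : ℂ → ℝ} (hD : BW D) {ν : Measure (Fin 2 → ℂ)} [IsProbabilityMeasure ν]
    (h0 : ν {v | v 0 = 0} = 0) (w : ℂ) :
    Filter.Tendsto (fun n : ℕ => bhat_b D ν fun i => (true, bhat_a w i * bhat_dg n))
      Filter.atTop (nhds (D w)) := by
  obtain ⟨M, hM⟩ := hD.bdd
  have h := tendsto_integral_of_dominated_convergence (μ := Measure.pi fun _ : Fin 4 => ν)
    (F := fun (n : ℕ) (v : Fin 4 → Fin 2 → ℂ) =>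
      D (crv fun i => bhat_vec (true, bhat_a w i * bhat_dg n) (v i))) (f := fun _ => D w)
    (fun _ => M) (fun n => (bhat_int_meas hD _).aestronglyMeasurable) (integrable_const M)
    (fun n => ae_of_all _ fun v => hM _) (by
      filter_upwards [bhat_ae h0 4] with v hv
      simp only [fun n i => bhat_dg_vec (bhat_a w i) n (hv i)]
      simp only [fun (n : ℕ) u => bhat_smul (fun i => ((n : ℂ) + 1) * v i 0)
        (fun i => mul_ne_zero (Nat.cast_add_one_ne_zero n) (hv i)) u]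
      exact (hD.cont.tendsto w).comp (bhat_lim_pt w fun i => v i 1 / v i 0))
  simpa [bhat_b] using h

theorem bhat_sbar (w : ℂ) (n : ℕ) (i : Fin 4) :
    sbar (bhat_a w i * bhat_dg n) = bhat_a ((starRingEnd ℂ) w) i * bhat_dg n := by
  have h1 : sbar (bhat_dg n) = bhat_dg n := by
    ext j l
    fin_cases j <;> fin_cases l <;> simp [sbar, slm, bhat_dg]
  have h2 : sbar (bhat_a w i) = bhat_a ((starRingEnd ℂ) w) i := by
    ext j l
    fin_cases i <;> fin_cases j <;> fin_cases l <;> simp [sbar, slm, bhat_a]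
  have h3 : sbar (bhat_a w i * bhat_dg n) = sbar (bhat_a w i) * sbar (bhat_dg n) :=
    map_mul (slm (starRingEnd ℂ)) _ _
  rw [h3, h1, h2]

/-- Plan: `b y = ∫ v : Fin 4 → Fin 2 → ℂ, D (crv fun i => (y i).2.1.mulVec (if (y i).1 then v i else ![1,0])) ∂(Measure.pi fun _ => ν)`
with `ν` from `exists_nu`. The integrand is bounded and measurable (`crv` is measurable: `fun_prop`/`measurability`).
`coc`: integrate the five term relation over `pi ν` on `Fin 5` (a.e. all `v i 0 ≠ 0`); forgetting a coordinate is measure preserving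
(`measurePreserving_piFinSuccAbove` then `measurePreserving_snd`). `inv`: `det2 (g u) (g v) = det2 u v`. `unit`: `measurePreserving_pi`.
`meas`: `StronglyMeasurable.integral_prod_right` (entries of `SL2 ℂ` are continuous, hence Borel; the product σ-algebra needs no countability here
since each coordinate map is measurable). `ne`: take `w` with `D w ≠ 0` (so `w ≠ 0, 1`), `a0 = 1, a1 = !![0,-1;1,0], a2 = !![1,0;1,1], a3 = !![w,-1;1,0]`
(first columns have cross ratio `w`), `x n i = a i * diag (n+1, 1/(n+1))`. `crv` is invariant under scaling each vector by a non-zero scalar, and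
`x n i v / ((n+1) v 0) → col0 (a i)` when `v 0 ≠ 0`; dominated convergence gives `b (true, x n) → D w` and `b (true, sbar (x n)) → D (conj w) = -D w`. -/
theorem exists_bhat {D : ℂ → ℝ} (hD : BW D) : ∃ b, BHat D b := by
  obtain ⟨ν, hν, h0, hk⟩ := exists_nu
  refine ⟨bhat_b D ν, bhat_coc hD h0, bhat_inv D ν, bhat_pt D ν, bhat_unit hD hk, bhat_meas hD ν,
    bhat_bdd hD ν, ?_⟩
  by_contra hc
  push Not at hc
  obtain ⟨w, hw⟩ := hD.ne
  have h1 := bhat_lim hD h0 w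
  have h2 := bhat_lim hD h0 ((starRingEnd ℂ) w)
  simp only [← bhat_sbar, hc fun i => bhat_a w i * bhat_dg _] at h2
  have h3 := tendsto_nhds_unique h1 h2
  rw [hD.conj] at h3
  exact hw (by linarith)

end Pool.Agent.SR
end PartBhat

section PartMean
open MeasureTheory

namespace Pool.Agent.SR

open scoped ENNReal in
theorem mean_unfold {G : Type} [Group G] [MeasurableSpace G] [MeasurableMul G] {Γ : Type} [Group Γ]
    [Countable Γ] (j : Γ →* G) (μ : Measure G) [μ.IsMulLeftInvariant] {a b u : G → ℝ≥0∞}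
    (ha : Measurable a) (hb : Measurable b) (hu : Measurable u)
    (sa : ∀ y, ∑' γ, a (j γ * y) = 1) (sb : ∀ y, ∑' γ, b (j γ * y) = 1)
    (iu : ∀ γ y, u (j γ * y) = u y) : ∫⁻ y, a y * u y ∂μ = ∫⁻ y, b y * u y ∂μ := by
  have e1 : ∫⁻ y, a y * u y ∂μ = ∑' γ, ∫⁻ y, b (j γ * y) * (a y * u y) ∂μ := by
    rw [← lintegral_tsum fun γ => (by fun_prop)]
    refine lintegral_congr fun y => ?_
    rw [ENNReal.tsum_mul_right, sb, one_mul]
  have e2 : ∫⁻ y, b y * u y ∂μ = ∑' γ, ∫⁻ y, a (j γ * y) * (b y * u y) ∂μ := by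
    rw [← lintegral_tsum fun γ => (by fun_prop)]
    refine lintegral_congr fun y => ?_
    rw [ENNReal.tsum_mul_right, sa, one_mul]
  rw [e1, e2, ← (Equiv.inv Γ).tsum_eq]
  refine tsum_congr fun γ => ?_
  rw [← lintegral_mul_left_eq_self _ (j γ)]
  refine lintegral_congr fun y => ?_
  rw [Equiv.inv_apply, map_inv, inv_mul_cancel_left, iu, mul_left_comm]

open scoped ENNReal in
theorem mean_cut {G : Type} [Group G] [TopologicalSpace G] [IsTopologicalGroup G] [T2Space G]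
    [MeasurableSpace G] [BorelSpace G] {Γ : Type} [Group Γ] [Countable Γ] (j : Γ →* G) (C : Set G)
    (hC : IsCompact C) (hcov : ∀ x, ∃ γ, (j γ)⁻¹ * x ∈ C)
    (hprop : ∀ K : Set G, IsCompact K → {γ | j γ ∈ K}.Finite) :
    ∃ a : G → ℝ≥0∞, Measurable a ∧ (∀ y, ∑' γ, a (j γ * y) = 1) ∧ ∀ y, a y ≤ C.indicator 1 y := by
  have mC : Measurable (C.indicator (1 : G → ℝ≥0∞)) :=
    measurable_one.indicator hC.isClosed.measurableSet
  obtain ⟨N, hN⟩ : ∃ N : G → ℝ≥0∞, N = fun y => ∑' γ, C.indicator 1 (j γ * y) := ⟨_, rfl⟩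
  have mN : Measurable N :=
    hN ▸ Measurable.tsum fun γ => mC.comp (measurable_const_mul _)
  have n1 : ∀ y, 1 ≤ N y := fun y => by
    obtain ⟨γ, h⟩ := hcov y
    rw [hN]
    refine le_trans ?_ (ENNReal.le_tsum γ⁻¹)
    rw [map_inv, Set.indicator_of_mem h, Pi.one_apply]
  have n2 : ∀ y, N y ≠ ⊤ := fun y => by
    have f := hprop _ (hC.image (continuous_mul_const y⁻¹))
    rw [hN]
    simp only
    rw [tsum_eq_sum (s := f.toFinset) fun γ h => Set.indicator_of_notMem (fun c => h (by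
      rw [Set.Finite.mem_toFinset]
      exact ⟨_, c, by simp⟩)) _]
    refine ENNReal.sum_ne_top.2 fun γ _ => ?_
    by_cases c : j γ * y ∈ C <;> simp [c]
  have n3 : ∀ γ y, N (j γ * y) = N y := fun γ y => by
    rw [hN]
    simp only
    rw [← (Equiv.mulRight γ).tsum_eq fun δ => C.indicator (1 : G → ℝ≥0∞) (j δ * y)]
    refine tsum_congr fun δ => ?_
    rw [Equiv.coe_mulRight, map_mul, mul_assoc]
  refine ⟨fun y => C.indicator 1 y * (N y)⁻¹, mC.mul mN.inv, fun y => ?_, fun y => ?_⟩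
  · simp only [n3]
    rw [ENNReal.tsum_mul_right]
    have : ∑' γ, C.indicator (1 : G → ℝ≥0∞) (j γ * y) = N y := by rw [hN]
    rw [this, ENNReal.mul_inv_cancel (zero_lt_one.trans_le (n1 y)).ne' (n2 y)]
  · exact mul_le_of_le_one_right' (ENNReal.inv_le_one.2 (n1 y))

/-- Invariant mean on `Γ \ G`. Plan: `Γ` is countable (`G` is σ-compact, `hprop`). `S y = {γ | (j γ)⁻¹ * y ∈ C}` is finite
(`j γ ∈ y C⁻¹`) and non-empty, `S (j γ * y) = γ S y`; `n y = card (S y)` is measurable and `Γ`-invariant; `ψ = 1_C / n` has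
`∑ γ, ψ ((j γ)⁻¹ y) = 1`. Let `μ` be a left Haar measure; `0 < ∫ ψ < ∞` (`G` is a countable union of translates of `C`).
Unfolding: if `ψ₁, ψ₂` are two such cut-offs and `u ≥ 0` is measurable and `Γ`-invariant then `∫⁻ ψ₁ u dμ = ∫⁻ ψ₂ u dμ`
(insert `∑ γ ψ₂`, `lintegral_tsum`, left invariance, reindex `γ ↦ γ⁻¹`). `map (· * g) μ = Δ • μ` by uniqueness of Haar measure, so
`∫⁻ ψ(y) u(y g) dμ = Δ ∫⁻ ψ(y g⁻¹) u(y) dμ = Δ ∫⁻ ψ u dμ`, and `u = 1` gives `Δ = 1` by the same computation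
(`∫⁻ ψ(y) dμ = Δ ∫⁻ ψ(y g⁻¹) dμ = Δ ∫⁻ ψ dμ`). Take `ν = (∫ψ)⁻¹ • μ.withDensity ψ`; pass to real `u` by positive and negative parts. -/
theorem exists_mean {G : Type} [Group G] [TopologicalSpace G] [IsTopologicalGroup G]
    [LocallyCompactSpace G] [SecondCountableTopology G] [T2Space G] [MeasurableSpace G]
    [BorelSpace G] {Γ : Type} [Group Γ] (j : Γ →* G) (C : Set G) (hC : IsCompact C)
    (hcov : ∀ x, ∃ γ, (j γ)⁻¹ * x ∈ C)
    (hprop : ∀ K : Set G, IsCompact K → {γ | j γ ∈ K}.Finite) :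
    ∃ ν : Measure G, IsProbabilityMeasure ν ∧ ∀ u : G → ℝ, Measurable u → (∃ M, ∀ y, |u y| ≤ M) →
      (∀ γ y, u (j γ * y) = u y) → ∀ g, ∫ y, u (y * g) ∂ν = ∫ y, u y ∂ν := by
  have : Countable Γ := by
    rw [← Set.countable_univ_iff]
    refine (Set.countable_iUnion fun n =>
      (hprop _ (isCompact_compactCovering G n)).countable).mono fun γ _ => ?_
    obtain ⟨n, hn⟩ := exists_mem_compactCovering (j γ)
    exact Set.mem_iUnion.2 ⟨n, hn⟩
  obtain ⟨a, ma, sa, la⟩ := mean_cut j C hC hcov hprop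
  let μ : Measure G := Measure.haar
  obtain ⟨I, hI⟩ : ∃ I, I = ∫⁻ y, a y ∂μ := ⟨_, rfl⟩
  have I1 : I ≠ ⊤ := by
    refine ne_top_of_le_ne_top (hC.measure_lt_top (μ := μ)).ne ?_
    rw [hI, ← lintegral_indicator_one hC.isClosed.measurableSet]
    exact lintegral_mono la
  have I0 : I ≠ 0 := fun h => by
    have e : μ Set.univ = ∑' γ, ∫⁻ y, a (j γ * y) ∂μ := by
      rw [← lintegral_tsum fun γ => (by fun_prop)]
      simp only [sa, lintegral_one]
    simp only [lintegral_mul_left_eq_self, ← hI, h, tsum_zero] at e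
    exact isOpen_univ.measure_ne_zero μ Set.univ_nonempty e
  have key : ∀ u : G → ENNReal, Measurable u → (∀ γ y, u (j γ * y) = u y) → ∀ g,
      ∫⁻ y, a y * u (y * g) ∂μ = ∫⁻ y, a y * u y ∂μ := by
    intro u mu iu g
    obtain ⟨D, hD⟩ : ∃ D : NNReal, μ.map (· * g) = D • μ :=
      ⟨_, Measure.isMulLeftInvariant_eq_smul _ _⟩
    have k : ∀ u : G → ENNReal, Measurable u → (∀ γ y, u (j γ * y) = u y) →
        ∫⁻ y, a y * u (y * g) ∂μ = D * ∫⁻ y, a y * u y ∂μ := fun u mu iu => by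
      have mb : Measurable fun y => a (y * g⁻¹) := ma.comp (measurable_mul_const _)
      rw [mean_unfold j μ ma mb mu sa (fun y => by simp only [mul_assoc, sa]) iu,
        ← smul_eq_mul, ← ENNReal.smul_def, ← lintegral_smul_measure, ← hD,
        lintegral_map (by fun_prop) (measurable_mul_const _)]
      simp only [mul_inv_cancel_right]
    have k1 := k 1 measurable_one fun _ _ => rfl
    simp only [Pi.one_apply, mul_one, ← hI] at k1
    have d1 : (D : ENNReal) = 1 := by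
      rw [← ENNReal.mul_left_inj I0 I1, one_mul, ← k1]
    rw [k u mu iu, d1, one_mul]
  have pr : IsProbabilityMeasure (I⁻¹ • μ.withDensity a) := ⟨by
    rw [Measure.smul_apply, withDensity_apply _ MeasurableSet.univ, Measure.restrict_univ, ← hI,
      smul_eq_mul, ENNReal.inv_mul_cancel I0 I1]⟩
  have key2 : ∀ u : G → ENNReal, Measurable u → (∀ γ y, u (j γ * y) = u y) → ∀ g,
      ∫⁻ y, u (y * g) ∂(I⁻¹ • μ.withDensity a) = ∫⁻ y, u y ∂(I⁻¹ • μ.withDensity a) := by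
    intro u mu iu g
    rw [lintegral_smul_measure, lintegral_smul_measure, lintegral_withDensity_eq_lintegral_mul _ ma mu,
      lintegral_withDensity_eq_lintegral_mul _ ma (g := fun y => u (y * g)) (by fun_prop)]
    exact congrArg _ (key u mu iu g)
  refine ⟨_, pr, fun u mu ⟨M, hM⟩ iu g => ?_⟩
  have i1 : Integrable u (I⁻¹ • μ.withDensity a) :=
    .of_bound mu.aestronglyMeasurable M (ae_of_all _ hM)
  have i2 : Integrable (fun y => u (y * g)) (I⁻¹ • μ.withDensity a) :=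
    .of_bound (mu.comp (measurable_mul_const g)).aestronglyMeasurable M (ae_of_all _ fun y => hM _)
  rw [integral_eq_lintegral_pos_part_sub_lintegral_neg_part i1,
    integral_eq_lintegral_pos_part_sub_lintegral_neg_part i2,
    key2 (fun y => ENNReal.ofReal (u y)) mu.ennreal_ofReal (fun γ y => by simp only [iu]) g,
    key2 (fun y => ENNReal.ofReal (-u y)) mu.neg.ennreal_ofReal (fun γ y => by simp only [iu]) g]

end Pool.Agent.SR
end PartMean

section PartTrans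
open MeasureTheory

namespace Pool.Agent.SR

/-- Average of `Θ` over all choices of `γ i ∈ S (x i)`. -/
noncomputable def trans_avg {G Γ : Type} (S : G → Finset Γ) {n : ℕ} (Θ : (Fin n → Γ × G) → ℝ)
    (x : Fin n → G) : ℝ :=
  (∏ i, ((S (x i)).card : ℝ))⁻¹ *
    ∑ γ ∈ Fintype.piFinset (fun i => S (x i)), Θ fun i => (γ i, x i)

theorem trans_pos {G Γ : Type} {S : G → Finset Γ} (hS : ∀ x, (S x).Nonempty) {n : ℕ}
    (x : Fin n → G) : 0 < ∏ i, ((S (x i)).card : ℝ) :=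
  Finset.prod_pos fun i _ => Nat.cast_pos.2 (hS (x i)).card_pos

theorem trans_const {G Γ : Type} {S : G → Finset Γ} (hS : ∀ x, (S x).Nonempty) {n : ℕ}
    (c : (Fin n → G) → ℝ) (x : Fin n → G) :
    trans_avg S (fun y => c fun i => (y i).2) x = c x := by
  unfold trans_avg
  simp only [Finset.sum_const, Fintype.card_piFinset, nsmul_eq_mul, Nat.cast_prod]
  rw [← mul_assoc, inv_mul_cancel₀ (trans_pos hS x).ne', one_mul]

theorem trans_bound {G Γ : Type} {S : G → Finset Γ} (hS : ∀ x, (S x).Nonempty) {n : ℕ}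
    (Θ : (Fin n → Γ × G) → ℝ) (x : Fin n → G) {B : ℝ}
    (h : ∀ γ : Fin n → Γ, (∀ i, γ i ∈ S (x i)) → |Θ fun i => (γ i, x i)| ≤ B) :
    |trans_avg S Θ x| ≤ B := by
  unfold trans_avg
  have h0 := trans_pos hS x
  rw [abs_mul, abs_of_pos (inv_pos.2 h0), inv_mul_le_iff₀ h0]
  refine (Finset.abs_sum_le_sum_abs _ _).trans ?_
  refine (Finset.sum_le_card_nsmul _ _ B fun γ hγ => h γ (Fintype.mem_piFinset.1 hγ)).trans ?_
  simp only [Fintype.card_piFinset, nsmul_eq_mul, Nat.cast_prod]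
  exact le_rfl

theorem trans_drop {G Γ : Type} {S : G → Finset Γ} (hS : ∀ x, (S x).Nonempty) {n : ℕ}
    (Θ : (Fin n → Γ × G) → ℝ) (x : Fin (n + 1) → G) (i : Fin (n + 1)) :
    trans_avg S (fun y => Θ fun k => y (i.succAbove k)) x =
      trans_avg S Θ fun k => x (i.succAbove k) := by
  unfold trans_avg
  have e : ∑ γ ∈ Fintype.piFinset (fun k => S (x k)),
      Θ (fun k => (γ (i.succAbove k), x (i.succAbove k))) =
      ∑ p ∈ S (x i) ×ˢ Fintype.piFinset (fun k => S (x (i.succAbove k))),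
        Θ fun k => (p.2 k, x (i.succAbove k)) := by
    symm
    refine Finset.sum_equiv (Fin.insertNthEquiv (fun _ => Γ) i) (fun p => ?_) fun p _ => ?_
    · rw [Finset.mem_product, Fintype.mem_piFinset, Fintype.mem_piFinset, Fin.forall_iff_succAbove i]
      simp [Fin.insertNthEquiv]
    · simp [Fin.insertNthEquiv]
  have h1 : ((S (x i)).card : ℝ) ≠ 0 := (Nat.cast_pos.2 (hS (x i)).card_pos).ne'
  rw [e, Finset.sum_product, Fin.prod_univ_succAbove _ i]
  simp only [Finset.sum_const, nsmul_eq_mul]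
  rw [mul_inv, mul_mul_mul_comm, inv_mul_cancel₀ h1, one_mul]

theorem trans_cob {G Γ : Type} {S : G → Finset Γ} (hS : ∀ x, (S x).Nonempty) {n : ℕ}
    (Θ : (Fin n → Γ × G) → ℝ) (x : Fin (n + 1) → G) :
    cob (trans_avg S Θ) x = trans_avg S (cob Θ) x := by
  unfold cob
  simp only [← trans_drop hS Θ x]
  unfold trans_avg
  rw [Finset.sum_comm, Finset.mul_sum]
  refine Finset.sum_congr rfl fun i _ => ?_
  rw [← Finset.mul_sum, mul_left_comm]

theorem trans_meas {X A : Type} [MeasurableSpace X] [Countable A] (T : X → A)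
    (hT : ∀ a, MeasurableSet (T ⁻¹' {a})) (F : A → X → ℝ) (hF : ∀ a, Measurable (F a)) :
    Measurable fun x => F (T x) x := by
  let : MeasurableSpace A := ⊤
  have h1 : Measurable fun p : A × X => F p.1 p.2 := measurable_from_prod_countable_right hF
  exact h1.comp ((measurable_to_countable' hT).prodMk measurable_id)

/-- First step: extend the primitive from `Γ` to `G`. Plan: on vertices `Γ × G` let
`Θ y = f (fst ∘ y) + prism c (j ∘ fst) snd y`; by `cob_prism` and `hf`, `cob Θ = c ∘ snd`. `Θ` is invariant under the diagonal action of `Γ`,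
and for fixed `Γ`-coordinates it is measurable, bounded and right `U`-invariant in the `G`-coordinates. `S x = {γ | (j γ)⁻¹ x ∈ C}` as a `Finset`;
`f' x = (∏ i, card (S (x i)))⁻¹ * ∑ γ ∈ Fintype.piFinset (S ∘ x), Θ (fun i => (γ i, x i))`. `S : G → Finset Γ` is measurable for the discrete
σ-algebra of the countable type `Finset Γ`, use `measurable_from_prod_countable_left/right`. For `cob f' = c` average the identity `cob Θ = c` over
`piFinset` on `Fin 7` (summing out one coordinate: `Fin.insertNthEquiv` / `Fin.insertNth`). On compact sets only finitely many `γ` occur. -/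
theorem extend_prim {G : Type} [Group G] [TopologicalSpace G] [IsTopologicalGroup G]
    [LocallyCompactSpace G] [SecondCountableTopology G] [T2Space G] [MeasurableSpace G]
    [BorelSpace G] {Γ : Type} [Group Γ] (j : Γ →* G) (C : Set G) (hC : IsCompact C)
    (hcov : ∀ x, ∃ γ, (j γ)⁻¹ * x ∈ C)
    (hprop : ∀ K : Set G, IsCompact K → {γ | j γ ∈ K}.Finite)
    (U : Set G) (hU : ∀ x, ∀ k ∈ U, (x * k ∈ C ↔ x ∈ C))
    (c : (Fin 7 → G) → ℝ) (hm : Measurable c) (hb : ∃ M, ∀ x, |c x| ≤ M)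
    (hG : ∀ g x, c (fun i => g * x i) = c x)
    (hK : ∀ x k : Fin 7 → G, (∀ i, k i ∈ U ∨ k i = 1) → c (fun i => x i * k i) = c x)
    (hc : ∀ y : Fin 8 → G, cob c y = 0)
    (f : (Fin 6 → Γ) → ℝ) (hfi : ∀ γ x, f (fun i => γ * x i) = f x)
    (hf : ∀ x, cob f x = c fun i => j (x i)) :
    ∃ f' : (Fin 6 → G) → ℝ, Measurable f' ∧
      (∀ K : Set G, IsCompact K → ∃ M, ∀ x, (∀ i, x i ∈ K) → |f' x| ≤ M) ∧
      (∀ γ x, f' (fun i => j γ * x i) = f' x) ∧
      (∀ x k : Fin 6 → G, (∀ i, k i ∈ U) → f' (fun i => x i * k i) = f' x) ∧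
      ∀ x, cob f' x = c x := by
  classical
  have : Countable Γ := by
    rw [← Set.countable_univ_iff]
    refine (Set.countable_iUnion fun n =>
      (hprop _ (isCompact_compactCovering G n)).countable).mono fun γ _ => ?_
    obtain ⟨n, hn⟩ := exists_mem_compactCovering (j γ)
    exact Set.mem_iUnion.2 ⟨n, hn⟩
  have hfin : ∀ K : Set G, IsCompact K → {γ | ∃ x ∈ K, (j γ)⁻¹ * x ∈ C}.Finite := by
    intro K hKc
    refine (hprop _ ((hKc.prod hC).image (f := fun p : G × G => p.1 * p.2⁻¹)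
      (by fun_prop))).subset ?_
    rintro γ ⟨x, hx, h⟩
    exact ⟨(x, (j γ)⁻¹ * x), ⟨hx, h⟩, by simp⟩
  obtain ⟨S, hS⟩ : ∃ S : G → Finset Γ, ∀ x γ, γ ∈ S x ↔ (j γ)⁻¹ * x ∈ C :=
    ⟨fun x => (hfin {x} isCompact_singleton).toFinset, fun x γ => by simp⟩
  have hne : ∀ x, (S x).Nonempty := fun x => (hcov x).imp fun γ h => (hS x γ).2 h
  obtain ⟨M, hM⟩ := hb
  set Θ : (Fin 6 → Γ × G) → ℝ := fun y =>
    f (fun i => (y i).1) + prism c (fun p : Γ × G => j p.1) Prod.snd y with hΘ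
  refine ⟨trans_avg S Θ, ?_, ?_, ?_, ?_, ?_⟩
  · refine trans_meas (fun (x : Fin 6 → G) i => S (x i)) (fun a => ?_)
      (fun a x => (∏ i, ((a i).card : ℝ))⁻¹ *
        ∑ γ ∈ Fintype.piFinset a, Θ fun i => (γ i, x i)) fun a => ?_
    · have e : (fun (x : Fin 6 → G) i => S (x i)) ⁻¹' {a} =
          {x | ∀ i γ, ((j γ)⁻¹ * x i ∈ C ↔ γ ∈ a i)} := by
        ext x
        simp only [Set.mem_preimage, Set.mem_singleton_iff, Set.mem_ofPred_eq, funext_iff,
          Finset.ext_iff, hS]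
      rw [e, measurableSet_setOfPred]
      refine Measurable.forall fun i => Measurable.forall fun γ => Measurable.iff ?_ measurable_const
      exact measurableSet_setOfPred.1
        (hC.isClosed.measurableSet.preimage ((measurable_pi_apply i).const_mul _))
    · refine Measurable.const_mul (Finset.measurable_sum _ fun γ _ => ?_) _
      simp only [hΘ, prism]
      refine Measurable.const_add (Finset.measurable_sum _ fun k _ => ?_) _
      refine Measurable.const_mul (hm.comp (measurable_pi_lambda _ fun i => ?_)) _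
      split_ifs
      · exact measurable_const
      · exact measurable_pi_apply _
  · intro K hKc
    refine ⟨∑ γ ∈ Fintype.piFinset (fun _ : Fin 6 => (hfin K hKc).toFinset), |f γ| + 6 * M,
      fun x hx => trans_bound hne Θ x fun γ hγ => (abs_add_le _ _).trans (add_le_add ?_ ?_)⟩
    · refine Finset.single_le_sum (f := fun γ => |f γ|) (fun _ _ => abs_nonneg _) ?_
      exact Fintype.mem_piFinset.2 fun i =>
        (Set.Finite.mem_toFinset _).2 ⟨x i, hx i, (hS _ _).1 (hγ i)⟩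
    · refine (Finset.abs_sum_le_sum_abs _ _).trans ?_
      refine (Finset.sum_le_card_nsmul _ _ M fun k _ => ?_).trans (by simp)
      rw [abs_mul, abs_pow, abs_neg, abs_one, one_pow, one_mul]
      exact hM _
  · intro δ x
    have e : ∀ (y : G) (γ : Γ), γ ∈ S y ↔ δ * γ ∈ S (j δ * y) := fun y γ => by
      rw [hS, hS, map_mul, mul_inv_rev, mul_assoc, inv_mul_cancel_left]
    have e1 : ∀ y : G, (S (j δ * y)).card = (S y).card := fun y =>
      (Finset.card_equiv (Equiv.mulLeft δ) (e y)).symm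
    unfold trans_avg
    simp only [e1]
    congr 1
    symm
    refine Finset.sum_equiv (Equiv.mulLeft (fun _ => δ : Fin 6 → Γ)) (fun γ => ?_) fun γ _ => ?_
    · rw [Fintype.mem_piFinset, Fintype.mem_piFinset]
      exact forall_congr' fun i => e _ _
    · change f γ + _ = f (fun i => δ * γ i) + _
      rw [hfi]
      refine congrArg _ (Finset.sum_congr rfl fun k _ => congrArg _ ?_)
      rw [← hG (j δ)]
      refine congrArg c (funext fun i => ?_)
      split_ifs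
      · exact (map_mul j _ _).symm
      · rfl
  · intro x k hk
    have e : ∀ i, S (x i * k i) = S (x i) := fun i => Finset.ext fun γ => by
      rw [hS, hS, ← mul_assoc, hU _ _ (hk i)]
    unfold trans_avg
    simp only [e]
    refine congrArg _ (Finset.sum_congr rfl fun γ _ => ?_)
    refine congrArg (f γ + ·) (Finset.sum_congr rfl fun l _ => congrArg _ ?_)
    refine Eq.trans (congrArg c (funext fun i => ?_))
      (hK _ (fun i => if i ≤ l.castSucc then 1 else k (l.predAbove i)) fun i => ?_)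
    · split_ifs
      · exact (mul_one _).symm
      · rfl
    · split_ifs
      · exact Or.inr rfl
      · exact Or.inl (hk _)
  · intro x
    have e : cob Θ = fun y => c fun i => (y i).2 := by
      funext y
      have e1 := cob_prism c hc (fun p : Γ × G => j p.1) Prod.snd y
      have e2 := hf fun i => (y i).1
      unfold cob at e1 e2 ⊢
      simp only [hΘ, mul_add, Finset.sum_add_distrib]
      linarith
    rw [trans_cob hne, e, trans_const hne]

/-- Transfer. Plan: `Φ x = ∫ y, f' (fun i => y * x i) ∂ν` with `ν` from `exists_mean`, `f'` from `extend_prim`; the integrand is measurable,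
`Γ`-invariant, and bounded (move `y` into `C`; `C * x i` is compact). -/
theorem transfer {G : Type} [Group G] [TopologicalSpace G] [IsTopologicalGroup G]
    [LocallyCompactSpace G] [SecondCountableTopology G] [T2Space G] [MeasurableSpace G]
    [BorelSpace G] {Γ : Type} [Group Γ] (j : Γ →* G) (C : Set G) (hC : IsCompact C)
    (hcov : ∀ x, ∃ γ, (j γ)⁻¹ * x ∈ C)
    (hprop : ∀ K : Set G, IsCompact K → {γ | j γ ∈ K}.Finite)
    (U : Set G) (hU : ∀ x, ∀ k ∈ U, (x * k ∈ C ↔ x ∈ C))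
    (c : (Fin 7 → G) → ℝ) (hm : Measurable c) (hb : ∃ M, ∀ x, |c x| ≤ M)
    (hG : ∀ g x, c (fun i => g * x i) = c x)
    (hK : ∀ x k : Fin 7 → G, (∀ i, k i ∈ U ∨ k i = 1) → c (fun i => x i * k i) = c x)
    (hc : ∀ y : Fin 8 → G, cob c y = 0)
    (f : (Fin 6 → Γ) → ℝ) (hfi : ∀ γ x, f (fun i => γ * x i) = f x)
    (hf : ∀ x, cob f x = c fun i => j (x i)) :
    ∃ Φ : (Fin 6 → G) → ℝ, (∀ g x, Φ (fun i => g * x i) = Φ x) ∧
      (∀ x k : Fin 6 → G, (∀ i, k i ∈ U) → Φ (fun i => x i * k i) = Φ x) ∧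
      ∀ x, cob Φ x = c x := by
  obtain ⟨f', h1, h2, h3, h4, h5⟩ :=
    extend_prim j C hC hcov hprop U hU c hm hb hG hK hc f hfi hf
  obtain ⟨ν, hν, hmean⟩ := exists_mean j C hC hcov hprop
  have hme : ∀ x : Fin 6 → G, Measurable fun y : G => f' fun i => y * x i := fun x =>
    h1.comp (measurable_pi_lambda _ fun i => measurable_mul_const (x i))
  have hin : ∀ (x : Fin 6 → G) γ y, (f' fun i => j γ * y * x i) = f' fun i => y * x i :=
    fun x γ y => by simpa only [mul_assoc] using h3 γ fun i => y * x i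
  have hbd : ∀ x : Fin 6 → G, ∃ M, ∀ y : G, |f' fun i => y * x i| ≤ M := fun x => by
    obtain ⟨M, hM⟩ := h2 (⋃ i, (fun y => y * x i) '' C)
      (isCompact_iUnion fun i => hC.image (continuous_mul_const _))
    refine ⟨M, fun y => ?_⟩
    obtain ⟨γ, hγ⟩ := hcov y
    rw [← hin x γ⁻¹ y, map_inv]
    exact hM _ fun i => Set.mem_iUnion.2 ⟨i, _, hγ, rfl⟩
  have hint : ∀ x : Fin 6 → G, Integrable (fun y : G => f' fun i => y * x i) ν := fun x => by
    obtain ⟨M, hM⟩ := hbd x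
    exact Integrable.of_bound (hme x).aestronglyMeasurable M (Filter.Eventually.of_forall hM)
  refine ⟨fun x => ∫ y, f' (fun i => y * x i) ∂ν, fun g x => ?_, fun x k hk => ?_, fun x => ?_⟩
  · simpa only [mul_assoc] using hmean _ (hme x) (hbd x) (hin x) g
  · refine integral_congr_ae (Filter.Eventually.of_forall fun y => ?_)
    simpa only [mul_assoc] using h4 (fun i => y * x i) k hk
  · have e : ∀ y : G, ∑ i : Fin 7, (-1 : ℝ) ^ (i : ℕ) * f' (fun l => y * x (i.succAbove l)) = c x :=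
      fun y => (h5 fun i => y * x i).trans (hG y x)
    calc _ = ∑ i : Fin 7, ∫ y, (-1 : ℝ) ^ (i : ℕ) * f' (fun l => y * x (i.succAbove l)) ∂ν :=
          Finset.sum_congr rfl fun i _ => (integral_const_mul _ _).symm
      _ = ∫ _y, c x ∂ν := by
          rw [← integral_finsetSum _ fun i _ => (hint fun l => x (i.succAbove l)).const_mul _]
          simp only [e]
      _ = c x := by simp

end Pool.Agent.SR
end PartTrans

section PartNV
namespace Pool.Agent.SR

theorem nv_isU_one : IsU 1 := by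
  simp [IsU]

theorem nv_cob_add {Y : Type*} {n : ℕ} (f g : (Fin n → Y) → ℝ) (x : Fin (n + 1) → Y) :
    cob (fun y => f y + g y) x = cob f x + cob g x := by
  simp only [cob, mul_add, Finset.sum_add_distrib]

theorem nv_cob_comp {X Y : Type*} {n : ℕ} (f : (Fin n → Y) → ℝ) (p : X → Y)
    (x : Fin (n + 1) → X) :
    cob (fun y => f fun i => p (y i)) x = cob f fun i => p (x i) := rfl

/-- The cup product of the two averaged cocycles on vertices `Bool × SL₂ × SL₂`. -/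
noncomputable def nv_chat (b : (Fin 4 → Bool × SL2 ℂ) → ℝ) :
    (Fin 7 → Bool × (SL2 ℂ × SL2 ℂ)) → ℝ :=
  cup (fun y => b fun i => ((y i).1, (y i).2.1)) (fun y => b fun i => ((y i).1, (y i).2.2))

theorem nv_chat_coc {D : ℂ → ℝ} {b : (Fin 4 → Bool × SL2 ℂ) → ℝ} (hb : BHat D b)
    (y : Fin 8 → Bool × (SL2 ℂ × SL2 ℂ)) : cob (nv_chat b) y = 0 := by
  apply cob_cup
  · exact (nv_cob_comp b (fun z : Bool × (SL2 ℂ × SL2 ℂ) => (z.1, z.2.1)) _).trans (hb.coc _)
  · exact (nv_cob_comp b (fun z : Bool × (SL2 ℂ × SL2 ℂ) => (z.1, z.2.2)) _).trans (hb.coc _)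

theorem nv_chat_inv {D : ℂ → ℝ} {b : (Fin 4 → Bool × SL2 ℂ) → ℝ} (hb : BHat D b)
    (g : SL2 ℂ × SL2 ℂ) (y : Fin 7 → Bool × (SL2 ℂ × SL2 ℂ)) :
    nv_chat b (fun i => ((y i).1, g * (y i).2)) = nv_chat b y := by
  have h1 := hb.inv g.1 fun i => ((y (lo4 i)).1, (y (lo4 i)).2.1)
  have h2 := hb.inv g.2 fun i => ((y (hi4 i)).1, (y (hi4 i)).2.2)
  simp only [nv_chat, cup, Prod.fst_mul, Prod.snd_mul]
  rw [h1, h2]

theorem nv_prism_inv {Γ : Type} [Group Γ] {D : ℂ → ℝ} {b : (Fin 4 → Bool × SL2 ℂ) → ℝ}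
    (hb : BHat D b) (j : Γ →* SL2 ℂ × SL2 ℂ) (γ : Γ) (x : Fin 6 → Γ) :
    prism (nv_chat b) (fun t => (false, j t)) (fun t => (true, j t)) (fun i => γ * x i) =
      prism (nv_chat b) (fun t => (false, j t)) (fun t => (true, j t)) x := by
  unfold prism
  refine Finset.sum_congr rfl fun m _ => ?_
  congr 1
  rw [← nv_chat_inv hb (j γ) fun i => if i ≤ m.castSucc then (false, j (x (m.predAbove i)))
    else (true, j (x (m.predAbove i)))]
  congr 1
  funext i
  split_ifs <;> simp only [map_mul]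

theorem nv_bdd0 {H : Type*} [TopologicalSpace H] (u : H → ℝ) (hu : Continuous u)
    (K : Set (H × H)) (hK : IsCompact K) : ∃ R : ℝ, ∀ g ∈ K, u g.1 ≤ R ∧ u g.2 ≤ R := by
  obtain ⟨R1, h1⟩ := hK.bddAbove_image (hu.comp continuous_fst).continuousOn
  obtain ⟨R2, h2⟩ := hK.bddAbove_image (hu.comp continuous_snd).continuousOn
  exact ⟨max R1 R2, fun g hg => ⟨(h1 ⟨g, hg, rfl⟩).trans (le_max_left _ _),
    (h2 ⟨g, hg, rfl⟩).trans (le_max_right _ _)⟩⟩

theorem nv_meas {H : Type*} [MeasurableSpace H] (B : (Fin 4 → H) → ℝ) (hB : Measurable B) :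
    Measurable fun x : Fin 7 → H × H =>
      B (fun i => (x (lo4 i)).1) * B fun i => (x (hi4 i)).2 := by
  have h1 : Measurable fun (x : Fin 7 → H × H) (i : Fin 4) => (x (lo4 i)).1 :=
    measurable_pi_lambda _ fun i => measurable_fst.comp (measurable_pi_apply _)
  have h2 : Measurable fun (x : Fin 7 → H × H) (i : Fin 4) => (x (hi4 i)).2 :=
    measurable_pi_lambda _ fun i => measurable_snd.comp (measurable_pi_apply _)
  exact (hB.comp h1).mul (hB.comp h2)

theorem nv_col0 {F : Type} [Field F] (φ : F →+* ℂ) (x : Fin 4 → SL2 F) :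
    φ (crv fun i => col0 (x i)) = crv fun i => col0 (slm φ (x i)) := by
  rw [map_crv]
  rfl

theorem nv_fin {H : Type*} [Group H] (bar : H → H) (V : H → Prop) (h1 : V 1)
    (hr : ∀ τ : Fin 3 → H, ∃ (a : H) (k : Fin 3 → H), ∀ j, V (k j) ∧ bar (τ j) = a * τ j * k j)
    (Φ : (Fin 6 → H × H) → ℝ) (B : (Fin 4 → H) → ℝ)
    (hΦg : ∀ g x, Φ (fun i => g * x i) = Φ x)
    (hΦk : ∀ x k : Fin 6 → H × H, (∀ i, V (k i).1 ∧ V (k i).2) → Φ (fun i => x i * k i) = Φ x)
    (hBg : ∀ (g : H) (x : Fin 4 → H), B (fun i => g * x i) = B x)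
    (hBk : ∀ x k : Fin 4 → H, (∀ i, V (k i)) → B (fun i => x i * k i) = B x)
    (hΦ : ∀ x : Fin 7 → H × H,
      cob Φ x = B (fun i => (x (lo4 i)).1) * B fun i => (x (hi4 i)).2)
    (x : Fin 4 → H) : B (fun i => bar (x i)) = B x := by
  refine shuffle bar Φ B ?_ ?_ ?_ hΦ x
  · intro σ w τ
    obtain ⟨a, k, hk⟩ := hr σ
    rw [← hΦg (a, 1) fun i => (σ (w i), τ i),
      ← hΦk (fun i => (a, 1) * (σ (w i), τ i)) (fun i => (k (w i), 1))
        fun i => ⟨(hk _).1, h1⟩]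
    refine congrArg Φ (funext fun i => ?_)
    rw [(hk (w i)).2]
    simp only [Prod.mk_mul_mk, one_mul, mul_one]
  · intro σ w τ
    obtain ⟨a, k, hk⟩ := hr σ
    rw [← hΦg (1, a) fun i => (τ i, σ (w i)),
      ← hΦk (fun i => (1, a) * (τ i, σ (w i))) (fun i => (1, k (w i)))
        fun i => ⟨h1, (hk _).1⟩]
    refine congrArg Φ (funext fun i => ?_)
    rw [(hk (w i)).2]
    simp only [Prod.mk_mul_mk, one_mul, mul_one]
  · intro σ w
    obtain ⟨a, k, hk⟩ := hr σ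
    rw [← hBg a fun i => σ (w i), ← hBk (fun i => a * σ (w i)) (fun i => k (w i))
      fun i => (hk _).1]
    exact congrArg B (funext fun i => (hk (w i)).2)

/-- The cup product of the two volume cocycles is not a coboundary on the lattice.
Plan: `G = SL2 ℂ × SL2 ℂ`, `j = ((slm φ1).comp Γ.subtype).prod ((slm φ2).comp Γ.subtype)`, `b` from `exists_bhat`. On vertices `Bool × G` let
`ĉ = cup (fun y => b fun i => ((y i).1, (y i).2.1)) (fun y => b fun i => ((y i).1, (y i).2.2))`, a cocycle by `cob_cup`. With `u γ = (false, j γ)`, `u' γ = (true, j γ)`: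
`ĉ ∘ u` is the given cochain (`pt`, `map_crv`), so `f + prism ĉ u u'` is a `Γ`-invariant primitive of `c ∘ j`, `c x = ĉ (true, x)` (`cob_prism`). Apply `transfer` with
`C = {fro g.1 ≤ R ∧ fro g.2 ≤ R}`, `U = {IsU k.1 ∧ IsU k.2}` (compact sets have bounded `fro`), then `shuffle` with `bar = sbar` (hypotheses from `reflection`,
using `(a, 1) ∈ G` and `(k, 1) ∈ U`), contradicting `BHat.ne`. -/
theorem not_cob {D : ℂ → ℝ} (hD : BW D) {F : Type} [Field F] {Γ : Subgroup (SL2 F)}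
    {φ1 φ2 : F →+* ℂ} (hΓ : Lattice Γ φ1 φ2) :
    ¬ ∃ f : (Fin 6 → Γ) → ℝ, (∀ γ x, f (fun i => γ * x i) = f x) ∧ ∀ x : Fin 7 → Γ, cob f x =
      D (φ1 (crv fun i => col0 (x (lo4 i)).1)) * D (φ2 (crv fun i => col0 (x (hi4 i)).1)) := by
  rintro ⟨f, hfi, hf⟩
  obtain ⟨b, hb⟩ := exists_bhat hD
  have := sl2_locallyCompact
  have := sl2_secondCountable
  obtain ⟨R, hR⟩ := hΓ.cocpt
  let j : Γ →* SL2 ℂ × SL2 ℂ := ((slm φ1).comp Γ.subtype).prod ((slm φ2).comp Γ.subtype)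
  have hj1 : ∀ γ : Γ, (j γ).1 = slm φ1 γ.1 := fun _ => rfl
  have hj2 : ∀ γ : Γ, (j γ).2 = slm φ2 γ.1 := fun _ => rfl
  let B : (Fin 4 → SL2 ℂ) → ℝ := fun x => b fun i => (true, x i)
  let c : (Fin 7 → SL2 ℂ × SL2 ℂ) → ℝ := fun x =>
    B (fun i => (x (lo4 i)).1) * B fun i => (x (hi4 i)).2
  have hcc : ∀ x, c x = nv_chat b fun i => (true, x i) := fun _ => rfl
  have hBg : ∀ (g : SL2 ℂ) (x : Fin 4 → SL2 ℂ), B (fun i => g * x i) = B x :=
    fun g x => hb.inv g fun i => (true, x i)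
  have hBk : ∀ x k : Fin 4 → SL2 ℂ, (∀ i, IsU (k i)) → B (fun i => x i * k i) = B x := hb.unit
  let C : Set (SL2 ℂ × SL2 ℂ) := {g | fro g ≤ R} ×ˢ {g | fro g ≤ R}
  let U : Set (SL2 ℂ × SL2 ℂ) := {k | IsU k.1 ∧ IsU k.2}
  have hC : IsCompact C := (isCompact_fro R).prod (isCompact_fro R)
  have hcov : ∀ x, ∃ γ, (j γ)⁻¹ * x ∈ C := fun x => by
    obtain ⟨γ, h1, h2⟩ := hR x.1 x.2
    exact ⟨γ, h1, h2⟩
  have hprop : ∀ K : Set (SL2 ℂ × SL2 ℂ), IsCompact K → {γ | j γ ∈ K}.Finite := fun K hK => by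
    obtain ⟨S, hS⟩ := nv_bdd0 fro continuous_fro K hK
    refine (hΓ.proper S).subset fun γ hγ => ?_
    have h := hS (j γ) hγ
    rw [hj1, hj2] at h
    exact h
  have hU : ∀ x, ∀ k ∈ U, (x * k ∈ C ↔ x ∈ C) := fun x k hk => by
    have e1 := fro_mul_unitary x.1 k.1 hk.1
    have e2 := fro_mul_unitary x.2 k.2 hk.2
    show fro (x.1 * k.1) ≤ R ∧ fro (x.2 * k.2) ≤ R ↔ fro x.1 ≤ R ∧ fro x.2 ≤ R
    rw [e1, e2]
  have hm : Measurable c := nv_meas B hb.meas
  have hbd : ∃ M, ∀ x, |c x| ≤ M := by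
    obtain ⟨M, hM⟩ := hb.bdd
    refine ⟨M * M, fun x => ?_⟩
    rw [abs_mul]
    exact mul_le_mul (hM _) (hM _) (abs_nonneg _) ((abs_nonneg _).trans (hM fun _ => (true, 1)))
  have hG : ∀ g x, c (fun i => g * x i) = c x := fun g x => by
    show B (fun i => g.1 * (x (lo4 i)).1) * B (fun i => g.2 * (x (hi4 i)).2) = _
    rw [hBg, hBg]
  have hK : ∀ x k : Fin 7 → SL2 ℂ × SL2 ℂ, (∀ i, k i ∈ U ∨ k i = 1) →
      c (fun i => x i * k i) = c x := fun x k hk => by
    have hk' : ∀ i, IsU (k i).1 ∧ IsU (k i).2 := fun i => by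
      rcases hk i with h | h
      · exact h
      · rw [h]; exact ⟨nv_isU_one, nv_isU_one⟩
    show B (fun i => (x (lo4 i)).1 * (k (lo4 i)).1) * B (fun i => (x (hi4 i)).2 * (k (hi4 i)).2) = _
    rw [hBk _ _ fun i => (hk' _).1, hBk _ _ fun i => (hk' _).2]
  have hc : ∀ y : Fin 8 → SL2 ℂ × SL2 ℂ, cob c y = 0 := fun y =>
    (nv_cob_comp (nv_chat b) (fun z : SL2 ℂ × SL2 ℂ => (true, z)) y).trans (nv_chat_coc hb _)
  have hfu : ∀ x : Fin 7 → Γ, cob f x = nv_chat b fun i => (false, j (x i)) := fun x => by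
    rw [hf, nv_col0 φ1 fun i => (x (lo4 i)).1, nv_col0 φ2 fun i => (x (hi4 i)).1,
      ← hb.pt fun i => slm φ1 (x (lo4 i)).1, ← hb.pt fun i => slm φ2 (x (hi4 i)).1]
    rfl
  obtain ⟨Φ, hΦg, hΦk, hΦ⟩ := transfer j C hC hcov hprop U hU c hm hbd hG hK hc
    (fun x => f x + prism (nv_chat b) (fun t => (false, j t)) (fun t => (true, j t)) x)
    (fun γ x => by rw [hfi, nv_prism_inv hb]) fun x => by
      rw [nv_cob_add, hfu, cob_prism _ (nv_chat_coc hb), add_sub_cancel]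
      exact (hcc fun i => j (x i)).symm
  obtain ⟨x, hx⟩ := hb.ne
  have key := nv_fin sbar IsU nv_isU_one reflection Φ B hΦg hΦk hBg hBk hΦ x
  exact hx key

end Pool.Agent.SR
end PartNV

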