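import Pool.Agent.MP_24d90f_al.PA

section PartLatA
namespace Pool.Agent.SR

/-- The four coordinates of `α * bar α` in the basis `1, ζ², ζ⁴, ζ⁶` for `α = ∑ a i ζ^i`, `ζ^8 = -1`, `bar ζ = -ζ`. -/
def nrm8 {R : Type} [CommRing R] (a : Fin 8 → R) : Fin 4 → R :=
  ![a 0 ^ 2 - 2 * a 2 * a 6 - a 4 ^ 2 + (2 * a 1 * a 7 + 2 * a 3 * a 5),
    2 * a 0 * a 2 - 2 * a 4 * a 6 - (a 1 ^ 2 - 2 * a 3 * a 7 - a 5 ^ 2),
    2 * a 0 * a 4 + a 2 ^ 2 - a 6 ^ 2 - (2 * a 1 * a 3 - 2 * a 5 * a 7),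
    2 * a 0 * a 6 + 2 * a 2 * a 4 - (2 * a 1 * a 5 + a 3 ^ 2 - a 7 ^ 2)]

set_option synthInstance.maxSize 4096 in
theorem lata1_mod : ∀ a0 a1 a2 a3 a4 a5 a6 a7 : ZMod 3,
    a0 ^ 2 - 2 * a2 * a6 - a4 ^ 2 + (2 * a1 * a7 + 2 * a3 * a5) = 0 →
    2 * a0 * a2 - 2 * a4 * a6 - (a1 ^ 2 - 2 * a3 * a7 - a5 ^ 2) = 0 →
    2 * a0 * a4 + a2 ^ 2 - a6 ^ 2 - (2 * a1 * a3 - 2 * a5 * a7) = 0 →
    2 * a0 * a6 + 2 * a2 * a4 - (2 * a1 * a5 + a3 ^ 2 - a7 ^ 2) = 0 →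
    a0 = 0 ∧ a1 = 0 ∧ a2 = 0 ∧ a3 = 0 ∧ a4 = 0 ∧ a5 = 0 ∧ a6 = 0 ∧ a7 = 0 := by
  decide +kernel

theorem lata1_dvd (a b : Fin 8 → ℤ) (h : ∀ i, nrm8 a i = 3 * nrm8 b i) :
    ∃ c : Fin 8 → ℤ, a = fun i => 3 * c i := by
  have z : ∀ x y : ℤ, x = 3 * y → (x : ZMod 3) = 0 := fun x y e =>
    (ZMod.intCast_zmod_eq_zero_iff_dvd x 3).2 ⟨y, e⟩
  have h0 := z _ _ (h 0)
  have h1 := z _ _ (h 1)
  have h2 := z _ _ (h 2)
  have h3 := z _ _ (h 3)
  simp only [nrm8, Matrix.cons_val] at h0 h1 h2 h3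
  push_cast at h0 h1 h2 h3
  obtain ⟨e0, e1, e2, e3, e4, e5, e6, e7⟩ := lata1_mod _ _ _ _ _ _ _ _ h0 h1 h2 h3
  have all : ∀ i, ((a i : ℤ) : ZMod 3) = 0 := by
    intro i
    fin_cases i
    exacts [e0, e1, e2, e3, e4, e5, e6, e7]
  choose c hc using fun i => (ZMod.intCast_zmod_eq_zero_iff_dvd (a i) 3).1 (all i)
  exact ⟨c, funext hc⟩

theorem lata1_three (c : Fin 8 → ℤ) (i : Fin 4) :
    nrm8 (fun j => 3 * c j) i = 9 * nrm8 c i := by
  fin_cases i <;> simp [nrm8] <;> ring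

/-- Plan: modulo 3, `nrm8 a = 0` forces `a = 0` (`decide +kernel` on the `3^8` cases, curried, over `ZMod 3` or `Fin 3`);
then descent: `a = 3 a'`, `nrm8 b = 3 nrm8 a'`, induct on `∑ |a i| + ∑ |b i|`. -/
theorem nrm8_aniso (a b : Fin 8 → ℤ) (h : ∀ i, nrm8 a i = 3 * nrm8 b i) : a = 0 ∧ b = 0 := by
  induction hn : ∑ i, (a i).natAbs + ∑ i, (b i).natAbs using Nat.strong_induction_on
    generalizing a b with
  | _ n ih =>
    obtain ⟨c, rfl⟩ := lata1_dvd a b h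
    have h' : ∀ i, nrm8 b i = 3 * nrm8 c i := fun i => by
      have := h i
      rw [lata1_three] at this
      omega
    have e : ∑ i, (3 * c i).natAbs = 3 * ∑ i, (c i).natAbs := by
      rw [Finset.mul_sum]
      exact Finset.sum_congr rfl fun i _ => by rw [Int.natAbs_mul]; rfl
    by_cases c0 : ∑ i, (c i).natAbs = 0
    · have cz : c = 0 := funext fun i =>
        Int.natAbs_eq_zero.1 (Finset.sum_eq_zero_iff.1 c0 i (Finset.mem_univ i))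
      subst cz
      obtain ⟨d, rfl⟩ := lata1_dvd b 0 h'
      refine ⟨by funext i; simp, ?_⟩
      have e' : ∑ i, (3 * d i).natAbs = 3 * ∑ i, (d i).natAbs := by
        rw [Finset.mul_sum]
        exact Finset.sum_congr rfl fun i _ => by rw [Int.natAbs_mul]; rfl
      by_cases d0 : ∑ i, (d i).natAbs = 0
      · funext i
        have := Int.natAbs_eq_zero.1 (Finset.sum_eq_zero_iff.1 d0 i (Finset.mem_univ i))
        simp [this]
      · have h2 : ∀ i, nrm8 (0 : Fin 8 → ℤ) i = 3 * nrm8 d i := fun i => by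
          have := h' i
          rw [lata1_three] at this
          omega
        have := (ih _ (by rw [← hn, e, e']; simp only [Pi.zero_apply, Int.natAbs_zero,
          Finset.sum_const_zero]; omega) 0 d h2 rfl).2
        funext i
        simp [this]
    · obtain ⟨b0, c1⟩ := ih _ (by rw [← hn, e]; omega) b c h' rfl
      exact ⟨by funext i; simp [c1], b0⟩

open Polynomial in
theorem lata_field : ∃ (F : Type) (_ : Field F) (_ : CharZero F) (ζ : F), ζ ^ 8 = -1 ∧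
    (∀ y : F, y ^ 8 = -1 → ∃ f : F →+* F, f ζ = y) ∧
    (∀ y : ℂ, y ^ 8 = -1 → ∃ f : F →+* ℂ, f ζ = y) ∧ ∀ f g : F →+* F, f ζ = g ζ → f = g := by
  have e : cyclotomic 16 ℚ = X ^ 8 + 1 := by
    have := cyclotomic_prime_pow_eq_geom_sum (R := ℚ) (n := 3) Nat.prime_two
    simpa [Finset.sum_range_succ, add_comm] using this
  have hirr : Irreducible (X ^ 8 + 1 : ℚ[X]) := e ▸ cyclotomic.irreducible_rat (by norm_num)
  have : Fact (Irreducible (X ^ 8 + 1 : ℚ[X])) := ⟨hirr⟩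
  have hc : CharZero (AdjoinRoot (X ^ 8 + 1 : ℚ[X])) := algebraRat.charZero _
  refine ⟨AdjoinRoot (X ^ 8 + 1 : ℚ[X]), inferInstance, hc, AdjoinRoot.root _, ?_,
    fun y hy => ⟨AdjoinRoot.lift (AdjoinRoot.of _) y (by simp [hy]), AdjoinRoot.lift_root _⟩,
    fun y hy => ⟨AdjoinRoot.lift (algebraMap ℚ ℂ) y (by simp [hy]), AdjoinRoot.lift_root _⟩,
    fun f g h => AdjoinRoot.ringHom_ext (Subsingleton.elim _ _) h⟩
  have := AdjoinRoot.eval₂_root (X ^ 8 + 1 : ℚ[X])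
  simpa [add_eq_zero_iff_eq_neg] using this

theorem lata_indep {ω : ℂ} (hω : IsPrimitiveRoot ω 16) (h8 : ω ^ 8 = -1) :
    LinearIndependent ℝ fun i : Fin 8 =>
      (![ω ^ (i : ℕ), (-ω) ^ (i : ℕ), (ω ^ 3) ^ (i : ℕ), (-ω ^ 3) ^ (i : ℕ)] : Fin 4 → ℂ) := by
  rw [Fintype.linearIndependent_iff]
  intro x hx
  have h16 := hω.pow_eq_one
  have hc : starRingEnd ℂ ω = ω ^ 15 := by
    rw [← Complex.inv_eq_conj (hω.norm'_eq_one (by norm_num))]
    exact (eq_inv_of_mul_eq_one_left (by rw [← pow_succ, h16])).symm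
  have hS : ∀ y : ℂ, ∑ i : Fin 8, (x i : ℂ) * y ^ (i : ℕ) = 0 →
      ∑ i : Fin 8, (x i : ℂ) * starRingEnd ℂ y ^ (i : ℕ) = 0 := fun y h => by
    simpa using congrArg (starRingEnd ℂ) h
  have s1 : ∑ i : Fin 8, (x i : ℂ) * ω ^ (i : ℕ) = 0 := by simpa using congrFun hx 0
  have s9 : ∑ i : Fin 8, (x i : ℂ) * (-ω) ^ (i : ℕ) = 0 := by simpa using congrFun hx 1
  have s3 : ∑ i : Fin 8, (x i : ℂ) * (ω ^ 3) ^ (i : ℕ) = 0 := by simpa using congrFun hx 2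
  have s11 : ∑ i : Fin 8, (x i : ℂ) * (-ω ^ 3) ^ (i : ℕ) = 0 := by simpa using congrFun hx 3
  have s15 := hS _ s1
  have s7 := hS _ s9
  have s13 := hS _ s3
  have s5 := hS _ s11
  simp only [map_neg, map_pow, hc] at s15 s7 s13 s5
  have e13 : (ω ^ 15) ^ 3 = ω ^ 13 := by linear_combination ω ^ 13 * (ω ^ 16 + 1) * h16
  rw [e13] at s13 s5
  rw [show -ω = ω ^ 9 by linear_combination -ω * h8] at s9
  rw [show -ω ^ 3 = ω ^ 11 by linear_combination -ω ^ 3 * h8] at s11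
  rw [show -ω ^ 15 = ω ^ 7 by linear_combination -ω ^ 7 * h8] at s7
  rw [show -ω ^ 13 = ω ^ 5 by linear_combination -ω ^ 5 * h8] at s5
  rw [← pow_one ω] at s1
  have key := Matrix.eq_zero_of_forall_index_sum_mul_pow_eq_zero
    (f := fun j : Fin 8 => ω ^ (2 * (j : ℕ) + 1)) (v := fun i => (x i : ℂ))
    (fun i j h => Fin.ext (by
      have := hω.pow_inj (by omega) (by omega) h
      omega))
    fun j => by
      fin_cases j
      exacts [s1, s3, s5, s7, s9, s11, s13, s15]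
  exact fun i => Complex.ofReal_eq_zero.1 (congrFun key i)

theorem lata_sum {F : Type} [Field F] (y : F) (a : Fin 8 → ℤ) :
    ∑ i : Fin 8, (a i : F) * y ^ (i : ℕ) = a 0 * y ^ 0 + a 1 * y ^ 1 + a 2 * y ^ 2 + a 3 * y ^ 3 +
      a 4 * y ^ 4 + a 5 * y ^ 5 + a 6 * y ^ 6 + a 7 * y ^ 7 := Fin.sum_univ_eight _

theorem lata_nrm {F : Type} [Field F] {ζ : F} (h : ζ ^ 8 = -1) (a : Fin 8 → ℤ) :
    (∑ i : Fin 8, (a i : F) * ζ ^ (i : ℕ)) * ∑ i : Fin 8, (a i : F) * (-ζ) ^ (i : ℕ) =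
      (nrm8 a 0 : ℤ) + (nrm8 a 1 : ℤ) * ζ ^ 2 + (nrm8 a 2 : ℤ) * ζ ^ 4 + (nrm8 a 3 : ℤ) * ζ ^ 6 := by
  simp only [nrm8, lata_sum, Matrix.cons_val_zero, Matrix.cons_val_one, Matrix.cons_val]
  push_cast
  linear_combination ((2 * a 2 * a 6 + a 4 ^ 2 - 2 * a 1 * a 7 - 2 * a 3 * a 5 : F) +
    (2 * a 4 * a 6 - 2 * a 3 * a 7 - a 5 ^ 2) * ζ ^ 2 + (a 6 ^ 2 - 2 * a 5 * a 7) * ζ ^ 4 -
    a 7 ^ 2 * ζ ^ 6) * h

theorem lata_order {F : Type} [Field F] {ζ : F} (h : ζ ^ 8 = -1) : ∃ O : Subring F,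
    ∀ x, x ∈ O ↔ ∃ a : Fin 8 → ℤ, ∑ i : Fin 8, (a i : F) * ζ ^ (i : ℕ) = x := by
  let M : Submodule ℤ F := Submodule.span ℤ (Set.range fun i : Fin 8 => ζ ^ (i : ℕ))
  have hM : ∀ x, x ∈ M ↔ ∃ a : Fin 8 → ℤ, ∑ i : Fin 8, (a i : F) * ζ ^ (i : ℕ) = x := fun x => by
    simp only [M, Submodule.mem_span_range_iff_exists_fun, zsmul_eq_mul]
  have hp : ∀ n : ℕ, ζ ^ n ∈ M := fun n => by
    induction n using Nat.strong_induction_on with
    | _ n ih =>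
      by_cases hn : n < 8
      · exact Submodule.subset_span ⟨⟨n, hn⟩, rfl⟩
      · obtain ⟨m, rfl⟩ : ∃ m, n = m + 8 := ⟨n - 8, by omega⟩
        rw [pow_add, h, mul_neg_one]
        exact M.neg_mem (ih m (by omega))
  refine ⟨(M.toSubalgebra (pow_zero ζ ▸ hp 0) fun x y hx hy => ?_).toSubring, hM⟩
  obtain ⟨a, rfl⟩ := (hM x).1 hx
  obtain ⟨b, rfl⟩ := (hM y).1 hy
  rw [Finset.sum_mul_sum]
  refine M.sum_mem fun i _ => M.sum_mem fun j _ => ?_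
  rw [mul_mul_mul_comm, ← pow_add, ← Int.cast_mul, ← zsmul_eq_mul]
  exact M.smul_mem _ (hp _)

theorem exists_fieldData : ∃ (F : Type) (_ : Field F) (_ : CharZero F) (O : Subring F)
    (bar : F →+* F) (φ1 φ2 : F →+* ℂ), FieldData F O bar φ1 φ2 := by
  obtain ⟨F, _, _, ζ, h, hF, hC, hext⟩ := lata_field
  have hω := Complex.isPrimitiveRoot_exp 16 (by norm_num)
  generalize Complex.exp _ = ω at hω
  have h8 : ω ^ 8 = -1 := (hω.pow (a := 8) (b := 2) (by norm_num) rfl).eq_neg_one_of_two_right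
  obtain ⟨bar, hb⟩ := hF (-ζ) (by linear_combination h)
  obtain ⟨φ1, h1⟩ := hC ω h8
  obtain ⟨φ2, h2⟩ := hC (ω ^ 3) (by linear_combination (ω ^ 16 - ω ^ 8 + 1) * h8)
  obtain ⟨O, hO⟩ := lata_order h
  have hli := lata_indep hω h8
  have hbar : ∀ a : Fin 8 → ℤ, bar (∑ i : Fin 8, (a i : F) * ζ ^ (i : ℕ)) =
      ∑ i : Fin 8, (a i : F) * (-ζ) ^ (i : ℕ) := fun a => by simp [hb]
  have hv : ∀ (a : Fin 8 → ℤ) (α : F), ∑ i : Fin 8, (a i : F) * ζ ^ (i : ℕ) = α →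
      ∑ i : Fin 8, a i • (![ω ^ (i : ℕ), (-ω) ^ (i : ℕ), (ω ^ 3) ^ (i : ℕ), (-ω ^ 3) ^ (i : ℕ)] :
        Fin 4 → ℂ) = ![φ1 α, φ1 (bar α), φ2 α, φ2 (bar α)] := by
    rintro a _ rfl
    rw [hbar]
    funext j
    fin_cases j <;> simp [h1, h2]
  have hz : ∀ a : Fin 8 → ℤ, ∑ i : Fin 8, (a i : F) * ζ ^ (i : ℕ) = 0 → ∀ i, a i = 0 := by
    intro a ha i
    have e := hv a 0 ha
    have := Fintype.linearIndependent_iff.1 hli (fun i => (a i : ℝ)) (by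
      simp only [Int.cast_smul_eq_zsmul]
      rw [e]
      funext j
      fin_cases j <;> simp) i
    exact_mod_cast this
  refine ⟨F, inferInstance, inferInstance, O, bar, φ1, φ2, fun x => ?_, fun x hx => ?_, ?_, ?_, ?_⟩
  · exact RingHom.congr_fun (hext (bar.comp bar) (RingHom.id F) (by simp [hb])) x
  · obtain ⟨a, rfl⟩ := (hO x).1 hx
    refine (hO _).2 ⟨fun i => (-1) ^ (i : ℕ) * a i, ?_⟩
    rw [hbar]
    refine Finset.sum_congr rfl fun i _ => ?_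
    rw [neg_pow ζ]
    push_cast
    ring
  · refine Module.Finite.of_surjective (AddMonoidHom.mk' (fun a : Fin 8 → ℤ =>
      (⟨_, (hO _).2 ⟨a, rfl⟩⟩ : O)) fun a b => Subtype.ext ?_).toIntLinearMap fun x => ?_
    · simp [add_mul, Finset.sum_add_distrib]
    · obtain ⟨a, ha⟩ := (hO x).1 x.2
      exact ⟨a, Subtype.ext ha⟩
  · intro α hα β hβ e
    obtain ⟨a, rfl⟩ := (hO α).1 hα
    obtain ⟨b, rfl⟩ := (hO β).1 hβ
    rw [hbar, hbar, lata_nrm h, lata_nrm h] at e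
    have k := hz ![nrm8 a 0 - 3 * nrm8 b 0, 0, nrm8 a 1 - 3 * nrm8 b 1, 0,
      nrm8 a 2 - 3 * nrm8 b 2, 0, nrm8 a 3 - 3 * nrm8 b 3, 0] (by
        simp only [lata_sum, Matrix.cons_val_zero, Matrix.cons_val_one, Matrix.cons_val]
        push_cast
        linear_combination e)
    obtain ⟨rfl, rfl⟩ := nrm8_aniso a b fun i => by
      fin_cases i
      exacts [sub_eq_zero.1 (k 0), sub_eq_zero.1 (k 2), sub_eq_zero.1 (k 4), sub_eq_zero.1 (k 6)]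
    simp
  · refine ⟨basisOfLinearIndependentOfCardEqFinrank hli (by
      simp [Module.finrank_pi_fintype, Complex.finrank_real_complex]), fun v => ?_⟩
    rw [coe_basisOfLinearIndependentOfCardEqFinrank, Submodule.mem_span_range_iff_exists_fun]
    constructor
    · rintro ⟨a, rfl⟩
      exact ⟨_, (hO _).2 ⟨a, rfl⟩, hv a _ rfl⟩
    · rintro ⟨α, hα, rfl⟩
      obtain ⟨a, ha⟩ := (hO α).1 hα
      exact ⟨a, hv a α ha⟩

end Pool.Agent.SR
end PartLatA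

section PartLatB
namespace Pool.Agent.SR

open MeasureTheory in
theorem latb_gen {E ι : Type} [NormedAddCommGroup E] [NormedSpace ℝ E] [FiniteDimensional ℝ E]
    [Nontrivial E] [Fintype ι] (b : Module.Basis ι ℝ E) :
    ∃ R : ℝ, ∀ f : E →ₗ[ℝ] E, LinearMap.det f = 1 →
      ∃ l ∈ Submodule.span ℤ (Set.range b), l ≠ 0 ∧ ‖f l‖ ≤ R := by
  let _ : MeasurableSpace E := borel E
  have : BorelSpace E := ⟨rfl⟩
  have : ProperSpace E := FiniteDimensional.proper_real E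
  set μ : Measure E := b.addHaar
  have h1 : μ (ZSpan.fundamentalDomain b) * 2 ^ Module.finrank ℝ E < ⊤ :=
    ENNReal.mul_lt_top (ZSpan.fundamentalDomain_isBounded b).measure_lt_top
      (ENNReal.pow_lt_top (by simp))
  have h2 := tendsto_measure_iUnion_atTop (μ := μ) (s := fun n : ℕ => Metric.closedBall (0 : E) n)
    fun m n h => Metric.closedBall_subset_closedBall (Nat.cast_le.2 h)
  rw [Metric.iUnion_closedBall_nat, measure_univ_of_isAddLeftInvariant] at h2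
  obtain ⟨n, hn⟩ := (h2.eventually (lt_mem_nhds h1)).exists
  refine ⟨n, fun f hf => ?_⟩
  have : Countable (Submodule.span ℤ (Set.range b)).toAddSubgroup :=
    inferInstanceAs (Countable (Submodule.span ℤ (Set.range b)))
  obtain ⟨x, hx, h⟩ := exists_ne_zero_mem_lattice_of_measure_mul_two_pow_lt_measure
    (s := f ⁻¹' Metric.closedBall 0 n) (ZSpan.isAddFundamentalDomain' b μ)
    (fun x hx => by simpa using hx) ((convex_closedBall _ _).linear_preimage f) (by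
      rw [Measure.addHaar_preimage_linearMap μ (by rw [hf]; exact one_ne_zero), hf]
      simpa using hn)
  exact ⟨x, x.2, fun e => hx (Subtype.ext e), by simpa using h⟩

/-- left multiplication, column by column -/
noncomputable def latb_col (g : Matrix (Fin 2) (Fin 2) ℂ) :
    (Fin 2 → Fin 2 → ℂ) →ₗ[ℝ] (Fin 2 → Fin 2 → ℂ) :=
  LinearMap.pi fun j => ((Matrix.toLin' g).restrictScalars ℝ).comp (LinearMap.proj j)

theorem latb_det (g : SL2 ℂ) : LinearMap.det (latb_col g.1) = 1 := by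
  rw [latb_col, LinearMap.det_pi]
  simp only [LinearMap.det_restrictScalars, LinearMap.det_toLin', g.2, map_one,
    Finset.prod_const_one]

/-- the columns of a matrix -/
def latb_tr : Matrix (Fin 2) (Fin 2) ℂ ≃ₗ[ℝ] (Fin 2 → Fin 2 → ℂ) where
  toFun M := fun j i => M i j
  invFun v := Matrix.of fun i j => v j i
  map_add' _ _ := rfl
  map_smul' _ _ := rfl
  left_inv _ := rfl
  right_inv _ := rfl

theorem latb_apply (g M : Matrix (Fin 2) (Fin 2) ℂ) (i j : Fin 2) :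
    latb_col g (latb_tr M) j i = (g * M) i j := rfl

theorem latb_norm (v : Fin 2 → Fin 2 → ℂ) (i j : Fin 2) : ‖v j i‖ ≤ ‖v‖ :=
  (norm_le_pi_norm (v j) i).trans (norm_le_pi_norm v j)

/-- Minkowski's theorem for the translates of a ball. -/
theorem minkowski {ι : Type} [Fintype ι]
    (b : Module.Basis ι ℝ (Matrix (Fin 2) (Fin 2) ℂ × Matrix (Fin 2) (Fin 2) ℂ)) :
    ∃ R : ℝ, ∀ g1 g2 : SL2 ℂ, ∃ l ∈ Submodule.span ℤ (Set.range b), l ≠ 0 ∧
      (∀ i j, ‖((g1⁻¹).1 * l.1) i j‖ ≤ R) ∧ ∀ i j, ‖((g2⁻¹).1 * l.2) i j‖ ≤ R := by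
  obtain ⟨R, h⟩ := latb_gen (b.map (latb_tr.prodCongr latb_tr))
  refine ⟨R, fun g1 g2 => ?_⟩
  obtain ⟨l, h1, h2, h3⟩ := h ((latb_col (g1⁻¹).1).prodMap (latb_col (g2⁻¹).1))
    (by rw [LinearMap.det_prodMap, latb_det, latb_det, one_mul])
  obtain ⟨l, rfl⟩ := (latb_tr.prodCongr latb_tr).surjective l
  refine ⟨l, ?_, fun e => h2 (by rw [e, map_zero]), fun i j => ?_, fun i j => ?_⟩
  · rw [Module.Basis.mem_span_iff_repr_mem] at h1 ⊢
    intro i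
    simpa using h1 i
  · exact (latb_norm _ i j).trans (norm_prod_le_iff.1 h3).1
  · exact (latb_norm _ i j).trans (norm_prod_le_iff.1 h3).2

end Pool.Agent.SR
end PartLatB

section PartLatC
namespace Pool.Agent.SR

section
variable {F : Type} [Field F] {O : Subring F} {bar : F →+* F} {φ1 φ2 : F →+* ℂ}

/-- Matrices of the quaternion order. -/
def latcQ (O : Subring F) (bar : F →+* F) (M : Matrix (Fin 2) (Fin 2) F) : Prop :=
  M 0 0 ∈ O ∧ M 0 1 ∈ O ∧ M 1 0 = 3 * bar (M 0 1) ∧ M 1 1 = bar (M 0 0)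

theorem latc_three : (3 : F) ∈ O := by exact_mod_cast natCast_mem O 3

theorem latc_mk {a b : F} (ha : a ∈ O) (hb : b ∈ O) :
    latcQ O bar !![a, b; 3 * bar b, bar a] := ⟨by simpa, by simpa, by simp, by simp⟩

theorem latc_one : latcQ O bar 1 := ⟨by simp, by simp, by simp, by simp⟩

theorem latc_add {M N : Matrix (Fin 2) (Fin 2) F} (a : latcQ O bar M) (b : latcQ O bar N) :
    latcQ O bar (M + N) :=
  ⟨O.add_mem a.1 b.1, O.add_mem a.2.1 b.2.1, by simp [a.2.2.1, b.2.2.1, mul_add],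
    by simp [a.2.2.2, b.2.2.2]⟩

theorem latc_mul (h : FieldData F O bar φ1 φ2) {M N : Matrix (Fin 2) (Fin 2) F}
    (a : latcQ O bar M) (b : latcQ O bar N) : latcQ O bar (M * N) := by
  obtain ⟨a1, a2, a3, a4⟩ := a
  obtain ⟨b1, b2, b3, b4⟩ := b
  have t : bar 3 = 3 := map_ofNat bar 3
  refine ⟨?_, ?_, ?_, ?_⟩ <;> simp only [Matrix.mul_apply, Fin.sum_univ_two, a3, a4, b3, b4]
  · exact O.add_mem (O.mul_mem a1 b1) (O.mul_mem a2 (O.mul_mem latc_three (h.mem _ b2)))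
  · exact O.add_mem (O.mul_mem a1 b2) (O.mul_mem a2 (h.mem _ b1))
  · simp only [map_add, map_mul, h.invol]
    ring
  · simp only [map_add, map_mul, h.invol, t]
    ring

theorem latc_adj (h : FieldData F O bar φ1 φ2) {M : Matrix (Fin 2) (Fin 2) F}
    (a : latcQ O bar M) : latcQ O bar M.adjugate := by
  obtain ⟨a1, a2, a3, a4⟩ := a
  rw [Matrix.adjugate_fin_two]
  exact ⟨by simpa [a4] using h.mem _ a1, by simpa using a2, by simp [a3], by simp [a4, h.invol]⟩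

theorem latc_det {M : Matrix (Fin 2) (Fin 2) F} (a : latcQ O bar M) :
    M.det = M 0 0 * bar (M 0 0) - 3 * (M 0 1 * bar (M 0 1)) := by
  rw [Matrix.det_fin_two, a.2.2.1, a.2.2.2]
  ring

theorem latc_det_mem (h : FieldData F O bar φ1 φ2) {M : Matrix (Fin 2) (Fin 2) F}
    (a : latcQ O bar M) : M.det ∈ O ∧ bar M.det = M.det := by
  have t : bar 3 = 3 := map_ofNat bar 3
  rw [latc_det a]
  refine ⟨O.sub_mem (O.mul_mem a.1 (h.mem _ a.1))
    (O.mul_mem latc_three (O.mul_mem a.2.1 (h.mem _ a.2.1))), ?_⟩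
  simp only [map_sub, map_mul, h.invol, t]
  ring

theorem latc_ext {M N : Matrix (Fin 2) (Fin 2) F} (a : latcQ O bar M) (b : latcQ O bar N)
    (e : M 0 0 = N 0 0) (e' : M 0 1 = N 0 1) : M = N := by
  rw [M.eta_fin_two, N.eta_fin_two, a.2.2.1, a.2.2.2, b.2.2.1, b.2.2.2, e, e']

/-- The group of units of norm one. -/
def latcG (h : FieldData F O bar φ1 φ2) : Subgroup (SL2 F) where
  carrier := {g | latcQ O bar g.1}
  one_mem' := latc_one
  mul_mem' := fun a b => latc_mul h a b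
  inv_mem' := fun a => latc_adj h a

theorem latc_fin (h : FieldData F O bar φ1 φ2) (R : ℝ) : {α | α ∈ O ∧ ‖φ1 α‖ ≤ R ∧
    ‖φ1 (bar α)‖ ≤ R ∧ ‖φ2 α‖ ≤ R ∧ ‖φ2 (bar α)‖ ≤ R}.Finite := by
  obtain ⟨b, hb⟩ := h.lat
  refine ((ZSpan.setFinite_inter b (Metric.isBounded_closedBall (x := 0) (r := R))).preimage
    (f := fun α : F => (![φ1 α, φ1 (bar α), φ2 α, φ2 (bar α)] : Fin 4 → ℂ))
    fun x _ y _ e => φ1.injective (congrFun e 0)).subset ?_
  rintro α ⟨a, b1, b2, b3, b4⟩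
  refine ⟨?_, (hb _).2 ⟨α, a, rfl⟩⟩
  rw [mem_closedBall_zero_iff, pi_norm_le_iff_of_nonneg ((norm_nonneg _).trans b1)]
  intro i
  fin_cases i
  exacts [b1, b2, b3, b4]

theorem latc_finM (h : FieldData F O bar φ1 φ2) (R : ℝ) : {M | latcQ O bar M ∧
    (∀ i j, ‖φ1 (M i j)‖ ≤ R) ∧ ∀ i j, ‖φ2 (M i j)‖ ≤ R}.Finite := by
  have k : ∀ (φ : F →+* ℂ) (x : F), ‖φ x‖ ≤ ‖φ (3 * x)‖ := fun φ x => by
    rw [map_mul, map_ofNat, norm_mul, Complex.norm_ofNat]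
    linarith [norm_nonneg (φ x)]
  refine Set.Finite.of_finite_image (f := fun M => (M 0 0, M 0 1))
    (((latc_fin h R).prod (latc_fin h R)).subset ?_)
    fun M a N b e => latc_ext a.1 b.1 (congrArg Prod.fst e) (congrArg Prod.snd e)
  rintro _ ⟨M, ⟨⟨a1, a2, a3, a4⟩, b, c⟩, rfl⟩
  exact ⟨⟨a1, b 0 0, a4 ▸ b 1 1, c 0 0, a4 ▸ c 1 1⟩,
    a2, b 0 1, (k _ _).trans (a3 ▸ b 1 0), c 0 1, (k _ _).trans (a3 ▸ c 1 0)⟩

theorem latc_entry {g : SL2 ℂ} {R : ℝ} (h : fro g ≤ R) (i j : Fin 2) : ‖g.1 i j‖ ≤ R + 1 := by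
  have a : ‖g.1 i j‖ ^ 2 ≤ fro g :=
    (Finset.single_le_sum (f := fun j => ‖g.1 i j‖ ^ 2) (fun _ _ => sq_nonneg _)
      (Finset.mem_univ j)).trans (Finset.single_le_sum (f := fun i => ∑ j, ‖g.1 i j‖ ^ 2)
      (fun _ _ => Finset.sum_nonneg fun _ _ => sq_nonneg _) (Finset.mem_univ i))
  nlinarith [norm_nonneg (g.1 i j)]

theorem latc_fro_inv (g : SL2 ℂ) : fro g⁻¹ = fro g := by
  simp only [fro, Matrix.SpecialLinearGroup.coe_inv, Matrix.adjugate_fin_two, Fin.sum_univ_two]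
  simp
  ring

/-- Finitely many orbits of given norm. -/
theorem latc_orbits [CharZero F] (h : FieldData F O bar φ1 φ2) {n : F} (hn : n ≠ 0) :
    ∃ Λ : Set (Matrix (Fin 2) (Fin 2) F), Λ.Finite ∧ ∀ M, latcQ O bar M → M.det = n →
      ∃ l ∈ Λ, l.det = n ∧ ∃ γ : latcG h, M = γ.1.1 * l := by
  by_cases hO : n ∈ O
  swap
  · exact ⟨∅, Set.finite_empty, fun M a e => (hO (e ▸ (latc_det_mem h a).1)).elim⟩
  have := h.fin
  have : Finite (O ⧸ Ideal.span {(⟨n, hO⟩ : O)}) :=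
    Ideal.finiteQuotientOfFreeOfNeBot _ fun e =>
      hn (congrArg Subtype.val (Ideal.span_singleton_eq_bot.1 e))
  let c : {M // latcQ O bar M ∧ M.det = n} →
      (O ⧸ Ideal.span {(⟨n, hO⟩ : O)}) × (O ⧸ Ideal.span {(⟨n, hO⟩ : O)}) := fun M =>
    (Ideal.Quotient.mk _ ⟨M.1 0 0, M.2.1.1⟩, Ideal.Quotient.mk _ ⟨M.1 0 1, M.2.1.2.1⟩)
  refine ⟨Set.range fun p : Set.range c => p.2.choose.1, Set.finite_range _, fun M a e => ?_⟩
  have hp := (⟨⟨M, a, e⟩, rfl⟩ : c ⟨M, a, e⟩ ∈ Set.range c)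
  have e2 := hp.choose_spec
  refine ⟨hp.choose.1, ⟨⟨_, hp⟩, rfl⟩, hp.choose.2.2, ?_⟩
  generalize hp.choose = l at e2
  obtain ⟨l, l1, l2⟩ := l
  obtain ⟨x, hx⟩ := Ideal.mem_span_singleton'.1 (Ideal.Quotient.eq.1 (congrArg Prod.fst e2).symm)
  obtain ⟨y, hy⟩ := Ideal.mem_span_singleton'.1 (Ideal.Quotient.eq.1 (congrArg Prod.snd e2).symm)
  have hx' : x.1 * n = M 0 0 - l 0 0 := congrArg Subtype.val hx
  have hy' : y.1 * n = M 0 1 - l 0 1 := congrArg Subtype.val hy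
  have q := latc_add latc_one (latc_mul h (latc_mk (bar := bar) x.2 y.2) (latc_adj h l1))
  have e3 : M = (1 + !![x.1, y.1; 3 * bar y.1, bar x.1] * l.adjugate) * l := by
    refine latc_ext a (latc_mul h q l1) ?_ ?_ <;>
      rw [add_mul, one_mul, mul_assoc, Matrix.adjugate_mul, l2] <;> simp
    · linear_combination -hx'
    · linear_combination -hy'
  refine ⟨⟨⟨_, ?_⟩, q⟩, e3⟩
  have e4 := congrArg Matrix.det e3
  rw [Matrix.det_mul, e, l2] at e4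
  exact mul_right_cancel₀ hn (e4.symm.trans (one_mul n).symm)

/-- The coordinates of pairs of matrices. -/
noncomputable def latcE : ((Fin 4 → ℂ) × (Fin 4 → ℂ)) ≃ₗ[ℝ]
    Matrix (Fin 2) (Fin 2) ℂ × Matrix (Fin 2) (Fin 2) ℂ where
  toFun p := (!![p.1 0, p.2 0; 3 * p.2 1, p.1 1], !![p.1 2, p.2 2; 3 * p.2 3, p.1 3])
  invFun q := (![q.1 0 0, q.1 1 1, q.2 0 0, q.2 1 1], ![q.1 0 1, q.1 1 0 / 3, q.2 0 1, q.2 1 0 / 3])
  map_add' p q := by
    refine Prod.ext ?_ ?_ <;> ext i j <;> fin_cases i <;> fin_cases j <;> simp [mul_add]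
  map_smul' r p := by
    refine Prod.ext ?_ ?_ <;> ext i j <;> fin_cases i <;> fin_cases j <;> simp [mul_left_comm]
  left_inv p := by
    refine Prod.ext ?_ ?_ <;> ext i <;> fin_cases i <;> simp
  right_inv q := by
    refine Prod.ext ?_ ?_ <;> ext i j <;> fin_cases i <;> fin_cases j <;> simp [mul_div_cancel₀]

theorem latc_E_apply (p : (Fin 4 → ℂ) × (Fin 4 → ℂ)) : latcE p =
    (!![p.1 0, p.2 0; 3 * p.2 1, p.1 1], !![p.1 2, p.2 2; 3 * p.2 3, p.1 3]) := rfl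

theorem latc_mink (h : FieldData F O bar φ1 φ2) : ∃ R : ℝ, ∀ g1 g2 : SL2 ℂ, ∃ M, latcQ O bar M ∧
    M.det ≠ 0 ∧ (∀ i j, ‖((g1⁻¹).1 * M.map φ1) i j‖ ≤ R) ∧
      ∀ i j, ‖((g2⁻¹).1 * M.map φ2) i j‖ ≤ R := by
  obtain ⟨b, hb⟩ := h.lat
  obtain ⟨R, hR⟩ := minkowski ((b.prod b).map latcE)
  refine ⟨R, fun g1 g2 => ?_⟩
  obtain ⟨l, l1, l2, l3⟩ := hR g1 g2
  have k : (latcE.symm l).1 ∈ Submodule.span ℤ (Set.range b) ∧
      (latcE.symm l).2 ∈ Submodule.span ℤ (Set.range b) := by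
    clear l2 l3
    induction l1 using Submodule.span_induction with
    | mem x hx =>
      obtain ⟨i, rfl⟩ := hx
      rw [Module.Basis.map_apply, LinearEquiv.symm_apply_apply]
      have m : ∀ j, b j ∈ Submodule.span ℤ (Set.range b) := fun j =>
        Submodule.subset_span (Set.mem_range_self j)
      rcases i with i | i <;> simp [m]
    | zero => simp
    | add x y _ _ a c =>
      rw [map_add]
      exact ⟨Submodule.add_mem _ a.1 c.1, Submodule.add_mem _ a.2 c.2⟩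
    | smul r x _ a =>
      rw [map_zsmul]
      exact ⟨Submodule.smul_mem _ r a.1, Submodule.smul_mem _ r a.2⟩
  obtain ⟨α, a1, a2⟩ := (hb _).1 k.1
  obtain ⟨β, b1, b2⟩ := (hb _).1 k.2
  have e : l = ((!![α, β; 3 * bar β, bar α]).map φ1, (!![α, β; 3 * bar β, bar α]).map φ2) := by
    rw [← latcE.apply_symm_apply l, latc_E_apply, a2, b2]
    refine Prod.ext ?_ ?_ <;> ext i j <;> fin_cases i <;> fin_cases j <;> simp [map_ofNat]
  subst e
  refine ⟨_, latc_mk a1 b1, fun z => l2 ?_, l3⟩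
  rw [latc_det (latc_mk a1 b1), sub_eq_zero] at z
  obtain ⟨rfl, rfl⟩ := h.aniso α a1 β b1 (by simpa using z)
  refine Prod.ext ?_ ?_ <;> ext i j <;> fin_cases i <;> fin_cases j <;> simp

theorem latc_det_le (φ : F →+* ℂ) {g : SL2 ℂ} {M : Matrix (Fin 2) (Fin 2) F} {R : ℝ}
    (h : ∀ i j, ‖(g.1 * M.map φ) i j‖ ≤ R) : ‖φ M.det‖ ≤ 2 * R ^ 2 := by
  have e : φ M.det = (g.1 * M.map φ).det := by
    rw [Matrix.det_mul, g.2, one_mul, RingHom.map_det]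
    rfl
  have r := (norm_nonneg _).trans (h 0 0)
  rw [e, Matrix.det_fin_two]
  refine (norm_sub_le _ _).trans ?_
  rw [norm_mul, norm_mul]
  nlinarith [mul_le_mul (h 0 0) (h 1 1) (norm_nonneg _) r,
    mul_le_mul (h 0 1) (h 1 0) (norm_nonneg _) r]

theorem latc_bound (φ : F →+* ℂ) {g : SL2 ℂ} {γ : SL2 F} {l : Matrix (Fin 2) (Fin 2) F}
    (hl : l.det ≠ 0) {R C : ℝ} (h : ∀ i j, ‖((g⁻¹).1 * (γ.1 * l).map φ) i j‖ ≤ R)
    (hC : ∀ i j, ‖φ (l⁻¹ i j)‖ ≤ C) : fro ((slm φ γ)⁻¹ * g) ≤ 4 * (2 * R * C) ^ 2 := by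
  have e : (g⁻¹ * slm φ γ).1 = (g⁻¹).1 * (γ.1 * l).map φ * (l⁻¹).map φ := by
    rw [mul_assoc, ← Matrix.map_mul, mul_assoc, Matrix.mul_nonsing_inv _ hl.isUnit, mul_one]
    rfl
  have r := (norm_nonneg _).trans (h 0 0)
  have k : ∀ i j, ‖(g⁻¹ * slm φ γ).1 i j‖ ^ 2 ≤ (2 * R * C) ^ 2 := fun i j => by
    refine pow_le_pow_left₀ (norm_nonneg _) ?_ 2
    rw [e, Matrix.mul_apply, Fin.sum_univ_two]
    refine (norm_add_le _ _).trans ?_
    rw [norm_mul, norm_mul, Matrix.map_apply, Matrix.map_apply]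
    linarith [mul_le_mul (h i 0) (hC 0 j) (norm_nonneg _) r,
      mul_le_mul (h i 1) (hC 1 j) (norm_nonneg _) r]
  rw [← latc_fro_inv, mul_inv_rev, inv_inv, fro, Fin.sum_univ_two, Fin.sum_univ_two,
    Fin.sum_univ_two]
  linarith [k 0 0, k 0 1, k 1 0, k 1 1]

end

theorem exists_lattice {F : Type} [Field F] [CharZero F] {O : Subring F} {bar : F →+* F}
    {φ1 φ2 : F →+* ℂ} (h : FieldData F O bar φ1 φ2) :
    ∃ Γ : Subgroup (SL2 F), Lattice Γ φ1 φ2 := by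
  refine ⟨latcG h, fun R => ?_, ?_⟩
  · refine ((latc_finM h (R + 1)).preimage (f := fun γ : latcG h => γ.1.1)
      fun x _ y _ e => Subtype.ext (Subtype.ext e)).subset ?_
    exact fun γ a => ⟨γ.2, latc_entry a.1, latc_entry a.2⟩
  · obtain ⟨R, hR⟩ := latc_mink h
    choose Λ h1 h2 using fun n : {n : F // n ≠ 0} => latc_orbits h n.2
    have hf := ((latc_fin h (2 * R ^ 2)).preimage (f := fun n : {n : F // n ≠ 0} => n.1)
      Subtype.val_injective.injOn).biUnion fun n _ => h1 n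
    obtain ⟨C, hC⟩ := (hf.image fun l => ∑ i, ∑ j, (‖φ1 (l⁻¹ i j)‖ + ‖φ2 (l⁻¹ i j)‖)).bddAbove
    refine ⟨4 * (2 * R * C) ^ 2, fun g1 g2 => ?_⟩
    obtain ⟨M, m1, m2, m3, m4⟩ := hR g1 g2
    obtain ⟨l, l1, l2, γ, rfl⟩ := h2 ⟨_, m2⟩ M m1 rfl
    obtain ⟨d1, d2⟩ := latc_det_mem h m1
    have hl := hC ⟨l, Set.mem_biUnion (x := ⟨_, m2⟩) ⟨d1, latc_det_le φ1 m3,
      d2.symm ▸ latc_det_le φ1 m3, latc_det_le φ2 m4, d2.symm ▸ latc_det_le φ2 m4⟩ l1, rfl⟩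
    have k : ∀ i j, ‖φ1 (l⁻¹ i j)‖ + ‖φ2 (l⁻¹ i j)‖ ≤ C := fun i j =>
      ((Finset.single_le_sum (f := fun j => ‖φ1 (l⁻¹ i j)‖ + ‖φ2 (l⁻¹ i j)‖)
        (fun _ _ => by positivity) (Finset.mem_univ j)).trans
        (Finset.single_le_sum (f := fun i => ∑ j, (‖φ1 (l⁻¹ i j)‖ + ‖φ2 (l⁻¹ i j)‖))
          (fun _ _ => by positivity) (Finset.mem_univ i))).trans hl
    have l3 : l.det ≠ 0 := l2 ▸ m2
    exact ⟨γ, latc_bound φ1 l3 m3 fun i j => by linarith [k i j, norm_nonneg (φ2 (l⁻¹ i j))],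
      latc_bound φ2 l3 m4 fun i j => by linarith [k i j, norm_nonneg (φ1 (l⁻¹ i j))]⟩

end Pool.Agent.SR
end PartLatC

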