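import Pool.Agent.MP_24d90f_al.PA

section PartVDefs
/-! The flag cocycle. -/

namespace Pool.Agent.SR

variable {F : Type} [Field F] {V : Type} [AddCommGroup V] [Module F V]

open Classical in
/-- `D` of the cross ratio of the classes of the `x i` in `(N + span x) / N` if that space has dimension `≤ 2`, else `0`. -/
noncomputable def vol (D : F → ℝ) (N : Submodule F V) (x : Fin 4 → V) : ℝ :=
  if h : ∃ π : V →ₗ[F] (Fin 2 → F),
      ∀ v ∈ N ⊔ Submodule.span F (Set.range x), (π v = 0 ↔ v ∈ N) then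
    D (crv fun i => h.choose (x i)) else 0

/-- Complete flags of length three, repetitions allowed. -/
structure IsFlag (f : ℕ → Submodule F V) : Prop where
  bot : f 0 = ⊥
  top : f 3 = ⊤
  step : ∀ j < 3, ∃ v, f (j + 1) = f j ⊔ Submodule.span F {v}

noncomputable def gen (f : ℕ → Submodule F V) (j : ℕ) : V :=
  Classical.epsilon fun v => f (j + 1) = f j ⊔ Submodule.span F {v}

theorem IsFlag.gen_spec {f : ℕ → Submodule F V} (h : IsFlag f) {j : ℕ} (hj : j < 3) :
    f (j + 1) = f j ⊔ Submodule.span F {gen f j} :=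
  Classical.epsilon_spec (h.step j hj)

/-- The flag cocycle of Goncharov and Bucher-Burger-Iozzi. -/
noncomputable def BB (D : F → ℝ) (f : Fin 4 → ℕ → Submodule F V) : ℝ :=
  ∑ J : Fin 4 → Fin 3, vol D (⨆ i, f i (J i)) fun i => gen (f i) (J i)

noncomputable def cc (D1 D2 : F → ℝ) : (Fin 7 → ℕ → Submodule F V) → ℝ := cup (BB D1) (BB D2)

/-- The flag `0 < F u < F² = F²` of the plane. -/
def pf (u : Fin 2 → F) (j : ℕ) : Submodule F (Fin 2 → F) :=
  if j = 0 then ⊥ else if j = 1 then Submodule.span F {u} else ⊤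

end Pool.Agent.SR
end PartVDefs

section PartVolA
namespace Pool.Agent.SR

variable {F : Type} [Field F] {V V' : Type} [AddCommGroup V] [Module F V] [AddCommGroup V'] [Module F V']

theorem vola_factor {A B : Type} [AddCommGroup A] [Module F A] [AddCommGroup B] [Module F B]
    (W : Submodule F V) (a : V →ₗ[F] A) (b : V →ₗ[F] B) (h : ∀ v ∈ W, a v = 0 → b v = 0) :
    ∃ g : A →ₗ[F] B, ∀ v ∈ W, g (a v) = b v := by
  obtain ⟨s, hs⟩ := (a.domRestrict W).rangeRestrict.exists_rightInverse_of_surjective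
    (LinearMap.range_rangeRestrict _)
  obtain ⟨g, hg⟩ := LinearMap.exists_extend ((b.domRestrict W).comp s)
  refine ⟨g, fun v hv => ?_⟩
  let r : LinearMap.range (a.domRestrict W) := ⟨a v, ⟨⟨v, hv⟩, rfl⟩⟩
  have h1 : g (a v) = b (s r) := LinearMap.congr_fun hg r
  have h2 : a (s r) = a v := congrArg Subtype.val (LinearMap.congr_fun hs r)
  have h3 := h (s r - v) (W.sub_mem (s r).2 hv) (by rw [map_sub, h2, sub_self])
  rw [map_sub, sub_eq_zero] at h3
  rw [h1, h3]

theorem vola_det_map (g : (Fin 2 → F) →ₗ[F] (Fin 2 → F)) (u v : Fin 2 → F) :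
    det2 (g u) (g v) = det2 (g (Pi.single 0 1)) (g (Pi.single 1 1)) * det2 u v := by
  have e : ∀ w : Fin 2 → F, g w = w 0 • g (Pi.single 0 1) + w 1 • g (Pi.single 1 1) := by
    intro w
    rw [← map_smul, ← map_smul, ← map_add]
    congr 1
    funext i
    fin_cases i <;> simp
  rw [e u, e v]
  simp only [det2, Pi.add_apply, Pi.smul_apply, smul_eq_mul]
  ring

theorem vola_crv_eq (g g' : (Fin 2 → F) →ₗ[F] (Fin 2 → F)) (y y' : Fin 4 → Fin 2 → F)
    (h : ∀ i, g (y i) = y' i) (h' : ∀ i, g' (y' i) = y i) : crv y = crv y' := by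
  have e : ∀ i j, det2 (y' i) (y' j) =
      det2 (g (Pi.single 0 1)) (g (Pi.single 1 1)) * det2 (y i) (y j) := fun i j => by
    rw [← h i, ← h j, vola_det_map]
  have e' : ∀ i j, det2 (y i) (y j) =
      det2 (g' (Pi.single 0 1)) (g' (Pi.single 1 1)) * det2 (y' i) (y' j) := fun i j => by
    rw [← h' i, ← h' j, vola_det_map]
  by_cases hd : det2 (g (Pi.single 0 1)) (g (Pi.single 1 1)) = 0
  · have z' : det2 (y' 0) (y' 2) = 0 := by rw [e, hd, zero_mul]
    have z : det2 (y 0) (y 2) = 0 := by rw [e', z', mul_zero]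
    rw [crv, crv, z, z', zero_mul, zero_mul, zero_div, zero_div]
  · rw [crv, crv, e 0 2, e 1 3, e 0 3, e 1 2, mul_mul_mul_comm,
      mul_mul_mul_comm _ (det2 (y 0) (y 3)), mul_div_mul_left _ _ (mul_ne_zero hd hd)]

theorem vola_mem (N : Submodule F V) (x : Fin 4 → V) (i : Fin 4) :
    x i ∈ N ⊔ Submodule.span F (Set.range x) :=
  Submodule.mem_sup_right (Submodule.subset_span ⟨i, rfl⟩)

/-- Independence of the choice. Plan: two admissible `π, π'` have the same kernel on `W = N ⊔ span x`, so `π' = g ∘ π` and `π = g' ∘ π'` on `W` for linear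
`g, g' : F² → F²` (`LinearMap.exists_extend` on the range); `det2 (g u) (g v) = det g * det2 u v`; if `det g = 0` all determinants vanish on both sides. -/
theorem vol_eq (D : F → ℝ) (N : Submodule F V) (x : Fin 4 → V) (π : V →ₗ[F] (Fin 2 → F))
    (hπ : ∀ v ∈ N ⊔ Submodule.span F (Set.range x), (π v = 0 ↔ v ∈ N)) :
    vol D N x = D (crv fun i => π (x i)) := by
  have h : ∃ π : V →ₗ[F] (Fin 2 → F),
      ∀ v ∈ N ⊔ Submodule.span F (Set.range x), (π v = 0 ↔ v ∈ N) := ⟨π, hπ⟩
  rw [vol, dif_pos h]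
  have hc := h.choose_spec
  obtain ⟨g, hg⟩ := vola_factor _ h.choose π fun v hv hz => (hπ v hv).2 ((hc v hv).1 hz)
  obtain ⟨g', hg'⟩ := vola_factor _ π h.choose fun v hv hz => (hc v hv).2 ((hπ v hv).1 hz)
  exact congrArg D
    (vola_crv_eq g g' _ _ (fun i => hg _ (vola_mem N x i)) fun i => hg' _ (vola_mem N x i))

/-- Plan: if `π'` is admissible for `(N', f ∘ x)` then `π' ∘ f` is admissible for `(comap f N', x)`. Conversely from `π` admissible for `(comap f N', x)`
build `π'`: the map `N'.mkQ ∘ f` restricted to `span x` has the same kernel as `π` there, so `π` factors through its range; extend to `V' ⧸ N'`. -/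
theorem vol_comap (D : F → ℝ) (f : V →ₗ[F] V') (N' : Submodule F V') (x : Fin 4 → V) :
    vol D (N'.comap f) x = vol D N' fun i => f (x i) := by
  have hsp : Submodule.span F (Set.range fun i => f (x i)) =
      (Submodule.span F (Set.range x)).map f := by
    rw [Submodule.map_span, ← Set.range_comp]
    rfl
  by_cases h' : ∃ π : V' →ₗ[F] (Fin 2 → F),
      ∀ v ∈ N' ⊔ Submodule.span F (Set.range fun i => f (x i)), (π v = 0 ↔ v ∈ N')
  · obtain ⟨π, hπ⟩ := h'
    rw [vol_eq D N' _ π hπ, vol_eq D (N'.comap f) x (π.comp f)]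
    · rfl
    · intro v hv
      refine hπ (f v) ?_
      obtain ⟨a, ha, b, hb, rfl⟩ := Submodule.mem_sup.1 hv
      rw [map_add, hsp]
      exact Submodule.add_mem_sup ha (Submodule.mem_map_of_mem hb)
  · rw [vol, vol, dif_neg h', dif_neg]
    rintro ⟨π, hπ⟩
    obtain ⟨g, hg⟩ := vola_factor _ (N'.mkQ.comp f) π fun v hv hz =>
      (hπ v hv).2 ((Submodule.Quotient.mk_eq_zero N').1 hz)
    refine h' ⟨g.comp N'.mkQ, fun w hw => ?_⟩
    rw [hsp] at hw
    obtain ⟨a, ha, b, ⟨v, hv, rfl⟩, rfl⟩ := Submodule.mem_sup.1 hw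
    have hv' : v ∈ N'.comap f ⊔ Submodule.span F (Set.range x) := Submodule.mem_sup_right hv
    have ha0 : N'.mkQ a = 0 := (Submodule.Quotient.mk_eq_zero N').2 ha
    have e : (g.comp N'.mkQ) (a + f v) = π v := by
      rw [LinearMap.comp_apply, map_add, ha0, zero_add]
      exact hg v hv'
    rw [e, hπ v hv', Submodule.mem_comap, N'.add_mem_iff_right ha]

theorem vol_zero {D : F → ℝ} (h0 : D 0 = 0) (N : Submodule F V) (x : Fin 4 → V) (i : Fin 4)
    (hi : x i ∈ N) : vol D N x = 0 := by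
  rw [vol]
  split_ifs with h
  · have hz : h.choose (x i) = 0 := (h.choose_spec _ (vola_mem N x i)).2 hi
    have : crv (fun j => h.choose (x j)) = 0 := by
      rw [crv]
      refine div_eq_zero_iff.2 (Or.inl ?_)
      fin_cases i
      · exact mul_eq_zero_of_left (by rw [show h.choose (x 0) = 0 from hz]; simp [det2]) _
      · exact mul_eq_zero_of_right _ (by rw [show h.choose (x 1) = 0 from hz]; simp [det2])
      · exact mul_eq_zero_of_left (by rw [show h.choose (x 2) = 0 from hz]; simp [det2]) _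
      · exact mul_eq_zero_of_right _ (by rw [show h.choose (x 3) = 0 from hz]; simp [det2])
    rw [this, h0]
  · rfl

/-- All classes on one line. -/
theorem vol_line {D : F → ℝ} (h0 : D 0 = 0) (N : Submodule F V) (x : Fin 4 → V) (w : V)
    (hw : ∀ i, x i ∈ N ⊔ Submodule.span F {w}) : vol D N x = 0 := by
  rw [vol]
  split_ifs with h
  · have hz : ∀ i, ∃ c : F, h.choose (x i) = c • h.choose w := fun i => by
      obtain ⟨a, ha, b, hb, e⟩ := Submodule.mem_sup.1 (hw i)
      obtain ⟨c, rfl⟩ := Submodule.mem_span_singleton.1 hb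
      refine ⟨c, ?_⟩
      rw [← e, map_add, (h.choose_spec a (Submodule.mem_sup_left ha)).2 ha, zero_add, map_smul]
    have : crv (fun j => h.choose (x j)) = 0 := by
      rw [crv]
      refine div_eq_zero_iff.2 (Or.inl (mul_eq_zero_of_left ?_ _))
      obtain ⟨c, hc⟩ := hz 0
      obtain ⟨d, hd⟩ := hz 2
      rw [hc, hd]
      simp only [det2, Pi.smul_apply, smul_eq_mul]
      ring
    rw [this, h0]
  · rfl

theorem vola2_not (D : F → ℝ) (N : Submodule F V) (x : Fin 4 → V)
    (h : ¬∃ π : V →ₗ[F] (Fin 2 → F),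
      ∀ v ∈ N ⊔ Submodule.span F (Set.range x), (π v = 0 ↔ v ∈ N)) : vol D N x = 0 := by
  rw [vol, dif_neg h]

theorem vola2_scale (c : Fin 4 → F) (hc : ∀ i, c i ≠ 0) (y : Fin 4 → Fin 2 → F) :
    crv (fun i => c i • y i) = crv y := by
  have h : c 0 * c 1 * c 2 * c 3 ≠ 0 :=
    mul_ne_zero (mul_ne_zero (mul_ne_zero (hc 0) (hc 1)) (hc 2)) (hc 3)
  rw [crv, crv, ← mul_div_mul_left (det2 (y 0) (y 2) * _) _ h]
  simp only [det2, Pi.smul_apply, smul_eq_mul]
  congr 1 <;> ring

theorem vola2_sup (N : Submodule F V) {x x' : Fin 4 → V}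
    (h : ∀ i, N ⊔ Submodule.span F {x i} = N ⊔ Submodule.span F {x' i}) :
    N ⊔ Submodule.span F (Set.range x) ≤ N ⊔ Submodule.span F (Set.range x') := by
  refine sup_le le_sup_left (Submodule.span_le.2 ?_)
  rintro _ ⟨i, rfl⟩
  have h1 : x i ∈ N ⊔ Submodule.span F {x' i} :=
    h i ▸ Submodule.mem_sup_right (Submodule.mem_span_singleton_self _)
  exact sup_le_sup_left (Submodule.span_mono (Set.singleton_subset_iff.2 (Set.mem_range_self i))) N h1

theorem vola2_mem {N : Submodule F V} {a b : V}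
    (h : N ⊔ Submodule.span F {a} = N ⊔ Submodule.span F {b}) (ha : a ∈ N) : b ∈ N := by
  have h1 : b ∈ N ⊔ Submodule.span F {a} :=
    h ▸ Submodule.mem_sup_right (Submodule.mem_span_singleton_self _)
  exact sup_le le_rfl ((Submodule.span_singleton_le_iff_mem _ _).2 ha) h1

/-- The volume depends only on the lines spanned modulo `N`. -/
theorem vol_congr {D : F → ℝ} (h0 : D 0 = 0) (N : Submodule F V) (x x' : Fin 4 → V)
    (h : ∀ i, N ⊔ Submodule.span F {x i} = N ⊔ Submodule.span F {x' i}) :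
    vol D N x = vol D N x' := by
  have hW := le_antisymm (vola2_sup N h) (vola2_sup N fun i => (h i).symm)
  by_cases h1 : ∃ i, x i ∈ N
  · obtain ⟨i, hi⟩ := h1
    rw [vol_zero h0 N x i hi, vol_zero h0 N x' i (vola2_mem (h i) hi)]
  by_cases h2 : ∃ π : V →ₗ[F] (Fin 2 → F),
      ∀ v ∈ N ⊔ Submodule.span F (Set.range x), (π v = 0 ↔ v ∈ N)
  swap
  · rw [vola2_not D N x h2, vola2_not D N x' (hW ▸ h2)]
  obtain ⟨π, hπ⟩ := h2
  have h3 : ∀ i, ∃ c : F, c ≠ 0 ∧ π (x' i) = c • π (x i) := fun i => by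
    have h4 : x' i ∈ N ⊔ Submodule.span F {x i} :=
      (h i).symm ▸ Submodule.mem_sup_right (Submodule.mem_span_singleton_self _)
    obtain ⟨n, hn, z, hz, e⟩ := Submodule.mem_sup.1 h4
    obtain ⟨c, rfl⟩ := Submodule.mem_span_singleton.1 hz
    refine ⟨c, ?_, ?_⟩
    · rintro rfl
      rw [zero_smul, add_zero] at e
      exact h1 ⟨i, vola2_mem (h i).symm (e ▸ hn)⟩
    · rw [← e, map_add, (hπ n (Submodule.mem_sup_left hn)).2 hn, zero_add, map_smul]
  choose c hc h3 using h3
  rw [vol_eq D N x π hπ, vol_eq D N x' π (hW ▸ hπ), funext h3, vola2_scale c hc]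

theorem vola2_div {a b : F} (h : a = 0 ∨ b = 0 ∨ a = b) : a / b = 0 ∨ a / b = 1 := by
  rcases h with rfl | rfl | rfl
  · exact Or.inl (zero_div _)
  · exact Or.inl (div_zero _)
  · rcases eq_or_ne a 0 with rfl | h
    · exact Or.inl (div_zero _)
    · exact Or.inr (div_self h)

theorem vola2_two {u v : Fin 2 → F} {y : Fin 4 → Fin 2 → F}
    (h : ∀ l, ∃ c : F, y l = c • u ∨ y l = c • v) : crv y = 0 ∨ crv y = 1 := by
  obtain ⟨c0, h0⟩ := h 0
  obtain ⟨c1, h1⟩ := h 1
  obtain ⟨c2, h2⟩ := h 2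
  obtain ⟨c3, h3⟩ := h 3
  refine vola2_div ?_
  rcases h0 with h0 | h0 <;> rcases h1 with h1 | h1 <;> rcases h2 with h2 | h2 <;>
    rcases h3 with h3 | h3 <;> simp only [det2, h0, h1, h2, h3, Pi.smul_apply, smul_eq_mul] <;>
    first
      | exact Or.inl (by ring1)
      | exact Or.inr (Or.inl (by ring1))
      | exact Or.inr (Or.inr (by ring1))

theorem vola2_span {u v : Fin 2 → F} (hu : u ≠ 0) (h : ∀ s t : F, s • u + t • v = 0 → t = 0)
    (w : Fin 2 → F) : ∃ s t : F, w = s • u + t • v := by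
  have hd : det2 u v ≠ 0 := fun hd => by
    rw [det2] at hd
    have h0 := h (-v 0) (u 0) (funext fun i => by
      fin_cases i
      · simp; ring
      · simp; linear_combination hd)
    have h1 := h (-v 1) (u 1) (funext fun i => by
      fin_cases i
      · simp; linear_combination -hd
      · simp; ring)
    exact hu (funext fun i => by fin_cases i; exacts [h0, h1])
  refine ⟨det2 w v / det2 u v, det2 u w / det2 u v, funext fun i => ?_⟩
  rw [Pi.add_apply, Pi.smul_apply, Pi.smul_apply, smul_eq_mul, smul_eq_mul, div_mul_eq_mul_div,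
    div_mul_eq_mul_div, ← add_div, eq_div_iff hd]
  fin_cases i <;> simp [det2] <;> ring

/-- Additivity along a projection. -/
theorem vol_split {D : F → ℝ} (h0 : D 0 = 0) (h1 : D 1 = 0) (e : V →ₗ[F] V) (he : ∀ v, e (e v) = e v)
    (N : Submodule F V) (hN : ∀ v ∈ N, e v ∈ N) (x : Fin 4 → V)
    (hx : ∀ i, e (x i) = x i ∨ e (x i) = 0) :
    vol D N x = vol D N (fun i => e (x i)) + vol D N fun i => x i - e (x i) := by
  have _ := he
  by_cases hA : ∀ i, e (x i) = x i
  · rw [vol_zero h0 N (fun i => x i - e (x i)) 0 (by rw [hA, sub_self]; exact N.zero_mem),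
      add_zero, funext hA]
  by_cases hB : ∀ i, e (x i) = 0
  · rw [vol_zero h0 N (fun i => e (x i)) 0 (by rw [hB]; exact N.zero_mem), zero_add]
    simp only [hB, sub_zero]
  obtain ⟨j, hj⟩ := not_forall.1 hA
  obtain ⟨i, hi⟩ := not_forall.1 hB
  replace hj := (hx j).resolve_left hj
  replace hi := (hx i).resolve_right hi
  rw [vol_zero h0 N (fun i => x i - e (x i)) i (by rw [hi, sub_self]; exact N.zero_mem),
    vol_zero h0 N (fun i => e (x i)) j (by rw [hj]; exact N.zero_mem), add_zero]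
  by_cases h2 : ∃ l, x l ∈ N
  · obtain ⟨l, hl⟩ := h2
    exact vol_zero h0 N x l hl
  by_cases h3 : ∃ π : V →ₗ[F] (Fin 2 → F),
      ∀ v ∈ N ⊔ Submodule.span F (Set.range x), (π v = 0 ↔ v ∈ N)
  swap
  · exact vola2_not D N x h3
  obtain ⟨π, hπ⟩ := h3
  have hm : ∀ l, x l ∈ N ⊔ Submodule.span F (Set.range x) := fun l =>
    Submodule.mem_sup_right (Submodule.subset_span ⟨l, rfl⟩)
  have hs : ∀ (s : F) l, s • x l ∈ N → s = 0 := fun s l h =>
    by_contra fun hs => h2 ⟨l, (N.smul_mem_iff hs).1 h⟩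
  have h4 : ∀ l, ∃ c : F, π (x l) = c • π (x i) ∨ π (x l) = c • π (x j) := fun l => by
    obtain ⟨s, t, h⟩ := vola2_span (u := π (x i)) (v := π (x j))
      (fun h => h2 ⟨i, (hπ _ (hm i)).1 h⟩) (fun s t h => by
        have h5 : s • x i + t • x j ∈ N := (hπ _ (Submodule.add_mem _ (Submodule.smul_mem _ _ (hm i))
          (Submodule.smul_mem _ _ (hm j)))).1 (by rw [map_add, map_smul, map_smul, h])
        have h6 := hN _ h5
        rw [map_add, map_smul, map_smul, hi, hj, smul_zero, add_zero] at h6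
        exact hs t j ((N.add_mem_iff_right h6).1 h5)) (π (x l))
    have h5 : x l - (s • x i + t • x j) ∈ N := (hπ _ (Submodule.sub_mem _ (hm l) (Submodule.add_mem _
      (Submodule.smul_mem _ _ (hm i)) (Submodule.smul_mem _ _ (hm j))))).1
        (by rw [map_sub, map_add, map_smul, map_smul, h, sub_self])
    have h6 := hN _ h5
    rw [map_sub, map_add, map_smul, map_smul, hi, hj, smul_zero, add_zero] at h6
    rcases hx l with hl | hl <;> rw [hl] at h6
    · have h7 := (hπ _ (Submodule.mem_sup_left h6)).2 h6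
      rw [map_sub, map_smul, sub_eq_zero] at h7
      exact ⟨s, Or.inl h7⟩
    · rw [zero_sub, N.neg_mem_iff] at h6
      rw [hs s i h6, zero_smul, zero_add] at h
      exact ⟨t, Or.inr h⟩
  rw [vol_eq D N x π hπ]
  rcases vola2_two h4 with h | h <;> rw [h]
  exacts [h0, h1]

end Pool.Agent.SR
end PartVolA

section PartVolB
namespace Pool.Agent.SR

variable {F : Type} [Field F] {V : Type} [AddCommGroup V] [Module F V]

/-- The determinant of three vectors. -/
def volb_det (a b c : Fin 3 → F) : F :=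
  a 0 * (b 1 * c 2 - b 2 * c 1) - a 1 * (b 0 * c 2 - b 2 * c 0) + a 2 * (b 0 * c 1 - b 1 * c 0)

/-- The determinant as a linear form in the first vector. -/
def volb_phi (b c : Fin 3 → F) : (Fin 3 → F) →ₗ[F] F where
  toFun a := volb_det a b c
  map_add' a a' := by simp only [volb_det, Pi.add_apply]; ring
  map_smul' r a := by simp only [volb_det, Pi.smul_apply, smul_eq_mul, RingHom.id_apply]; ring

/-- The projection from `u`. -/
def volb_pi (u : Fin 3 → F) (i : Fin 3) : (Fin 3 → F) →ₗ[F] (Fin 2 → F) where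
  toFun v := ![u i * v (i + 1) - u (i + 1) * v i, u i * v (i + 2) - u (i + 2) * v i]
  map_add' a a' := by
    ext k
    fin_cases k <;> simp <;> ring
  map_smul' r a := by
    ext k
    fin_cases k <;> simp <;> ring

lemma volb_pi_det (u : Fin 3 → F) (i : Fin 3) (a b : Fin 3 → F) :
    det2 (volb_pi u i a) (volb_pi u i b) = u i * volb_det u a b := by
  fin_cases i <;> simp [volb_pi, det2, volb_det] <;> ring

lemma volb_pi_ker {u : Fin 3 → F} {i : Fin 3} (hu : u i ≠ 0) (v : Fin 3 → F) :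
    volb_pi u i v = 0 ↔ v ∈ Submodule.span F {u} := by
  rw [Submodule.mem_span_singleton]
  constructor
  · intro h
    have h0 : u i * v (i + 1) - u (i + 1) * v i = 0 := congrFun h 0
    have h1 : u i * v (i + 2) - u (i + 2) * v i = 0 := congrFun h 1
    refine ⟨v i / u i, funext fun k => ?_⟩
    have hk : k = i ∨ k = i + 1 ∨ k = i + 2 :=
      (by decide : ∀ i k : Fin 3, k = i ∨ k = i + 1 ∨ k = i + 2) i k
    rw [Pi.smul_apply, smul_eq_mul, div_mul_eq_mul_div, div_eq_iff hu]
    rcases hk with rfl | rfl | rfl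
    · rfl
    · linear_combination -h0
    · linear_combination -h1
  · rintro ⟨r, rfl⟩
    ext k
    fin_cases k
    · change u i * (r * u (i + 1)) - u (i + 1) * (r * u i) = 0
      ring
    · change u i * (r * u (i + 2)) - u (i + 2) * (r * u i) = 0
      ring

/-- The cross ratio of the projections from `u`. -/
def volb_cr (u : Fin 3 → F) (w : Fin 4 → Fin 3 → F) : F :=
  volb_det u (w 0) (w 2) * volb_det u (w 1) (w 3) /
    (volb_det u (w 0) (w 3) * volb_det u (w 1) (w 2))

lemma volb_scale {c a b a' b' : F} (hc : c ≠ 0) :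
    c * a * (c * b) / (c * a' * (c * b')) = a * b / (a' * b') := by
  rw [show c * a * (c * b) = c * c * (a * b) by ring,
    show c * a' * (c * b') = c * c * (a' * b') by ring, mul_div_mul_left _ _ (mul_ne_zero hc hc)]

lemma volb_crv_pi {u : Fin 3 → F} {i : Fin 3} (hu : u i ≠ 0) (w : Fin 4 → Fin 3 → F) :
    crv (fun j => volb_pi u i (w j)) = volb_cr u w := by
  simp only [crv, volb_pi_det, volb_cr]
  exact volb_scale hu

lemma volb_right (D : F → ℝ) {u : Fin 3 → F} (hu : u ≠ 0) (w : Fin 4 → Fin 3 → F) :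
    vol D (Submodule.span F {u}) w = D (volb_cr u w) := by
  obtain ⟨i, hi⟩ := Function.ne_iff.mp hu
  rw [vol_eq D _ w (volb_pi u i) fun v _ => volb_pi_ker hi v, volb_crv_pi hi]

/-- The projection from a vector outside a plane is injective on the plane. -/
lemma volb_inj {ι : Type} {u : Fin 3 → F} {i : Fin 3} (hu : u i ≠ 0) (w : ι → Fin 3 → F)
    (φ : (Fin 3 → F) →ₗ[F] F) (hφ : φ u ≠ 0) (hw : ∀ j, φ (w j) = 0) :
    ∀ v ∈ (⊥ : Submodule F (Fin 3 → F)) ⊔ Submodule.span F (Set.range w),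
      (volb_pi u i v = 0 ↔ v ∈ (⊥ : Submodule F (Fin 3 → F))) := by
  intro v hv
  rw [bot_sup_eq] at hv
  have h0 : φ v = 0 := by
    have : Submodule.span F (Set.range w) ≤ LinearMap.ker φ :=
      Submodule.span_le.mpr (by rintro _ ⟨j, rfl⟩; exact hw j)
    exact this hv
  rw [volb_pi_ker hu, Submodule.mem_bot, Submodule.mem_span_singleton]
  constructor
  · rintro ⟨r, rfl⟩
    rw [map_smul, smul_eq_mul, mul_eq_zero] at h0
    rw [h0.resolve_right hφ, zero_smul]
  · rintro rfl
    exact ⟨0, zero_smul _ _⟩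

lemma volb_ne_of_phi {u : Fin 3 → F} {φ : (Fin 3 → F) →ₗ[F] F} (hφ : φ u ≠ 0) :
    ∃ i, u i ≠ 0 := by
  have h : u ≠ 0 := fun h => hφ (by rw [h, map_zero])
  exact Function.ne_iff.mp h

lemma volb_plane (D : F → ℝ) {u : Fin 3 → F} (w : Fin 4 → Fin 3 → F)
    (φ : (Fin 3 → F) →ₗ[F] F) (hφ : φ u ≠ 0) (hw : ∀ j, φ (w j) = 0) :
    vol D ⊥ w = D (volb_cr u w) := by
  obtain ⟨i, hi⟩ := volb_ne_of_phi hφ
  rw [vol_eq D _ w (volb_pi u i) (volb_inj hi w φ hφ hw), volb_crv_pi hi]

lemma volb_space (D : F → ℝ) (w : Fin 4 → Fin 3 → F) {a b c : Fin 4}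
    (h : volb_det (w a) (w b) (w c) ≠ 0) : vol D ⊥ w = 0 := by
  unfold vol
  rw [dif_neg]
  rintro ⟨π, hπ⟩
  have hm : ∀ j, w j ∈ (⊥ : Submodule F (Fin 3 → F)) ⊔ Submodule.span F (Set.range w) := fun j =>
    Submodule.mem_sup_right (Submodule.subset_span ⟨j, rfl⟩)
  have key : ∀ r s t : F, r • π (w a) + s • π (w b) + t • π (w c) = 0 →
      r = 0 ∧ s = 0 ∧ t = 0 := by
    intro r s t h0
    have h1 : r • w a + s • w b + t • w c = 0 := by
      refine (Submodule.mem_bot F).mp ((hπ _ (Submodule.add_mem _ (Submodule.add_mem _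
        (Submodule.smul_mem _ _ (hm a)) (Submodule.smul_mem _ _ (hm b)))
        (Submodule.smul_mem _ _ (hm c)))).mp ?_)
      rw [map_add, map_add, map_smul, map_smul, map_smul, h0]
    have e0 : r * w a 0 + s * w b 0 + t * w c 0 = 0 := congrFun h1 0
    have e1 : r * w a 1 + s * w b 1 + t * w c 1 = 0 := congrFun h1 1
    have e2 : r * w a 2 + s * w b 2 + t * w c 2 = 0 := congrFun h1 2
    refine ⟨(mul_eq_zero.mp ?_).resolve_right h, (mul_eq_zero.mp ?_).resolve_right h,
      (mul_eq_zero.mp ?_).resolve_right h⟩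
    · unfold volb_det
      linear_combination (w b 1 * w c 2 - w b 2 * w c 1) * e0 -
        (w b 0 * w c 2 - w b 2 * w c 0) * e1 + (w b 0 * w c 1 - w b 1 * w c 0) * e2
    · unfold volb_det
      linear_combination -(w a 1 * w c 2 - w a 2 * w c 1) * e0 +
        (w a 0 * w c 2 - w a 2 * w c 0) * e1 - (w a 0 * w c 1 - w a 1 * w c 0) * e2
    · unfold volb_det
      linear_combination (w a 1 * w b 2 - w a 2 * w b 1) * e0 -
        (w a 0 * w b 2 - w a 2 * w b 0) * e1 + (w a 0 * w b 1 - w a 1 * w b 0) * e2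
  generalize π (w a) = p at key
  generalize π (w b) = q at key
  generalize π (w c) = r at key
  have k1 := key (det2 q r) (-det2 p r) (det2 p q) (by
    ext k
    fin_cases k <;> simp [det2] <;> ring)
  have hd : p 0 * q 1 - p 1 * q 0 = 0 := k1.2.2
  have k2 := key (-q 0) (p 0) 0 (by
    ext k
    fin_cases k
    · simp
      ring
    · simp
      linear_combination hd)
  have k3 := key (q 1) (-p 1) 0 (by
    ext k
    fin_cases k
    · simp
      linear_combination hd
    · simp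
      ring)
  have k4 := key 1 0 0 (by
    ext k
    fin_cases k
    · simpa using k2.2.1
    · simpa using k3.2.1)
  exact one_ne_zero k4.1

lemma volb_sort3 {ι : Type} [LinearOrder ι] (R : ι → ι → ι → Prop)
    (s1 : ∀ a b c, R a b c → R b a c) (s2 : ∀ a b c, R a b c → R a c b) (d1 : ∀ a c, R a a c)
    (h : ∀ a b c, a < b → b < c → R a b c) (a b c : ι) : R a b c := by
  have d2 : ∀ a b, R a b b := fun a b => s1 _ _ _ (s2 _ _ _ (d1 b a))
  have h2 : ∀ a b, a < b → ∀ c, R a b c := by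
    intro a b hab c
    rcases lt_trichotomy b c with hbc | rfl | hbc
    · exact h a b c hab hbc
    · exact d2 _ _
    · refine s2 _ _ _ ?_
      rcases lt_trichotomy a c with hac | rfl | hac
      · exact h a c b hac hbc
      · exact d1 _ _
      · exact s1 _ _ _ (h c a b hac hab)
  rcases lt_trichotomy a b with hab | rfl | hab
  · exact h2 a b hab c
  · exact d1 _ _
  · exact s1 _ _ _ (h2 b a hab c)

lemma volb_sort4 {ι : Type} [LinearOrder ι] (R : ι → ι → ι → ι → Prop)
    (s1 : ∀ a b c d, R a b c d → R b a c d) (s2 : ∀ a b c d, R a b c d → R a c b d)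
    (s3 : ∀ a b c d, R a b c d → R a b d c) (d1 : ∀ a c d, R a a c d)
    (h : ∀ a b c d, a < b → b < c → c < d → R a b c d) (a b c d : ι) : R a b c d := by
  have d2 : ∀ a b d, R a b b d := fun a b d => s1 _ _ _ _ (s2 _ _ _ _ (d1 b a d))
  have d3 : ∀ a b c, R a b c c := fun a b c => s2 _ _ _ _ (s3 _ _ _ _ (d2 a c b))
  refine volb_sort3 (fun a b c => R a b c d) (fun a b c => s1 a b c d) (fun a b c => s2 a b c d)
    (fun a c => d1 a c d) (fun a b c hab hbc => ?_) a b c
  rcases lt_trichotomy c d with hcd | rfl | hcd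
  · exact h a b c d hab hbc hcd
  · exact d3 _ _ _
  · refine s3 _ _ _ _ ?_
    rcases lt_trichotomy b d with hbd | rfl | hbd
    · exact h a b d c hab hbd hcd
    · exact d2 _ _ _
    · refine s2 _ _ _ _ ?_
      rcases lt_trichotomy a d with had | rfl | had
      · exact h a d b c had hbd hbc
      · exact d1 _ _ _
      · exact s1 _ _ _ _ (h d a b c had hab hbc)

/-- The Gale dual coordinates. -/
def volb_P (y : Fin 5 → Fin 3 → F) : Fin 5 → Fin 5 → F :=
  ![![0, volb_det (y 2) (y 3) (y 4), -volb_det (y 1) (y 3) (y 4), volb_det (y 1) (y 2) (y 4),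
      -volb_det (y 1) (y 2) (y 3)],
    ![-volb_det (y 2) (y 3) (y 4), 0, volb_det (y 0) (y 3) (y 4), -volb_det (y 0) (y 2) (y 4),
      volb_det (y 0) (y 2) (y 3)],
    ![volb_det (y 1) (y 3) (y 4), -volb_det (y 0) (y 3) (y 4), 0, volb_det (y 0) (y 1) (y 4),
      -volb_det (y 0) (y 1) (y 3)],
    ![-volb_det (y 1) (y 2) (y 4), volb_det (y 0) (y 2) (y 4), -volb_det (y 0) (y 1) (y 4), 0,
      volb_det (y 0) (y 1) (y 2)],
    ![volb_det (y 1) (y 2) (y 3), -volb_det (y 0) (y 2) (y 3), volb_det (y 0) (y 1) (y 3),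
      -volb_det (y 0) (y 1) (y 2), 0]]

lemma volb_P_swap (y : Fin 5 → Fin 3 → F) (a b : Fin 5) : volb_P y a b = -volb_P y b a := by
  fin_cases a <;> fin_cases b <;> simp [volb_P]

lemma volb_P_self (y : Fin 5 → Fin 3 → F) (a : Fin 5) : volb_P y a a = 0 := by
  fin_cases a <;> simp [volb_P]

lemma volb_pl (y : Fin 5 → Fin 3 → F) (a b c d : Fin 5) :
    volb_P y a b * volb_P y c d - volb_P y a c * volb_P y b d + volb_P y a d * volb_P y b c
      = 0 := by
  refine volb_sort4 (fun a b c d => volb_P y a b * volb_P y c d - volb_P y a c * volb_P y b d +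
    volb_P y a d * volb_P y b c = 0) (fun a b c d h => ?_) (fun a b c d h => ?_)
    (fun a b c d h => ?_) (fun a c d => ?_) (fun a b c d h1 h2 h3 => ?_) a b c d
  · rw [volb_P_swap y b a]
    linear_combination -h
  · rw [volb_P_swap y c b]
    linear_combination -h
  · rw [volb_P_swap y d c]
    linear_combination -h
  · rw [volb_P_self]
    ring
  · have : (a = 1 ∧ b = 2 ∧ c = 3 ∧ d = 4) ∨ (a = 0 ∧ b = 2 ∧ c = 3 ∧ d = 4) ∨
        (a = 0 ∧ b = 1 ∧ c = 3 ∧ d = 4) ∨ (a = 0 ∧ b = 1 ∧ c = 2 ∧ d = 4) ∨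
        (a = 0 ∧ b = 1 ∧ c = 2 ∧ d = 3) := by
      revert a b c d
      decide +kernel
    rcases this with ⟨rfl, rfl, rfl, rfl⟩ | ⟨rfl, rfl, rfl, rfl⟩ | ⟨rfl, rfl, rfl, rfl⟩ |
      ⟨rfl, rfl, rfl, rfl⟩ | ⟨rfl, rfl, rfl, rfl⟩ <;> simp [volb_P, volb_det] <;> ring

lemma volb_K (y : Fin 5 → Fin 3 → F) (i : Fin 5) : ∃ s : F, s ≠ 0 ∧
    volb_P y (i.succAbove 0) (i.succAbove 1) =
      s * volb_det (y i) (y (i.succAbove 2)) (y (i.succAbove 3)) ∧
    volb_P y (i.succAbove 0) (i.succAbove 2) =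
      -s * volb_det (y i) (y (i.succAbove 1)) (y (i.succAbove 3)) ∧
    volb_P y (i.succAbove 0) (i.succAbove 3) =
      s * volb_det (y i) (y (i.succAbove 1)) (y (i.succAbove 2)) ∧
    volb_P y (i.succAbove 1) (i.succAbove 2) =
      s * volb_det (y i) (y (i.succAbove 0)) (y (i.succAbove 3)) ∧
    volb_P y (i.succAbove 1) (i.succAbove 3) =
      -s * volb_det (y i) (y (i.succAbove 0)) (y (i.succAbove 2)) ∧
    volb_P y (i.succAbove 2) (i.succAbove 3) =
      s * volb_det (y i) (y (i.succAbove 0)) (y (i.succAbove 1)) ∧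
    volb_P y i (i.succAbove 0) =
      s * volb_det (y (i.succAbove 1)) (y (i.succAbove 2)) (y (i.succAbove 3)) ∧
    volb_P y i (i.succAbove 1) =
      -s * volb_det (y (i.succAbove 0)) (y (i.succAbove 2)) (y (i.succAbove 3)) ∧
    volb_P y i (i.succAbove 2) =
      s * volb_det (y (i.succAbove 0)) (y (i.succAbove 1)) (y (i.succAbove 3)) ∧
    volb_P y i (i.succAbove 3) =
      -s * volb_det (y (i.succAbove 0)) (y (i.succAbove 1)) (y (i.succAbove 2)) := by
  refine ⟨(-1) ^ (i : ℕ), pow_ne_zero _ (neg_ne_zero.mpr one_ne_zero), ?_⟩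
  fin_cases i <;> refine ⟨?_, ?_, ?_, ?_, ?_, ?_, ?_, ?_, ?_, ?_⟩ <;>
    simp [volb_P, volb_det, Fin.succAbove] <;> ring

lemma volb_det_swap1 (a b c : Fin 3 → F) : volb_det b a c = -volb_det a b c := by
  unfold volb_det
  ring

lemma volb_det_swap2 (a b c : Fin 3 → F) : volb_det a c b = -volb_det a b c := by
  unfold volb_det
  ring

lemma volb_det_self (a c : Fin 3 → F) : volb_det a a c = 0 := by
  unfold volb_det
  ring

/-- If the row `i` of the dual coordinates vanishes, the other four vectors lie in a plane. -/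
lemma volb_flat {y : Fin 5 → Fin 3 → F} {i : Fin 5} (h : ∀ k, volb_P y i k = 0) (a b c : Fin 4) :
    volb_det (y (i.succAbove a)) (y (i.succAbove b)) (y (i.succAbove c)) = 0 := by
  obtain ⟨s, hs, -, -, -, -, -, -, k0, k1, k2, k3⟩ := volb_K y i
  have hs' : -s ≠ 0 := neg_ne_zero.mpr hs
  rw [h] at k0 k1 k2 k3
  refine volb_sort3 (fun a b c => volb_det (y (i.succAbove a)) (y (i.succAbove b))
    (y (i.succAbove c)) = 0) (fun a b c h => ?_) (fun a b c h => ?_)
    (fun a c => volb_det_self _ _) (fun a b c h1 h2 => ?_) a b c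
  · rw [volb_det_swap1, h, neg_zero]
  · rw [volb_det_swap2, h, neg_zero]
  · have : (a = 1 ∧ b = 2 ∧ c = 3) ∨ (a = 0 ∧ b = 2 ∧ c = 3) ∨ (a = 0 ∧ b = 1 ∧ c = 3) ∨
        (a = 0 ∧ b = 1 ∧ c = 2) := by
      revert a b c
      decide
    rcases this with ⟨rfl, rfl, rfl⟩ | ⟨rfl, rfl, rfl⟩ | ⟨rfl, rfl, rfl⟩ | ⟨rfl, rfl, rfl⟩
    · exact (mul_eq_zero.mp k0.symm).resolve_left hs
    · exact (mul_eq_zero.mp k1.symm).resolve_left hs'
    · exact (mul_eq_zero.mp k2.symm).resolve_left hs
    · exact (mul_eq_zero.mp k3.symm).resolve_left hs'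

lemma volb_not_flat {y : Fin 5 → Fin 3 → F} {i : Fin 5} (h : ¬ ∀ k, volb_P y i k = 0) :
    ∃ a b c : Fin 4,
      volb_det (y (i.succAbove a)) (y (i.succAbove b)) (y (i.succAbove c)) ≠ 0 := by
  by_contra hc
  push Not at hc
  obtain ⟨s, -, -, -, -, -, -, -, k0, k1, k2, k3⟩ := volb_K y i
  rw [hc, mul_zero] at k0 k1 k2 k3
  refine h fun k => ?_
  by_cases hk : k = i
  · rw [hk, volb_P_self]
  · obtain ⟨a, rfl⟩ := Fin.exists_succAbove_eq hk
    fin_cases a
    exacts [k0, k1, k2, k3]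

lemma volb_apex {y : Fin 5 → Fin 3 → F} {i a b : Fin 5} (h : ∀ k, volb_P y i k = 0)
    (hab : volb_P y a b ≠ 0) :
    ∃ c d : Fin 4, volb_det (y i) (y (i.succAbove c)) (y (i.succAbove d)) ≠ 0 := by
  by_contra hc
  push Not at hc
  obtain ⟨s, -, k0, k1, k2, k3, k4, k5, -⟩ := volb_K y i
  rw [hc, mul_zero] at k0 k1 k2 k3 k4 k5
  have ha : a ≠ i := fun e => hab (by rw [e, h])
  have hb : b ≠ i := fun e => hab (by rw [e, volb_P_swap, h, neg_zero])
  obtain ⟨a, rfl⟩ := Fin.exists_succAbove_eq ha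
  obtain ⟨b, rfl⟩ := Fin.exists_succAbove_eq hb
  have key : ∀ a b : Fin 4, a < b → volb_P y (i.succAbove a) (i.succAbove b) = 0 := by
    intro a b h1
    have : (a = 0 ∧ b = 1) ∨ (a = 0 ∧ b = 2) ∨ (a = 0 ∧ b = 3) ∨ (a = 1 ∧ b = 2) ∨
        (a = 1 ∧ b = 3) ∨ (a = 2 ∧ b = 3) := by
      revert a b
      decide
    rcases this with ⟨rfl, rfl⟩ | ⟨rfl, rfl⟩ | ⟨rfl, rfl⟩ | ⟨rfl, rfl⟩ | ⟨rfl, rfl⟩ | ⟨rfl, rfl⟩
    exacts [k0, k1, k2, k3, k4, k5]
  rcases lt_trichotomy a b with h1 | rfl | h1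
  · exact hab (key a b h1)
  · exact hab (volb_P_self _ _)
  · exact hab (by rw [volb_P_swap, key b a h1, neg_zero])

lemma volb_crv_zero (w : Fin 4 → Fin 2 → F) {k : Fin 4} (h : w k = 0) : crv w = 0 := by
  fin_cases k
  · have h' : w 0 = 0 := h
    simp [crv, det2, h']
  · have h' : w 1 = 0 := h
    simp [crv, det2, h']
  · have h' : w 2 = 0 := h
    simp [crv, det2, h']
  · have h' : w 3 = 0 := h
    simp [crv, det2, h']

/-- The case of five vectors that span the space. -/
lemma volb_caseB {D : F → ℝ} (hD : FiveTerm D) (y : Fin 5 → Fin 3 → F) {a b : Fin 5}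
    (hab : volb_P y a b ≠ 0) :
    cob (vol D ⊥) y = ∑ i : Fin 5, (-1 : ℝ) ^ (i : ℕ) *
      D (volb_cr (y i) fun j => y (i.succAbove j)) := by
  set z : Fin 5 → Fin 2 → F := fun j => ![volb_P y a j, volb_P y b j] with hz
  have hdet : ∀ j k, det2 (z j) (z k) = volb_P y a b * volb_P y j k := by
    intro j k
    have := volb_pl y a b j k
    simp only [hz, det2, Matrix.cons_val_zero, Matrix.cons_val_one]
    linear_combination -this
  have hA : ∀ i : Fin 5, (volb_cr (y i) fun j => y (i.succAbove j)) =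
      crv fun j => z (i.succAbove j) := by
    intro i
    obtain ⟨s, hs, -, k1, k2, k3, k4, -⟩ := volb_K y i
    simp only [crv, hdet, volb_cr]
    rw [volb_scale hab, k1, k2, k3, k4, neg_mul s, neg_mul s, neg_mul_neg, volb_scale hs, mul_comm,
      mul_comm (volb_det (y i) (y (i.succAbove 0)) (y (i.succAbove 3)))]
  have hz0 : ∀ i, z i = 0 ↔ ∀ k, volb_P y i k = 0 := by
    intro i
    constructor
    · intro h k
      have := hdet i k
      rw [h] at this
      simp only [det2, Pi.zero_apply, zero_mul, sub_self] at this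
      exact (mul_eq_zero.mp this.symm).resolve_left hab
    · intro h
      ext k
      fin_cases k
      · simp [hz, volb_P_swap y a i, h]
      · simp [hz, volb_P_swap y b i, h]
  have hL0 : ∀ i : Fin 5, z i ≠ 0 → (vol D ⊥ fun j => y (i.succAbove j)) = 0 := by
    intro i hi
    obtain ⟨p, q, r, h⟩ := volb_not_flat fun h => hi ((hz0 i).mpr h)
    exact volb_space D (fun j => y (i.succAbove j)) h
  by_cases h : ∀ i, z i ≠ 0
  · have h5 := hD.five z h
    unfold cob at h5 ⊢
    simp only [hA, h5]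
    exact Finset.sum_eq_zero fun i _ => by rw [hL0 i (h i), mul_zero]
  · push Not at h
    obtain ⟨i, hi⟩ := h
    unfold cob
    refine Finset.sum_congr rfl fun j _ => congrArg _ ?_
    by_cases hj : z j = 0
    · obtain ⟨c, d, hcd⟩ := volb_apex ((hz0 j).mp hj) hab
      exact volb_plane D (fun k => y (j.succAbove k))
        (volb_phi (y (j.succAbove c)) (y (j.succAbove d))) hcd
        fun k => volb_flat ((hz0 j).mp hj) k c d
    · have hij : i ≠ j := fun e => hj (e ▸ hi)
      obtain ⟨k, hk⟩ := Fin.exists_succAbove_eq hij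
      rw [hL0 j hj, hA, volb_crv_zero (fun k => z (j.succAbove k)) (k := k) (by rw [hk, hi]),
        hD.zero]

/-- The case of five non-zero vectors in a plane. -/
lemma volb_caseA {D : F → ℝ} (hD : FiveTerm D) (y : Fin 5 → Fin 3 → F) (hy : ∀ i, y i ≠ 0)
    (h : ∀ a b c, volb_det (y a) (y b) (y c) = 0) : cob (vol D ⊥) y = 0 := by
  by_cases hl : ∀ j, y j ∈ Submodule.span F {y 0}
  · unfold cob
    refine Finset.sum_eq_zero fun i _ => ?_
    rw [vol_line hD.zero ⊥ (fun j => y (i.succAbove j)) (y 0)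
      fun j => Submodule.mem_sup_right (hl _), mul_zero]
  push Not at hl
  obtain ⟨j, hj⟩ := hl
  obtain ⟨i, hi⟩ := Function.ne_iff.mp (hy 0)
  have hu : ∃ u, volb_phi (y 0) (y j) u ≠ 0 := by
    by_contra hc
    push Not at hc
    refine hj ((volb_pi_ker hi _).mp ?_)
    have c0 : volb_det (Pi.single 0 1) (y 0) (y j) = 0 := hc _
    have c1 : volb_det (Pi.single 1 1) (y 0) (y j) = 0 := hc _
    have c2 : volb_det (Pi.single 2 1) (y 0) (y j) = 0 := hc _
    simp [volb_det] at c0 c1 c2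
    ext k
    fin_cases i <;> fin_cases k <;> simp [volb_pi] <;>
      first
        | linear_combination c0
        | linear_combination -c0
        | linear_combination c1
        | linear_combination -c1
        | linear_combination c2
        | linear_combination -c2
  obtain ⟨u, hu⟩ := hu
  obtain ⟨m, hm⟩ := volb_ne_of_phi hu
  have hinj := volb_inj hm y (volb_phi (y 0) (y j)) hu fun k => h k 0 j
  have h5 := hD.five (fun k => volb_pi u m (y k)) fun k hk => hy k
    ((Submodule.mem_bot F).mp ((hinj _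
      (Submodule.mem_sup_right (Submodule.subset_span ⟨k, rfl⟩))).mp hk))
  rw [← h5]
  unfold cob
  refine Finset.sum_congr rfl fun k _ => congrArg _ ?_
  exact vol_eq D ⊥ _ (volb_pi u m)
    (volb_inj hm (fun l => y (k.succAbove l)) (volb_phi (y 0) (y j)) hu fun l => h _ 0 j)

lemma volb_three {D : F → ℝ} (hD : FiveTerm D) (y : Fin 5 → Fin 3 → F) :
    cob (vol D ⊥) y = ∑ i : Fin 5, (-1 : ℝ) ^ (i : ℕ) *
      vol D (Submodule.span F {y i}) fun j => y (i.succAbove j) := by
  by_cases hy : ∀ i, y i ≠ 0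
  swap
  · push Not at hy
    obtain ⟨i, hi⟩ := hy
    unfold cob
    refine Finset.sum_congr rfl fun j _ => congrArg _ ?_
    by_cases hij : i = j
    · rw [← hij, hi, Submodule.span_zero_singleton]
    · obtain ⟨k, hk⟩ := Fin.exists_succAbove_eq hij
      have h0 : y (j.succAbove k) = 0 := by rw [hk, hi]
      rw [vol_zero hD.zero _ (fun l => y (j.succAbove l)) k (by rw [h0]; exact zero_mem _),
        vol_zero hD.zero _ (fun l => y (j.succAbove l)) k (by rw [h0]; exact zero_mem _)]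
  simp only [fun i => volb_right D (hy i)]
  by_cases hP : ∀ a b, volb_P y a b = 0
  · have h : ∀ a b c, volb_det (y a) (y b) (y c) = 0 := by
      intro a b c
      obtain ⟨i, ha, hb, hc⟩ : ∃ i : Fin 5, a ≠ i ∧ b ≠ i ∧ c ≠ i := by
        revert a b c
        decide +kernel
      obtain ⟨a, rfl⟩ := Fin.exists_succAbove_eq ha
      obtain ⟨b, rfl⟩ := Fin.exists_succAbove_eq hb
      obtain ⟨c, rfl⟩ := Fin.exists_succAbove_eq hc
      exact volb_flat (hP i) a b c
    rw [volb_caseA hD y hy h]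
    refine (Finset.sum_eq_zero fun i _ => ?_).symm
    simp only [volb_cr, h, mul_zero, zero_div, hD.zero]
  · push Not at hP
    obtain ⟨a, b, hab⟩ := hP
    exact volb_caseB hD y hab

/-- The five term relation and its Gale dual. Plan: by `vol_comap` (with `N.mkQ`, and a linear map injective on the span) reduce to `N = ⊥` and
`m = finrank (span x) ≤ 3`.
`m ≤ 2`: take `π` injective on the span; the left terms are `D (crv (π x_î))`; the right term `i` is `0` if `x i ≠ 0` (`vol_line`) and equals the left term if `x i = 0`;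
if no `x i` is `0` use `hD.five`, otherwise all terms `j ≠ i` vanish (`vol_zero`).
`m = 3`: `V = Fin 3 → F`, `t i j k = det ![x i, x j, x k]`. For every `i` let `A i = D` of the cross ratio formula of the array `(j, k) ↦ t i j k` on the four indices `≠ i`.
The right term `i` is `A i` (project from `x i`; if `x i = 0` both are `0`). The left term `i` is `A i` if the four `x j, j ≠ i` span a plane, else `0`.
Gale dual: `p j k = ± t l m n` (complementary indices) satisfies the Pluecker relations and is not identically `0`; if `p a b ≠ 0` put `y j = ![p a j, p b j]`, so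
`det2 (y j) (y k) = p a b * p j k` and `A i = D (crv y_î)`; `y i = 0` iff all `t` inside the complement of `i` vanish iff these four vectors span a plane.
If no `y i` is `0`: left side `0`, right side `hD.five`. If `y i = 0`: `A j = D 0 = 0` for `j ≠ i`, both sides are `(-1)^i A i`. -/
theorem vol_five {D : F → ℝ} (hD : FiveTerm D) [Module.Finite F V] (hV : Module.finrank F V ≤ 3)
    (N : Submodule F V) (x : Fin 5 → V) :
    cob (vol D N) x = ∑ i : Fin 5, (-1 : ℝ) ^ (i : ℕ) *
      vol D (N ⊔ Submodule.span F {x i}) fun j => x (i.succAbove j) := by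
  have h1 : Module.finrank F (V ⧸ N) ≤ Module.finrank F (Fin 3 → F) := by
    rw [Module.finrank_fin_fun]
    exact (Submodule.finrank_quotient_le N).trans hV
  obtain ⟨g, hg⟩ := finrank_le_iff_exists_linearMap.mp h1
  have hk : LinearMap.ker (g ∘ₗ N.mkQ) = N := by
    rw [LinearMap.ker_comp_of_ker_eq_bot _ (LinearMap.ker_eq_bot.mpr hg), Submodule.ker_mkQ]
  generalize g ∘ₗ N.mkQ = f at hk
  subst hk
  have h2 : ∀ i, LinearMap.ker f ⊔ Submodule.span F {x i} =
      (Submodule.span F {f (x i)}).comap f := by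
    intro i
    rw [← Set.image_singleton (f := f), ← Submodule.map_span, Submodule.comap_map_eq, sup_comm]
  have h3 := volb_three hD fun i => f (x i)
  unfold cob at h3 ⊢
  simp only [h2, vol_comap]
  simp only [← Submodule.comap_bot, vol_comap]
  exact h3

end Pool.Agent.SR
end PartVolB

section PartBBl
namespace Pool.Agent.SR

variable {F : Type} [Field F] {V V' V'' : Type} [AddCommGroup V] [Module F V] [AddCommGroup V']
  [Module F V'] [AddCommGroup V''] [Module F V'']

theorem IsFlag.finite {f : ℕ → Submodule F V} (h : IsFlag f) :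
    Module.Finite F V ∧ Module.finrank F V ≤ 3 := by
  obtain ⟨a, ha⟩ := h.step 0 (by norm_num)
  obtain ⟨b, hb⟩ := h.step 1 (by norm_num)
  obtain ⟨c, hc⟩ := h.step 2 (by norm_num)
  have e : Submodule.span F (Set.range ![a, b, c]) = ⊤ := by
    rw [eq_top_iff, ← h.top, hc, hb, ha, h.bot]
    refine sup_le (sup_le (sup_le bot_le ?_) ?_) ?_ <;>
      refine Submodule.span_mono (Set.singleton_subset_iff.2 ?_)
    exacts [⟨0, rfl⟩, ⟨1, rfl⟩, ⟨2, rfl⟩]
  refine ⟨⟨⟨(Set.finite_range ![a, b, c]).toFinset, by simpa using e⟩⟩, ?_⟩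
  have h3 := finrank_range_le_card (R := F) ![a, b, c]
  rwa [Set.finrank, e, finrank_top, Fintype.card_fin] at h3

theorem bbl1_sup {N A B : Submodule F V} {v : V} (hA : A ≤ N)
    (hB : B = A ⊔ Submodule.span F {v}) : N ⊔ Submodule.span F {v} = N ⊔ B := by
  rw [hB, ← sup_assoc, sup_eq_left.2 hA]

/-- Any generators can be used (`vol_congr`). -/
theorem BB_eq {D : F → ℝ} (h0 : D 0 = 0) (f : Fin 4 → ℕ → Submodule F V) (v : Fin 4 → ℕ → V)
    (hv : ∀ i, ∀ j < 3, f i (j + 1) = f i j ⊔ Submodule.span F {v i j}) :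
    BB D f = ∑ J : Fin 4 → Fin 3, vol D (⨆ i, f i (J i)) fun i => v i (J i) := by
  refine Finset.sum_congr rfl fun J _ => vol_congr h0 _ _ _ fun i => ?_
  have h1 : f i (J i) ≤ ⨆ i, f i (J i) := le_iSup (fun i => f i (J i)) i
  have h2 := hv i (J i) (J i).2
  have h3 : f i (J i + 1) = f i (J i) ⊔ Submodule.span F {gen (f i) (J i)} :=
    Classical.epsilon_spec (p := fun w => f i (J i + 1) = f i (J i) ⊔ Submodule.span F {w})
      ⟨_, h2⟩
  rw [bbl1_sup h1 h2, bbl1_sup h1 h3]

theorem bbl1_iSup (g : Fin 5 → Submodule F V) (i : Fin 5) :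
    ⨆ l, g l = (⨆ j, g (i.succAbove j)) ⊔ g i := by
  refine le_antisymm (iSup_le ((Fin.forall_iff_succAbove i).2 ⟨le_sup_right, fun j => ?_⟩))
    (sup_le (iSup_le fun j => le_iSup g _) (le_iSup g i))
  exact (le_iSup (fun j => g (i.succAbove j)) j).trans le_sup_left

theorem bbl1_tel {D : F → ℝ} (h0 : D 0 = 0) (f : Fin 5 → ℕ → Submodule F V)
    (hf : ∀ i, IsFlag (f i)) (i : Fin 5) :
    BB D (fun j => f (i.succAbove j)) = ∑ J : Fin 5 → Fin 3,
      ((vol D (⨆ l, f l (J l)) fun j => gen (f (i.succAbove j)) (J (i.succAbove j))) -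
        vol D ((⨆ l, f l (J l)) ⊔ Submodule.span F {gen (f i) (J i)})
          fun j => gen (f (i.succAbove j)) (J (i.succAbove j))) := by
  rw [← (Fin.insertNthEquiv (fun _ => Fin 3) i).sum_comp, Fintype.sum_prod_type_right]
  refine Finset.sum_congr rfl fun J _ => ?_
  have key : ∀ a : Fin 3, ((⨆ j, f (i.succAbove j) (J j)) ⊔ f i a) ⊔
      Submodule.span F {gen (f i) a} = (⨆ j, f (i.succAbove j) (J j)) ⊔ f i (a + 1) := fun a => by
    rw [sup_assoc, ← (hf i).gen_spec a.2]
  have e : ∀ a : Fin 3, (⨆ l, f l ((Fin.insertNthEquiv (fun _ => Fin 3) i (a, J)) l)) =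
      (⨆ j, f (i.succAbove j) (J j)) ⊔ f i a := fun a => by
    rw [bbl1_iSup _ i]
    simp only [Fin.insertNthEquiv_apply, Fin.insertNth_apply_same, Fin.insertNth_apply_succAbove]
  simp only [e]
  simp only [Fin.insertNthEquiv_apply, Fin.insertNth_apply_same, Fin.insertNth_apply_succAbove,
    key]
  rw [Fin.sum_univ_three]
  have h3 := vol_zero h0 ((⨆ j, f (i.succAbove j) (J j)) ⊔ f i 3)
    (fun j => gen (f (i.succAbove j)) (J j)) 0 (by rw [(hf i).top, sup_top_eq]; trivial)
  have h4 : (⨆ j, f (i.succAbove j) (J j)) ⊔ f i 0 = ⨆ j, f (i.succAbove j) (J j) := by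
    rw [(hf i).bot, sup_bot_eq]
  simp only [Fin.val_zero, Fin.val_one, Fin.val_two, zero_add, Nat.reduceAdd, h3, h4]
  ring

/-- Plan: sum `vol_five` over `J : Fin 5 → Fin 3` with `N = ⨆ i, f i (J i)`, `x i = gen (f i) (J i)`. For fixed `i` split `J` into `J i` and the rest
(`Fin.insertNthEquiv`); `N = N' ⊔ f i (J i)`, `N ⊔ span {x i} = N' ⊔ f i (J i + 1)`; the sum over `J i = 0, 1, 2` telescopes to `vol N' - vol ⊤ = vol N'`. -/
theorem BB_cob {D : F → ℝ} (hD : FiveTerm D) (f : Fin 5 → ℕ → Submodule F V)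
    (hf : ∀ i, IsFlag (f i)) : cob (BB D) f = 0 := by
  obtain ⟨hfin, hV⟩ := (hf 0).finite
  simp only [cob, bbl1_tel hD.zero f hf, Finset.mul_sum]
  rw [Finset.sum_comm]
  refine Finset.sum_eq_zero fun J _ => ?_
  have h := vol_five hD hV (⨆ l, f l (J l)) fun l => gen (f l) (J l)
  simp only [mul_sub, Finset.sum_sub_distrib]
  exact sub_eq_zero.2 h

theorem BB_iso {D : F → ℝ} (h0 : D 0 = 0) (φ : V →ₗ[F] V') (hφ : Function.Bijective φ)
    (f : Fin 4 → ℕ → Submodule F V) (f' : Fin 4 → ℕ → Submodule F V') (hf : ∀ i, IsFlag (f i))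
    (h : ∀ i j, (f i j).map φ = f' i j) : BB D f = BB D f' := by
  rw [BB_eq h0 f' (fun i j => φ (gen (f i) j)) fun i j hj => by
    rw [← h, ← h, (hf i).gen_spec hj, Submodule.map_sup, Submodule.map_span, Set.image_singleton]]
  refine Finset.sum_congr rfl fun J _ => ?_
  rw [← vol_comap]
  simp only [← h]
  rw [← Submodule.map_iSup, Submodule.comap_map_eq_of_injective hφ.1]

theorem bbl_gen {e : V →ₗ[F] V} (he : ∀ v, e (e v) = e v) {f : ℕ → Submodule F V} (hf : IsFlag f)
    (hinv : ∀ j, ∀ v ∈ f j, e v ∈ f j) (j : ℕ) :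
    ∃ v, (j < 3 → f (j + 1) = f j ⊔ Submodule.span F {v}) ∧ (e v = v ∨ e v = 0) := by
  by_cases hj : j < 3
  swap
  · exact ⟨0, fun h => absurd h hj, Or.inr (map_zero e)⟩
  obtain ⟨w, hw⟩ := hf.step j hj
  have hwm : w ∈ f (j + 1) := by
    rw [hw]; exact Submodule.mem_sup_right (Submodule.mem_span_singleton_self w)
  have hew := hinv _ _ hwm
  rw [hw] at hew
  obtain ⟨n, hn, y, hy, hs⟩ := Submodule.mem_sup.1 hew
  obtain ⟨c, rfl⟩ := Submodule.mem_span_singleton.1 hy
  have key : ∀ v : V, v ∈ f (j + 1) → w ∈ f j ⊔ Submodule.span F {v} →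
      f (j + 1) = f j ⊔ Submodule.span F {v} := by
    intro v hv hwv
    apply le_antisymm
    · rw [hw]
      exact sup_le le_sup_left ((Submodule.span_singleton_le_iff_mem _ _).2 hwv)
    · refine sup_le ?_ ((Submodule.span_singleton_le_iff_mem _ _).2 hv)
      rw [hw]; exact le_sup_left
  by_cases hc : c = 0
  · subst hc
    refine ⟨w - e w, fun _ => key _ (sub_mem hwm (hinv _ _ hwm)) ?_, Or.inr ?_⟩
    · have h1 : w = n + (w - e w) := by rw [← hs]; simp
      rw [h1]
      refine Submodule.add_mem_sup hn ?_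
      rw [← h1]
      exact Submodule.mem_span_singleton_self _
    · rw [map_sub, he, sub_self]
  · refine ⟨e w, fun _ => key _ (hinv _ _ hwm) ?_, Or.inl (he w)⟩
    have h1 : w = -(c⁻¹ • n) + c⁻¹ • e w := by
      rw [← hs, smul_add, smul_smul, inv_mul_cancel₀ hc, one_smul]; abel
    rw [h1]
    refine Submodule.add_mem_sup (neg_mem (Submodule.smul_mem _ _ hn)) ?_
    rw [← h1]
    exact Submodule.smul_mem _ _ (Submodule.mem_span_singleton_self _)

theorem bbl_inv {e : V →ₗ[F] V} {κ : Type} (g : κ → Submodule F V)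
    (hinv : ∀ i, ∀ v ∈ g i, e v ∈ g i) : ∀ v ∈ ⨆ i, g i, e v ∈ ⨆ i, g i := by
  intro v hv
  have h : (⨆ i, g i) ≤ (⨆ i, g i).comap e :=
    iSup_le fun i w hw => (le_iSup g i) (hinv i w hw)
  exact h hv

theorem bbl_comap {ι : V' →ₗ[F] V} (hι : Function.Injective ι) {e : V →ₗ[F] V}
    (he1 : ∀ u, e (ι u) = ι u) (her : ∀ v, e v ∈ LinearMap.range ι) {κ : Type}
    (g : κ → Submodule F V) (g' : κ → Submodule F V') (hinv : ∀ i, ∀ v ∈ g i, e v ∈ g i)
    (h' : ∀ i, (g' i).map ι = g i ⊓ LinearMap.range ι) :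
    (⨆ i, g i).comap ι = ⨆ i, g' i := by
  apply le_antisymm
  · intro u hu
    have h : (⨆ i, g i) ≤ ((⨆ i, g' i).map ι).comap e := by
      refine iSup_le fun i w hw => ?_
      have h1 : e w ∈ (g' i).map ι := by
        rw [h' i]; exact ⟨hinv i w hw, her w⟩
      exact Submodule.map_mono (le_iSup g' i) h1
    have h2 : e (ι u) ∈ (⨆ i, g' i).map ι := h hu
    rw [he1] at h2
    obtain ⟨u', hu', hq⟩ := h2
    rwa [← hι hq]
  · refine iSup_le fun i u hu => ?_
    have h1 : ι u ∈ (g' i).map ι := Submodule.mem_map_of_mem hu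
    rw [h' i] at h1
    exact (le_iSup g i) h1.1

theorem bbl_quot {ι : V' →ₗ[F] V} {π : V →ₗ[F] V''} (hex : Function.Exact ι π) {e : V →ₗ[F] V}
    (he1 : ∀ u, e (ι u) = ι u) (he2 : ∀ v, π (e v) = 0) (N : Submodule F V)
    (hN : ∀ v ∈ N, e v ∈ N) : (N.map π).comap π = N.comap (LinearMap.id - e) := by
  ext x
  simp only [Submodule.mem_comap, Submodule.mem_map, LinearMap.sub_apply, LinearMap.id_apply]
  constructor
  · rintro ⟨n, hn, hq⟩
    have h1 : π (x - n) = 0 := by rw [map_sub, hq, sub_self]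
    obtain ⟨u, hu⟩ := (hex _).1 h1
    have h2 : e (x - n) = x - n := by rw [← hu, he1]
    have h3 : x - e x = n - e n := by
      rw [map_sub] at h2
      have h4 : e x = x - n + e n := by rw [← h2]; abel
      rw [h4]; abel
    rw [h3]
    exact sub_mem hn (hN n hn)
  · intro h
    exact ⟨x - e x, h, by rw [map_sub, he2, sub_zero]⟩

/-- Plan: `e` is idempotent with range `range ι`. Choose generators `v i j` with `e v = v` or `e v = 0` (if `e v = c v + n` replace `v` by `e v` or `v - e v`), `vol_split`.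
Take `v'` with `ι v' = e v` as generators of `f'` (`f' i j = comap ι (f i j)`, and `⨆ comap ι = comap ι ⨆` by invariance under `e`), and `π v` as generators of `f''`;
`comap π (map π N) = comap (id - e) N`. Use `vol_comap` three times. -/
theorem BB_add {D : F → ℝ} (hD : FiveTerm D) (ι : V' →ₗ[F] V) (π : V →ₗ[F] V'')
    (hι : Function.Injective ι) (hex : Function.Exact ι π) (e : V →ₗ[F] V)
    (he1 : ∀ u, e (ι u) = ι u) (he2 : ∀ v, π (e v) = 0)
    (f : Fin 4 → ℕ → Submodule F V) (f' : Fin 4 → ℕ → Submodule F V')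
    (f'' : Fin 4 → ℕ → Submodule F V'') (hf : ∀ i, IsFlag (f i))
    (hinv : ∀ i j, ∀ v ∈ f i j, e v ∈ f i j)
    (h' : ∀ i j, (f' i j).map ι = f i j ⊓ LinearMap.range ι)
    (h'' : ∀ i j, (f i j).map π = f'' i j) : BB D f = BB D f' + BB D f'' := by
  have her : ∀ v, e v ∈ LinearMap.range ι := fun v => (hex _).1 (he2 v)
  have he : ∀ v, e (e v) = e v := fun v => by
    obtain ⟨u, hu⟩ := her v
    rw [← hu, he1]
  choose v hv hev using fun i j => bbl_gen he (hf i) (hinv i) j
  choose s hs using her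
  have hv' : ∀ i, ∀ j < 3, f' i (j + 1) = f' i j ⊔ Submodule.span F {s (v i j)} := by
    intro i j hj
    apply Submodule.map_injective_of_injective hι
    rw [Submodule.map_sup, h', h', Submodule.map_span, Set.image_singleton, hs]
    have hvm : v i j ∈ f i (j + 1) := by
      rw [hv i j hj]; exact Submodule.mem_sup_right (Submodule.mem_span_singleton_self _)
    apply le_antisymm
    · rintro x ⟨hx, u, rfl⟩
      have hx' : ι u ∈ f i j ⊔ Submodule.span F {v i j} := by rw [← hv i j hj]; exact hx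
      obtain ⟨n, hn, y, hy, hq⟩ := Submodule.mem_sup.1 hx'
      obtain ⟨c, rfl⟩ := Submodule.mem_span_singleton.1 hy
      have h1 : ι u = e n + c • e (v i j) := by rw [← map_smul, ← map_add, hq, he1]
      rw [h1]
      exact Submodule.add_mem_sup ⟨hinv i j n hn, s n, hs n⟩
        (Submodule.smul_mem _ _ (Submodule.mem_span_singleton_self _))
    · refine sup_le (inf_le_inf_right _ ?_) ((Submodule.span_singleton_le_iff_mem _ _).2
        ⟨hinv i _ _ hvm, s _, hs _⟩)
      rw [hv i j hj]; exact le_sup_left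
  have hv'' : ∀ i, ∀ j < 3, f'' i (j + 1) = f'' i j ⊔ Submodule.span F {π (v i j)} := by
    intro i j hj
    rw [← h'', ← h'', hv i j hj, Submodule.map_sup, Submodule.map_span, Set.image_singleton]
  rw [BB_eq hD.zero f v hv, BB_eq hD.zero f' (fun i j => s (v i j)) hv',
    BB_eq hD.zero f'' (fun i j => π (v i j)) hv'', ← Finset.sum_add_distrib]
  refine Finset.sum_congr rfl fun J _ => ?_
  have hN := bbl_inv (e := e) (fun i => f i (J i)) fun i => hinv i (J i)
  rw [vol_split hD.zero hD.one e he _ hN _ fun i => hev i (J i)]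
  congr 1
  · rw [← bbl_comap hι he1 (fun v => ⟨s v, hs v⟩) (fun i => f i (J i)) (fun i => f' i (J i))
      (fun i => hinv i (J i)) (fun i => h' i (J i)), vol_comap]
    simp only [hs]
  · have h1 : (⨆ i, f'' i (J i)) = (⨆ i, f i (J i)).map π := by
      rw [Submodule.map_iSup]; simp only [h'']
    rw [h1, ← vol_comap D π _ fun i => v i (J i), bbl_quot hex he1 he2 _ hN, vol_comap]
    simp only [LinearMap.sub_apply, LinearMap.id_apply]

theorem BB_rank1 {D : F → ℝ} (h0 : D 0 = 0) [Module.Finite F V] (hV : Module.finrank F V ≤ 1)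
    (f : Fin 4 → ℕ → Submodule F V) : BB D f = 0 := by
  obtain ⟨w, hw⟩ := finrank_le_one_iff.1 hV
  exact Finset.sum_eq_zero fun J _ => vol_line h0 _ _ w fun i =>
    Submodule.mem_sup_right (Submodule.mem_span_singleton.2 (hw _))

theorem bbl1_compl (u : Fin 2 → F) (hu : u ≠ 0) :
    ∃ w, (⊤ : Submodule F (Fin 2 → F)) = Submodule.span F {u} ⊔ Submodule.span F {w} := by
  have key : ∀ w : Fin 2 → F, det2 u w ≠ 0 →
      (⊤ : Submodule F (Fin 2 → F)) = Submodule.span F {u} ⊔ Submodule.span F {w} := fun w hw => by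
    refine (eq_top_iff.2 fun y _ => Submodule.mem_sup.2
      ⟨(det2 y w / det2 u w) • u, Submodule.mem_span_singleton.2 ⟨_, rfl⟩,
        (det2 u y / det2 u w) • w, Submodule.mem_span_singleton.2 ⟨_, rfl⟩, ?_⟩).symm
    funext l
    rw [Pi.add_apply, Pi.smul_apply, Pi.smul_apply, smul_eq_mul, smul_eq_mul, div_mul_eq_mul_div,
      div_mul_eq_mul_div, ← add_div, div_eq_iff hw]
    revert l
    rw [Fin.forall_fin_two]
    constructor <;> simp only [det2] <;> ring
  by_cases h : u 0 = 0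
  · refine ⟨![1, 0], key _ fun h1 => hu ?_⟩
    have h2 : u 1 = 0 := by simpa [det2] using h1
    funext l
    revert l
    exact Fin.forall_fin_two.2 ⟨h, h2⟩
  · exact ⟨![0, 1], key _ (by simpa [det2] using h)⟩

theorem pf_flag (u : Fin 2 → F) (hu : u ≠ 0) : IsFlag (pf u) := by
  refine ⟨rfl, rfl, fun j hj => ?_⟩
  interval_cases j
  · exact ⟨u, (bot_sup_eq _).symm⟩
  · exact bbl1_compl u hu
  · exact ⟨0, (top_sup_eq _).symm⟩

/-- Only `J = 0` contributes (otherwise `N` contains a line: `vol_line`). -/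
theorem BB_plane {D : F → ℝ} (h0 : D 0 = 0) (u : Fin 4 → Fin 2 → F) (hu : ∀ i, u i ≠ 0) :
    BB D (fun i => pf (u i)) = D (crv u) := by
  rw [BB_eq h0 _ (fun i j => if j = 0 then u i else gen (pf (u i)) j) fun i j hj => by
    split_ifs with h
    · rw [h]
      exact (bot_sup_eq _).symm
    · exact (pf_flag _ (hu i)).gen_spec hj]
  rw [Finset.sum_eq_single 0 (fun J _ hJ => ?_) fun h => absurd (Finset.mem_univ _) h]
  · have e : (⨆ i : Fin 4, pf (u i) ((0 : Fin 4 → Fin 3) i)) = ⊥ := iSup_eq_bot.2 fun _ => rfl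
    rw [e, vol_eq D ⊥ _ LinearMap.id fun v _ => (Submodule.mem_bot F).symm]
    rfl
  · obtain ⟨i, hi⟩ := Function.ne_iff.1 hJ
    obtain ⟨w, hw⟩ := bbl1_compl (u i) (hu i)
    have h1 : Submodule.span F {u i} ≤ pf (u i) (J i) := by
      rw [pf, if_neg fun h : (J i : ℕ) = 0 => hi (Fin.ext h)]
      split_ifs
      exacts [le_rfl, le_top]
    refine vol_line h0 _ _ w fun l => ?_
    exact (hw.le.trans (sup_le_sup_right (h1.trans (le_iSup (fun i => pf (u i) (J i)) i)) _))
      Submodule.mem_top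

theorem cc_cob {D1 D2 : F → ℝ} (h1 : FiveTerm D1) (h2 : FiveTerm D2)
    (f : Fin 8 → ℕ → Submodule F V) (hf : ∀ i, IsFlag (f i)) : cob (cc D1 D2) f = 0 := by
  refine cob_cup _ _ f (BB_cob h1 _ fun i => ?_) (BB_cob h2 _ fun i => ?_)
  · fin_cases i <;> exact hf _
  · fin_cases i <;> exact hf _

theorem cc_iso {D1 D2 : F → ℝ} (h1 : FiveTerm D1) (h2 : FiveTerm D2) (φ : V →ₗ[F] V')
    (hφ : Function.Bijective φ) (f : Fin 7 → ℕ → Submodule F V) (f' : Fin 7 → ℕ → Submodule F V')
    (hf : ∀ i, IsFlag (f i)) (h : ∀ i j, (f i j).map φ = f' i j) : cc D1 D2 f = cc D1 D2 f' := by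
  unfold cc cup
  rw [BB_iso h1.zero φ hφ (fun i => f (lo4 i)) (fun i => f' (lo4 i)) (fun i => hf _) fun i j => h _ j,
    BB_iso h2.zero φ hφ (fun i => f (hi4 i)) (fun i => f' (hi4 i)) (fun i => hf _) fun i j => h _ j]

theorem cc_rank1 {D1 D2 : F → ℝ} (h1 : FiveTerm D1) [Module.Finite F V]
    (hV : Module.finrank F V ≤ 1) (f : Fin 7 → ℕ → Submodule F V) : cc D1 D2 f = 0 := by
  unfold cc cup
  rw [BB_rank1 h1.zero hV, zero_mul]

/-- In rank `≤ 3` one of `V'`, `V''` has dimension `≤ 1`, so the cross terms vanish. -/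
theorem cc_add {D1 D2 : F → ℝ} (h1 : FiveTerm D1) (h2 : FiveTerm D2) (ι : V' →ₗ[F] V)
    (π : V →ₗ[F] V'') (hι : Function.Injective ι) (hex : Function.Exact ι π)
    (hπ : Function.Surjective π) (e : V →ₗ[F] V)
    (he1 : ∀ u, e (ι u) = ι u) (he2 : ∀ v, π (e v) = 0)
    (f : Fin 7 → ℕ → Submodule F V) (f' : Fin 7 → ℕ → Submodule F V')
    (f'' : Fin 7 → ℕ → Submodule F V'') (hf : ∀ i, IsFlag (f i))
    (hinv : ∀ i j, ∀ v ∈ f i j, e v ∈ f i j)
    (h' : ∀ i j, (f' i j).map ι = f i j ⊓ LinearMap.range ι)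
    (h'' : ∀ i j, (f i j).map π = f'' i j) : cc D1 D2 f = cc D1 D2 f' + cc D1 D2 f'' := by
  obtain ⟨hfin, h3⟩ := (hf 0).finite
  have : Module.Finite F V' := Module.Finite.of_injective ι hι
  have : Module.Finite F V'' := Module.Finite.of_surjective π hπ
  have hr : Module.finrank F V'' + Module.finrank F V' = Module.finrank F V := by
    have a1 := LinearMap.finrank_range_add_finrank_ker π
    rw [LinearMap.range_eq_top.2 hπ, finrank_top, LinearMap.exact_iff.1 hex,
      LinearMap.finrank_range_of_inj hι] at a1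
    exact a1
  unfold cc cup
  rw [BB_add h1 ι π hι hex e he1 he2 (fun i => f (lo4 i)) (fun i => f' (lo4 i))
      (fun i => f'' (lo4 i)) (fun i => hf _) (fun i j => hinv _ j) (fun i j => h' _ j)
      fun i j => h'' _ j,
    BB_add h2 ι π hι hex e he1 he2 (fun i => f (hi4 i)) (fun i => f' (hi4 i))
      (fun i => f'' (hi4 i)) (fun i => hf _) (fun i j => hinv _ j) (fun i j => h' _ j)
      fun i j => h'' _ j]
  by_cases hc : Module.finrank F V' ≤ 1
  · rw [BB_rank1 h1.zero hc, BB_rank1 h2.zero hc]; ring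
  · have hc' : Module.finrank F V'' ≤ 1 := by omega
    rw [BB_rank1 h1.zero hc', BB_rank1 h2.zero hc']; ring

end Pool.Agent.SR
end PartBBl

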