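import Pool.Agent.MP_24d90f_al.Defs
import Pool.Agent.MP_24d90f_al.PV

section PartGDefs
/-! Special indices, splittings, flagged diagrams. -/

open CategoryTheory

namespace Pool.Agent.SR

/-- The terminal vertex over the nerve vertex `0`. -/
def topI (p : ℕ) (q : ℕ →₀ ℕ) : Idx p q :=
  ⟨(0, fun _ => 0, fun k => q k + 1), Nat.zero_le _, fun _ => ⟨Nat.zero_le _, le_rfl⟩⟩

/-- `(n, a, b) ↦ (0, 0, b)`. -/
def lowI {p : ℕ} {q : ℕ →₀ ℕ} (a : Idx p q) : Idx p q :=
  ⟨(0, fun _ => 0, a.1.2.2), Nat.zero_le _, fun k => ⟨Nat.zero_le _, (a.2.2 k).2⟩⟩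

theorem lowI_le {p : ℕ} {q : ℕ →₀ ℕ} (a : Idx p q) : lowI a ≤ a :=
  ⟨Nat.zero_le _, fun _ => Nat.zero_le _, le_rfl⟩

theorem lowI_le_top {p : ℕ} {q : ℕ →₀ ℕ} (a : Idx p q) : lowI a ≤ topI p q :=
  ⟨le_rfl, le_rfl, fun k => (a.2.2 k).2⟩

/-- Cut the `k`-th arrow at height `s`. -/
def cutB {p : ℕ} {q : ℕ →₀ ℕ} (a : Idx p q) (k s : ℕ) : Idx p q :=
  ⟨(a.1.1, Function.update a.1.2.1 k (min (a.1.2.1 k) s),
    Function.update a.1.2.2 k (min (a.1.2.2 k) s)), a.2.1, fun l => by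
      have := a.2.2 l
      by_cases h : l = k
      · subst h; simp only [Function.update_self]; omega
      · simpa only [Function.update_of_ne h] using this⟩

theorem cutB_le {p : ℕ} {q : ℕ →₀ ℕ} (a : Idx p q) (k s : ℕ) : cutB a k s ≤ a :=
  ⟨le_rfl, fun l => by
    by_cases h : l = k
    · subst h; simp [cutB]
    · simp [cutB, Function.update_of_ne h], fun l => by
    by_cases h : l = k
    · subst h; simp [cutB]
    · simp [cutB, Function.update_of_ne h]⟩

variable (F : Type) [Field F]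

/-- The subspace of the terminal vertex given by `(0, 0, b)`. -/
def Vs {p : ℕ} {q : ℕ →₀ ℕ} (X : Idx p q ⥤ ModuleCat.{0} F) (a : Idx p q) :
    Submodule F (X.obj (topI p q)) := LinearMap.range (mp F X (lowI_le_top a))

/-- A splitting of all the filtrations of a diagram. -/
def IsSplit {p : ℕ} {q : ℕ →₀ ℕ} (X : Idx p q ⥤ ModuleCat.{0} F) (ε : ℕ → ℕ → (X ⟶ X)) : Prop :=
  ∀ (k s : ℕ) (t : Idx p q), (t.1.2.2 k ≤ s → ∀ v, ((ε k s).app t).hom v = v) ∧
    (s ≤ t.1.2.1 k → ∀ v, ((ε k s).app t).hom v = 0)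

/-- A family of subspaces compatible with the maps of a diagram. -/
def Strict {p : ℕ} {q : ℕ →₀ ℕ} (X : Idx p q ⥤ ModuleCat.{0} F)
    (W : ∀ t, Submodule F (X.obj t)) : Prop :=
  ∀ a b (h : a ≤ b), (W a).map (mp F X h) = W b ⊓ LinearMap.range (mp F X h)

/-- A family of subspaces invariant under a splitting. -/
def Inv {p : ℕ} {q : ℕ →₀ ℕ} (X : Idx p q ⥤ ModuleCat.{0} F) (ε : ℕ → ℕ → (X ⟶ X))
    (W : ∀ t, Submodule F (X.obj t)) : Prop :=
  ∀ k s t, ∀ v ∈ W t, ((ε k s).app t).hom v ∈ W t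

/-- Vector spaces with `n` flags; morphisms are all linear maps. -/
structure FM (n : ℕ) : Type 1 where
  M : ModuleCat.{0} F
  fl : Fin n → ℕ → Submodule F M

instance fmCat (n : ℕ) : Category.{0} (FM F n) where
  Hom X Y := X.M ⟶ Y.M
  id X := 𝟙 X.M
  comp f g := f ≫ g

def und (n : ℕ) : FM F n ⥤ ModuleCat.{0} F where
  obj X := X.M
  map f := f

def dropF (n : ℕ) (i : Fin (n + 1)) : FM F (n + 1) ⥤ FM F n where
  obj X := ⟨X.M, fun j => X.fl (i.succAbove j)⟩
  map f := f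

def emb : ModuleCat.{0} F ⥤ FM F 0 where
  obj M := ⟨M, Fin.elim0⟩
  map f := f

variable {F}

/-- Decorate a diagram with flags. -/
def deco {n : ℕ} (x : Raw (ModuleCat.{0} F))
    (W : ∀ t : Idx x.1 x.2.1, Fin n → ℕ → Submodule F (x.2.2.obj t)) : Raw (FM F n) :=
  ⟨x.1, x.2.1, { obj := fun t => ⟨x.2.2.obj t, W t⟩
                 map := fun f => x.2.2.map f
                 map_id := fun t => x.2.2.map_id t
                 map_comp := fun f g => x.2.2.map_comp f g }⟩

/-- The flags of a flagged diagram, as subspaces of the underlying diagram. -/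
def flg {n : ℕ} (y : Raw (FM F n)) (i : Fin n) (j : ℕ) (t : Idx y.1 y.2.1) :
    Submodule F ((y.2.2 ⋙ und F n).obj t) := (y.2.2.obj t).fl i j

structure GoodF {n : ℕ} (r : ℕ) (y : Raw (FM F n)) : Prop where
  good : Good F r (post (und F n) y)
  flag : ∀ t i, IsFlag fun j => flg y i j t
  strict : ∀ i j, Strict F (y.2.2 ⋙ und F n) (flg y i j)
  split : ∃ ε, IsSplit F (y.2.2 ⋙ und F n) ε ∧ ∀ i j, Inv F (y.2.2 ⋙ und F n) ε (flg y i j)

variable (F)

abbrev TF (n : ℕ) : Type 1 := Raw (FM F n) →₀ ℚ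

noncomputable def GF (r n : ℕ) : Submodule ℚ (TF F n) := Finsupp.supported ℚ ℚ {y | GoodF r y}

noncomputable def delta (n : ℕ) : TF F (n + 1) →ₗ[ℚ] TF F n :=
  ∑ i : Fin (n + 1), (-1 : ℚ) ^ (i : ℕ) • Finsupp.lmapDomain ℚ ℚ (post (dropF F n i))

variable {F}

open Classical in
noncomputable def om1 (D1 D2 : F → ℝ) (y : Raw (FM F 7)) : ℝ :=
  if y.1 = 0 ∧ y.2.1 = 0 then cc D1 D2 (y.2.2.obj (topI _ _)).fl else 0

noncomputable def om (D1 D2 : F → ℝ) : TF F 7 →ₗ[ℚ] ℝ := Finsupp.linearCombination ℚ (om1 D1 D2)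

end Pool.Agent.SR
end PartGDefs

section PartRawB
open CategoryTheory

namespace Pool.Agent.SR

variable {C : Type 1} [Category.{0} C] {C' : Type 1} [Category.{0} C']

theorem bd_single (x : Raw C) : bd C (Finsupp.single x 1) = bd1 x := by
  rw [bd, Finsupp.linearCombination_single, one_smul]

theorem rawb_functor_congr {A B : Type} [Preorder A] [Preorder B] {f g : A → B} (hf : Monotone f)
    (hg : Monotone g) (h : f = g) : hf.functor = hg.functor := by
  subst h
  rfl

/-- Two restrictions agree when the induced maps of index posets agree. -/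
theorem pull_congr (x : Raw C) {p p' : ℕ} {q q' : ℕ →₀ ℕ} (hp : p = p') (hq : q = q')
    (f0 g0 : ℕ →o ℕ) (f g : ℕ → ℕ →o ℕ)
    (h0 : ∀ n ≤ p, min (f0 n) x.1 = min (g0 n) x.1)
    (h : ∀ k, ∀ n ≤ q k + 1, min (f k n) (x.2.1 k + 1) = min (g k n) (x.2.1 k + 1)) :
    pull x p q f0 f = pull x p' q' g0 g := by
  subst hp hq
  have e : (reidx x.1 x.2.1 f0 f : Idx p q → Idx x.1 x.2.1) = reidx x.1 x.2.1 g0 g := by
    funext t
    refine Subtype.ext (Prod.ext (h0 _ t.2.1) (Prod.ext (funext fun k => ?_) (funext fun k => ?_)))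
    · exact h k _ ((t.2.2 k).1.trans (t.2.2 k).2)
    · exact h k _ (t.2.2 k).2
  unfold pull
  rw [rawb_functor_congr _ (reidx_mono x.1 x.2.1 p q g0 g) e]

theorem pull_pull (x : Raw C) (p p' : ℕ) (q q' : ℕ →₀ ℕ) (f0 g0 : ℕ →o ℕ) (f g : ℕ → ℕ →o ℕ)
    (h0 : ∀ n ≤ p', g0 n ≤ p) (h : ∀ k, ∀ n ≤ q' k + 1, g k n ≤ q k + 1) :
    pull (pull x p q f0 f) p' q' g0 g = pull x p' q' (f0.comp g0) fun k => (f k).comp (g k) := by
  have e : (reidx x.1 x.2.1 f0 f : Idx p q → Idx x.1 x.2.1) ∘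
      (reidx p q g0 g : Idx p' q' → Idx p q) =
      reidx x.1 x.2.1 (f0.comp g0) fun k => (f k).comp (g k) := by
    funext t
    refine Subtype.ext (Prod.ext ?_ (Prod.ext (funext fun k => ?_) (funext fun k => ?_)))
    · exact congrArg (fun n => min (f0 n) x.1) (min_eq_left (h0 _ t.2.1))
    · exact congrArg (fun n => min (f k n) (x.2.1 k + 1))
        (min_eq_left (h k _ ((t.2.2 k).1.trans (t.2.2 k).2)))
    · exact congrArg (fun n => min (f k n) (x.2.1 k + 1)) (min_eq_left (h k _ (t.2.2 k).2))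
  have e2 := rawb_functor_congr
    ((reidx_mono x.1 x.2.1 p q f0 f).comp (reidx_mono p q p' q' g0 g))
    (reidx_mono x.1 x.2.1 p' q' (f0.comp g0) fun k => (f k).comp (g k)) e
  unfold pull
  rw [← e2]
  rfl

theorem pull_id (x : Raw C) : pull x x.1 x.2.1 OrderHom.id (fun _ => OrderHom.id) = x := by
  obtain ⟨p, q, X⟩ := x
  have e : (reidx p q OrderHom.id (fun _ => OrderHom.id) : Idx p q → Idx p q) = id := by
    funext t
    refine Subtype.ext (Prod.ext ?_ (Prod.ext (funext fun k => ?_) (funext fun k => ?_)))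
    · exact min_eq_left t.2.1
    · exact min_eq_left ((t.2.2 k).1.trans (t.2.2 k).2)
    · exact min_eq_left (t.2.2 k).2
  unfold pull
  rw [rawb_functor_congr _ monotone_id e]
  rfl

theorem rawb2_alt {M : Type*} [AddCommGroup M] [Module ℚ M] (n : ℕ) (g : ℕ → ℕ → M)
    (h : ∀ i j, i < j → j < n + 2 → g j i = g i (j - 1)) :
    ∑ j ∈ Finset.range (n + 2), ∑ i ∈ Finset.range (n + 1), (-1 : ℚ) ^ (j + i) • g j i = 0 := by
  induction n with
  | zero => simp [Finset.sum_range_succ, h 0 1]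
  | succ n ih =>
    rw [Finset.sum_range_succ]
    simp only [Finset.sum_range_succ _ (n + 1)] at ih ⊢
    simp only [Finset.sum_add_distrib]
    have h1 := ih fun i j a b => h i j a (by omega)
    have h2 : ∑ i ∈ Finset.range (n + 1), (-1 : ℚ) ^ (n + 1 + 1 + i) • g (n + 1 + 1) i =
        -∑ i ∈ Finset.range (n + 1), (-1 : ℚ) ^ (i + (n + 1)) • g i (n + 1) := by
      rw [← Finset.sum_neg_distrib]
      refine Finset.sum_congr rfl fun i hi => ?_
      rw [h i (n + 1 + 1) (by have := Finset.mem_range.1 hi; omega) (by omega), ← neg_smul,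
        show n + 1 + 1 + i = i + (n + 1) + 1 by omega, pow_succ, mul_neg_one]
      rfl
    have h3 : (-1 : ℚ) ^ (n + 1 + 1 + (n + 1)) • g (n + 1 + 1) (n + 1) =
        -((-1 : ℚ) ^ (n + 1 + (n + 1)) • g (n + 1) (n + 1)) := by
      rw [h (n + 1) (n + 1 + 1) (by omega) (by omega), ← neg_smul,
        show n + 1 + 1 + (n + 1) = n + 1 + (n + 1) + 1 by omega, pow_succ, mul_neg_one]
      rfl
    rw [h2, h3]
    linear_combination (norm := abel1) h1

/-- A signed alternating sum of faces. -/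
noncomputable def rawb2_op {X : Type*} (s : X → ℚ) (c : X → ℕ) (f : X → ℕ → X) :
    (X →₀ ℚ) →ₗ[ℚ] (X →₀ ℚ) :=
  Finsupp.linearCombination ℚ fun x =>
    ∑ i ∈ Finset.range (c x), (s x * (-1) ^ i) • Finsupp.single (f x i) 1

theorem rawb2_single {X : Type*} (s : X → ℚ) (c : X → ℕ) (f : X → ℕ → X) (x : X) :
    rawb2_op s c f (Finsupp.single x 1) =
      ∑ i ∈ Finset.range (c x), (s x * (-1) ^ i) • Finsupp.single (f x i) 1 := by
  rw [rawb2_op, Finsupp.linearCombination_single, one_smul]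

theorem rawb2_two {X : Type*} (s s' : X → ℚ) (c c' : X → ℕ) (f f' : X → ℕ → X) (x : X) {t : ℚ}
    {m : ℕ} (h : ∀ i < c' x, c (f' x i) = m ∧ s (f' x i) = t) :
    rawb2_op s c f (rawb2_op s' c' f' (Finsupp.single x 1)) =
      (s' x * t) • ∑ i ∈ Finset.range (c' x), ∑ j ∈ Finset.range m,
        (-1 : ℚ) ^ (i + j) • Finsupp.single (f (f' x i) j) 1 := by
  rw [rawb2_single, map_sum, Finset.smul_sum]
  refine Finset.sum_congr rfl fun i hi => ?_
  obtain ⟨h1, h2⟩ := h i (Finset.mem_range.1 hi)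
  rw [map_smul, rawb2_single, h1, h2, Finset.smul_sum, Finset.smul_sum]
  refine Finset.sum_congr rfl fun j _ => ?_
  rw [smul_smul, smul_smul, pow_add]
  congr 1
  ring

theorem rawb2_comm {X : Type*} (s s' : X → ℚ) (c c' : X → ℕ) (f f' : X → ℕ → X) (x : X)
    (h : ∀ i < c' x, c (f' x i) = c x ∧ s (f' x i) = -s x)
    (h' : ∀ j < c x, c' (f x j) = c' x ∧ s' (f x j) = s' x)
    (e : ∀ i < c' x, ∀ j < c x, f (f' x i) j = f' (f x j) i) :
    rawb2_op s c f (rawb2_op s' c' f' (Finsupp.single x 1)) +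
      rawb2_op s' c' f' (rawb2_op s c f (Finsupp.single x 1)) = 0 := by
  rw [rawb2_two s s' c c' f f' x h, rawb2_two s' s c' c f' f x h', Finset.sum_comm (s := Finset.range (c x)),
    mul_neg, neg_smul, mul_comm, neg_add_eq_zero]
  congr 1
  refine Finset.sum_congr rfl fun i hi => Finset.sum_congr rfl fun j hj => ?_
  rw [e i (Finset.mem_range.1 hi) j (Finset.mem_range.1 hj), add_comm]

theorem rawb2_self {X : Type*} (s : X → ℚ) (c : X → ℕ) (f : X → ℕ → X) (x : X) {m : ℕ}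
    (h : ∀ i < c x, c (f x i) = m ∧ s (f x i) = s x)
    (e : m ≠ 0 → c x = m + 1 ∧ ∀ i j, i < j → f (f x j) i = f (f x i) (j - 1)) :
    rawb2_op s c f (rawb2_op s c f (Finsupp.single x 1)) = 0 := by
  rw [rawb2_two s s c c f f x h]
  rcases m with _ | m
  · simp
  · obtain ⟨e1, e2⟩ := e (Nat.succ_ne_zero m)
    rw [e1, rawb2_alt m (fun j i => Finsupp.single (f (f x j) i) (1 : ℚ))
      fun i j h1 _ => by rw [e2 i j h1], smul_zero]

theorem rawb2_skip_le (i n : ℕ) : skip i n ≤ n + 1 := by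
  change (if n < i then n else n + 1) ≤ n + 1
  split_ifs <;> omega

theorem rawb2_skip {i j : ℕ} (h : i < j) (n : ℕ) : skip j (skip i n) = skip i (skip (j - 1) n) := by
  simp only [skip, OrderHom.coe_mk]
  split_ifs <;> omega

theorem rawb2_upd (q : ℕ →₀ ℕ) {k : ℕ} (hk : q k ≠ 0) (i l n : ℕ)
    (h : n ≤ (q - Finsupp.single k 1 : ℕ →₀ ℕ) l + 1) :
    Function.update (fun _ => OrderHom.id) k (skip i) l n ≤ q l + 1 := by
  rw [Finsupp.tsub_apply] at h
  by_cases e : l = k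
  · subst e
    rw [Finsupp.single_eq_same] at h
    rw [Function.update_self]
    have := rawb2_skip_le i n
    omega
  · rw [Function.update_of_ne e]
    exact h.trans (by omega)

theorem rawb2_ne (q : ℕ →₀ ℕ) {k l : ℕ} (h : l ≠ k) :
    (q - Finsupp.single k 1 : ℕ →₀ ℕ) l = q l := by
  rw [Finsupp.tsub_apply, Finsupp.single_eq_of_ne h, Nat.sub_zero]

theorem rawb2_eq (q : ℕ →₀ ℕ) (k : ℕ) : (q - Finsupp.single k 1 : ℕ →₀ ℕ) k = q k - 1 := by
  rw [Finsupp.tsub_apply, Finsupp.single_eq_same]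

theorem rawb2_NN (x : Raw C) (hx : 2 ≤ x.1) {i j : ℕ} (h : i < j) :
    faceN (faceN x j) i = faceN (faceN x i) (j - 1) := by
  have h1 : ∀ a, ∀ n ≤ x.1 - 1 - 1, skip a n ≤ x.1 - 1 := fun a n hn => by
    have := rawb2_skip_le a n
    omega
  refine (pull_pull x _ _ _ _ _ _ _ _ (h1 i) fun _ _ h => h).trans
    (Eq.trans ?_ (pull_pull x _ _ _ _ _ _ _ _ (h1 (j - 1)) fun _ _ h => h).symm)
  exact pull_congr x rfl rfl _ _ _ _ (fun n _ => congrArg (min · _) (rawb2_skip h n))
    fun _ _ _ => rfl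

theorem rawb2_NS (x : Raw C) (hx : x.1 ≠ 0) {k : ℕ} (hk : x.2.1 k ≠ 0) (i j : ℕ) :
    faceS (faceN x i) k j = faceN (faceS x k j) i := by
  have h1 : ∀ n ≤ x.1 - 1, skip i n ≤ x.1 := fun n hn => by
    have := rawb2_skip_le i n
    omega
  refine (pull_pull x _ _ _ _ _ _ _ _ (fun _ h => h) (rawb2_upd x.2.1 hk j)).trans
    (Eq.trans ?_ (pull_pull x _ _ _ _ _ _ _ _ h1 fun _ _ h => h).symm)
  exact pull_congr x rfl rfl _ _ _ _ (fun _ _ => rfl) fun _ _ _ => rfl

theorem rawb2_SS (x : Raw C) {k : ℕ} (hk : 2 ≤ x.2.1 k) {i j : ℕ} (h : i < j) :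
    faceS (faceS x k j) k i = faceS (faceS x k i) k (j - 1) := by
  have h1 : (x.2.1 - Finsupp.single k 1 : ℕ →₀ ℕ) k ≠ 0 := by
    rw [rawb2_eq]
    omega
  refine (pull_pull x _ _ _ _ _ _ _ _ (fun _ h => h) (rawb2_upd _ h1 i)).trans
    (Eq.trans ?_ (pull_pull x _ _ _ _ _ _ _ _ (fun _ h => h) (rawb2_upd _ h1 (j - 1))).symm)
  refine pull_congr x rfl rfl _ _ _ _ (fun _ _ => rfl) fun l n _ => congrArg (min · _) ?_
  by_cases e : l = k
  · subst e
    simp only [Function.update_self]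
    exact rawb2_skip h n
  · simp only [Function.update_of_ne e]

theorem rawb2_ST (x : Raw C) {k l : ℕ} (h : k ≠ l) (hk : x.2.1 k ≠ 0) (hl : x.2.1 l ≠ 0)
    (i j : ℕ) : faceS (faceS x k i) l j = faceS (faceS x l j) k i := by
  have h1 : (x.2.1 - Finsupp.single k 1 : ℕ →₀ ℕ) l ≠ 0 := by rwa [rawb2_ne _ h.symm]
  have h2 : (x.2.1 - Finsupp.single l 1 : ℕ →₀ ℕ) k ≠ 0 := by rwa [rawb2_ne _ h]
  refine (pull_pull x _ _ _ _ _ _ _ _ (fun _ h => h) (rawb2_upd _ h1 j)).trans
    (Eq.trans ?_ (pull_pull x _ _ _ _ _ _ _ _ (fun _ h => h) (rawb2_upd _ h2 i)).symm)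
  refine pull_congr x rfl (tsub_right_comm) _ _ _ _ (fun _ _ => rfl)
    fun m n _ => congrArg (min · _) ?_
  by_cases e : m = k
  · subst e
    simp only [Function.update_self, Function.update_of_ne h]
    rfl
  · by_cases e' : m = l
    · subst e'
      simp only [Function.update_self, Function.update_of_ne e]
      rfl
    · simp only [Function.update_of_ne e, Function.update_of_ne e']

/-- The number of faces in the nerve direction. -/
def rawb2_cN (x : Raw C) : ℕ := if x.1 = 0 then 0 else x.1 + 1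

/-- The number of faces in an `S`-direction. -/
def rawb2_cS (k : ℕ) (x : Raw C) : ℕ := if x.2.1 k = 0 then 0 else x.2.1 k + 2

/-- The sign of an `S`-direction. -/
def rawb2_sg (k : ℕ) (x : Raw C) : ℚ := (-1) ^ (x.1 + ∑ l ∈ Finset.range k, (x.2.1 l + 1))

/-- The boundary in the nerve direction. -/
noncomputable def rawb2_N (C : Type 1) [Category.{0} C] : (Raw C →₀ ℚ) →ₗ[ℚ] (Raw C →₀ ℚ) :=
  rawb2_op (fun _ => 1) rawb2_cN faceN

/-- The boundary in an `S`-direction. -/
noncomputable def rawb2_S (C : Type 1) [Category.{0} C] (k : ℕ) :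
    (Raw C →₀ ℚ) →ₗ[ℚ] (Raw C →₀ ℚ) :=
  rawb2_op (rawb2_sg k) (rawb2_cS k) fun x => faceS x k

theorem rawb2_cN_pos {x : Raw C} {i : ℕ} (h : i < rawb2_cN x) : x.1 ≠ 0 := fun e => by
  simp [rawb2_cN, e] at h

theorem rawb2_cS_pos {x : Raw C} {k i : ℕ} (h : i < rawb2_cS k x) : x.2.1 k ≠ 0 := fun e => by
  simp [rawb2_cS, e] at h

theorem rawb2_bd (A : Finset ℕ) (x : Raw C) (h : x.2.1.support ⊆ A) :
    bd C (Finsupp.single x 1) = (rawb2_N C + ∑ k ∈ A, rawb2_S C k) (Finsupp.single x 1) := by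
  rw [bd_single, LinearMap.add_apply, LinearMap.sum_apply, rawb2_N, rawb2_single, bd1]
  simp only [rawb2_S, rawb2_single, one_mul]
  congr 1
  rw [← Finset.sum_subset h fun k _ hk => by
    rw [rawb2_cS, if_pos (Finsupp.notMem_support_iff.1 hk), Finset.sum_range_zero]]
  refine Finset.sum_congr rfl fun k hk => ?_
  rw [rawb2_cS, if_neg (Finsupp.mem_support_iff.1 hk)]
  simp only [rawb2_sg, ← pow_add]

theorem rawb2_NN0 (x : Raw C) : rawb2_N C (rawb2_N C (Finsupp.single x 1)) = 0 := by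
  refine rawb2_self _ _ _ x (m := if x.1 - 1 = 0 then 0 else x.1 - 1 + 1)
    (fun _ _ => ⟨rfl, rfl⟩) fun h => ?_
  have h1 : 2 ≤ x.1 := by
    by_contra h1
    exact h (if_pos (by omega))
  refine ⟨?_, fun i j => rawb2_NN x h1⟩
  rw [rawb2_cN, if_neg (by omega), if_neg (by omega)]
  omega

theorem rawb2_NS0 (x : Raw C) (k : ℕ) : rawb2_S C k (rawb2_N C (Finsupp.single x 1)) +
    rawb2_N C (rawb2_S C k (Finsupp.single x 1)) = 0 := by
  refine rawb2_comm _ _ _ _ _ _ x (fun i hi => ⟨rfl, ?_⟩) (fun _ _ => ⟨rfl, rfl⟩)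
    fun i hi j hj => rawb2_NS x (rawb2_cN_pos hi) (rawb2_cS_pos hj) i j
  have h := rawb2_cN_pos hi
  change (-1 : ℚ) ^ (x.1 - 1 + ∑ l ∈ Finset.range k, (x.2.1 l + 1)) = _
  rw [rawb2_sg, show x.1 + ∑ l ∈ Finset.range k, (x.2.1 l + 1) =
    x.1 - 1 + ∑ l ∈ Finset.range k, (x.2.1 l + 1) + 1 by omega, pow_succ, mul_neg_one, neg_neg]

theorem rawb2_sg_le (x : Raw C) {k l : ℕ} (h : k ≤ l) (j : ℕ) :
    rawb2_sg k (faceS x l j) = rawb2_sg k x := by
  change (-1 : ℚ) ^ (x.1 + ∑ m ∈ Finset.range k,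
    ((x.2.1 - Finsupp.single l 1 : ℕ →₀ ℕ) m + 1)) = _
  rw [rawb2_sg, Finset.sum_congr rfl fun m hm => by
    rw [rawb2_ne _ ((Finset.mem_range.1 hm).trans_le h).ne]]

theorem rawb2_sg_lt (x : Raw C) {k l : ℕ} (h : k < l) (hk : x.2.1 k ≠ 0) (j : ℕ) :
    rawb2_sg l (faceS x k j) = -rawb2_sg l x := by
  change (-1 : ℚ) ^ (x.1 + ∑ m ∈ Finset.range l,
    ((x.2.1 - Finsupp.single k 1 : ℕ →₀ ℕ) m + 1)) = _
  have hm := Finset.mem_range.2 h
  rw [rawb2_sg, ← Finset.add_sum_erase _ _ hm, ← Finset.add_sum_erase _ _ hm, rawb2_eq,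
    Finset.sum_congr rfl fun m hm => by rw [rawb2_ne _ (Finset.ne_of_mem_erase hm)]]
  generalize ∑ m ∈ (Finset.range l).erase k, (x.2.1 m + 1) = t
  rw [show x.1 + (x.2.1 k + 1 + t) = x.1 + (x.2.1 k - 1 + 1 + t) + 1 by omega, pow_succ,
    mul_neg_one, neg_neg]

theorem rawb2_cS_ne (x : Raw C) {k l : ℕ} (h : l ≠ k) (j : ℕ) :
    rawb2_cS l (faceS x k j) = rawb2_cS l x := by
  change (if (x.2.1 - Finsupp.single k 1 : ℕ →₀ ℕ) l = 0 then 0 else
    (x.2.1 - Finsupp.single k 1 : ℕ →₀ ℕ) l + 2) = _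
  rw [rawb2_ne _ h, rawb2_cS]

theorem rawb2_ST0 (x : Raw C) {k l : ℕ} (h : k < l) :
    rawb2_S C l (rawb2_S C k (Finsupp.single x 1)) +
      rawb2_S C k (rawb2_S C l (Finsupp.single x 1)) = 0 :=
  rawb2_comm _ _ _ _ _ _ x
    (fun i hi => ⟨rawb2_cS_ne x h.ne' i, rawb2_sg_lt x h (rawb2_cS_pos hi) i⟩)
    (fun j _ => ⟨rawb2_cS_ne x h.ne j, rawb2_sg_le x h.le j⟩)
    fun i hi j hj => rawb2_ST x h.ne (rawb2_cS_pos hi) (rawb2_cS_pos hj) i j

theorem rawb2_SS0 (x : Raw C) (k : ℕ) : rawb2_S C k (rawb2_S C k (Finsupp.single x 1)) = 0 := by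
  refine rawb2_self _ _ _ x (m := if x.2.1 k - 1 = 0 then 0 else x.2.1 k - 1 + 2)
    (fun i _ => ⟨?_, rawb2_sg_le x le_rfl i⟩) fun h => ?_
  · rw [← rawb2_eq]
    rfl
  have h1 : 2 ≤ x.2.1 k := by
    by_contra h1
    exact h (if_pos (by omega))
  refine ⟨?_, fun i j => rawb2_SS x h1⟩
  rw [rawb2_cS, if_neg (by omega), if_neg (by omega)]
  omega

/-- Plan: simplicial identities `skip j ∘ skip i = skip i ∘ skip (j-1)` for `i < j` inside one direction, commutation of faces in different directions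
(`pull_pull`, `pull_congr`), and the signs: a face in direction `k` flips the sign of all later directions `l > k`; a nerve face flips all of them.
`(q - single k 1).support` is `q.support` or `q.support.erase k`; it helps to write the sum over the support as a sum over a fixed `range N` with `if q k = 0 then 0 else ..`.
Abstract lemma: `∑ j < n+2, ∑ i < n+1, (-1)^(i+j) • g j i = 0` if `g j i = g i (j-1)` for `i < j`. -/
theorem bd_bd (c : Raw C →₀ ℚ) : bd C (bd C c) = 0 := by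
  suffices h : bd C ∘ₗ bd C = 0 from LinearMap.congr_fun h c
  refine Finsupp.lhom_ext' fun x => LinearMap.ext_ring ?_
  change bd C (bd C (Finsupp.single x 1)) = 0
  have h1 : bd C (bd C (Finsupp.single x 1)) =
      (rawb2_N C + ∑ k ∈ x.2.1.support, rawb2_S C k) (bd C (Finsupp.single x 1)) := by
    rw [bd_single, bd1]
    simp only [map_add, map_sum, map_smul]
    congr 1
    · exact Finset.sum_congr rfl fun i _ => by rw [rawb2_bd x.2.1.support (faceN x i) subset_rfl]
    · exact Finset.sum_congr rfl fun k _ => Finset.sum_congr rfl fun i _ => by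
        rw [rawb2_bd x.2.1.support (faceS x k i) Finsupp.support_tsub]
  have h2 : ∑ l ∈ x.2.1.support, ∑ k ∈ x.2.1.support,
      rawb2_S C l (rawb2_S C k (Finsupp.single x 1)) = 0 := by
    refine (smul_right_injective _ (two_ne_zero (α := ℚ))) ?_
    dsimp only
    rw [smul_zero, two_smul]
    nth_rw 2 [Finset.sum_comm]
    rw [← Finset.sum_add_distrib]
    refine Finset.sum_eq_zero fun l _ => ?_
    rw [← Finset.sum_add_distrib]
    refine Finset.sum_eq_zero fun k _ => ?_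
    rcases lt_trichotomy k l with h | rfl | h
    · exact rawb2_ST0 x h
    · rw [rawb2_SS0, add_zero]
    · rw [add_comm, rawb2_ST0 x h]
  rw [h1, rawb2_bd _ x subset_rfl]
  simp only [LinearMap.add_apply, LinearMap.sum_apply, map_add, map_sum, Finset.sum_add_distrib]
  rw [rawb2_NN0, zero_add]
  have h3 := Finset.sum_eq_zero (s := x.2.1.support) fun k _ => rawb2_NS0 x k
  rw [Finset.sum_add_distrib] at h3
  rw [Finset.sum_comm] at h2
  linear_combination (norm := abel1) h2 + h3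

theorem bd_post (T : C ⥤ C') (c : Raw C →₀ ℚ) :
    bd C' (Finsupp.lmapDomain ℚ ℚ (post T) c) = Finsupp.lmapDomain ℚ ℚ (post T) (bd C c) := by
  have e : (bd C').comp (Finsupp.lmapDomain ℚ ℚ (post T)) =
      (Finsupp.lmapDomain ℚ ℚ (post T)).comp (bd C) := by
    refine Finsupp.lhom_ext' fun x => LinearMap.ext_ring ?_
    simp only [LinearMap.comp_apply, Finsupp.lsingle_apply, Finsupp.lmapDomain_apply,
      Finsupp.mapDomain_single, bd_single]
    rw [← Finsupp.lmapDomain_apply ℚ ℚ, bd1, bd1]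
    simp only [map_add, map_sum, map_smul, Finsupp.lmapDomain_apply, Finsupp.mapDomain_single]
    rfl
  exact LinearMap.congr_fun e c

theorem bd_supported (S S' : Set (Raw C))
    (hN : ∀ x ∈ S, 0 < x.1 → ∀ i ≤ x.1, faceN x i ∈ S')
    (hS : ∀ x ∈ S, ∀ k, 0 < x.2.1 k → ∀ i ≤ x.2.1 k + 1, faceS x k i ∈ S')
    {c : Raw C →₀ ℚ} (hc : c ∈ Finsupp.supported ℚ ℚ S) : bd C c ∈ Finsupp.supported ℚ ℚ S' := by
  rw [bd, Finsupp.linearCombination_apply, Finsupp.sum]
  refine Submodule.sum_mem _ fun x hx => Submodule.smul_mem _ _ ?_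
  have hxS : x ∈ S := (Finsupp.mem_supported ℚ c).1 hc hx
  refine Submodule.add_mem _ (Submodule.sum_mem _ fun i hi => Submodule.smul_mem _ _ ?_)
    (Submodule.sum_mem _ fun k hk => Submodule.sum_mem _ fun i hi => Submodule.smul_mem _ _ ?_)
  · rw [Finset.mem_range] at hi
    refine Finsupp.single_mem_supported ℚ _ (hN x hxS ?_ i ?_) <;> split_ifs at hi <;> omega
  · rw [Finset.mem_range] at hi
    exact Finsupp.single_mem_supported ℚ _
      (hS x hxS k (Nat.pos_of_ne_zero (Finsupp.mem_support_iff.1 hk)) i (by omega))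

theorem deg_faceN (x : Raw C) (h : 0 < x.1) (i : ℕ) : deg (faceN x i) + 1 = deg x := by
  change x.1 - 1 + (x.2.1.sum fun _ n => n) + 1 = x.1 + x.2.1.sum fun _ n => n
  omega

theorem deg_faceS (x : Raw C) (k : ℕ) (h : 0 < x.2.1 k) (i : ℕ) : deg (faceS x k i) + 1 = deg x := by
  change x.1 + ((x.2.1 - Finsupp.single k 1).sum fun _ n => n) + 1 = x.1 + x.2.1.sum fun _ n => n
  have e : x.2.1 - Finsupp.single k 1 + Finsupp.single k 1 = x.2.1 :=
    tsub_add_cancel_of_le (Finsupp.single_le_iff.2 h)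
  have e2 := Finsupp.sum_add_index' (f := x.2.1 - Finsupp.single k 1) (g := Finsupp.single k 1)
    (h := fun _ n => n) (fun _ => rfl) fun _ _ _ => rfl
  rw [e, Finsupp.sum_single_index rfl] at e2
  omega

end Pool.Agent.SR
end PartRawB

section PartGoodB
open CategoryTheory

namespace Pool.Agent.SR

variable {F : Type} [Field F]

theorem mp_comp {p : ℕ} {q : ℕ →₀ ℕ} (X : Idx p q ⥤ ModuleCat.{0} F) {a b c : Idx p q} (h : a ≤ b)
    (h' : b ≤ c) (v : X.obj a) : mp F X h' (mp F X h v) = mp F X (h.trans h') v := by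
  unfold mp
  rw [← homOfLE_comp h h', X.map_comp, ModuleCat.hom_comp]
  rfl

theorem mp_refl {p : ℕ} {q : ℕ →₀ ℕ} (X : Idx p q ⥤ ModuleCat.{0} F) {a : Idx p q} (h : a ≤ a)
    (v : X.obj a) : mp F X h v = v := by
  unfold mp
  have e : homOfLE h = 𝟙 a := rfl
  rw [e, X.map_id, ModuleCat.hom_id]
  rfl

theorem Good.mono {r r' : ℕ} {x : Raw (ModuleCat.{0} F)} (h : Good F r x) (hr : r ≤ r') :
    Good F r' x :=
  ⟨h.fin, h.iso, h.zero, h.exact, fun a ha => (h.rank a ha).trans hr⟩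

/-- Replace the two ends of the arrow in direction `k`. -/
def goodb_set {p : ℕ} {q : ℕ →₀ ℕ} (a : Idx p q) (k s t : ℕ) (h : s ≤ t) (h' : t ≤ q k + 1) :
    Idx p q :=
  ⟨(a.1.1, Function.update a.1.2.1 k s, Function.update a.1.2.2 k t), a.2.1, fun l => by
    by_cases e : l = k
    · subst e; simp only [Function.update_self]; exact ⟨h, h'⟩
    · simpa only [Function.update_of_ne e] using a.2.2 l⟩

theorem goodb_upd_le {f g : ℕ → ℕ} {k s : ℕ} (h : f ≤ g) (hs : s ≤ g k) :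
    Function.update f k s ≤ g := fun l => by
  by_cases e : l = k
  · subst e; simpa only [Function.update_self] using hs
  · simpa only [Function.update_of_ne e] using h l

theorem goodb_le_upd {f : ℕ → ℕ} {k s : ℕ} (hs : f k ≤ s) : f ≤ Function.update f k s := fun l => by
  by_cases e : l = k
  · subst e; simpa only [Function.update_self] using hs
  · simp only [Function.update_of_ne e]; exact le_rfl

theorem goodb_upd_upd {f : ℕ → ℕ} {k s t : ℕ} (hs : s ≤ t) :
    Function.update f k s ≤ Function.update f k t := fun l => by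
  by_cases e : l = k
  · subst e; simpa only [Function.update_self] using hs
  · simp only [Function.update_of_ne e]; exact le_rfl

theorem goodb_inj {r : ℕ} {x : Raw (ModuleCat.{0} F)} (hx : Good F r x) (S : Finset ℕ) :
    ∀ (a b : Idx x.1 x.2.1) (h : a ≤ b), a.1.2.1 = b.1.2.1 → (∀ k ∉ S, a.1.2.2 k = b.1.2.2 k) →
      Function.Injective (mp F x.2.2 h) := by
  induction S using Finset.induction_on with
  | empty =>
    intro a b h h1 h2
    exact (hx.iso a b h (Prod.ext h1 (funext fun k => h2 k (Finset.notMem_empty k)))).1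
  | insert k S _ ih =>
    intro a b h h1 h2
    have hk : a.1.2.2 k ≤ b.1.2.2 k := h.2.2 k
    have ha := a.2.2 k
    have hb := b.2.2 k
    let m := goodb_set a k (a.1.2.1 k) (b.1.2.2 k) (ha.1.trans hk) hb.2
    let c := goodb_set a k (a.1.2.2 k) (b.1.2.2 k) hk hb.2
    have am : a ≤ m := ⟨le_rfl, goodb_le_upd le_rfl, goodb_le_upd hk⟩
    have mc : m ≤ c := ⟨le_rfl, goodb_upd_upd ha.1, le_rfl⟩
    have mb : m ≤ b := ⟨h.1, goodb_upd_le h.2.1 (h.2.1 k), goodb_upd_le h.2.2 le_rfl⟩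
    have e1 := (hx.exact a m c am mc k
      ⟨rfl, fun l hl => by simp [m, goodb_set, Function.update_of_ne hl]⟩
      ⟨rfl, fun l hl => by simp [m, c, goodb_set, Function.update_of_ne hl]⟩
      (by simp [m, goodb_set]) (by simp [c, goodb_set]) (by simp [m, c, goodb_set])).1
    have e2 := ih m b mb (by simpa [m, goodb_set] using h1) fun l hl => by
      by_cases e : l = k
      · subst e; simp [m, goodb_set]
      · simp only [m, goodb_set, Function.update_of_ne e]
        exact h2 l (by simp [e, hl])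
    intro u v huv
    rw [← mp_comp _ am mb, ← mp_comp _ am mb] at huv
    exact e1 (e2 huv)

theorem goodb_surj {r : ℕ} {x : Raw (ModuleCat.{0} F)} (hx : Good F r x) (S : Finset ℕ) :
    ∀ (a b : Idx x.1 x.2.1) (h : a ≤ b), a.1.2.2 = b.1.2.2 → (∀ k ∉ S, a.1.2.1 k = b.1.2.1 k) →
      Function.Surjective (mp F x.2.2 h) := by
  induction S using Finset.induction_on with
  | empty =>
    intro a b h h1 h2
    exact (hx.iso a b h (Prod.ext (funext fun k => h2 k (Finset.notMem_empty k)) h1)).2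
  | insert k S _ ih =>
    intro a b h h1 h2
    have hk : a.1.2.1 k ≤ b.1.2.1 k := h.2.1 k
    have ha := a.2.2 k
    have hb := b.2.2 k
    have hk' : b.1.2.1 k ≤ a.1.2.2 k := by rw [h1]; exact hb.1
    let m := goodb_set a k (b.1.2.1 k) (a.1.2.2 k) hk' ha.2
    let c := goodb_set a k (a.1.2.1 k) (b.1.2.1 k) hk (hk'.trans ha.2)
    have am : a ≤ m := ⟨le_rfl, goodb_le_upd hk, goodb_le_upd le_rfl⟩
    have ca : c ≤ a := ⟨le_rfl, goodb_upd_le le_rfl le_rfl, goodb_upd_le le_rfl hk'⟩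
    have mb : m ≤ b := ⟨h.1, goodb_upd_le h.2.1 le_rfl, goodb_upd_le h.2.2 (h.2.2 k)⟩
    have e1 := (hx.exact c a m ca am k
      ⟨rfl, fun l hl => by simp [c, goodb_set, Function.update_of_ne hl]⟩
      ⟨rfl, fun l hl => by simp [m, goodb_set, Function.update_of_ne hl]⟩
      (by simp [c, goodb_set]) (by simp [m, c, goodb_set]) (by simp [m, goodb_set])).2.2
    have e2 := ih m b mb (by simpa [m, goodb_set] using h1) fun l hl => by
      by_cases e : l = k
      · subst e; simp [m, goodb_set]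
      · simp only [m, goodb_set, Function.update_of_ne e]
        exact h2 l (by simp [e, hl])
    intro w
    obtain ⟨u, rfl⟩ := e2 w
    obtain ⟨v, rfl⟩ := e1 u
    exact ⟨v, (mp_comp _ am mb v).symm⟩

/-- Plan: if `a` is degenerate in some direction the source is `0`. Otherwise `a` and `b` agree outside the finite support of `q` (there the arrows are `0 ≤ 1`);
move one direction at a time (induction on a `Finset` of directions outside of which the upper ends agree), using `exact` with the third index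
`(a.B k, b.B k)` in direction `k`, and `iso` for the nerve coordinate. -/
theorem Good.inj {r : ℕ} {x : Raw (ModuleCat.{0} F)} (hx : Good F r x) {a b : Idx x.1 x.2.1}
    (h : a ≤ b) (hab : a.1.2.1 = b.1.2.1) : Function.Injective (mp F x.2.2 h) := by
  by_cases hd : ∃ k, a.1.2.1 k = a.1.2.2 k
  · obtain ⟨k, hk⟩ := hd
    have := hx.zero a k hk
    exact fun u v _ => Subsingleton.elim u v
  · refine goodb_inj hx x.2.1.support a b h hab fun k hk => ?_
    have h0 : x.2.1 k = 0 := Finsupp.notMem_support_iff.1 hk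
    have h1 : a.1.2.1 k ≠ a.1.2.2 k := fun e => hd ⟨k, e⟩
    have h2 : a.1.2.2 k ≤ b.1.2.2 k := h.2.2 k
    have ha := a.2.2 k
    have hb := b.2.2 k
    omega

theorem Good.surj {r : ℕ} {x : Raw (ModuleCat.{0} F)} (hx : Good F r x) {a b : Idx x.1 x.2.1}
    (h : a ≤ b) (hab : a.1.2.2 = b.1.2.2) : Function.Surjective (mp F x.2.2 h) := by
  by_cases hd : ∃ k, b.1.2.1 k = b.1.2.2 k
  · obtain ⟨k, hk⟩ := hd
    have := hx.zero b k hk
    exact fun v => ⟨0, Subsingleton.elim _ v⟩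
  · refine goodb_surj hx x.2.1.support a b h hab fun k hk => ?_
    have h0 : x.2.1 k = 0 := Finsupp.notMem_support_iff.1 hk
    have h1 : b.1.2.1 k ≠ b.1.2.2 k := fun e => hd ⟨k, e⟩
    have h2 : a.1.2.1 k ≤ b.1.2.1 k := h.2.1 k
    have hb := b.2.2 k
    omega

/-- Raise the lower end of the `k`-th arrow to `s`. -/
def goodb2_up {p : ℕ} {q : ℕ →₀ ℕ} (a : Idx p q) (k s : ℕ) (hs : s ≤ a.1.2.2 k) : Idx p q :=
  ⟨(a.1.1, Function.update a.1.2.1 k s, a.1.2.2), a.2.1, fun l => by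
    have := a.2.2 l
    by_cases h : l = k
    · subst h; simp only [Function.update_self]; omega
    · simpa only [Function.update_of_ne h] using this⟩

theorem goodb2_le_up {p : ℕ} {q : ℕ →₀ ℕ} (a : Idx p q) (k s : ℕ) (hs : s ≤ a.1.2.2 k)
    (hs' : a.1.2.1 k ≤ s) : a ≤ goodb2_up a k s hs :=
  ⟨le_rfl, fun l => by
    by_cases h : l = k
    · subst h; simpa [goodb2_up] using hs'
    · simp [goodb2_up, Function.update_of_ne h], le_rfl⟩

theorem goodb2_up_le {p : ℕ} {q : ℕ →₀ ℕ} {a b : Idx p q} (h : a ≤ b) (k s : ℕ)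
    (hs : s ≤ a.1.2.2 k) (hs' : s ≤ b.1.2.1 k) : goodb2_up a k s hs ≤ b :=
  ⟨h.1, fun l => by
    by_cases e : l = k
    · subst e; simpa [goodb2_up] using hs'
    · simpa [goodb2_up, Function.update_of_ne e] using h.2.1 l, h.2.2⟩

theorem goodb2_cut_mono {p : ℕ} {q : ℕ →₀ ℕ} {a b : Idx p q} (h : a ≤ b) (k s : ℕ) :
    cutB a k s ≤ cutB b k s :=
  ⟨h.1, fun l => by
    by_cases e : l = k
    · subst e; simpa only [cutB, Function.update_self] using min_le_min_right s (h.2.1 l)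
    · simpa only [cutB, Function.update_of_ne e] using h.2.1 l, fun l => by
    by_cases e : l = k
    · subst e; simpa only [cutB, Function.update_self] using min_le_min_right s (h.2.2 l)
    · simpa only [cutB, Function.update_of_ne e] using h.2.2 l⟩

theorem goodb2_zero {r : ℕ} {x : Raw (ModuleCat.{0} F)} (hx : Good F r x) {a b : Idx x.1 x.2.1}
    (h : a ≤ b) (k : ℕ) (hk : a.1.2.2 k ≤ b.1.2.1 k) (v : x.2.2.obj a) : mp F x.2.2 h v = 0 := by
  have h1 := goodb2_le_up a k (a.1.2.2 k) le_rfl (a.2.2 k).1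
  have h2 := goodb2_up_le h k (a.1.2.2 k) le_rfl hk
  have := hx.zero (goodb2_up a k (a.1.2.2 k) le_rfl) k (by simp [goodb2_up])
  rw [← mp_comp x.2.2 h1 h2 v, Subsingleton.elim (mp F x.2.2 h1 v) 0, map_zero]

theorem goodb2_ker_le {r : ℕ} {x : Raw (ModuleCat.{0} F)} (hx : Good F r x) (b : Idx x.1 x.2.1)
    (S : Finset ℕ) : ∀ (a : Idx x.1 x.2.1) (h : a ≤ b), a.1.2.2 = b.1.2.2 →
      (∀ k ∉ S, a.1.2.1 k = b.1.2.1 k) → LinearMap.ker (mp F x.2.2 h) ≤
        ⨆ k, LinearMap.range (mp F x.2.2 (cutB_le a k (b.1.2.1 k))) := by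
  induction S using Finset.induction_on with
  | empty =>
    intro a h hab hS
    have := (hx.iso a b h (Prod.ext (funext fun k => hS k (Finset.notMem_empty k)) hab)).1
    rw [LinearMap.ker_eq_bot.2 this]
    exact bot_le
  | insert k S _ ih =>
    intro a h hab hS v hv
    have hs : b.1.2.1 k ≤ a.1.2.2 k := hab ▸ (b.2.2 k).1
    have hs' : a.1.2.1 k ≤ b.1.2.1 k := h.2.1 k
    have h1 := goodb2_le_up a k _ hs hs'
    have h2 := goodb2_up_le h k _ hs le_rfl
    have i1 := ih (goodb2_up a k _ hs) h2 hab (fun l hl => by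
      by_cases e : l = k
      · subst e; simp [goodb2_up]
      · simpa [goodb2_up, Function.update_of_ne e] using hS l (by simp [e, hl]))
    have i2 : (⨆ l, LinearMap.range (mp F x.2.2 (cutB_le (goodb2_up a k _ hs) l (b.1.2.1 l)))) ≤
        (⨆ l, LinearMap.range (mp F x.2.2 (cutB_le a l (b.1.2.1 l)))).map (mp F x.2.2 h1) := by
      refine iSup_le fun l => ?_
      rintro _ ⟨w, rfl⟩
      obtain ⟨u, rfl⟩ := hx.surj (goodb2_cut_mono h1 l (b.1.2.1 l)) rfl w
      refine ⟨mp F x.2.2 (cutB_le a l (b.1.2.1 l)) u, Submodule.mem_iSup_of_mem l ⟨u, rfl⟩, ?_⟩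
      rw [mp_comp, mp_comp]
    obtain ⟨w, hw, e⟩ := i2 (i1 (x := mp F x.2.2 h1 v) (by
      rw [LinearMap.mem_ker, mp_comp]; exact hv))
    have ex := (hx.exact (cutB a k (b.1.2.1 k)) a (goodb2_up a k _ hs) (cutB_le a k _) h1 k
      ⟨rfl, fun l e => by simp [cutB, Function.update_of_ne e]⟩
      ⟨rfl, fun l e => by simp [goodb2_up, Function.update_of_ne e]⟩
      (by simpa [cutB] using hs') (by simpa [cutB, goodb2_up] using hs) rfl).2.1
    have h3 : v - w ∈ ⨆ l, LinearMap.range (mp F x.2.2 (cutB_le a l (b.1.2.1 l))) :=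
      Submodule.mem_iSup_of_mem k ((ex (v - w)).1 (by rw [map_sub, e, sub_self]))
    simpa using add_mem h3 hw

/-- Plan: `⊇`: the composite factors through an index degenerate in direction `k`. `⊆`: trivial if `a` or `b` is degenerate somewhere; otherwise induction on the finite
set of directions where the lower ends differ: with `a₁` = `a` with lower end `b.A k` in direction `k`, `ker (a → a₁) = range (cutB a k (b.A k) → a)` by `exact`, and
`cutB a l s → cutB a₁ l s` is surjective for `l ≠ k` (`surj`). -/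
theorem Good.ker {r : ℕ} {x : Raw (ModuleCat.{0} F)} (hx : Good F r x) {a b : Idx x.1 x.2.1}
    (h : a ≤ b) (hab : a.1.2.2 = b.1.2.2) : LinearMap.ker (mp F x.2.2 h) =
      ⨆ k, LinearMap.range (mp F x.2.2 (cutB_le a k (b.1.2.1 k))) := by
  refine le_antisymm ?_ (iSup_le fun k => ?_)
  · by_cases ha : ∃ k, a.1.2.1 k = a.1.2.2 k
    · obtain ⟨k, hk⟩ := ha
      have := hx.zero a k hk
      intro v _
      rw [Subsingleton.elim v 0]
      exact zero_mem _
    by_cases hb : ∃ k, b.1.2.1 k = b.1.2.2 k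
    · obtain ⟨k, hk⟩ := hb
      refine le_top.trans (le_iSup_of_le k (LinearMap.range_eq_top.2 (hx.surj _ ?_)).ge)
      change Function.update a.1.2.2 k (min (a.1.2.2 k) (b.1.2.1 k)) = a.1.2.2
      rw [hk, ← hab, min_self, Function.update_eq_self]
    refine goodb2_ker_le hx b x.2.1.support a h hab fun k hk => ?_
    have h0 : x.2.1 k = 0 := Finsupp.notMem_support_iff.1 hk
    have h1 := a.2.2 k
    have h2 := b.2.2 k
    have h3 : a.1.2.1 k ≠ a.1.2.2 k := fun e => ha ⟨k, e⟩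
    have h4 : b.1.2.1 k ≠ b.1.2.2 k := fun e => hb ⟨k, e⟩
    omega
  · rintro _ ⟨v, rfl⟩
    rw [LinearMap.mem_ker, mp_comp]
    exact goodb2_zero hx _ k (by simp [cutB]) v

/-- A map that factors through a degenerate index vanishes. -/
theorem Good.mp_zero {r : ℕ} {x : Raw (ModuleCat.{0} F)} (hx : Good F r x) {a b : Idx x.1 x.2.1}
    (h : a ≤ b) (k : ℕ) (hk : a.1.2.2 k ≤ b.1.2.1 k) (v : x.2.2.obj a) : mp F x.2.2 h v = 0 := by
  have ha := a.2.2 k
  let m := goodb_set a k (a.1.2.2 k) (a.1.2.2 k) le_rfl ha.2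
  have am : a ≤ m := ⟨le_rfl, goodb_le_upd ha.1, goodb_le_upd le_rfl⟩
  have mb : m ≤ b := ⟨h.1, goodb_upd_le h.2.1 hk, goodb_upd_le h.2.2 (h.2.2 k)⟩
  have := hx.zero m k (by simp [m, goodb_set])
  rw [← mp_comp _ am mb, Subsingleton.elim (mp F x.2.2 am v) 0, map_zero]

/-- Every vertex is a subquotient of the terminal vertex (`lowI`). -/
theorem Good.finrank_le {r : ℕ} {x : Raw (ModuleCat.{0} F)} (hx : Good F r x)
    (a : Idx x.1 x.2.1) : Module.finrank F (x.2.2.obj a) ≤ r := by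
  have := hx.fin (lowI a)
  have := hx.fin (topI _ _)
  have h1 := LinearMap.finrank_le_finrank_of_surjective (hx.surj (lowI_le a) rfl)
  have h2 := LinearMap.finrank_le_finrank_of_injective (hx.inj (lowI_le_top a) rfl)
  exact h1.trans (h2.trans (hx.rank _ fun _ => ⟨rfl, rfl⟩))

theorem Good.pull {r : ℕ} {x : Raw (ModuleCat.{0} F)} (hx : Good F r x) (p' : ℕ) (q' : ℕ →₀ ℕ)
    (f0 : ℕ →o ℕ) (f : ℕ → ℕ →o ℕ) : Good F r (pull x p' q' f0 f) := by
  refine ⟨fun a => hx.fin _, fun a b h e => ?_, fun a k e => ?_,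
    fun a b c h h' k h1 h2 e1 e2 e3 => ?_, fun a _ => hx.finrank_le _⟩
  · exact hx.iso _ _ (reidx_mono x.1 x.2.1 p' q' f0 f h) (by simp only [reidx, e])
  · exact hx.zero (reidx x.1 x.2.1 f0 f a) k (by simp only [reidx, e])
  · exact hx.exact _ _ _ (reidx_mono x.1 x.2.1 p' q' f0 f h) (reidx_mono x.1 x.2.1 p' q' f0 f h') k
      ⟨by simp only [reidx, h1.1], fun l e => by simp only [reidx, (h1.2 l e).1, (h1.2 l e).2, and_self]⟩
      ⟨by simp only [reidx, h2.1], fun l e => by simp only [reidx, (h2.2 l e).1, (h2.2 l e).2, and_self]⟩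
      (by simp only [reidx, e1]) (by simp only [reidx, e2]) (by simp only [reidx, e3])

theorem good_zero_iff (x : Raw (ModuleCat.{0} F)) :
    Good F 0 x ↔ ∀ a, Subsingleton (x.2.2.obj a) := by
  constructor
  · intro hx a
    have := hx.fin a
    exact Module.finrank_zero_iff.1 (Nat.le_zero.1 (hx.finrank_le a))
  · intro h
    refine ⟨fun a => inferInstance, fun a b _ _ => ?_, fun a _ _ => h a,
      fun a b c _ _ _ _ _ _ _ _ => ⟨?_, fun y => ?_, ?_⟩,
      fun a _ => (Module.finrank_zero_of_subsingleton).le⟩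
    · exact ⟨Function.injective_of_subsingleton _, Function.surjective_to_subsingleton _⟩
    · exact Function.injective_of_subsingleton _
    · exact ⟨fun _ => ⟨0, Subsingleton.elim _ _⟩, fun _ => Subsingleton.elim _ _⟩
    · exact Function.surjective_to_subsingleton _

theorem bd_Fil {r : ℕ} {c : Ch F} (hc : c ∈ Fil F r) : bd _ c ∈ Fil F r := by
  have key : ∀ y, Good F r y → Finsupp.single y (1 : ℚ) ∈ Fil F r := fun y hy =>
    Finsupp.single_mem_supported ℚ 1 hy
  rw [Fil, Finsupp.supported_eq_span_single] at hc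
  induction hc using Submodule.span_induction with
  | mem y hy =>
    obtain ⟨y, hy, rfl⟩ := hy
    rw [bd, Finsupp.linearCombination_single, one_smul, bd1]
    exact add_mem (Submodule.sum_mem _ fun i _ => Submodule.smul_mem _ _ (key _ (Good.pull hy _ _ _ _)))
      (Submodule.sum_mem _ fun k _ => Submodule.sum_mem _ fun i _ =>
        Submodule.smul_mem _ _ (key _ (Good.pull hy _ _ _ _)))
  | zero => rw [map_zero]; exact zero_mem _
  | add _ _ _ _ h1 h2 => rw [map_add]; exact add_mem h1 h2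
  | smul _ _ _ h1 => rw [map_smul]; exact Submodule.smul_mem _ _ h1

theorem Fil_mono {r r' : ℕ} (h : r ≤ r') : Fil F r ≤ Fil F r' := by
  exact Finsupp.supported_mono fun _ hx => Good.mono hx h

end Pool.Agent.SR
end PartGoodB

section PartSplitA
open CategoryTheory

namespace Pool.Agent.SR

variable {F : Type} [Field F]

theorem splita_abs {V T : Type} [AddCommGroup V] [Module F V] [PartialOrder T] [WellFoundedLT T]
    (W K : T → Submodule F V) (hm : Monotone W) (h1 : ∀ d d', ¬ d ≤ d' → W d' ≤ K d)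
    (h2 : ∀ d, W d ⊓ K d ≤ ⨆ d' < d, W d') (P : Set T) :
    ∃ e : V →ₗ[F] V, ∀ d, ∀ v ∈ W d,
      e v ∈ ⨆ d' ∈ {d' | d' ≤ d ∧ d' ∈ P}, W d' ∧ ((∀ d' ≤ d, d' ∈ P) → e v = v) := by
  classical
  have hU : ∀ d, ∃ U, Disjoint (⨆ d' < d, W d') U ∧ (⨆ d' < d, W d') ⊔ U = W d := fun d =>
    IsModularLattice.exists_disjoint_and_sup_eq (iSup₂_le fun d' h => hm h.le)
  choose U hU1 hU2 using hU
  have hUW : ∀ d, U d ≤ W d := fun d => hU2 d ▸ le_sup_right
  have hW : ∀ d, W d ≤ ⨆ d' ≤ d, U d' := fun d => by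
    induction d using WellFoundedLT.induction with
    | ind d ih =>
      rw [← hU2 d]
      refine sup_le (iSup₂_le fun d' h => (ih d' h).trans (iSup₂_le fun d'' h' => ?_)) ?_
      · exact le_iSup₂_of_le d'' (h'.trans h.le) le_rfl
      · exact le_iSup₂_of_le d le_rfl le_rfl
  have hI : iSupIndep U := by
    rw [iSupIndep_iff_finsetSum_eq_zero_imp_eq_zero]
    intro S u hu h0
    by_contra hc
    push Not at hc
    obtain ⟨d, hd, hmax⟩ := (S.filter fun i => u i ≠ 0).exists_maximal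
      (hc.imp fun i hi => Finset.mem_filter.2 hi)
    obtain ⟨d1, d2⟩ := Finset.mem_filter.1 hd
    refine d2 (Submodule.disjoint_def.1 (hU1 d) _ (h2 d ⟨hUW d (hu d d1), ?_⟩) (hu d d1))
    rw [← Finset.add_sum_erase S u d1, add_eq_zero_iff_eq_neg] at h0
    rw [h0]
    refine (K d).neg_mem (Submodule.sum_mem _ fun i hi => ?_)
    obtain ⟨i1, i2⟩ := Finset.mem_erase.1 hi
    by_cases e : u i = 0
    · rw [e]; exact zero_mem _
    · exact h1 d i (fun h => i1 (le_antisymm (hmax (Finset.mem_filter.2 ⟨i2, e⟩) h) h))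
        (hUW i (hu i i2))
  obtain ⟨C, hC1, hC2⟩ := (hI.disjoint_biSup_biSup (s := Pᶜ) (t := P)
    disjoint_compl_left).exists_isCompl
  obtain ⟨e, e1, e2⟩ : ∃ e : V →ₗ[F] V, (∀ d ∈ P, ∀ v ∈ U d, e v = v) ∧
      ∀ d ∉ P, ∀ v ∈ U d, e v = 0 :=
    ⟨Submodule.projection _ _ hC2.symm, fun d hd v hv => Submodule.projection_apply_of_mem_left _
      (Submodule.mem_iSup_of_mem d (Submodule.mem_iSup_of_mem hd hv)),
      fun d hd v hv => Submodule.projection_apply_of_mem_right _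
        (hC1 (Submodule.mem_iSup_of_mem d (Submodule.mem_iSup_of_mem hd hv)))⟩
  refine ⟨e, fun d v hv => ⟨?_, fun hP => ?_⟩⟩
  · have : (⨆ d' ≤ d, U d') ≤ (⨆ d' ∈ {d' | d' ≤ d ∧ d' ∈ P}, W d').comap e :=
      iSup₂_le fun d' h w hw => by
        rw [Submodule.mem_comap]
        by_cases c : d' ∈ P
        · rw [e1 d' c w hw]
          exact Submodule.mem_iSup_of_mem d' (Submodule.mem_iSup_of_mem ⟨h, c⟩ (hUW d' hw))
        · rw [e2 d' c w hw]
          exact zero_mem _
    exact this (hW d hv)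
  · have : (⨆ d' ≤ d, U d') ≤ LinearMap.eqLocus e LinearMap.id :=
      iSup₂_le fun d' h w hw => e1 d' (hP d' h) w hw
    exact this (hW d hv)

/-- The index `(0, 0, d + 1)`. -/
def splita_I (p : ℕ) {q : ℕ →₀ ℕ} (d : {d : ℕ →₀ ℕ // d ≤ q}) : Idx p q :=
  ⟨(0, fun _ => 0, fun l => d.1 l + 1), Nat.zero_le _,
    fun l => ⟨Nat.zero_le _, Nat.succ_le_succ (d.2 l)⟩⟩

/-- The index `(0, d, q + 1)`. -/
def splita_J (p : ℕ) {q : ℕ →₀ ℕ} (d : {d : ℕ →₀ ℕ // d ≤ q}) : Idx p q :=
  ⟨(0, fun l => d.1 l, fun l => q l + 1), Nat.zero_le _,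
    fun l => ⟨Nat.le_succ_of_le (d.2 l), le_rfl⟩⟩

/-- The index `(0, d, d + 1)`. -/
def splita_M (p : ℕ) {q : ℕ →₀ ℕ} (d : {d : ℕ →₀ ℕ // d ≤ q}) : Idx p q :=
  ⟨(0, fun l => d.1 l, fun l => d.1 l + 1), Nat.zero_le _,
    fun l => ⟨Nat.le_succ _, Nat.succ_le_succ (d.2 l)⟩⟩

theorem splita_top_le (p : ℕ) {q : ℕ →₀ ℕ} (d : {d : ℕ →₀ ℕ // d ≤ q}) :
    topI p q ≤ splita_J p d := ⟨le_rfl, fun _ => Nat.zero_le _, le_rfl⟩

theorem splita_range {p : ℕ} {q : ℕ →₀ ℕ} (X : Idx p q ⥤ ModuleCat.{0} F) {c b : Idx p q}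
    (h : c ≤ lowI b) (w : X.obj c) : mp F X (h.trans (lowI_le_top b)) w ∈ Vs F X b :=
  ⟨mp F X h w, mp_comp X _ _ w⟩

theorem splita_mono {p : ℕ} {q : ℕ →₀ ℕ} (X : Idx p q ⥤ ModuleCat.{0} F) {a b : Idx p q}
    (h : a.1.2.2 ≤ b.1.2.2) : Vs F X a ≤ Vs F X b := by
  rintro _ ⟨w, rfl⟩
  exact splita_range X (c := lowI a) (b := b) ⟨le_rfl, le_rfl, h⟩ w

theorem splita_ker {r : ℕ} {x : Raw (ModuleCat.{0} F)} (hx : Good F r x)
    (d : {d : ℕ →₀ ℕ // d ≤ x.2.1}) :
    Vs F x.2.2 (splita_I x.1 d) ⊓ LinearMap.ker (mp F x.2.2 (splita_top_le x.1 d)) ≤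
      ⨆ d' < d, Vs F x.2.2 (splita_I x.1 d') := by
  rintro _ ⟨⟨w, rfl⟩, h0⟩
  have l1 : lowI (splita_I x.1 d) ≤ splita_M x.1 d := ⟨le_rfl, fun _ => Nat.zero_le _, le_rfl⟩
  have l2 : splita_M x.1 d ≤ splita_J x.1 d :=
    ⟨le_rfl, le_rfl, fun l => Nat.succ_le_succ (d.2 l)⟩
  have h1 : mp F x.2.2 l1 w = 0 := by
    apply hx.inj l2 rfl
    rw [map_zero, mp_comp, ← LinearMap.mem_ker.1 h0, mp_comp]
  have h2 : LinearMap.ker (mp F x.2.2 l1) ≤ (⨆ d' < d, Vs F x.2.2 (splita_I x.1 d')).comap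
      (mp F x.2.2 (lowI_le_top (splita_I x.1 d))) := by
    rw [hx.ker l1 rfl]
    refine iSup_le fun l => ?_
    rintro _ ⟨u, rfl⟩
    rw [Submodule.mem_comap, mp_comp]
    by_cases c : d.1 l = 0
    · have := hx.zero (cutB (lowI (splita_I x.1 d)) l ((splita_M x.1 d).1.2.1 l)) l
        (by simp [cutB, lowI, splita_I, splita_M, c])
      rw [Subsingleton.elim u 0, map_zero]
      exact zero_mem _
    · have hlt : (⟨d.1 - Finsupp.single l 1, tsub_le_self.trans d.2⟩ :
          {d : ℕ →₀ ℕ // d ≤ x.2.1}) < d := by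
        refine lt_of_le_of_ne (tsub_le_self (a := d.1)) fun e => ?_
        have := DFunLike.congr_fun (congrArg Subtype.val e) l
        simp only [Finsupp.coe_tsub, Pi.sub_apply, Finsupp.single_eq_same] at this
        omega
      refine Submodule.mem_iSup_of_mem _ (Submodule.mem_iSup_of_mem hlt
        (splita_range x.2.2 (c := cutB (lowI (splita_I x.1 d)) l ((splita_M x.1 d).1.2.1 l))
          (b := splita_I x.1 ⟨d.1 - Finsupp.single l 1, tsub_le_self.trans d.2⟩)
          ⟨le_rfl, fun m => ?_, fun m => ?_⟩ u))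
      · by_cases e : m = l
        · subst e; simp [cutB, lowI]
        · simp [cutB, lowI]
      · by_cases e : m = l
        · subst e
          simp [cutB, lowI, splita_I, splita_M]
          omega
        · simp [cutB, lowI, splita_I, Function.update_of_ne e, Finsupp.single_eq_of_ne e]
  exact h2 h1

/-- Plan: `V = x(topI)`; for `t : ℕ → ℕ` with `t l ≤ q l + 1` let `V t` be the range of `x(0,0,t) → V` (`Vs`); `V t = ⊥` if some `t l = 0`; `V` is monotone.
`T` = the finite set of `t` with `1 ≤ t l ≤ q l + 1` for all `l`. Let `U t` be a complement in `V t` of `V' t = ⨆ l, V (t - e_l)`. Then `V t = ⨆ t' ≤ t, U t'` (well-founded induction)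
and the `U t` (`t ∈ T`) are independent: `π t : V → x(0, t - 1, top)` kills `V t'` unless `t ≤ t'` (`Good.mp_zero`) and `V t ⊓ ker (π t) ≤ V' t`
(factor `x(0,0,t) → x(0,t-1,t) → x(0,t-1,top)`, `Good.inj`, `Good.ker`); in a relation `∑ u t = 0` look at a maximal `t` with `u t ≠ 0`.
Let `e` be the projection onto `⨆ {t | t k ≤ s} U t` along `⨆ {t | s < t k} U t`. -/
theorem exists_proj {r : ℕ} {x : Raw (ModuleCat.{0} F)} (hx : Good F r x) (k s : ℕ) :
    ∃ e : x.2.2.obj (topI _ _) →ₗ[F] x.2.2.obj (topI _ _),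
      (∀ a, ∀ v ∈ Vs F x.2.2 a, e v ∈ Vs F x.2.2 (cutB a k s)) ∧
      ∀ a : Idx x.1 x.2.1, a.1.2.2 k ≤ s → ∀ v ∈ Vs F x.2.2 a, e v = v := by
  obtain ⟨e, he⟩ := splita_abs (fun d => Vs F x.2.2 (splita_I x.1 d))
    (fun d => LinearMap.ker (mp F x.2.2 (splita_top_le x.1 d)))
    (fun d d' h => splita_mono _ fun l => Nat.succ_le_succ ((show d.1 ≤ d'.1 from h) l))
    (fun d d' h => by
      rintro _ ⟨w, rfl⟩
      obtain ⟨l, hl⟩ : ∃ l, d'.1 l < d.1 l := by
        by_contra c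
        exact h (show d.1 ≤ d'.1 from fun l => not_lt.1 fun hl => c ⟨l, hl⟩)
      rw [LinearMap.mem_ker, mp_comp]
      exact hx.mp_zero (a := lowI (splita_I x.1 d')) (b := splita_J x.1 d) _ l
        (show d'.1 l + 1 ≤ d.1 l from hl) w)
    (splita_ker hx) {d | d.1 k + 1 ≤ s}
  have key : ∀ a : Idx x.1 x.2.1, ∀ v ∈ Vs F x.2.2 a, v = 0 ∨
      ∃ d, (splita_I x.1 d).1.2.2 = a.1.2.2 := fun a v hv => by
    by_cases c : ∃ l, a.1.2.2 l = 0
    · obtain ⟨l, hl⟩ := c
      obtain ⟨w, rfl⟩ := hv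
      have := hx.zero (lowI a) l hl.symm
      exact Or.inl (by rw [Subsingleton.elim w 0, map_zero])
    · push Not at c
      have hs : ∀ l, a.1.2.2 l - 1 ≠ 0 → l ∈ x.2.1.support := fun l hl =>
        Finsupp.mem_support_iff.2 (by have := (a.2.2 l).2; omega)
      refine Or.inr ⟨⟨Finsupp.onFinset x.2.1.support (fun l => a.1.2.2 l - 1) hs,
        fun l => ?_⟩, funext fun l => ?_⟩
      · have := (a.2.2 l).2
        change a.1.2.2 l - 1 ≤ x.2.1 l
        omega
      · have := c l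
        change a.1.2.2 l - 1 + 1 = _
        omega
  refine ⟨e, fun a v hv => ?_, fun a ha v hv => ?_⟩
  · rcases key a v hv with rfl | ⟨d, hd⟩
    · rw [map_zero]; exact zero_mem _
    · refine (iSup₂_le fun d' h' => splita_mono _ fun l => ?_ :
        _ ≤ Vs F x.2.2 (cutB a k s)) (he d v (splita_mono _ hd.ge hv)).1
      have h1 : d'.1 l + 1 ≤ a.1.2.2 l := hd ▸ Nat.succ_le_succ ((show d'.1 ≤ d.1 from h'.1) l)
      by_cases c : l = k
      · subst c
        simpa [cutB, splita_I] using And.intro h1 h'.2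
      · simpa [cutB, splita_I, Function.update_of_ne c] using h1
  · rcases key a v hv with rfl | ⟨d, hd⟩
    · exact map_zero e
    · refine (he d v (splita_mono _ hd.ge hv)).2 fun d' h' => le_trans ?_ ha
      exact hd ▸ Nat.succ_le_succ ((show d'.1 ≤ d.1 from h') k)

end Pool.Agent.SR
end PartSplitA

section PartSplitB
open CategoryTheory

namespace Pool.Agent.SR

variable {F : Type} [Field F]

theorem splitb_descend {U V W : Type*} [AddCommGroup U] [Module F U] [AddCommGroup V] [Module F V]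
    [AddCommGroup W] [Module F W] (ι : U →ₗ[F] V) (π : U →ₗ[F] W) (e : V →ₗ[F] V)
    (hι : Function.Injective ι) (hπ : Function.Surjective π)
    (h1 : ∀ u, e (ι u) ∈ LinearMap.range ι)
    (h2 : ∀ e' : U →ₗ[F] U, (∀ u, ι (e' u) = e (ι u)) → LinearMap.ker π ≤ LinearMap.ker (π ∘ₗ e')) :
    ∃ ε : W →ₗ[F] W, ∀ u u', ι u' = e (ι u) → ε (π u) = π u' := by
  obtain ⟨g, hg⟩ := ι.exists_leftInverse_of_injective (LinearMap.ker_eq_bot.2 hι)
  obtain ⟨σ, hσ⟩ := π.exists_rightInverse_of_surjective (LinearMap.range_eq_top.2 hπ)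
  have he : ∀ u, ι ((g ∘ₗ e ∘ₗ ι) u) = e (ι u) := fun u => by
    obtain ⟨u', hu'⟩ := h1 u
    have := LinearMap.congr_fun hg u'
    simp only [LinearMap.comp_apply, LinearMap.id_apply] at this ⊢
    rw [← hu', this]
  refine ⟨π ∘ₗ (g ∘ₗ e ∘ₗ ι) ∘ₗ σ, fun u u' h => ?_⟩
  have h3 : σ (π u) - u ∈ LinearMap.ker π := by
    have := LinearMap.congr_fun hσ (π u)
    simp only [LinearMap.comp_apply, LinearMap.id_apply] at this
    rw [LinearMap.mem_ker, map_sub, this, sub_self]
  have h4 := h2 _ he h3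
  rw [LinearMap.mem_ker, map_sub, sub_eq_zero] at h4
  rw [hι (h.trans (he u).symm)]
  exact h4

theorem splitb_low {p : ℕ} {q : ℕ →₀ ℕ} {a b : Idx p q} (h : a ≤ b) : lowI a ≤ lowI b :=
  ⟨le_rfl, le_rfl, h.2.2⟩

theorem splitb_mono {p : ℕ} {q : ℕ →₀ ℕ} (X : Idx p q ⥤ ModuleCat.{0} F) {a b : Idx p q}
    (h : a ≤ b) : Vs F X a ≤ Vs F X b := by
  rintro _ ⟨w, rfl⟩
  exact ⟨mp F X (splitb_low h) w, mp_comp X _ _ w⟩

theorem splitb_eps {r : ℕ} {x : Raw (ModuleCat.{0} F)} (hx : Good F r x)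
    (e : x.2.2.obj (topI _ _) →ₗ[F] x.2.2.obj (topI _ _))
    (he : ∀ a, ∀ v ∈ Vs F x.2.2 a, e v ∈ Vs F x.2.2 a) (a : Idx x.1 x.2.1) :
    ∃ ε : x.2.2.obj a →ₗ[F] x.2.2.obj a, ∀ u u', mp F x.2.2 (lowI_le_top a) u' =
      e (mp F x.2.2 (lowI_le_top a) u) →
        ε (mp F x.2.2 (lowI_le a) u) = mp F x.2.2 (lowI_le a) u' := by
  have hι := hx.inj (lowI_le_top a) rfl
  refine splitb_descend _ _ e hι (hx.surj (lowI_le a) rfl) (fun u => he a _ ⟨u, rfl⟩)
    fun e' he' => ?_
  rw [hx.ker (lowI_le a) rfl]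
  refine iSup_le fun l => ?_
  rintro _ ⟨w, rfl⟩
  have hc := cutB_le (lowI a) l (a.1.2.1 l)
  obtain ⟨w0, rfl⟩ := hx.surj (lowI_le (cutB (lowI a) l (a.1.2.1 l))) rfl w
  obtain ⟨w1, hw1⟩ := he (cutB (lowI a) l (a.1.2.1 l)) _ ⟨w0, rfl⟩
  have h1 : e' (mp F x.2.2 hc (mp F x.2.2 (lowI_le _) w0)) =
      mp F x.2.2 ((lowI_le _).trans hc) w1 := by
    refine hι ?_
    rw [he', mp_comp, mp_comp, mp_comp]
    exact hw1.symm
  rw [LinearMap.mem_ker, LinearMap.comp_apply, h1, mp_comp]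
  exact hx.mp_zero _ l (by simp [lowI, cutB]) _

/-- Plan: fix `k, s`, `e` from `exists_proj`. For an index `a` let `ι : x(lowI a) → V` (injective) and `π : x(lowI a) → x(a)` (surjective). There is `e' ` on `x(lowI a)` with `ι e' = e ι`;
it preserves `ker π = ⨆ l, range (cutB (lowI a) l (a.A l) → lowI a)` (`Good.ker`; `ι` maps this range onto `Vs (cutB a l (a.A l))`, and `Vs (cutB b k s) ≤ Vs b`), so it descends to `ε a` on `x(a)`,
characterised by: `ι u' = e (ι u) → ε a (π u) = π u'`. Naturality, and the two conditions of `IsSplit`, follow from this characterisation (`Good.mp_zero` for the second). -/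
theorem exists_split {r : ℕ} {x : Raw (ModuleCat.{0} F)} (hx : Good F r x) :
    ∃ ε, IsSplit F x.2.2 ε := by
  choose e he1 he2 using exists_proj hx
  have he : ∀ k s a, ∀ v ∈ Vs F x.2.2 a, e k s v ∈ Vs F x.2.2 a := fun k s a v hv =>
    splitb_mono x.2.2 (cutB_le a k s) (he1 k s a v hv)
  choose ε hε using fun k s => splitb_eps hx (e k s) (he k s)
  have nat : ∀ k s a b (h : a ≤ b) v, ε k s b (mp F x.2.2 h v) = mp F x.2.2 h (ε k s a v) := by
    intro k s a b h v
    obtain ⟨u, rfl⟩ := hx.surj (lowI_le a) rfl v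
    obtain ⟨u', hu'⟩ := he k s a _ ⟨u, rfl⟩
    have h1 := hε k s b (mp F x.2.2 (splitb_low h) u) (mp F x.2.2 (splitb_low h) u') (by
      rw [mp_comp, mp_comp]; exact hu')
    rw [mp_comp, mp_comp] at h1
    rw [hε k s a u u' hu', mp_comp, mp_comp]
    exact h1
  refine ⟨fun k s => ⟨fun a => ModuleCat.ofHom (ε k s a), fun a b f => ?_⟩, fun k s t =>
    ⟨fun ht v => ?_, fun ht v => ?_⟩⟩
  · ext v
    exact nat k s a b (leOfHom f) v
  · obtain ⟨u, rfl⟩ := hx.surj (lowI_le t) rfl v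
    exact hε k s t u u (he2 k s t ht _ ⟨u, rfl⟩).symm
  · obtain ⟨u, rfl⟩ := hx.surj (lowI_le t) rfl v
    obtain ⟨w, hw⟩ := he1 k s t _ ⟨u, rfl⟩
    refine (hε k s t u (mp F x.2.2 (splitb_low (cutB_le t k s)) w) (by
      rw [mp_comp]; exact hw)).trans ?_
    rw [mp_comp]
    exact hx.mp_zero _ k (by simp [lowI, cutB, ht]) _

end Pool.Agent.SR
end PartSplitB

section PartCone
open CategoryTheory

namespace Pool.Agent.SR

variable {F : Type} [Field F]

theorem cone_nat {p : ℕ} {q : ℕ →₀ ℕ} {X : Idx p q ⥤ ModuleCat.{0} F} (e : X ⟶ X) {a b : Idx p q}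
    (h : a ≤ b) (v : X.obj a) : (e.app b).hom (mp F X h v) = mp F X h ((e.app a).hom v) := by
  have := congrArg (fun f => f.hom v) (e.naturality (homOfLE h))
  simp only [ModuleCat.hom_comp, LinearMap.comp_apply] at this
  exact this

theorem cone_range {r : ℕ} {x : Raw (ModuleCat.{0} F)} (hx : Good F r x) {ε}
    (hε : IsSplit F x.2.2 ε) (a : Idx x.1 x.2.1) (k s : ℕ) (u : x.2.2.obj a) :
    ∃ w, mp F x.2.2 (cutB_le a k s) w = ((ε k s).app a).hom u := by
  rcases le_or_gt (a.1.2.2 k) s with h | h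
  · refine hx.surj (cutB_le a k s) ?_ _
    simp [cutB, min_eq_left h]
  rcases le_or_gt s (a.1.2.1 k) with h' | h'
  · exact ⟨0, by rw [map_zero, (hε k s a).2 h']⟩
  let c : Idx x.1 x.2.1 := ⟨(a.1.1, Function.update a.1.2.1 k s, a.1.2.2), a.2.1, fun l => by
    have := a.2.2 l
    by_cases e : l = k
    · subst e
      simp only [Function.update_self]
      omega
    · simpa only [Function.update_of_ne e] using this⟩
  have hc : a ≤ c := ⟨le_rfl, fun l => by
    by_cases e : l = k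
    · subst e
      simpa only [c, Function.update_self] using h'.le
    · simp only [c, Function.update_of_ne e, le_refl], le_rfl⟩
  have ex := (hx.exact (cutB a k s) a c (cutB_le a k s) hc k
    ⟨rfl, fun l e => by simp [cutB, Function.update_of_ne e]⟩
    ⟨rfl, fun l e => by simp [c, Function.update_of_ne e]⟩
    (by simp [cutB, min_eq_left h'.le]) (by simp [cutB, c, min_eq_right h.le]) rfl).2.1
  refine (ex _).1 ?_
  rw [← cone_nat, (hε k s c).2 (by simp [c])]

/-- One step. Plan: if `W = ⊤` take `v = 0`. Otherwise take `a` with `¬ Vs a ≤ W` and `∑ l ∈ q.support, a.B l` minimal (`a = topI` is a candidate), `v = ι u ∈ Vs a \ W`.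
If `a.B k ≤ s` then `ε v = v`. Otherwise `ε u` maps to `0` in the vertex with lower end `s` in direction `k`, so `ε v ∈ Vs (cutB a k s)` (`Good.ker` or `exact`), which is `⊥` if `s = 0` and `≤ W` by minimality if
`s > 0` (then `k` is in the support). -/
theorem cone_step {r : ℕ} {x : Raw (ModuleCat.{0} F)} (hx : Good F r x)
    (W : Submodule F (x.2.2.obj (topI _ _)))
    (hW : ∀ ε, IsSplit F x.2.2 ε → ∀ k s, ∀ v ∈ W, ((ε k s).app (topI _ _)).hom v ∈ W) :
    ∃ v, (W ≠ ⊤ → v ∉ W) ∧ ∀ ε, IsSplit F x.2.2 ε → ∀ k s, ∀ u ∈ W ⊔ Submodule.span F {v},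
      ((ε k s).app (topI _ _)).hom u ∈ W ⊔ Submodule.span F {v} := by
  by_cases hT : W = ⊤
  · refine ⟨0, fun h => absurd hT h, fun ε _ k s u _ => ?_⟩
    rw [hT, top_sup_eq]
    exact Submodule.mem_top
  have hne : ({a : Idx x.1 x.2.1 | ¬ Vs F x.2.2 a ≤ W}).Nonempty := by
    refine ⟨topI _ _, fun h => hT (top_le_iff.1 ?_)⟩
    rwa [Vs, LinearMap.range_eq_top.2 (hx.surj (lowI_le_top _) rfl)] at h
  obtain ⟨a, ha, hmin⟩ := (measure fun a : Idx x.1 x.2.1 =>
    ∑ l ∈ x.2.1.support, a.1.2.2 l).wf.has_min _ hne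
  obtain ⟨_, ⟨u, rfl⟩, hv⟩ := SetLike.not_le_iff_exists.1 ha
  refine ⟨_, fun _ => hv, fun ε hε k s y hy => ?_⟩
  obtain ⟨w, hw, z, hz, rfl⟩ := Submodule.mem_sup.1 hy
  obtain ⟨t, rfl⟩ := Submodule.mem_span_singleton.1 hz
  rw [map_add, map_smul]
  refine add_mem (Submodule.mem_sup_left (hW ε hε k s w hw)) (Submodule.smul_mem _ _ ?_)
  rw [cone_nat]
  rcases le_or_gt (a.1.2.2 k) s with h | h
  · rw [(hε k s (lowI a)).1 h]
    exact Submodule.mem_sup_right (Submodule.mem_span_singleton_self _)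
  obtain ⟨u', e⟩ := cone_range hx hε (lowI a) k s u
  rw [← e]
  rcases Nat.eq_zero_or_pos s with rfl | hs
  · have := hx.zero (cutB (lowI a) k 0) k (by simp [cutB])
    rw [Subsingleton.elim u' 0, map_zero, map_zero]
    exact zero_mem _
  have hk : k ∈ x.2.1.support := by
    have := (a.2.2 k).2
    rw [Finsupp.mem_support_iff]
    omega
  have hle : Vs F x.2.2 (cutB (lowI a) k s) ≤ W := by
    by_contra hc
    refine hmin _ hc (Finset.sum_lt_sum (fun l _ => (cutB_le (lowI a) k s).2.2 l) ⟨k, hk, ?_⟩)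
    simpa [cutB, lowI] using h
  obtain ⟨u'', rfl⟩ := hx.surj (lowI_le (cutB (lowI a) k s)) rfl u'
  rw [mp_comp, mp_comp]
  exact Submodule.mem_sup_left (hle ⟨u'', rfl⟩)

theorem cone_flag {V V' V'' : Type} [AddCommGroup V] [Module F V] [AddCommGroup V'] [Module F V']
    [AddCommGroup V''] [Module F V''] {f : ℕ → Submodule F V} (hf : IsFlag f) (i : V' →ₗ[F] V)
    (hi : Function.Injective i) (π : V' →ₗ[F] V'') (hπ : Function.Surjective π) :
    IsFlag fun j => ((f j).comap i).map π where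
  bot := by
    simp only [hf.bot, Submodule.comap_bot, LinearMap.ker_eq_bot.2 hi, Submodule.map_bot]
  top := by
    simp only [hf.top, Submodule.comap_top, Submodule.map_top, LinearMap.range_eq_top.2 hπ]
  step := fun j hj => by
    obtain ⟨v, hv⟩ := hf.step j hj
    have key : ∃ u, (f (j + 1)).comap i = (f j).comap i ⊔ Submodule.span F {u} := by
      have hle : (f j).comap i ≤ (f (j + 1)).comap i :=
        Submodule.comap_mono (hv ▸ le_sup_left)
      by_cases h : (f (j + 1)).comap i ≤ (f j).comap i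
      · exact ⟨0, by rw [Submodule.span_zero_singleton, sup_bot_eq, le_antisymm h hle]⟩
      obtain ⟨u, hu, hu'⟩ := SetLike.not_le_iff_exists.1 h
      refine ⟨u, le_antisymm (fun y hy => ?_)
        (sup_le hle ((Submodule.span_singleton_le_iff_mem _ _).2 hu))⟩
      rw [Submodule.mem_comap, hv] at hu hy
      obtain ⟨w, hw, z, hz, e⟩ := Submodule.mem_sup.1 hu
      obtain ⟨t, rfl⟩ := Submodule.mem_span_singleton.1 hz
      obtain ⟨w', hw', z', hz', e'⟩ := Submodule.mem_sup.1 hy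
      obtain ⟨t', rfl⟩ := Submodule.mem_span_singleton.1 hz'
      have ht : t ≠ 0 := fun h0 => hu' (by
        rw [Submodule.mem_comap, ← e, h0, zero_smul, add_zero]
        exact hw)
      refine Submodule.mem_sup.2 ⟨y - (t' / t) • u, ?_, (t' / t) • u,
        Submodule.smul_mem _ _ (Submodule.mem_span_singleton_self u), sub_add_cancel _ _⟩
      rw [Submodule.mem_comap, map_sub, map_smul, ← e, ← e', smul_add, smul_smul,
        div_mul_cancel₀ _ ht, add_sub_add_right_eq_sub]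
      exact sub_mem hw' (Submodule.smul_mem _ _ hw)
    obtain ⟨u, hu⟩ := key
    exact ⟨π u, by rw [hu, Submodule.map_sup, Submodule.map_span, Set.image_singleton]⟩

theorem cone_top {r : ℕ} (hr : r ≤ 3) {x : Raw (ModuleCat.{0} F)} (hx : Good F r x) :
    ∃ W : ℕ → Submodule F (x.2.2.obj (topI _ _)), IsFlag W ∧
      ∀ j ε, IsSplit F x.2.2 ε → ∀ k s, ∀ v ∈ W j, ((ε k s).app (topI _ _)).hom v ∈ W j := by
  choose v hv1 hv2 using cone_step hx
  let S := {W : Submodule F (x.2.2.obj (topI _ _)) //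
    ∀ ε, IsSplit F x.2.2 ε → ∀ k s, ∀ v ∈ W, ((ε k s).app (topI _ _)).hom v ∈ W}
  let W : ℕ → S := fun j => Nat.rec
    (⟨⊥, fun ε _ k s v hv => by rw [(Submodule.mem_bot F).1 hv, map_zero]; exact zero_mem _⟩ : S)
    (fun _ W => ⟨W.1 ⊔ Submodule.span F {v W.1 W.2}, hv2 W.1 W.2⟩) j
  have hs : ∀ j, (W (j + 1)).1 = (W j).1 ⊔ Submodule.span F {v (W j).1 (W j).2} := fun _ => rfl
  have := hx.fin (topI _ _)
  have hd : ∀ j, (W j).1 = ⊤ ∨ j ≤ Module.finrank F (W j).1 := by
    intro j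
    induction j with
    | zero => exact Or.inr (Nat.zero_le _)
    | succ j ih =>
      by_cases h : (W j).1 = ⊤
      · left
        rw [hs, eq_top_iff]
        exact h.ge.trans le_sup_left
      · right
        have hlt : (W j).1 < (W (j + 1)).1 := by
          rw [hs]
          refine lt_of_le_of_ne le_sup_left fun e => hv1 (W j).1 (W j).2 h ?_
          exact e.ge (Submodule.mem_sup_right (Submodule.mem_span_singleton_self _))
        have := Submodule.finrank_lt_finrank_of_lt hlt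
        have := ih.resolve_left h
        omega
  refine ⟨fun j => (W j).1, ⟨rfl, ?_, fun j _ => ⟨_, hs j⟩⟩, fun j => (W j).2⟩
  by_contra h
  have h1 := (hd 3).resolve_left h
  have h2 := Submodule.finrank_lt h
  have h3 := hx.finrank_le (topI _ _)
  omega

/-- A family of flags that is invariant under every splitting. Plan: three times `cone_step` from `⊥` gives a flag `W₀` of `V = x(topI)` (dimension `≤ 3`); put
`W t j = map π (comap ι (W₀ j))` with `ι, π` from `lowI t`. `IsFlag`: `comap` along an injective map and `map` along a surjective map preserve flags. `Inv`: naturality of `ε`.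
`Strict` for `f : a ≤ b`, `⊇`: let `y = f u = π_b w` with `ι_b w ∈ W₀ j`; fix a splitting `ε` (`exists_split`). If `a` is degenerate then `y = 0`. Otherwise the upper ends of `a` and `b` agree off the support of `q`;
apply the `ε k (a.B k)`, `k` in the support, one after the other: they fix `y`, preserve `W₀ j`, and move `w` into the range of `x(lowI a) → x(lowI b)`. -/
theorem exists_cone {r : ℕ} (hr : r ≤ 3) {x : Raw (ModuleCat.{0} F)} (hx : Good F r x) :
    ∃ W : ∀ t, ℕ → Submodule F (x.2.2.obj t), (∀ t, IsFlag (W t)) ∧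
      (∀ j, Strict F x.2.2 fun t => W t j) ∧
      ∀ ε, IsSplit F x.2.2 ε → ∀ j, Inv F x.2.2 ε fun t => W t j := by
  obtain ⟨W, hW, hinv⟩ := cone_top hr hx
  refine ⟨fun t j => ((W j).comap (mp F x.2.2 (lowI_le_top t))).map (mp F x.2.2 (lowI_le t)),
    fun t => cone_flag hW _ (hx.inj (lowI_le_top t) rfl) _ (hx.surj (lowI_le t) rfl),
    fun j a b h => ?_,
    fun ε hε j k s t => ?_⟩
  · have hab : lowI a ≤ lowI b := ⟨le_rfl, le_rfl, h.2.2⟩
    refine le_antisymm ?_ ?_
    · rintro _ ⟨_, ⟨w, hw, rfl⟩, rfl⟩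
      refine ⟨⟨mp F x.2.2 hab w, ?_, ?_⟩, ⟨_, rfl⟩⟩
      · change mp F x.2.2 (lowI_le_top b) (mp F x.2.2 hab w) ∈ W j
        rw [mp_comp]
        exact hw
      · rw [mp_comp, mp_comp]
    rintro y ⟨⟨w, hw, e⟩, u, rfl⟩
    by_cases hd : ∃ k, a.1.2.1 k = a.1.2.2 k
    · obtain ⟨k, hk⟩ := hd
      have := hx.zero a k hk
      rw [Subsingleton.elim u 0, map_zero]
      exact zero_mem _
    obtain ⟨ε, hε⟩ := exists_split hx
    have key : ∀ s : Finset ℕ, ∃ (c : Idx x.1 x.2.1) (hc : c ≤ lowI b),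
        (∀ k ∈ s, c.1.2.2 k ≤ a.1.2.2 k) ∧ ∃ w' : x.2.2.obj c,
          mp F x.2.2 (hc.trans (lowI_le_top b)) w' ∈ W j ∧
          mp F x.2.2 (hc.trans (lowI_le b)) w' = mp F x.2.2 h u := by
      intro s
      induction s using Finset.induction_on with
      | empty => exact ⟨lowI b, le_rfl, by simp, w, hw, e⟩
      | insert k s _ ih =>
        obtain ⟨c, hc, hB, w', h1, h2⟩ := ih
        obtain ⟨w'', e'⟩ := cone_range hx hε c k (a.1.2.2 k) w'
        refine ⟨cutB c k (a.1.2.2 k), (cutB_le c k _).trans hc, fun l hl => ?_, w'', ?_, ?_⟩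
        · rcases Finset.mem_insert.1 hl with rfl | hl
          · simp [cutB]
          · exact ((cutB_le c k _).2.2 l).trans (hB l hl)
        · rw [← mp_comp _ (cutB_le c k _) (hc.trans (lowI_le_top b)), e', ← cone_nat]
          exact hinv j ε hε _ _ _ h1
        · rw [← mp_comp _ (cutB_le c k _) (hc.trans (lowI_le b)), e', ← cone_nat, h2, cone_nat,
            (hε k _ a).1 le_rfl]
    obtain ⟨c, hc, hB, w', h1, h2⟩ := key x.2.1.support
    have hca : c ≤ lowI a := ⟨hc.1, hc.2.1, fun k => by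
      by_cases hk : k ∈ x.2.1.support
      · exact hB k hk
      · have h3 := (c.2.2 k).2
        have h4 := (a.2.2 k).1
        have h5 : a.1.2.1 k ≠ a.1.2.2 k := fun e => hd ⟨k, e⟩
        rw [Finsupp.notMem_support_iff] at hk
        change c.1.2.2 k ≤ a.1.2.2 k
        omega⟩
    refine ⟨_, ⟨mp F x.2.2 hca w', ?_, rfl⟩, ?_⟩
    · change mp F x.2.2 (lowI_le_top a) (mp F x.2.2 hca w') ∈ W j
      rw [mp_comp]
      exact h1
    · rw [mp_comp, mp_comp]
      exact h2
  · rintro _ ⟨w, hw, rfl⟩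
    refine ⟨((ε k s).app (lowI t)).hom w, ?_, (cone_nat _ _ _).symm⟩
    change mp F x.2.2 (lowI_le_top t) _ ∈ W j
    rw [← cone_nat]
    exact hinv j ε hε _ _ _ hw

end Pool.Agent.SR
end PartCone

section PartFMex
open CategoryTheory

namespace Pool.Agent.SR

variable {F : Type} [Field F]

theorem GoodF.mono {n r r' : ℕ} {y : Raw (FM F n)} (h : GoodF r y) (hr : r ≤ r') : GoodF r' y :=
  ⟨h.good.mono hr, h.flag, h.strict, h.split⟩

theorem GF_mono {r r' : ℕ} (h : r ≤ r') (n : ℕ) : GF F r n ≤ GF F r' n :=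
  Finsupp.supported_mono fun _ hy => GoodF.mono hy h

/-- Pull back the splitting: `ε' k s = whiskerLeft _ (ε k (min (f k s) (q k + 1)))`. -/
theorem GoodF.pull {n r : ℕ} {y : Raw (FM F n)} (h : GoodF r y) (p' : ℕ) (q' : ℕ →₀ ℕ)
    (f0 : ℕ →o ℕ) (f : ℕ → ℕ →o ℕ) : GoodF r (pull y p' q' f0 f) := by
  have hm := reidx_mono y.1 y.2.1 p' q' f0 f
  refine ⟨h.good.pull p' q' f0 f, fun t i => h.flag (reidx _ _ f0 f t) i,
    fun i j a b hab => h.strict i j _ _ (hm hab), ?_⟩
  obtain ⟨ε, h1, h2⟩ := h.split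
  refine ⟨fun k s => Functor.whiskerLeft hm.functor (ε k (min (f k s) (y.2.1 k + 1))),
    fun k s t => ⟨fun ht => ?_, fun ht => ?_⟩, fun i j k s t => h2 i j k _ (reidx _ _ f0 f t)⟩
  · exact (h1 k _ (reidx _ _ f0 f t)).1 (min_le_min_right _ ((f k).monotone ht))
  · exact (h1 k _ (reidx _ _ f0 f t)).2 (min_le_min_right _ ((f k).monotone ht))

theorem bd_GF {r n : ℕ} {c : TF F n} (hc : c ∈ GF F r n) : bd _ c ∈ GF F r n :=
  bd_supported _ _ (fun _ hx _ _ _ => GoodF.pull hx _ _ _ _)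
    (fun _ hx _ _ _ _ => GoodF.pull hx _ _ _ _) hc

theorem delta_bd (n : ℕ) (c : TF F (n + 1)) : delta F n (bd _ c) = bd _ (delta F n c) := by
  simp only [delta, LinearMap.sum_apply, LinearMap.smul_apply, map_sum, map_smul, bd_post]

theorem fmex_map {α β : Type 1} {S : Set α} {T : Set β} (g : α → β) (hg : ∀ x ∈ S, g x ∈ T)
    {c : α →₀ ℚ} (hc : c ∈ Finsupp.supported ℚ ℚ S) :
    Finsupp.lmapDomain ℚ ℚ g c ∈ Finsupp.supported ℚ ℚ T :=
  Finsupp.supported_comap_lmapDomain ℚ ℚ g T (Finsupp.supported_mono hg hc)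

theorem emb_GF {r : ℕ} {c : Ch F} (hc : c ∈ Fil F r) :
    Finsupp.lmapDomain ℚ ℚ (post (emb F)) c ∈ GF F r 0 := by
  refine fmex_map _ (fun x hx => ?_) hc
  obtain ⟨ε, hε⟩ := exists_split hx
  exact GoodF.mk hx (fun _ i => i.elim0) (fun i => i.elim0) ⟨ε, hε, fun i => i.elim0⟩

/-- The flags that are invariant under every splitting. -/
def fmexSpec (x : Raw (ModuleCat.{0} F)) (W : ∀ t, ℕ → Submodule F (x.2.2.obj t)) : Prop :=
  (∀ t, IsFlag (W t)) ∧ (∀ j, Strict F x.2.2 fun t => W t j) ∧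
    ∀ ε, IsSplit F x.2.2 ε → ∀ j, Inv F x.2.2 ε fun t => W t j

/-- A choice of such flags. -/
noncomputable def fmexW (x : Raw (ModuleCat.{0} F)) : ∀ t, ℕ → Submodule F (x.2.2.obj t) :=
  Classical.epsilon (fmexSpec x)

/-- The cone operator. -/
noncomputable def fmexCone {n : ℕ} (y : Raw (FM F n)) : Raw (FM F (n + 1)) :=
  deco (post (und F n) y) fun t => Fin.cons (fmexW (post (und F n) y) t) (y.2.2.obj t).fl

theorem fmex_good {n r : ℕ} (hr : r ≤ 3) {y : Raw (FM F n)} (h : GoodF r y) :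
    GoodF r (fmexCone y) := by
  obtain ⟨h1, h2, h3⟩ : fmexSpec _ (fmexW (post (und F n) y)) :=
    Classical.epsilon_spec (exists_cone hr h.good)
  obtain ⟨ε, h4, h5⟩ := h.split
  refine ⟨h.good, fun t i => ?_, fun i j => ?_, ε, h4, fun i j => ?_⟩
  · exact Fin.cases (h1 t) (fun i => h.flag t i) i
  · exact Fin.cases (h2 j) (fun i => h.strict i j) i
  · exact Fin.cases (h3 ε h4 j) (fun i => h5 i j) i

theorem fmex_zero {n : ℕ} (y : Raw (FM F n)) : post (dropF F n 0) (fmexCone y) = y := rfl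

theorem fmex_succ {n : ℕ} (y : Raw (FM F (n + 1))) (i : Fin (n + 1)) :
    post (dropF F (n + 1) i.succ) (fmexCone y) = fmexCone (post (dropF F n i) y) := by
  refine congrArg (deco (post (und F (n + 1)) y)) (funext fun t => funext fun j => ?_)
  refine Fin.cases ?_ (fun j => ?_) j
  · rw [Fin.succ_succAbove_zero]
    rfl
  · rw [Fin.succ_succAbove_succ]
    rfl

theorem fmex_delta {n : ℕ} (c : TF F (n + 1)) :
    delta F (n + 1) (Finsupp.lmapDomain ℚ ℚ fmexCone c) =
      c - Finsupp.lmapDomain ℚ ℚ fmexCone (delta F n c) := by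
  induction c using Finsupp.induction_linear with
  | zero => simp only [map_zero, sub_zero]
  | add f g hf hg => simp only [map_add, hf, hg]; abel
  | single y a =>
    simp only [delta, LinearMap.sum_apply, LinearMap.smul_apply, map_sum, map_smul,
      Finsupp.lmapDomain_apply, Finsupp.mapDomain_single]
    rw [Fin.sum_univ_succ, sub_eq_add_neg, ← Finset.sum_neg_distrib]
    simp only [fmex_zero, fmex_succ, Fin.val_zero, pow_zero, one_smul, Fin.val_succ, pow_succ,
      mul_neg_one, neg_smul]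

/-- Plan: cone operator `s y = deco (post und y) fun t => Fin.cons (W t) (y.obj t).fl` with `W` chosen by `exists_cone` as a function of `post und y` only
(junk if not good). Every `y` is `deco (post und y) _` by `rfl`, `post (dropF i) (deco x U) = deco x (U ∘ succAbove i)` by `rfl`, so `delta (s y) = y - s (delta y)`
follows from `congrArg (deco x)`. -/
theorem exact0 {r : ℕ} (hr : r ≤ 3) (c : TF F 0) (hc : c ∈ GF F r 0) :
    ∃ y ∈ GF F r 1, delta F 0 y = c := by
  refine ⟨_, fmex_map fmexCone (fun _ hy => fmex_good hr hy) hc, ?_⟩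
  clear hc
  induction c using Finsupp.induction_linear with
  | zero => simp only [map_zero]
  | add f g hf hg => simp only [map_add, hf, hg]
  | single y a =>
    simp only [delta, Finsupp.lmapDomain_apply, Finsupp.mapDomain_single, Fin.sum_univ_succ,
      Fin.sum_univ_zero,
      fmex_zero, Fin.val_zero, pow_zero, one_smul, add_zero]

theorem exactS {r : ℕ} (hr : r ≤ 3) (n : ℕ) (c : TF F (n + 1)) (hc : c ∈ GF F r (n + 1))
    (h0 : delta F n c = 0) : ∃ y ∈ GF F r (n + 2), delta F (n + 1) y = c :=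
  ⟨_, fmex_map fmexCone (fun _ hy => fmex_good hr hy) hc, by
    rw [fmex_delta, h0, map_zero, sub_zero]⟩

end Pool.Agent.SR
end PartFMex

section PartFMom
open CategoryTheory

namespace Pool.Agent.SR

variable {F : Type} [Field F]

theorem fmom_supp {α : Type 1} {S : Set α} (L : (α →₀ ℚ) →ₗ[ℚ] ℝ)
    (h : ∀ x ∈ S, L (Finsupp.single x 1) = 0) {c : α →₀ ℚ} (hc : c ∈ Finsupp.supported ℚ ℚ S) :
    L c = 0 := by
  rw [Finsupp.supported_eq_span_single] at hc
  refine (Submodule.span_le (p := LinearMap.ker L)).2 ?_ hc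
  rintro _ ⟨x, hx, rfl⟩
  exact h x hx

theorem fmom_single (D1 D2 : F → ℝ) (y : Raw (FM F 7)) :
    om D1 D2 (Finsupp.single y 1) = om1 D1 D2 y := by
  rw [om, Finsupp.linearCombination_single, one_smul]

theorem om_rank1 {D1 D2 : F → ℝ} (h1 : FiveTerm D1) (c : TF F 7) (hc : c ∈ GF F 1 7) :
    om D1 D2 c = 0 := by
  refine fmom_supp _ (fun y hy => ?_) hc
  have hy' : GoodF 1 y := hy
  rw [fmom_single, om1]
  split_ifs
  · have := hy'.good.fin (topI _ _)
    exact cc_rank1 h1 (hy'.good.rank (topI _ _) fun _ => ⟨rfl, rfl⟩) _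
  · rfl

theorem om_delta {D1 D2 : F → ℝ} (h1 : FiveTerm D1) (h2 : FiveTerm D2) {r : ℕ} (c : TF F 8)
    (hc : c ∈ GF F r 8) : om D1 D2 (delta F 7 c) = 0 := by
  refine fmom_supp (om D1 D2 ∘ₗ delta F 7) (fun y hy => ?_) hc
  have hy' : GoodF r y := hy
  simp only [LinearMap.comp_apply, delta, LinearMap.sum_apply, LinearMap.smul_apply, map_sum,
    map_smul, Finsupp.lmapDomain_apply, Finsupp.mapDomain_single, fmom_single]
  by_cases h : y.1 = 0 ∧ y.2.1 = 0
  · refine Eq.trans (Finset.sum_congr rfl fun i _ => ?_)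
      (cc_cob h1 h2 (y.2.2.obj (topI _ _)).fl (hy'.flag (topI _ _)))
    rw [om1, if_pos (by exact h), Rat.smul_def, Rat.cast_pow, Rat.cast_neg, Rat.cast_one]
    rfl
  · exact Finset.sum_eq_zero fun i _ => by rw [om1, if_neg (by exact h), smul_zero]

theorem fmom_iso {D1 D2 : F → ℝ} (h1 : FiveTerm D1) (h2 : FiveTerm D2) {r : ℕ}
    {y : Raw (FM F 7)} (hy : GoodF r y) (a b : Idx y.1 y.2.1) (h : a ≤ b) (hab : a.1.2 = b.1.2) :
    cc D1 D2 (y.2.2.obj a).fl = cc D1 D2 (y.2.2.obj b).fl := by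
  have hb := hy.good.iso a b h hab
  refine cc_iso h1 h2 (mp F (y.2.2 ⋙ und F 7) h) hb _ _ (hy.flag a) fun i j => ?_
  refine (hy.strict i j a b h).trans ?_
  rw [LinearMap.range_eq_top.2 (by exact hb.2), inf_top_eq]
  rfl

theorem fmom_add {D1 D2 : F → ℝ} (h1 : FiveTerm D1) (h2 : FiveTerm D2) {r : ℕ}
    {y : Raw (FM F 7)} (hy : GoodF r y) (a b c : Idx y.1 y.2.1) (h : a ≤ b) (h' : b ≤ c) (k : ℕ)
    (hab : Along k a b) (hbc : Along k b c) (e1 : a.1.2.1 k = b.1.2.1 k)
    (e2 : a.1.2.2 k = c.1.2.1 k) (e3 : b.1.2.2 k = c.1.2.2 k) :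
    cc D1 D2 (y.2.2.obj b).fl = cc D1 D2 (y.2.2.obj a).fl + cc D1 D2 (y.2.2.obj c).fl := by
  obtain ⟨hi, he, hs⟩ := hy.good.exact a b c h h' k hab hbc e1 e2 e3
  obtain ⟨ε, hε, hinv⟩ := hy.split
  have nat : ∀ (s t : Idx y.1 y.2.1) (hst : s ≤ t) v,
      ((ε k (a.1.2.2 k)).app t).hom (mp F (y.2.2 ⋙ und F 7) hst v) =
        mp F (y.2.2 ⋙ und F 7) hst (((ε k (a.1.2.2 k)).app s).hom v) := fun s t hst v =>
    LinearMap.congr_fun (congrArg ModuleCat.Hom.hom ((ε k (a.1.2.2 k)).naturality (homOfLE hst))) v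
  refine cc_add h1 h2 (mp F (y.2.2 ⋙ und F 7) h) (mp F (y.2.2 ⋙ und F 7) h') hi he hs
    ((ε k (a.1.2.2 k)).app b).hom (fun u => ?_) (fun v => ?_) _ _ _ (hy.flag b)
    (fun i j => hinv i j k _ b) (fun i j => hy.strict i j a b h) fun i j => ?_
  · rw [nat, (hε k _ a).1 le_rfl]
  · rw [← nat, (hε k _ c).2 e2.le]
  · refine (hy.strict i j b c h').trans ?_
    rw [LinearMap.range_eq_top.2 (by exact hs), inf_top_eq]
    rfl

theorem fmom_N {D1 D2 : F → ℝ} (h1 : FiveTerm D1) (h2 : FiveTerm D2) {r : ℕ}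
    {y : Raw (FM F 7)} (hy : GoodF r y) :
    ∑ i ∈ Finset.range (if y.1 = 0 then 0 else y.1 + 1),
      (-1 : ℚ) ^ i • om1 D1 D2 (faceN y i) = 0 := by
  by_cases h : y.1 - 1 = 0 ∧ y.2.1 = 0
  · split_ifs with h0
    · exact Finset.sum_range_zero _
    · have e : y.1 + 1 = 2 := by omega
      rw [e, Finset.sum_range_succ, Finset.sum_range_one, om1, om1, if_pos (by exact h),
        if_pos (by exact h), pow_zero, pow_one, one_smul, neg_smul, one_smul, add_neg_eq_zero]
      exact (fmom_iso h1 h2 hy (reidx _ _ (skip 1) (fun _ => OrderHom.id) (topI _ _))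
        (reidx _ _ (skip 0) (fun _ => OrderHom.id) (topI _ _))
        ⟨min_le_min_right _ (Nat.zero_le _), le_rfl⟩ rfl).symm
  · exact Finset.sum_eq_zero fun i _ => by rw [om1, if_neg (by exact h), smul_zero]

theorem fmom_S {D1 D2 : F → ℝ} (h1 : FiveTerm D1) (h2 : FiveTerm D2) {r : ℕ}
    {y : Raw (FM F 7)} (hy : GoodF r y) (k : ℕ) (hk : y.2.1 k ≠ 0) (m : ℕ) :
    ∑ i ∈ Finset.range (y.2.1 k + 2), (-1 : ℚ) ^ (m + i) • om1 D1 D2 (faceS y k i) = 0 := by
  by_cases h : y.1 = 0 ∧ y.2.1 - Finsupp.single k 1 = 0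
  · have h0 : (y.2.1 - Finsupp.single k 1 : ℕ →₀ ℕ) k = 0 := by rw [h.2]; rfl
    have hq : y.2.1 k = 1 := by
      rw [Finsupp.tsub_apply, Finsupp.single_eq_same] at h0
      omega
    let t : ℕ → Idx y.1 y.2.1 := fun i => reidx _ _ OrderHom.id
      (Function.update (fun _ => OrderHom.id) k (skip i)) (topI y.1 (y.2.1 - Finsupp.single k 1))
    have hA : ∀ i, (t i).1.2.1 k = min (skip i 0) 2 := fun i => by
      simp only [t, reidx, topI, Function.update_self, hq]
    have hB : ∀ i, (t i).1.2.2 k = min (skip i 1) 2 := fun i => by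
      simp only [t, reidx, topI, Function.update_self, hq, h0, zero_add]
    have hal : ∀ i j, Along k (t i) (t j) := fun i j => ⟨rfl, fun l hl => by
      simp only [t, reidx, Function.update_of_ne hl, and_self]⟩
    have hle : ∀ i j, skip i 0 ≤ skip j 0 → skip i 1 ≤ skip j 1 → t i ≤ t j := fun i j u v =>
      ⟨le_rfl, fun l => by
        by_cases hl : l = k
        · rw [hl, hA, hA]; exact min_le_min_right _ u
        · exact (((hal i j).2 l hl).1).le, fun l => by
        by_cases hl : l = k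
        · rw [hl, hB, hB]; exact min_le_min_right _ v
        · exact (((hal i j).2 l hl).2).le⟩
    have key := fmom_add h1 h2 hy (t 2) (t 1) (t 0) (hle 2 1 (by decide) (by decide))
      (hle 1 0 (by decide) (by decide)) k (hal 2 1) (hal 1 0) (by rw [hA, hA]; rfl)
      (by rw [hB, hA]; rfl) (by rw [hB, hB]; rfl)
    have ho : ∀ i, om1 D1 D2 (faceS y k i) = cc D1 D2 (y.2.2.obj (t i)).fl := fun i => by
      rw [om1, if_pos (by exact h)]
      rfl
    simp only [hq, Finset.sum_range_succ, Finset.sum_range_zero, ho, key, pow_add, Rat.smul_def]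
    push_cast
    ring
  · exact Finset.sum_eq_zero fun i _ => by rw [om1, if_neg (by exact h), smul_zero]

/-- Plan: for a good `y`: if `deg y ≠ 1` all faces have `om1 = 0` (`deg_faceN`, `deg_faceS`). If `p = 1, q = 0` the two faces have terminal vertices `(1, top)` and `(0, top)`: `cc_iso` with `iso` and `strict`.
If `p = 0, q = single k 1` the three faces have terminal vertices with `k`-th arrow `(1,2), (0,2), (0,1)`: `cc_add` with `exact`, `strict` and `e = ε k 1`.
State an auxiliary lemma for three abstract indices `a ≤ b ≤ c` of `y` described by their coordinates and apply it to the `reidx` images of `topI`. -/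
theorem om_bd {D1 D2 : F → ℝ} (h1 : FiveTerm D1) (h2 : FiveTerm D2) {r : ℕ} (c : TF F 7)
    (hc : c ∈ GF F r 7) : om D1 D2 (bd _ c) = 0 := by
  refine fmom_supp (om D1 D2 ∘ₗ bd _) (fun y hy => ?_) hc
  have hy' : GoodF r y := hy
  rw [LinearMap.comp_apply, bd_single, bd1]
  simp only [map_add, map_sum, map_smul, fmom_single]
  rw [fmom_N h1 h2 hy', zero_add]
  exact Finset.sum_eq_zero fun k hk => fmom_S h1 h2 hy' k (Finsupp.mem_support_iff.1 hk) _

end Pool.Agent.SR
end PartFMom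

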