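import Pool.Agent.MP_24d90f_al.PA

section PartLDefs
/-! Chains on lists (homogeneous chains, augmented by the empty list). -/

namespace Pool.Agent.SR

abbrev LC (X : Type*) := List X →₀ ℚ

noncomputable def lb1 {X : Type*} (l : List X) : LC X :=
  ∑ i ∈ Finset.range l.length, (-1 : ℚ) ^ i • Finsupp.single (l.eraseIdx i) 1

noncomputable def lb (X : Type*) : LC X →ₗ[ℚ] LC X := Finsupp.linearCombination ℚ lb1

noncomputable def lmap {X Y : Type*} (u : X → Y) : LC X →ₗ[ℚ] LC Y :=
  Finsupp.lmapDomain ℚ ℚ (List.map u)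

noncomputable def cone {X : Type*} (x : X) : LC X →ₗ[ℚ] LC X :=
  Finsupp.lmapDomain ℚ ℚ (List.cons x)

noncomputable def Len (X : Type*) (n : ℕ) : Submodule ℚ (LC X) :=
  Finsupp.supported ℚ ℚ {l | l.length = n}

/-- Coinvariant relations for a family of self-maps. -/
noncomputable def Jsub {G X : Type*} (σ : G → X → X) : Submodule ℚ (LC X) :=
  Submodule.span ℚ {c | ∃ (g : G) (l : List X),
    c = Finsupp.single (l.map (σ g)) 1 - Finsupp.single l 1}

/-- Signed reversal. -/
noncomputable def revL (X : Type*) : LC X →ₗ[ℚ] LC X :=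
  Finsupp.linearCombination ℚ fun l : List X =>
    (-1 : ℚ) ^ (l.length * (l.length - 1) / 2) • Finsupp.single l.reverse 1

/-- Lists of tuples on which some coordinate in `S` is constant. -/
def Cst {ι Y : Type*} (S : Finset ι) : Set (List (ι → Y)) :=
  {l | ∃ r ∈ S, ∀ a ∈ l, ∀ b ∈ l, a r = b r}

end Pool.Agent.SR
end PartLDefs

section PartListA
namespace Pool.Agent.SR

theorem lista_ext {X M : Type*} [AddCommGroup M] [Module ℚ M] {f g : LC X →ₗ[ℚ] M}
    (h : ∀ l, f (Finsupp.single l 1) = g (Finsupp.single l 1)) (c : LC X) : f c = g c := by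
  have : f = g := Finsupp.lhom_ext fun l b => by
    rw [← Finsupp.smul_single_one, map_smul, map_smul, h]
  rw [this]

theorem lista_cone_single {X : Type*} (x : X) (l : List X) :
    cone x (Finsupp.single l 1) = Finsupp.single (x :: l) 1 := by
  rw [cone, Finsupp.lmapDomain_apply, Finsupp.mapDomain_single]

theorem lista_lmap_single {X Y : Type*} (u : X → Y) (l : List X) :
    lmap u (Finsupp.single l 1) = Finsupp.single (l.map u) 1 := by
  rw [lmap, Finsupp.lmapDomain_apply, Finsupp.mapDomain_single]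

theorem lista_revL_single {X : Type*} (l : List X) :
    revL X (Finsupp.single l 1) =
      (-1 : ℚ) ^ (l.length * (l.length - 1) / 2) • Finsupp.single l.reverse 1 := by
  rw [revL, Finsupp.linearCombination_single, one_smul]

theorem lista_lb1_nil {X : Type*} : lb1 ([] : List X) = 0 := by
  unfold lb1
  rw [List.length_nil, Finset.sum_range_zero]

theorem lista_single_len {X : Type*} {n : ℕ} {l : List X} (h : l.length = n) :
    Finsupp.single l (1 : ℚ) ∈ Len X n :=
  Finsupp.single_mem_supported ℚ 1 h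

theorem lista_len_ind {X : Type*} {n : ℕ} {p : Submodule ℚ (LC X)}
    (h : ∀ l : List X, l.length = n → Finsupp.single l 1 ∈ p) {c : LC X} (hc : c ∈ Len X n) :
    c ∈ p := by
  rw [Len, Finsupp.supported_eq_span_single] at hc
  refine Submodule.span_le.2 ?_ hc
  rintro _ ⟨l, hl, rfl⟩
  exact h l hl

theorem lista_len_map {X Y : Type*} {n m : ℕ} (f : LC X →ₗ[ℚ] LC Y)
    (h : ∀ l : List X, l.length = n → f (Finsupp.single l 1) ∈ Len Y m) {c : LC X}
    (hc : c ∈ Len X n) : f c ∈ Len Y m :=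
  lista_len_ind (p := (Len Y m).comap f) h hc

theorem lb_single {X : Type*} (l : List X) : lb X (Finsupp.single l 1) = lb1 l := by
  rw [lb, Finsupp.linearCombination_single, one_smul]

theorem lb_cone {X : Type*} (x : X) (c : LC X) : lb X (cone x c) = c - cone x (lb X c) := by
  refine lista_ext (f := lb X ∘ₗ cone x) (g := LinearMap.id - cone x ∘ₗ lb X) (fun l => ?_) c
  simp only [LinearMap.comp_apply, LinearMap.sub_apply, LinearMap.id_apply, lista_cone_single,
    lb_single]
  unfold lb1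
  rw [List.length_cons, Finset.sum_range_succ', map_sum, pow_zero, one_smul, List.eraseIdx_cons_zero,
    sub_eq_add_neg, add_comm, ← Finset.sum_neg_distrib]
  congr 1
  refine Finset.sum_congr rfl fun i _ => ?_
  rw [map_smul, lista_cone_single, List.eraseIdx_cons_succ, pow_succ, mul_neg_one, neg_smul]

/-- By induction on the list, with `lb_cone`. -/
theorem lb_lb {X : Type*} (c : LC X) : lb X (lb X c) = 0 := by
  refine lista_ext (f := lb X ∘ₗ lb X) (g := 0) (fun l => ?_) c
  simp only [LinearMap.comp_apply, LinearMap.zero_apply]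
  induction l with
  | nil => rw [lb_single, lista_lb1_nil, map_zero]
  | cons x l ih =>
    rw [← lista_cone_single, lb_cone, map_sub, lb_cone, ih, map_zero, sub_zero, sub_self]

theorem lb_lmap {X Y : Type*} (u : X → Y) (c : LC X) : lb Y (lmap u c) = lmap u (lb X c) := by
  refine lista_ext (f := lb Y ∘ₗ lmap u) (g := lmap u ∘ₗ lb X) (fun l => ?_) c
  simp only [LinearMap.comp_apply, lista_lmap_single, lb_single]
  unfold lb1
  rw [map_sum, List.length_map]
  refine Finset.sum_congr rfl fun i _ => ?_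
  rw [map_smul, lista_lmap_single, List.eraseIdx_map]

theorem lb_len {X : Type*} {n : ℕ} {c : LC X} (h : c ∈ Len X (n + 1)) : lb X c ∈ Len X n := by
  refine lista_len_map (lb X) (fun l hl => ?_) h
  rw [lb_single]
  unfold lb1
  refine Submodule.sum_mem _ fun i hi => Submodule.smul_mem _ _ (lista_single_len ?_)
  rw [List.length_eraseIdx_of_lt (Finset.mem_range.1 hi), hl, Nat.add_sub_cancel]

theorem lmap_len {X Y : Type*} (u : X → Y) {n : ℕ} {c : LC X} (h : c ∈ Len X n) :
    lmap u c ∈ Len Y n := by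
  refine lista_len_map (lmap u) (fun l hl => ?_) h
  rw [lista_lmap_single]
  exact lista_single_len (by rw [List.length_map, hl])

theorem cone_len {X : Type*} (x : X) {n : ℕ} {c : LC X} (h : c ∈ Len X n) :
    cone x c ∈ Len X (n + 1) := by
  refine lista_len_map (cone x) (fun l hl => ?_) h
  rw [lista_cone_single]
  exact lista_single_len (by rw [List.length_cons, hl])

theorem lmap_lmap {X Y Z : Type*} (u : X → Y) (u' : Y → Z) (c : LC X) :
    lmap u' (lmap u c) = lmap (fun x => u' (u x)) c := by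
  refine lista_ext (f := lmap u' ∘ₗ lmap u) (g := lmap fun x => u' (u x)) (fun l => ?_) c
  simp only [LinearMap.comp_apply, lista_lmap_single, List.map_map]
  rfl

/-- Invariant functions kill the coinvariant relations. -/
theorem lift_J {G X M : Type*} [AddCommGroup M] [Module ℚ M] (σ : G → X → X) (u : List X → M)
    (hu : ∀ g l, u (l.map (σ g)) = u l) {c : LC X} (hc : c ∈ Jsub σ) :
    Finsupp.linearCombination ℚ u c = 0 := by
  have : Jsub σ ≤ LinearMap.ker (Finsupp.linearCombination ℚ u) := by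
    refine Submodule.span_le.2 ?_
    rintro _ ⟨g, l, rfl⟩
    rw [SetLike.mem_coe, LinearMap.mem_ker, map_sub, Finsupp.linearCombination_single,
      Finsupp.linearCombination_single, hu, sub_self]
  exact this hc

theorem lmap_J {G X Y : Type*} (σ : G → X → X) (τ : G → Y → Y) (u : X → Y)
    (hu : ∀ g x, u (σ g x) = τ g (u x)) {c : LC X} (hc : c ∈ Jsub σ) : lmap u c ∈ Jsub τ := by
  have : Jsub σ ≤ (Jsub τ).comap (lmap u) := by
    refine Submodule.span_le.2 ?_
    rintro _ ⟨g, l, rfl⟩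
    rw [SetLike.mem_coe, Submodule.mem_comap, map_sub, lista_lmap_single, lista_lmap_single]
    refine Submodule.subset_span ⟨g, l.map u, ?_⟩
    rw [List.map_map, List.map_map]
    have : u ∘ σ g = τ g ∘ u := funext fun x => hu g x
    rw [this]
  exact this hc

theorem lista_rev_erase {X : Type*} (l : List X) {i : ℕ} (hi : i < l.length) :
    (l.eraseIdx i).reverse = l.reverse.eraseIdx (l.length - 1 - i) := by
  rw [List.eraseIdx_eq_take_drop_succ, List.eraseIdx_eq_take_drop_succ, List.reverse_append,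
    List.take_reverse, List.drop_reverse]
  congr 3 <;> omega

theorem lista_sign {n i : ℕ} (hi : i < n) :
    (-1 : ℚ) ^ (n * (n - 1) / 2) * (-1) ^ (n - 1 - i) =
      (-1) ^ i * (-1) ^ ((n - 1) * (n - 1 - 1) / 2) := by
  obtain ⟨k, rfl⟩ := Nat.exists_eq_add_of_lt hi
  have h1 : (i + k + 1) * (i + k + 1 - 1) / 2 = (i + k) * (i + k - 1) / 2 + (i + k) := by
    rw [← Nat.choose_two_right, ← Nat.choose_two_right, Nat.choose_succ_succ', Nat.choose_one_right,
      add_comm]
  have h2 : i + k + 1 - 1 - i = k := by omega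
  rw [h1, h2, Nat.add_sub_cancel, pow_add, pow_add, mul_assoc, mul_assoc, ← pow_add, ← two_mul,
    pow_mul, neg_one_sq, one_pow, mul_one, mul_comm]

theorem lb_revL {X : Type*} (c : LC X) : lb X (revL X c) = revL X (lb X c) := by
  refine lista_ext (f := lb X ∘ₗ revL X) (g := revL X ∘ₗ lb X) (fun l => ?_) c
  simp only [LinearMap.comp_apply, lista_revL_single, map_smul, lb_single]
  unfold lb1
  rw [map_sum, List.length_reverse, Finset.smul_sum, ← Finset.sum_range_reflect]
  refine Finset.sum_congr rfl fun i hi => ?_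
  have hi' := Finset.mem_range.1 hi
  rw [map_smul, lista_revL_single, lista_rev_erase l hi', smul_smul, smul_smul,
    List.length_eraseIdx_of_lt hi', lista_sign hi']

theorem revL_lmap {X Y : Type*} (u : X → Y) (c : LC X) : revL Y (lmap u c) = lmap u (revL X c) := by
  refine lista_ext (f := revL Y ∘ₗ lmap u) (g := lmap u ∘ₗ revL X) (fun l => ?_) c
  simp only [LinearMap.comp_apply, lista_revL_single, map_smul, lista_lmap_single, List.length_map,
    List.map_reverse]

theorem revL_nil {X : Type*} : revL X (Finsupp.single [] 1) = Finsupp.single [] 1 := by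
  rw [lista_revL_single]
  simp

/-- A cycle of odd length `> 0` modulo coinvariants has total mass `0`. -/
theorem mass_zero {G X : Type*} (σ : G → X → X) {z : LC X} (hz : z ∈ Len X 7)
    (hc : lb X z ∈ Jsub σ) : Finsupp.linearCombination ℚ (fun _ => (1 : ℚ)) z = 0 := by
  have h1 := lift_J σ (fun _ => (1 : ℚ)) (fun _ _ => rfl) hc
  have h2 : Len X 7 ≤ LinearMap.ker (Finsupp.linearCombination ℚ (fun _ : List X => (1 : ℚ)) ∘ₗ lb X -
      Finsupp.linearCombination ℚ (fun _ : List X => (1 : ℚ))) := by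
    intro c hc
    refine lista_len_ind (p := LinearMap.ker _) (fun l hl => ?_) hc
    rw [LinearMap.mem_ker, LinearMap.sub_apply, LinearMap.comp_apply, lb_single]
    unfold lb1
    rw [map_sum, hl]
    simp only [map_smul, Finsupp.linearCombination_single, Finset.sum_range_succ,
      Finset.sum_range_zero]
    norm_num
  have h3 := h2 hz
  rw [LinearMap.mem_ker, LinearMap.sub_apply, LinearMap.comp_apply, h1, zero_sub, neg_eq_zero] at h3
  exact h3

/-- The homotopy on lists of a given length. -/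
noncomputable def lista_hh {X Y : Type*} (D : LC X →ₗ[ℚ] LC Y) (ap : X → Y) :
    ℕ → (LC X →ₗ[ℚ] LC Y)
  | 0 => 0
  | n + 1 => Finsupp.linearCombination ℚ fun l : List X => match l with
    | [] => 0
    | x :: t => cone (ap x) (D (Finsupp.single (x :: t) 1) -
        lista_hh D ap n (lb X (Finsupp.single (x :: t) 1)))

theorem lista2_hh_cons {X Y : Type*} (D : LC X →ₗ[ℚ] LC Y) (ap : X → Y) (n : ℕ) (x : X)
    (t : List X) : lista_hh D ap (n + 1) (Finsupp.single (x :: t) 1) =
      cone (ap x) (D (Finsupp.single (x :: t) 1) -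
        lista_hh D ap n (lb X (Finsupp.single (x :: t) 1))) := by
  rw [lista_hh, Finsupp.linearCombination_single, one_smul]

theorem lista2_hh_nil {X Y : Type*} (D : LC X →ₗ[ℚ] LC Y) (ap : X → Y) (n : ℕ) :
    lista_hh D ap n (Finsupp.single [] 1) = 0 := by
  cases n with
  | zero => rfl
  | succ n => rw [lista_hh, Finsupp.linearCombination_single, one_smul]

theorem lista2_ext {X M : Type*} [AddCommGroup M] [Module ℚ M] {f g : LC X →ₗ[ℚ] M} {n : ℕ}
    (h : ∀ l : List X, l.length = n → f (Finsupp.single l 1) = g (Finsupp.single l 1))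
    {c : LC X} (hc : c ∈ Len X n) : f c = g c := by
  rw [Len, Finsupp.supported_eq_span_single] at hc
  refine LinearMap.eqOn_span' ?_ hc
  rintro _ ⟨l, hl, rfl⟩
  exact h l hl

theorem lista2_ext' {X M : Type*} [AddCommGroup M] [Module ℚ M] {f g : LC X →ₗ[ℚ] M}
    (h : ∀ l : List X, f (Finsupp.single l 1) = g (Finsupp.single l 1)) (c : LC X) :
    f c = g c := by
  have : f = g := Finsupp.lhom_ext' fun l => LinearMap.ext_ring (h l)
  rw [this]

theorem lista2_single_len {X : Type*} (l : List X) : Finsupp.single l (1 : ℚ) ∈ Len X l.length :=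
  Finsupp.single_mem_supported ℚ 1 rfl

theorem lista2_lmap_single {X Y : Type*} (u : X → Y) (l : List X) :
    lmap u (Finsupp.single l 1) = Finsupp.single (l.map u) 1 := by
  rw [lmap, Finsupp.lmapDomain_apply, Finsupp.mapDomain_single]

theorem lista2_lmap_cone {X Y : Type*} (u : X → Y) (x : X) (c : LC X) :
    lmap u (cone x c) = cone (u x) (lmap u c) := by
  simp only [lmap, cone, Finsupp.lmapDomain_apply, ← Finsupp.mapDomain_comp]
  rfl

theorem lista2_lb_hh {X Y : Type*} (D : LC X →ₗ[ℚ] LC Y) (ap : X → Y)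
    (hD : ∀ c, lb Y (D c) = D (lb X c)) (h0 : D (Finsupp.single [] 1) = 0) (n : ℕ) :
    ∀ c ∈ Len X n, lb Y (lista_hh D ap n c) + lista_hh D ap (n - 1) (lb X c) = D c := by
  induction n with
  | zero =>
    intro c hc
    have := lista2_ext (f := D) (g := 0)
      (fun l hl => by rw [List.length_eq_zero_iff.1 hl]; exact h0) hc
    rw [this]
    simp [lista_hh]
  | succ n ih =>
    intro c hc
    refine lista2_ext (f := lb Y ∘ₗ lista_hh D ap (n + 1) + lista_hh D ap n ∘ₗ lb X) (g := D)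
      (fun l hl => ?_) hc
    obtain _ | ⟨x, t⟩ := l
    · simp at hl
    · have h1 := ih _ (lb_len (hl ▸ lista2_single_len (x :: t)))
      rw [lb_lb, map_zero, add_zero] at h1
      simp only [LinearMap.add_apply, LinearMap.comp_apply]
      rw [lista2_hh_cons, lb_cone, map_sub (lb Y), hD, h1, sub_self, map_zero, sub_zero,
        sub_add_cancel]

theorem lista2_hh_lmap {X Y : Type*} (D : LC X →ₗ[ℚ] LC Y) (ap : X → Y) (u : X → X) (v : Y → Y)
    (hap : ∀ x, ap (u x) = v (ap x)) (eD : ∀ c, D (lmap u c) = lmap v (D c)) (n : ℕ) :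
    ∀ c, lista_hh D ap n (lmap u c) = lmap v (lista_hh D ap n c) := by
  induction n with
  | zero => intro c; simp [lista_hh]
  | succ n ih =>
    refine lista2_ext' (f := lista_hh D ap (n + 1) ∘ₗ lmap u)
      (g := lmap v ∘ₗ lista_hh D ap (n + 1)) fun l => ?_
    simp only [LinearMap.comp_apply]
    obtain _ | ⟨x, t⟩ := l
    · rw [lista2_lmap_single, List.map_nil, lista2_hh_nil, map_zero]
    · rw [lista2_lmap_single, List.map_cons, lista2_hh_cons, lista2_hh_cons, ← List.map_cons,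
        ← lista2_lmap_single, lb_lmap, ih, eD, lista2_lmap_cone, map_sub (lmap v), hap]

theorem lista2_sub_mem {G Y : Type*} (τ : G → Y → Y) (g : G) (w : LC Y) :
    lmap (τ g) w - w ∈ Jsub τ := by
  induction w using Finsupp.induction_linear with
  | zero => simp
  | add a b ha hb =>
    rw [map_add, add_sub_add_comm]
    exact add_mem ha hb
  | single l a =>
    rw [← Finsupp.smul_single_one, map_smul, ← smul_sub, lista2_lmap_single]
    exact Submodule.smul_mem _ _ (Submodule.subset_span ⟨g, l, rfl⟩)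

/-- Equivariant chain maps that agree on the empty list are equivariantly homotopic.
Plan: define `h : List X → LC Y` by recursion on the length (e.g. `hh : ℕ → (LC X →ₗ LC Y)`, `hh 0 = 0`,
`hh (n+1) = linearCombination fun l => match l with | [] => 0 | x :: _ => cone (ap x) (φ [l] - ψ [l] - hh n (lb [l]))`, used on lists of length `n+1`);
prove `lb (h l) + h (lb l) = φ l - ψ l` and `h (l.map (σ g)) = lmap (τ g) (h l)` by induction on the length. -/
theorem htpy {G X Y : Type*} (σ : G → X → X) (τ : G → Y → Y) (φ ψ : LC X →ₗ[ℚ] LC Y) (ap : X → Y)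
    (hap : ∀ g x, ap (σ g x) = τ g (ap x))
    (hφ : ∀ c, lb Y (φ c) = φ (lb X c)) (hψ : ∀ c, lb Y (ψ c) = ψ (lb X c))
    (h0 : φ (Finsupp.single [] 1) = ψ (Finsupp.single [] 1))
    (eφ : ∀ g c, φ (lmap (σ g) c) = lmap (τ g) (φ c))
    (eψ : ∀ g c, ψ (lmap (σ g) c) = lmap (τ g) (ψ c))
    {z : LC X} (hz : lb X z ∈ Jsub σ) : φ z - ψ z ∈ LinearMap.range (lb Y) ⊔ Jsub τ := by
  set D : LC X →ₗ[ℚ] LC Y := φ - ψ with hDdef
  have hD : ∀ c, lb Y (D c) = D (lb X c) := fun c => by
    simp only [hDdef, LinearMap.sub_apply, map_sub, hφ, hψ]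
  have hD0 : D (Finsupp.single [] 1) = 0 := sub_eq_zero.2 h0
  have eD : ∀ g c, D (lmap (σ g) c) = lmap (τ g) (D c) := fun g c => by
    simp only [hDdef, LinearMap.sub_apply, map_sub, eφ, eψ]
  let H : LC X →ₗ[ℚ] LC Y :=
    Finsupp.linearCombination ℚ fun l => lista_hh D ap l.length (Finsupp.single l 1)
  have hH : ∀ l, H (Finsupp.single l 1) = lista_hh D ap l.length (Finsupp.single l 1) :=
    fun l => by rw [Finsupp.linearCombination_single, one_smul]
  have hlen : ∀ n, ∀ c ∈ Len X n, H c = lista_hh D ap n c := fun n c hc =>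
    lista2_ext (fun l hl => by rw [hH, hl]) hc
  have key : lb Y (H z) + H (lb X z) = D z := by
    refine lista2_ext' (f := lb Y ∘ₗ H + H ∘ₗ lb X) (g := D) (fun l => ?_) z
    simp only [LinearMap.add_apply, LinearMap.comp_apply]
    rw [← lista2_lb_hh D ap hD hD0 _ _ (lista2_single_len l), hH]
    obtain _ | ⟨x, t⟩ := l
    · simp [lb_single, lb1]
    · rw [hlen t.length _ (lb_len (lista2_single_len (x :: t)))]
      rfl
  have hJ : Jsub σ ≤ (Jsub τ).comap H := by
    refine Submodule.span_le.2 ?_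
    rintro _ ⟨g, l, rfl⟩
    change H _ ∈ Jsub τ
    rw [map_sub, hH, hH, List.length_map, ← lista2_lmap_single,
      lista2_hh_lmap D ap (σ g) (τ g) (hap g) (eD g)]
    exact lista2_sub_mem τ g _
  change D z ∈ _
  rw [← key]
  exact Submodule.add_mem_sup (LinearMap.mem_range_self _ _) (hJ hz)

end Pool.Agent.SR
end PartListA

section PartListB
namespace Pool.Agent.SR

/-- Duality. Plan: otherwise the functional `ℓ = linearCombination c` on `Len Γ 7` vanishes on the kernel of `A = (Jsub _).mkQ ∘ lb`, so `ℓ = g ∘ A` for a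
`ℚ`-linear `g : LC Γ ⧸ Jsub _ → ℝ` (`LinearMap.exists_extend` on the range of `A`); put `f y = g (mk (single (List.ofFn y) 1))`. -/
theorem exists_cycle {Γ : Type} [Group Γ] (c : (Fin 7 → Γ) → ℝ)
    (h : ¬ ∃ f : (Fin 6 → Γ) → ℝ, (∀ γ x, f (fun i => γ * x i) = f x) ∧ ∀ x, cob f x = c x) :
    ∃ z ∈ Len Γ 7, lb Γ z ∈ Jsub (fun g x : Γ => g * x) ∧
      Finsupp.linearCombination ℚ (fun l : List Γ => c fun i => l.getD i 1) z ≠ 0 := by
  by_contra hn
  apply h
  obtain ⟨J, hJ⟩ : ∃ J, J = Jsub fun g x : Γ => g * x := ⟨_, rfl⟩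
  obtain ⟨A, hA⟩ : ∃ A, A = (J.mkQ ∘ₗ lb Γ).domRestrict (Len Γ 7) := ⟨_, rfl⟩
  obtain ⟨L, hL⟩ : ∃ L, L = (Finsupp.linearCombination ℚ
    fun l : List Γ => c fun i => l.getD i 1).domRestrict (Len Γ 7) := ⟨_, rfl⟩
  have hk : LinearMap.ker A ≤ LinearMap.ker L := fun z hz => by
    by_contra h0
    rw [hA, LinearMap.mem_ker] at hz
    rw [hL] at h0
    exact hn ⟨z.1, z.2, hJ ▸ (Submodule.Quotient.mk_eq_zero J).1 hz, h0⟩
  obtain ⟨g, hg⟩ := LinearMap.exists_extend
    ((LinearMap.ker A).liftQ L hk ∘ₗ A.quotKerEquivRange.symm.toLinearMap)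
  have hg' : ∀ z, g (A z) = L z := fun z => by
    have := LinearMap.congr_fun hg ⟨A z, z, rfl⟩
    simpa [LinearMap.quotKerEquivRange_symm_apply_image] using this
  refine ⟨fun y => g (J.mkQ (Finsupp.single (List.ofFn y) 1)), fun γ x => ?_, fun x => ?_⟩
  · refine congrArg g ((Submodule.Quotient.eq J).2 ?_)
    rw [hJ]
    exact Submodule.subset_span ⟨γ, List.ofFn x, by rw [List.map_ofFn]; rfl⟩
  · have := hg' ⟨Finsupp.single (List.ofFn x) 1,
      Finsupp.single_mem_supported ℚ _ (List.length_ofFn (f := x))⟩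
    rw [hA, hL] at this
    simp only [LinearMap.domRestrict_apply, LinearMap.comp_apply, lb_single, lb1, map_sum,
      map_smul, Finsupp.linearCombination_single, one_smul, List.length_ofFn,
      Finset.sum_range] at this
    have e : (fun i : Fin 7 => (List.ofFn x).getD i 1) = x := by
      funext i
      fin_cases i <;> rfl
    rw [e] at this
    rw [← this, cob]
    refine Finset.sum_congr rfl fun i _ => ?_
    have e' : (List.ofFn x).eraseIdx i = List.ofFn fun j => x (i.succAbove j) := by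
      fin_cases i <;> rfl
    rw [e', Rat.smul_def]
    push_cast
    rfl

theorem listb_ext {X M : Type*} [AddCommGroup M] [Module ℚ M] {n : ℕ} (f g : LC X →ₗ[ℚ] M)
    (h : ∀ l : List X, l.length = n → f (Finsupp.single l 1) = g (Finsupp.single l 1)) {z : LC X}
    (hz : z ∈ Len X n) : f z = g z := by
  rw [Len, Finsupp.supported_eq_span_single] at hz
  refine LinearMap.eqOn_span' ?_ hz
  rintro _ ⟨l, hl, rfl⟩
  exact h l hl

theorem listb_mem {X M : Type*} [AddCommGroup M] [Module ℚ M] {n : ℕ} (u : List X → M)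
    (S : Submodule ℚ M) (h : ∀ l : List X, l.length = n → u l ∈ S) {z : LC X} (hz : z ∈ Len X n) :
    Finsupp.linearCombination ℚ u z ∈ S := by
  rw [← Submodule.ker_mkQ S, LinearMap.mem_ker]
  refine listb_ext (S.mkQ ∘ₗ Finsupp.linearCombination ℚ u) 0 (fun l hl => ?_) hz
  simpa using h l hl

theorem listb_seven {X : Type*} {l : List X} (h : l.length = 7) :
    ∃ a b c d e f g, l = [a, b, c, d, e, f, g] := by
  match l, h with
  | [a, b, c, d, e, f, g], _ => exact ⟨a, b, c, d, e, f, g, rfl⟩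

/-- Alexander-Whitney zig-zag. Plan: `t k = ε k • lift (fun l => P (k+1) (l.take (7-k)) (l.drop (6-k))) z` with `ε 0 = 1`, `ε (k+1) = (-1)^k ε k`.
For a list `l` of length 7 and `1 ≤ a ≤ 6`:
`d (P (take (a+1) l) (drop a l)) + (-1)^(a-1) δ (P (take a l) (drop (a-1) l)) = ∑ i < 7, (-1)^i P (take a (eraseIdx l i)) (drop (a-1) (eraseIdx l i))`
(destructure `l` into seven entries and check the six cases by `simp`/`abel`); the right side is killed on `z` by `lift_J`. -/
theorem aw {G X : Type*} (σ : G → X → X) {T : ℕ → Type 1} [∀ n, AddCommGroup (T n)]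
    [∀ n, Module ℚ (T n)] (Gd : ∀ n, Submodule ℚ (T n)) (d : ∀ n, T n →ₗ[ℚ] T n)
    (δ : ∀ n, T (n + 1) →ₗ[ℚ] T n) (P : ∀ n, List X → List X → T n)
    (hG : ∀ n l1 l2, l2.length = n → P n l1 l2 ∈ Gd n)
    (hd : ∀ n l1 l2, d n (P n l1 l2) =
      ∑ i ∈ Finset.range l1.length, (-1 : ℚ) ^ i • P n (l1.eraseIdx i) l2)
    (hδ : ∀ n l1 l2, l2.length = n + 1 → δ n (P (n + 1) l1 l2) =
      ∑ i ∈ Finset.range (n + 1), (-1 : ℚ) ^ i • P n l1 (l2.eraseIdx i))
    (hinv : ∀ n g l1 l2, l2.length = n → P n (l1.map (σ g)) (l2.map (σ g)) = P n l1 l2)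
    {z : LC X} (hz : z ∈ Len X 7) (hc : lb X z ∈ Jsub σ) :
    ∃ t : ∀ k, T (k + 1), (∀ k ≤ 6, t k ∈ Gd (k + 1)) ∧
      δ 0 (t 0) = Finsupp.linearCombination ℚ (fun l => P 0 l []) z ∧
      (∀ k < 6, δ (k + 1) (t (k + 1)) = d (k + 1) (t k)) ∧
      t 6 = -Finsupp.linearCombination ℚ (fun l => P 7 (l.take 1) l) z := by
  classical
  let Q : ∀ k, T (k + 1) := fun k =>
    Finsupp.linearCombination ℚ (fun l => P (k + 1) (l.take (7 - k)) (l.drop (6 - k))) z
  have key : ∀ k < 6, d (k + 1) (Q k) = (-1 : ℚ) ^ k • δ (k + 1) (Q (k + 1)) := by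
    intro k hk
    let u : List X → T (k + 1) := fun l =>
      if l.length = 6 then P (k + 1) (l.take (6 - k)) (l.drop (5 - k)) else 0
    have h0 : Finsupp.linearCombination ℚ u (lb X z) = 0 := by
      refine lift_J σ u (fun g l => ?_) hc
      by_cases hl : l.length = 6
      · simp only [u, List.length_map, hl, if_true, ← List.map_take, ← List.map_drop]
        exact hinv _ g _ _ (by simp [hl]; omega)
      · simp [u, hl]
    have h1 := listb_ext
      (d (k + 1) ∘ₗ Finsupp.linearCombination ℚ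
        fun l : List X => P (k + 1) (l.take (7 - k)) (l.drop (6 - k)))
      ((-1 : ℚ) ^ k • δ (k + 1) ∘ₗ (Finsupp.linearCombination ℚ
        fun l : List X => P (k + 1 + 1) (l.take (7 - (k + 1))) (l.drop (6 - (k + 1)))) +
        Finsupp.linearCombination ℚ u ∘ₗ lb X) (fun l hl => ?_) hz
    · simpa [h0, Q] using h1
    · simp only [LinearMap.add_apply, LinearMap.smul_apply, LinearMap.comp_apply,
        Finsupp.linearCombination_single, one_smul, lb_single, lb1, map_sum, map_smul]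
      rw [hd, hδ _ _ _ (by simp [hl]; omega)]
      obtain ⟨a, b, c, e, f, g, h, rfl⟩ := listb_seven hl
      interval_cases k <;> simp [u, Finset.sum_range_succ] <;> module
  refine ⟨fun k => (-1 : ℚ) ^ k.choose 2 • Q k, fun k hk => Submodule.smul_mem _ _ ?_, ?_,
    fun k hk => ?_, ?_⟩
  · exact listb_mem _ _ (fun l hl => hG _ _ _ (by simp [hl]; omega)) hz
  · have h1 := listb_ext
      (δ 0 ∘ₗ Finsupp.linearCombination ℚ fun l : List X => P 1 (l.take 7) (l.drop 6))
      (Finsupp.linearCombination ℚ fun l : List X => P 0 l []) (fun l hl => ?_) hz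
    · simpa using h1
    · simp only [LinearMap.comp_apply, Finsupp.linearCombination_single, one_smul]
      rw [hδ _ _ _ (by simp [hl])]
      obtain ⟨a, b, c, e, f, g, h, rfl⟩ := listb_seven hl
      simp
  · simp only [map_smul]
    rw [key k hk, smul_smul, ← pow_add, Nat.choose_succ_succ' k 1, Nat.choose_one_right,
      add_comm (k.choose 2) k]
  · have : Nat.choose 6 2 = 15 := by decide
    simp only [this, Q]
    norm_num

/-- Abstract zig-zag. Plan: (1) `d u = 0`; build `t' k ∈ G1 (k+1)` with `δ (t' 0) = u`, `δ (t' (k+1)) = d (t' k)`. (2) For `s k = t k - t' k ∈ G3`: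
choose `w 0` with `δ (w 0) = w`, then inductively `w (k+1) ∈ G3 (k+2)` with `s k - d (w k) = δ (w (k+1))`. So `ω (s 6) = 0`. -/
theorem zigzag {T : ℕ → Type 1} [∀ n, AddCommGroup (T n)] [∀ n, Module ℚ (T n)]
    (G1 G3 : ∀ n, Submodule ℚ (T n)) (h13 : ∀ n, G1 n ≤ G3 n) (d : ∀ n, T n →ₗ[ℚ] T n)
    (δ : ∀ n, T (n + 1) →ₗ[ℚ] T n) (hdd : ∀ n x, d n (d n x) = 0)
    (hc : ∀ n x, δ n (d (n + 1) x) = d n (δ n x))
    (hd1 : ∀ n, ∀ x ∈ G1 n, d n x ∈ G1 n) (hd3 : ∀ n, ∀ x ∈ G3 n, d n x ∈ G3 n)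
    (e01 : ∀ x ∈ G1 0, ∃ y ∈ G1 1, δ 0 y = x) (e03 : ∀ x ∈ G3 0, ∃ y ∈ G3 1, δ 0 y = x)
    (e1 : ∀ n, ∀ x ∈ G1 (n + 1), δ n x = 0 → ∃ y ∈ G1 (n + 2), δ (n + 1) y = x)
    (e3 : ∀ n, ∀ x ∈ G3 (n + 1), δ n x = 0 → ∃ y ∈ G3 (n + 2), δ (n + 1) y = x)
    (ω : T 7 →ₗ[ℚ] ℝ) (hω1 : ∀ x ∈ G1 7, ω x = 0) (hωd : ∀ x ∈ G3 7, ω (d 7 x) = 0)
    (hωδ : ∀ x ∈ G3 8, ω (δ 7 x) = 0)
    (t : ∀ k, T (k + 1)) (ht : ∀ k ≤ 6, t k ∈ G3 (k + 1))
    (hs : ∀ k < 6, δ (k + 1) (t (k + 1)) = d (k + 1) (t k))
    (u w : T 0) (hu : u ∈ G1 0) (hw : w ∈ G3 0) (hy : δ 0 (t 0) = u + d 0 w)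
    (hcyc : d 0 (δ 0 (t 0)) = 0) : ω (t 6) = 0 := by
  have H : ∀ k ≤ 6, ∃ t' ∈ G1 (k + 1), ∃ v ∈ G3 (k + 1), d k (δ k t') = 0 ∧
      δ k (t k - t' - d (k + 1) v) = 0 := by
    intro k hk
    induction k with
    | zero =>
      obtain ⟨t', a1, a2⟩ := e01 u hu
      obtain ⟨v, b1, b2⟩ := e03 w hw
      refine ⟨t', a1, v, b1, ?_, ?_⟩
      · rwa [hy, map_add, hdd, add_zero, ← a2] at hcyc
      · rw [map_sub, map_sub, hc, hy, a2, b2, add_sub_cancel_left, sub_self]
    | succ k ih =>
      obtain ⟨t', a1, v, a2, a3, a4⟩ := ih (by omega)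
      obtain ⟨t'', b1, b2⟩ := e1 k _ (hd1 _ _ a1) ((hc k t').trans a3)
      obtain ⟨v', c1, c2⟩ := e3 k _
        (sub_mem (sub_mem (ht k (by omega)) (h13 _ a1)) (hd3 _ _ a2)) a4
      refine ⟨t'', b1, v', c1, by rw [b2, hdd], ?_⟩
      rw [map_sub, map_sub, hc, hs k (by omega), b2, c2, map_sub, map_sub, hdd, sub_zero, sub_self]
  obtain ⟨t', a1, v, a2, -, a4⟩ := H 6 le_rfl
  obtain ⟨y, c1, c2⟩ := e3 6 _ (sub_mem (sub_mem (ht 6 le_rfl) (h13 _ a1)) (hd3 _ _ a2)) a4
  have := hωδ y c1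
  rwa [c2, map_sub, map_sub, hω1 t' a1, hωd v a2, sub_zero, sub_zero] at this

end Pool.Agent.SR
end PartListB

section PartNilA
namespace Pool.Agent.SR

section nila

variable {X : Type*}

theorem nila_map {M : Type*} [AddCommGroup M] [Module ℚ M] (f : LC X →ₗ[ℚ] M) {A : Set (List X)}
    {N : Submodule ℚ M} (h : ∀ l ∈ A, f (Finsupp.single l 1) ∈ N) {c : LC X}
    (hc : c ∈ Finsupp.supported ℚ ℚ A) : f c ∈ N := by
  rw [Finsupp.supported_eq_span_single] at hc
  refine (Submodule.span_le (p := N.comap f)).2 ?_ hc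
  rintro _ ⟨l, hl, rfl⟩
  exact h l hl

theorem nila_eq {M : Type*} [AddCommGroup M] [Module ℚ M] (f g : LC X →ₗ[ℚ] M) {A : Set (List X)}
    (h : ∀ l ∈ A, f (Finsupp.single l 1) = g (Finsupp.single l 1)) {c : LC X}
    (hc : c ∈ Finsupp.supported ℚ ℚ A) : f c = g c :=
  sub_eq_zero.1 (nila_map (f - g) (N := ⊥) (fun l hl => sub_eq_zero.2 (h l hl)) hc)

theorem nila_univ (c : LC X) : c ∈ Finsupp.supported ℚ ℚ (Set.univ : Set (List X)) := by
  rw [Finsupp.supported_univ]
  trivial

theorem nila_inter {A B : Set (List X)} {c : LC X} (hA : c ∈ Finsupp.supported ℚ ℚ A)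
    (hB : c ∈ Finsupp.supported ℚ ℚ B) : c ∈ Finsupp.supported ℚ ℚ (A ∩ B) := by
  rw [Finsupp.supported_inter]
  exact ⟨hA, hB⟩

theorem nila_cone (x : X) (l : List X) :
    cone x (Finsupp.single l 1) = Finsupp.single (x :: l) 1 := by
  rw [cone, Finsupp.lmapDomain_apply, Finsupp.mapDomain_single]

theorem nila_lmap {Y : Type*} (u : X → Y) (l : List X) :
    lmap u (Finsupp.single l 1) = Finsupp.single (l.map u) 1 := by
  rw [lmap, Finsupp.lmapDomain_apply, Finsupp.mapDomain_single]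

theorem nila_lb {A : Set (List X)} (hA : ∀ l ∈ A, ∀ i, l.eraseIdx i ∈ A) {c : LC X}
    (hc : c ∈ Finsupp.supported ℚ ℚ A) : lb X c ∈ Finsupp.supported ℚ ℚ A := by
  refine nila_map _ (fun l hl => ?_) hc
  rw [lb_single, lb1]
  exact Submodule.sum_mem _ fun i _ =>
    Submodule.smul_mem _ _ (Finsupp.single_mem_supported _ _ (hA l hl i))

theorem nila_lb_all (Q : X → Prop) {c : LC X}
    (hc : c ∈ Finsupp.supported ℚ ℚ {l : List X | ∀ x ∈ l, Q x}) :
    lb X c ∈ Finsupp.supported ℚ ℚ {l : List X | ∀ x ∈ l, Q x} :=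
  nila_lb (A := {l : List X | ∀ x ∈ l, Q x})
    (fun _ hl _ x hx => hl x (List.mem_of_mem_eraseIdx hx)) hc

theorem nila_cone_all {Q : X → Prop} {x : X} (hx : Q x) {c : LC X}
    (hc : c ∈ Finsupp.supported ℚ ℚ {l : List X | ∀ x ∈ l, Q x}) :
    cone x c ∈ Finsupp.supported ℚ ℚ {l : List X | ∀ x ∈ l, Q x} := by
  refine nila_map _ (fun l hl => ?_) hc
  rw [nila_cone]
  exact Finsupp.single_mem_supported _ _ (List.forall_mem_cons.2 ⟨hx, hl⟩)

open Classical in
/-- The part of a chain supported in `A`. -/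
noncomputable def nila_p (A : Set (List X)) : LC X →ₗ[ℚ] LC X :=
  Finsupp.linearCombination ℚ fun l => if l ∈ A then Finsupp.single l 1 else 0

theorem nila_p_pos {A : Set (List X)} {l : List X} (h : l ∈ A) :
    nila_p A (Finsupp.single l 1) = Finsupp.single l 1 := by
  rw [nila_p, Finsupp.linearCombination_single, if_pos h, one_smul]

theorem nila_p_neg {A : Set (List X)} {l : List X} (h : l ∉ A) :
    nila_p A (Finsupp.single l 1) = 0 := by
  rw [nila_p, Finsupp.linearCombination_single, if_neg h, one_smul]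

theorem nila_p_mem (A : Set (List X)) {B : Set (List X)} {c : LC X}
    (hc : c ∈ Finsupp.supported ℚ ℚ B) : nila_p A c ∈ Finsupp.supported ℚ ℚ (A ∩ B) := by
  refine nila_map _ (fun l hl => ?_) hc
  by_cases h : l ∈ A
  · rw [nila_p_pos h]
    exact Finsupp.single_mem_supported _ _ ⟨h, hl⟩
  · rw [nila_p_neg h]
    exact zero_mem _

theorem nila_p_add (A : Set (List X)) (c : LC X) : nila_p A c + nila_p Aᶜ c = c := by
  refine nila_eq (nila_p A + nila_p Aᶜ) LinearMap.id (fun l _ => ?_) (nila_univ c)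
  rw [LinearMap.add_apply, LinearMap.id_apply]
  by_cases h : l ∈ A
  · rw [nila_p_pos h, nila_p_neg (A := Aᶜ) (not_not.2 h), add_zero]
  · rw [nila_p_neg h, nila_p_pos (A := Aᶜ) h, zero_add]

/-- The prism on a list. -/
noncomputable def nila_pr1 (u : X → X) : List X → LC X
  | [] => 0
  | x :: l => cone x (Finsupp.single ((x :: l).map u) 1 - nila_pr1 u l)

/-- The prism operator. -/
noncomputable def nila_pr (u : X → X) : LC X →ₗ[ℚ] LC X := Finsupp.linearCombination ℚ (nila_pr1 u)

theorem nila_pr_single (u : X → X) (l : List X) :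
    nila_pr u (Finsupp.single l 1) = nila_pr1 u l := by
  rw [nila_pr, Finsupp.linearCombination_single, one_smul]

theorem nila_pr_cone (u : X → X) (x : X) (c : LC X) :
    nila_pr u (cone x c) = cone x (lmap u (cone x c) - nila_pr u c) := by
  refine nila_eq (nila_pr u ∘ₗ cone x) (cone x ∘ₗ (lmap u ∘ₗ cone x - nila_pr u))
    (fun l _ => ?_) (nila_univ c)
  simp only [LinearMap.comp_apply, LinearMap.sub_apply, nila_cone, nila_pr_single, nila_lmap,
    nila_pr1]

theorem nila_pr_htpy (u : X → X) (c : LC X) :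
    lb X (nila_pr u c) + nila_pr u (lb X c) = lmap u c - c := by
  refine nila_eq (lb X ∘ₗ nila_pr u + nila_pr u ∘ₗ lb X) (lmap u - LinearMap.id)
    (fun l _ => ?_) (nila_univ c)
  simp only [LinearMap.comp_apply, LinearMap.sub_apply, LinearMap.add_apply, LinearMap.id_apply]
  induction l with
  | nil => simp [nila_pr_single, nila_pr1, lb_single, lb1, nila_lmap]
  | cons x l ih =>
    have ih' := eq_sub_of_add_eq (ih trivial)
    rw [← nila_cone]
    generalize Finsupp.single l (1 : ℚ) = c at ih'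
    rw [nila_pr_cone, lb_cone, lb_cone, map_sub (lb X), lb_lmap, lb_cone, ih', map_sub (nila_pr u),
      nila_pr_cone]
    simp only [map_sub]
    abel

theorem nila_pr_len (u : X → X) (l : List X) : nila_pr1 u l ∈ Len X (l.length + 1) := by
  induction l with
  | nil => exact zero_mem _
  | cons x l ih =>
    exact cone_len x (sub_mem (Finsupp.single_mem_supported _ _ (List.length_map _)) ih)

theorem nila_pr_all (u : X → X) {Q : X → Prop} (hu : ∀ x, Q x → Q (u x)) (l : List X)
    (hl : ∀ x ∈ l, Q x) : nila_pr1 u l ∈ Finsupp.supported ℚ ℚ {l : List X | ∀ x ∈ l, Q x} := by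
  induction l with
  | nil => exact zero_mem _
  | cons x l ih =>
    refine nila_cone_all (hl x List.mem_cons_self) (sub_mem (Finsupp.single_mem_supported _ _ ?_)
      (ih fun y hy => hl y (List.mem_cons_of_mem _ hy)))
    intro y hy
    obtain ⟨z, hz, rfl⟩ := List.mem_map.1 hy
    exact hu z (hl z hz)

variable {ι Y : Type} [DecidableEq ι] {S : Finset ι} {r : ι}

omit [DecidableEq ι] in
theorem nila_lb_cst {c : LC (ι → Y)} (hc : c ∈ Finsupp.supported ℚ ℚ (Cst S)) :
    lb _ c ∈ Finsupp.supported ℚ ℚ (Cst (Y := Y) S) :=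
  nila_lb (A := Cst S) (fun _ ⟨s, hs, h⟩ _ => ⟨s, hs, fun a ha b hb =>
    h a (List.mem_of_mem_eraseIdx ha) b (List.mem_of_mem_eraseIdx hb)⟩) hc

omit [DecidableEq ι] in
theorem nila_all_le (hr : r ∈ S) (y : Y) {c : LC (ι → Y)}
    (hc : c ∈ Finsupp.supported ℚ ℚ {l : List (ι → Y) | ∀ x ∈ l, x r = y}) :
    c ∈ Finsupp.supported ℚ ℚ (Cst (Y := Y) S) := by
  refine Finsupp.supported_mono ?_ hc
  exact fun _ hl => ⟨r, hr, fun a ha b hb => (hl a ha).trans (hl b hb).symm⟩

theorem nila_cst_le {c : LC (ι → Y)} (hc : c ∈ Finsupp.supported ℚ ℚ (Cst S)) :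
    c ∈ Finsupp.supported ℚ ℚ (Cst (Y := Y) (insert r S)) := by
  refine Finsupp.supported_mono ?_ hc
  exact fun _ ⟨s, hs, h⟩ => ⟨s, Finset.mem_insert_of_mem hs, h⟩

theorem nila_upd_all (y : Y) (c : LC (ι → Y)) : lmap (fun x => Function.update x r y) c ∈
    Finsupp.supported ℚ ℚ {l : List (ι → Y) | ∀ x ∈ l, x r = y} := by
  refine nila_map _ (fun l _ => ?_) (nila_univ c)
  rw [nila_lmap]
  refine Finsupp.single_mem_supported _ _ fun x hx => ?_
  obtain ⟨z, -, rfl⟩ := List.mem_map.1 hx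
  exact Function.update_self _ _ _

theorem nila_upd_id (y : Y) {c : LC (ι → Y)}
    (hc : c ∈ Finsupp.supported ℚ ℚ {l : List (ι → Y) | ∀ x ∈ l, x r = y}) :
    lmap (fun x => Function.update x r y) c = c := by
  refine nila_eq _ LinearMap.id (fun l hl => ?_) hc
  rw [nila_lmap, LinearMap.id_apply, List.map_congr_left (g := id), List.map_id]
  intro x hx
  rw [← hl x hx, Function.update_eq_self, id]

theorem nila_upd_cst (hr : r ∉ S) (y : Y) {c : LC (ι → Y)}
    (hc : c ∈ Finsupp.supported ℚ ℚ (Cst S)) : lmap (fun x => Function.update x r y) c ∈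
      Finsupp.supported ℚ ℚ (Cst (Y := Y) S) := by
  refine nila_map _ (fun l hl => ?_) hc
  obtain ⟨s, hs, h⟩ := hl
  rw [nila_lmap]
  refine Finsupp.single_mem_supported _ _ ⟨s, hs, fun a ha b hb => ?_⟩
  obtain ⟨a', ha', rfl⟩ := List.mem_map.1 ha
  obtain ⟨b', hb', rfl⟩ := List.mem_map.1 hb
  have hsr : s ≠ r := fun e => hr (e ▸ hs)
  rw [Function.update_of_ne hsr, Function.update_of_ne hsr, h a' ha' b' hb']

theorem nila_pr_cst (hr : r ∉ S) (y : Y) {c : LC (ι → Y)}
    (hc : c ∈ Finsupp.supported ℚ ℚ (Cst S)) : nila_pr (fun x => Function.update x r y) c ∈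
      Finsupp.supported ℚ ℚ (Cst (Y := Y) S) := by
  refine nila_map _ (fun l hl => ?_) hc
  obtain ⟨s, hs, h⟩ := hl
  rw [nila_pr_single]
  have hsr : s ≠ r := fun e => hr (e ▸ hs)
  cases l with
  | nil => exact zero_mem _
  | cons z l =>
    exact nila_all_le hs (z s) (nila_pr_all _ (Q := fun x : ι → Y => x s = z s)
      (fun x hx => (Function.update_of_ne hsr _ _).trans hx) _ fun x hx =>
        h x hx z List.mem_cons_self)

omit [DecidableEq ι] in
/-- A cycle with constant coordinate `r` bounds a cone. -/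
theorem nila_cone_bd (hr : r ∈ S) (y : Y) {n : ℕ} {c : LC (ι → Y)}
    (hc : c ∈ Finsupp.supported ℚ ℚ {l : List (ι → Y) | ∀ x ∈ l, x r = y}) (hl : c ∈ Len _ n)
    (h0 : lb _ c = 0) :
    c ∈ (Finsupp.supported ℚ ℚ (Cst (Y := Y) S) ⊓ Len _ (n + 1)).map (lb _) :=
  ⟨cone (fun _ => y) c, ⟨nila_all_le hr y
    (nila_cone_all (Q := fun x : ι → Y => x r = y) rfl hc), cone_len _ hl⟩, by
    rw [lb_cone, h0, map_zero, sub_zero]⟩

omit [DecidableEq ι] in
theorem nila_p_val (y y₀ : Y) {c : LC (ι → Y)}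
    (hc : c ∈ Finsupp.supported ℚ ℚ {l : List (ι → Y) | l ≠ [] ∧ ∀ x ∈ l, x r = y₀}) :
    (y = y₀ → nila_p {l | ∃ x ∈ l, x r = y} c = c) ∧
      (y ≠ y₀ → nila_p {l | ∃ x ∈ l, x r = y} c = 0) := by
  refine ⟨fun h => nila_eq _ LinearMap.id (fun l hl => nila_p_pos ?_) hc,
    fun h => nila_eq _ 0 (fun l hl => nila_p_neg ?_) hc⟩
  · obtain ⟨x, hx⟩ := List.exists_mem_of_ne_nil l hl.1
    exact ⟨x, hx, (hl.2 x hx).trans h.symm⟩
  · rintro ⟨x, hx, e⟩
    exact h (e.symm.trans (hl.2 x hx))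

end nila

/-- Connectivity of the fat wedge. Plan: induction on `S` (generalising `n, c`). For `insert r S`: if `S = ∅` then `n = 0` and `c = a • []` bounds `a • [x]`.
Otherwise write `c = a + b` with `b` supported in `Cst S` and `a` supported on lists not in `Cst S` (these have length `≥ 2` and constant coordinate `r`).
Split `a = ∑ y, a y` by the value `y` of coordinate `r`; the `lb (a y)` have disjoint supports, so each is a cycle in `Cst S` of length `n - 1`; by induction it is `lb (b y)`,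
and applying `lmap (update · r y)` we may assume that coordinate `r` is `y` on `b y`. The cycle `a y - b y` bounds its cone over a vertex with coordinate `r` equal to `y`.
The cycle `b' = b + ∑ b y` in `Cst S` is homologous inside `Cst S` to `lmap (update · r y₀) b'` by the explicit prism
`pr (x :: l) = [x :: u x :: map u l] - cone x (pr l)`, `pr [] = 0` (`lb pr + pr lb = lmap u - id`), and the latter bounds a cone with constant coordinate `r`. -/
theorem cst_acyclic {ι Y : Type} [DecidableEq ι] [Nonempty Y] (S : Finset ι) (n : ℕ)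
    (hn : n < S.card) (c : LC (ι → Y)) (hc : c ∈ Finsupp.supported ℚ ℚ (Cst S))
    (hl : c ∈ Len _ n) (h0 : lb _ c = 0) :
    ∃ w ∈ Finsupp.supported ℚ ℚ (Cst S), w ∈ Len _ (n + 1) ∧ lb _ w = c := by
  classical
  obtain ⟨y₀⟩ := ‹Nonempty Y›
  induction S using Finset.induction_on generalizing n c with
  | empty => exact absurd hn (Nat.not_lt_zero n)
  | insert r S hr ih =>
    suffices h : c ∈ (Finsupp.supported ℚ ℚ (Cst (Y := Y) (insert r S)) ⊓
        Len _ (n + 1)).map (lb _) by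
      obtain ⟨w, hw, e⟩ := h
      exact ⟨w, hw.1, hw.2, e⟩
    rcases n with _ | m
    · refine nila_cone_bd (Finset.mem_insert_self r S) y₀ (Finsupp.supported_mono ?_ hl) hl h0
      intro l (h : l.length = 0) x hx
      rw [List.length_eq_zero_iff.1 h] at hx
      exact absurd hx List.not_mem_nil
    rw [Finset.card_insert_of_notMem hr] at hn
    have hm : m < S.card := by omega
    obtain ⟨s₀, hs₀⟩ : S.Nonempty := Finset.card_pos.1 (by omega)
    set B := (Finsupp.supported ℚ ℚ (Cst (Y := Y) (insert r S)) ⊓ Len _ (m + 1 + 1)).map (lb _)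
      with hB
    have hb := nila_p_mem (Cst S) hl
    have ha := nila_p_mem (Cst S)ᶜ (nila_inter hc hl)
    have hab := nila_p_add (Cst S) c
    generalize nila_p (Cst S) c = b at hb hab
    generalize nila_p (Cst S)ᶜ c = a at ha hab
    have hb1 : b ∈ Finsupp.supported ℚ ℚ (Cst (Y := Y) S) :=
      Finsupp.supported_mono Set.inter_subset_left hb
    have hb2 : b ∈ Len _ (m + 1) := Finsupp.supported_mono Set.inter_subset_right hb
    have ha2 : a ∈ Len _ (m + 1) := Finsupp.supported_mono (fun _ h => h.2.2) ha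
    have hval : ∀ l ∈ (Cst (Y := Y) S)ᶜ ∩ (Cst (insert r S) ∩ {l | l.length = m + 1}),
        1 ≤ m ∧ l ≠ [] ∧ ∃ z ∈ l, ∀ x ∈ l, x r = z r := by
      rintro l ⟨h1, ⟨s, hs, h2⟩, h3 : l.length = m + 1⟩
      have h4 : l ≠ [] := List.ne_nil_of_length_eq_add_one h3
      obtain ⟨z, hz⟩ := List.exists_mem_of_ne_nil l h4
      refine ⟨?_, h4, z, hz, fun x hx => ?_⟩
      · by_contra h
        obtain ⟨t, rfl⟩ := List.length_eq_one_iff.1 (show l.length = 1 by omega)
        exact h1 ⟨s₀, hs₀, fun a ha b hb => by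
          rw [List.mem_singleton.1 ha, List.mem_singleton.1 hb]⟩
      · rcases Finset.mem_insert.1 hs with rfl | hs
        · exact h2 x hx z hz
        · exact absurd ⟨s, hs, h2⟩ h1
    have hlba : lb _ a ∈ Finsupp.supported ℚ ℚ (Cst (Y := Y) S) := by
      have : lb _ a = -lb _ b := by
        rw [eq_neg_iff_add_eq_zero, ← map_add, add_comm, hab, h0]
      rw [this]
      exact neg_mem (nila_lb_cst hb1)
    have hpy : ∀ y : Y, nila_p {l | ∃ x ∈ l, x r = y} a ∈
        (Finsupp.supported ℚ ℚ (Cst (Y := Y) S) ⊓ Len _ (m + 1)) ⊔ B := by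
      intro y
      have e1 : lb _ (nila_p {l | ∃ x ∈ l, x r = y} a) = nila_p {l | ∃ x ∈ l, x r = y} (lb _ a) := by
        refine nila_eq (lb _ ∘ₗ nila_p _) (nila_p _ ∘ₗ lb _) (fun l hl' => ?_) ha
        obtain ⟨h1, h2, z, -, h3⟩ := hval l hl'
        have k1 : Finsupp.single l (1 : ℚ) ∈
            Finsupp.supported ℚ ℚ {l : List (ι → Y) | l ≠ [] ∧ ∀ x ∈ l, x r = z r} :=
          Finsupp.single_mem_supported _ _ ⟨h2, h3⟩
        have k2 : lb _ (Finsupp.single l (1 : ℚ)) ∈
            Finsupp.supported ℚ ℚ {l : List (ι → Y) | l ≠ [] ∧ ∀ x ∈ l, x r = z r} := by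
          refine Finsupp.supported_mono ?_ (nila_inter
            (lb_len (n := m) (Finsupp.single_mem_supported _ _ hl'.2.2))
            (nila_lb_all (fun x : ι → Y => x r = z r) (Finsupp.single_mem_supported _ _ h3)))
          rintro l' ⟨k3 : l'.length = m, k4⟩
          exact ⟨List.ne_nil_of_length_pos (by omega), k4⟩
        rw [LinearMap.comp_apply, LinearMap.comp_apply]
        by_cases hy : y = z r
        · rw [(nila_p_val y _ k1).1 hy, (nila_p_val y _ k2).1 hy]
        · rw [(nila_p_val y _ k1).2 hy, (nila_p_val y _ k2).2 hy, map_zero]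
      have e2 := nila_p_mem {l | ∃ x ∈ l, x r = y} ha
      have e3 : lb _ (nila_p {l | ∃ x ∈ l, x r = y} a) ∈
          Finsupp.supported ℚ ℚ (Cst (Y := Y) S) := by
        rw [e1]
        exact Finsupp.supported_mono Set.inter_subset_right (nila_p_mem _ hlba)
      generalize nila_p {l | ∃ x ∈ l, x r = y} a = a' at e2 e3
      have e4 : a' ∈ Len _ (m + 1) := Finsupp.supported_mono (fun _ h => h.2.2.2) e2
      have e5 : a' ∈ Finsupp.supported ℚ ℚ {l : List (ι → Y) | ∀ x ∈ l, x r = y} := by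
        refine Finsupp.supported_mono ?_ e2
        rintro l ⟨⟨t, ht, rfl⟩, hl'⟩ x hx
        obtain ⟨-, -, z, -, h3⟩ := hval l hl'
        rw [h3 x hx, h3 t ht]
      obtain ⟨w, hw1, hw2, hw3⟩ := ih m hm _ e3 (lb_len e4) (lb_lb _)
      have e6 : a' = lmap (fun x => Function.update x r y) w +
          (a' - lmap (fun x => Function.update x r y) w) := by abel
      rw [e6]
      refine Submodule.add_mem_sup ⟨nila_upd_cst hr y hw1, lmap_len _ hw2⟩
        (nila_cone_bd (Finset.mem_insert_self r S) y (sub_mem e5 (nila_upd_all y w))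
          (sub_mem e4 (lmap_len _ hw2)) ?_)
      rw [map_sub, lb_lmap, hw3, nila_upd_id y (nila_lb_all _ e5), sub_self]
    have hsum : a = ∑ y ∈ a.support.biUnion fun l => (l.map fun x => x r).toFinset,
        nila_p {l | ∃ x ∈ l, x r = y} a := by
      rw [← LinearMap.sum_apply]
      refine nila_eq LinearMap.id _ (fun l hl' => ?_)
        (nila_inter ha ((Finsupp.mem_supported _ _).2 subset_rfl))
      obtain ⟨-, h2, z, hz, h3⟩ := hval l hl'.1
      have k1 : Finsupp.single l (1 : ℚ) ∈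
          Finsupp.supported ℚ ℚ {l : List (ι → Y) | l ≠ [] ∧ ∀ x ∈ l, x r = z r} :=
        Finsupp.single_mem_supported _ _ ⟨h2, h3⟩
      rw [LinearMap.sum_apply, LinearMap.id_apply, Finset.sum_eq_single_of_mem (z r),
        (nila_p_val _ _ k1).1 rfl]
      · exact Finset.mem_biUnion.2 ⟨l, hl'.2, List.mem_toFinset.2 (List.mem_map.2 ⟨z, hz, rfl⟩)⟩
      · exact fun y _ hy => (nila_p_val _ _ k1).2 hy
    have hc' : c ∈ (Finsupp.supported ℚ ℚ (Cst (Y := Y) S) ⊓ Len _ (m + 1)) ⊔ B := by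
      rw [← hab, hsum]
      exact add_mem (Submodule.mem_sup_left ⟨hb1, hb2⟩) (Submodule.sum_mem _ fun y _ => hpy y)
    obtain ⟨d, ⟨hd1, hd2⟩, v, hv, rfl⟩ := Submodule.mem_sup.1 hc'
    refine add_mem ?_ hv
    obtain ⟨w, -, rfl⟩ := hv
    rw [map_add, lb_lb, add_zero] at h0
    have e := nila_pr_htpy (fun x => Function.update x r y₀) d
    rw [h0, map_zero, add_zero] at e
    have e' : d = lmap (fun x => Function.update x r y₀) d -
        lb _ (nila_pr (fun x => Function.update x r y₀) d) := by rw [e]; abel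
    rw [e']
    refine sub_mem (nila_cone_bd (Finset.mem_insert_self r S) y₀ (nila_upd_all y₀ d)
      (lmap_len _ hd2) (by rw [lb_lmap, h0, map_zero]))
      ⟨_, ⟨nila_cst_le (nila_pr_cst hr y₀ hd1), nila_map _ (fun l (hl' : l.length = m + 1) => ?_) hd2⟩,
        rfl⟩
    rw [nila_pr_single, ← hl']
    exact nila_pr_len _ l

end Pool.Agent.SR
end PartNilA

section PartNilB
namespace Pool.Agent.SR

theorem nilb_ext {X M : Type*} [AddCommGroup M] [Module ℚ M] (f : LC X →ₗ[ℚ] M)
    (N : Submodule ℚ M) {S : Set (List X)} (h : ∀ l ∈ S, f (Finsupp.single l 1) ∈ N) {c : LC X}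
    (hc : c ∈ Finsupp.supported ℚ ℚ S) : f c ∈ N := by
  rw [Finsupp.supported_eq_span_single] at hc
  refine (Submodule.span_le (p := N.comap f)).2 ?_ hc
  rintro _ ⟨l, hl, rfl⟩
  exact h l hl

theorem nilb_single {X : Type*} {S : Set (List X)} {l : List X} (h : l ∈ S) :
    Finsupp.single l (1 : ℚ) ∈ Finsupp.supported ℚ ℚ S := Finsupp.single_mem_supported ℚ 1 h

theorem nilb_lmap {X Y : Type*} (u : X → Y) (l : List X) :
    lmap u (Finsupp.single l 1) = Finsupp.single (l.map u) 1 := by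
  rw [lmap, Finsupp.lmapDomain_apply, Finsupp.mapDomain_single]

theorem nilb_lift {X M : Type*} [AddCommGroup M] [Module ℚ M] (s : List X → M) (l : List X) :
    Finsupp.linearCombination ℚ s (Finsupp.single l 1) = s l := by
  rw [Finsupp.linearCombination_single, one_smul]

theorem nilb_comm {X M : Type*} [AddCommGroup M] [Module ℚ M] (u : X → X) (s : List X → M)
    (f : M →ₗ[ℚ] M) (h : ∀ l, s (l.map u) = f (s l)) (c : LC X) :
    Finsupp.linearCombination ℚ s (lmap u c) = f (Finsupp.linearCombination ℚ s c) := by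
  have : Finsupp.linearCombination ℚ s ∘ₗ lmap u = f ∘ₗ Finsupp.linearCombination ℚ s :=
    Finsupp.lhom_ext' fun l => LinearMap.ext_ring (by
      simp only [LinearMap.comp_apply, Finsupp.lsingle_apply, nilb_lmap, nilb_lift, h])
  exact LinearMap.congr_fun this c

/-- Extension by translation. -/
noncomputable def nilb_tr {H : Type} [Group H] (t : List H → LC H) : List H → LC H
  | [] => 0
  | x :: l => lmap (x * ·) (t ((x :: l).map (x⁻¹ * ·)))

theorem nilb_tr_map {H : Type} [Group H] (t : List H → LC H) (g : H) (l : List H) :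
    nilb_tr t (l.map (g * ·)) = lmap (g * ·) (nilb_tr t l) := by
  cases l with
  | nil => exact (map_zero _).symm
  | cons x l =>
    have e : ((g * x) :: l.map (g * ·)).map ((g * x)⁻¹ * ·) = (x :: l).map (x⁻¹ * ·) := by
      rw [← List.map_cons (f := (g * ·)), List.map_map]
      exact List.map_congr_left fun y _ => by simp [mul_assoc]
    rw [List.map_cons, nilb_tr, nilb_tr, e, lmap_lmap]
    simp only [mul_assoc]

theorem nilb_stage {H : Type} [Group H] (𝒬 : Set (List H))
    (m : ℕ) (hinv : ∀ (g : H), ∀ l ∈ 𝒬, l.map (g * ·) ∈ 𝒬) (hshort : ∀ l, l.length ≤ 1 → l ∈ 𝒬)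
    (hac : ∀ n < m, ∀ c ∈ Finsupp.supported ℚ ℚ 𝒬, c ∈ Len H n → lb H c = 0 →
      ∃ w ∈ Finsupp.supported ℚ ℚ 𝒬, w ∈ Len H (n + 1) ∧ lb H w = c) (n : ℕ) (hn : n ≤ m) :
    ∃ s s' : List H → LC H, (∀ g l, s (l.map (g * ·)) = lmap (g * ·) (s l)) ∧
      (∀ g l, s' (l.map (g * ·)) = lmap (g * ·) (s' l)) ∧ ∀ c ∈ Len H n,
        Finsupp.linearCombination ℚ s c ∈ Len H (n + 1) ∧
        lb H (Finsupp.linearCombination ℚ s c) + Finsupp.linearCombination ℚ s' (lb H c) - c ∈
          Finsupp.supported ℚ ℚ 𝒬 := by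
  have lin : ∀ (k : ℕ) (s s' : List H → LC H), (∀ l : List H, l.length = k → s l ∈ Len H (k + 1) ∧
      lb H (s l) + Finsupp.linearCombination ℚ s' (lb H (Finsupp.single l 1)) -
        Finsupp.single l 1 ∈ Finsupp.supported ℚ ℚ 𝒬) → ∀ c ∈ Len H k,
      Finsupp.linearCombination ℚ s c ∈ Len H (k + 1) ∧
      lb H (Finsupp.linearCombination ℚ s c) + Finsupp.linearCombination ℚ s' (lb H c) - c ∈
        Finsupp.supported ℚ ℚ 𝒬 := fun k s s' h c hc =>
    ⟨nilb_ext _ _ (fun l hl => by rw [nilb_lift]; exact (h l hl).1) hc,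
      nilb_ext (lb H ∘ₗ Finsupp.linearCombination ℚ s + Finsupp.linearCombination ℚ s' ∘ₗ lb H -
        LinearMap.id) _ (fun l hl => by
          simpa only [LinearMap.sub_apply, LinearMap.add_apply, LinearMap.comp_apply,
            LinearMap.id_apply, nilb_lift] using (h l hl).2) hc⟩
  induction n with
  | zero =>
    refine ⟨0, 0, fun _ _ => (map_zero _).symm, fun _ _ => (map_zero _).symm,
      lin 0 0 0 fun l hl => ⟨zero_mem _, ?_⟩⟩
    have h := nilb_single (hshort l (by omega))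
    simpa using h
  | succ n ih =>
    obtain ⟨s, s', e, -, hs⟩ := ih (by omega)
    have h1 : ∀ l : List H, ∃ t : LC H, l.length = n + 1 → t ∈ Len H (n + 1 + 1) ∧
        lb H t + Finsupp.linearCombination ℚ s (lb H (Finsupp.single l 1)) -
          Finsupp.single l 1 ∈ Finsupp.supported ℚ ℚ 𝒬 := fun l => by
      by_cases hl : l.length = n + 1
      · have hl' : Finsupp.single l (1 : ℚ) ∈ Len H (n + 1) := nilb_single hl
        obtain ⟨h2, h3⟩ := hs _ (lb_len hl')
        have h4 := sub_mem hl' h2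
        rw [lb_lb, map_zero, add_zero, ← neg_mem_iff, neg_sub, ← map_sub] at h3
        obtain ⟨q, hq, hq', h5⟩ := hac n (by omega) _ h3 (lb_len h4) (lb_lb _)
        refine ⟨cone 1 (_ - q), fun _ => ⟨cone_len 1 (sub_mem h4 hq'), ?_⟩⟩
        rw [lb_cone, map_sub _ _ q, h5, sub_self, map_zero]
        convert neg_mem hq using 1
        abel
      · exact ⟨0, fun h => absurd h hl⟩
    choose t ht using h1
    refine ⟨nilb_tr t, s, nilb_tr_map t, e, lin _ _ _ fun l hl => ?_⟩
    cases l with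
    | nil => simp at hl
    | cons x l =>
      obtain ⟨h2, h3⟩ := ht ((x :: l).map (x⁻¹ * ·)) (by rwa [List.length_map])
      refine ⟨lmap_len _ h2, ?_⟩
      have h4 := nilb_ext (lmap (x * ·)) (Finsupp.supported ℚ ℚ 𝒬)
        (fun l hl => by rw [nilb_lmap]; exact nilb_single (hinv x l hl)) h3
      have e2 : ((x :: l).map (x⁻¹ * ·)).map (x * ·) = x :: l := by
        rw [List.map_map]
        exact (List.map_congr_left fun y _ => by simp).trans (List.map_id _)
      rwa [map_sub, map_add, ← lb_lmap, ← nilb_comm _ s _ (e x), ← lb_lmap, nilb_lmap, e2] at h4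

/-- Equivariant contraction modulo an acyclic invariant subcomplex. Plan: by induction on `n ≤ m` construct `s : List H → LC H` with
`s (l.map (g * ·)) = lmap (g * ·) (s l)` for all `l`, `s l ∈ Len (n+1)` and `lb (s l) + lift s' (lb [l]) - [l] ∈ supported 𝒬` for `l.length = n` (`s'` the map of the previous stage;
`s = 0` for `n ≤ 1`). For `l` with head `1`: `w = [l] - s' (lb [l])` has `lb w ∈ supported 𝒬`, a cycle of length `n - 1 < m`, so `lb w = lb q`, and `s l = cone 1 (w - q)`; extend by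
translation. Then `v z = v (lb (s z)) + (v ∘ s') (lb z) - v (𝒬) = 0` by `lift_J`. -/
theorem carrier {H : Type} [Group H] {M : Type*} [AddCommGroup M] [Module ℚ M] (𝒬 : Set (List H))
    (m : ℕ) (hinv : ∀ (g : H), ∀ l ∈ 𝒬, l.map (g * ·) ∈ 𝒬) (hshort : ∀ l, l.length ≤ 1 → l ∈ 𝒬)
    (hac : ∀ n < m, ∀ c ∈ Finsupp.supported ℚ ℚ 𝒬, c ∈ Len H n → lb H c = 0 →
      ∃ w ∈ Finsupp.supported ℚ ℚ 𝒬, w ∈ Len H (n + 1) ∧ lb H w = c)
    (v : List H → M) (hv : ∀ g l, v (l.map (g * ·)) = v l)
    (hvb : ∀ c, Finsupp.linearCombination ℚ v (lb H c) = 0) (hv0 : ∀ l ∈ 𝒬, v l = 0)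
    {n : ℕ} (hn : n ≤ m) {z : LC H} (hz : z ∈ Len H n) (hc : lb H z ∈ Jsub fun g x : H => g * x) :
    Finsupp.linearCombination ℚ v z = 0 := by
  obtain ⟨s, s', -, e, hs⟩ := nilb_stage 𝒬 m hinv hshort hac n hn
  have h1 := nilb_ext (Finsupp.linearCombination ℚ v) ⊥
    (fun l hl => by rw [nilb_lift, hv0 l hl]; exact zero_mem _) (hs z hz).2
  have h2 := lift_J (fun g x : H => g * x) (fun l => Finsupp.linearCombination ℚ v (s' l))
    (fun g l => by
      rw [e g l]
      exact nilb_comm _ v LinearMap.id (hv g) _) hc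
  have h3 : ∀ c, Finsupp.linearCombination ℚ v (Finsupp.linearCombination ℚ s' c) =
      Finsupp.linearCombination ℚ (fun l => Finsupp.linearCombination ℚ v (s' l)) c := fun c =>
    Finsupp.apply_linearCombination ℚ _ s' c
  rwa [map_sub, map_add, hvb, h3, h2, add_zero, zero_sub, Submodule.mem_bot, neg_eq_zero] at h1

end Pool.Agent.SR
end PartNilB

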