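import Pool.Agent.MP_24d90f_al.Defs

section PartRDefs
/-! Finite dimensional representations, characters. -/

open CategoryTheory

namespace Pool.Agent.SR

variable (F : Type) [Field F] (G : Type) [Group G]

structure FR : Type 1 where
  W : ModuleCat.{0} F
  fin : Module.Finite F W
  ρ : Representation F G W

variable {F G}

instance FR.instFin (r : FR F G) : Module.Finite F r.W := r.fin

noncomputable def FR.char (r : FR F G) (g : G) : F := LinearMap.trace F r.W (r.ρ g)

noncomputable def FR.dim (r : FR F G) : ℕ := Module.finrank F r.W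

/-- Additivity on short exact sequences. -/
def Addv {Q : Type*} [AddCommGroup Q] (a : FR F G → Q) : Prop :=
  ∀ (r1 r r2 : FR F G) (i : r1.W →ₗ[F] r.W) (π : r.W →ₗ[F] r2.W), Function.Injective i →
    Function.Exact i π → Function.Surjective π → (∀ g u, i (r1.ρ g u) = r.ρ g (i u)) →
    (∀ g u, π (r.ρ g u) = r2.ρ g (π u)) → a r = a r1 + a r2

noncomputable def FR.triv : FR F G := ⟨ModuleCat.of F F, inferInstance, Representation.trivial F G F⟩

noncomputable def FR.tensor (r s : FR F G) : FR F G :=
  ⟨ModuleCat.of F (TensorProduct F r.W s.W), inferInstance, Representation.tprod r.ρ s.ρ⟩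

noncomputable def FR.res {H : Type} [Group H] (f : H →* G) (r : FR F G) : FR F H :=
  ⟨r.W, r.fin, r.ρ.comp f⟩

noncomputable def FR.dual (r : FR F G) : FR F G :=
  ⟨ModuleCat.of F (Module.Dual F r.W), inferInstance, Representation.dual r.ρ⟩

/-- Apply a functor to a representation. -/
noncomputable def FR.ap (T : ModuleCat.{0} F ⥤ ModuleCat.{0} F) (r : FR F G)
    (h : Module.Finite F (T.obj r.W)) : FR F G :=
  ⟨T.obj r.W, h,
    { toFun := fun g => (T.map (ModuleCat.ofHom (r.ρ g))).hom
      map_one' := by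
        have : ModuleCat.ofHom (r.ρ 1) = 𝟙 r.W := by ext; simp
        rw [this, T.map_id]; rfl
      map_mul' := fun g g' => by
        have : ModuleCat.ofHom (r.ρ (g * g')) =
            ModuleCat.ofHom (r.ρ g') ≫ ModuleCat.ofHom (r.ρ g) := by ext; simp
        rw [this, T.map_comp]; rfl }⟩

/-- The action of a group element as a linear equivalence. -/
noncomputable def FR.eqv (r : FR F G) (g : G) : r.W ≃ₗ[F] r.W :=
  LinearEquiv.ofLinearMap (r.ρ g) (r.ρ g⁻¹)
    (by rw [← Module.End.mul_eq_comp, ← map_mul, mul_inv_cancel, map_one]; rfl)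
    (by rw [← Module.End.mul_eq_comp, ← map_mul, inv_mul_cancel, map_one]; rfl)

/-- The tautological representation of the automorphism group of a module. -/
noncomputable def FR.taut (W : ModuleCat.{0} F) (h : Module.Finite F W) : FR F (W ≃ₗ[F] W) :=
  ⟨W, h, LinearEquiv.automorphismGroup.toLinearMapMonoidHom⟩

/-- Trace on the `i`-th exterior power. -/
noncomputable def ek {V : Type} [AddCommGroup V] [Module F V] (i : ℕ) (g : V →ₗ[F] V) : F :=
  LinearMap.trace F _ (exteriorPower.map i g)

variable (F G) in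
/-- Span of the products of a character with `m` reduced characters. -/
noncomputable def JJ [CharZero F] (m : ℕ) : Submodule ℚ (G → F) :=
  Submodule.span ℚ {f | ∃ (r0 : FR F G) (r : Fin m → FR F G),
    f = fun g => r0.char g * ∏ i, ((r i).char g - (r i).dim)}

end Pool.Agent.SR
end PartRDefs

section PartBN
open CategoryTheory

namespace Pool.Agent.SR

variable {F : Type} [Field F] {G : Type} [Group G]

theorem char_addv : Addv fun r : FR F G => r.char := by
  intro r1 r r2 i π hi hex hπ h1 h2
  funext g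
  obtain ⟨σ, hσ⟩ := π.exists_rightInverse_of_surjective (LinearMap.range_eq_top.2 hπ)
  obtain ⟨l0, hl0⟩ := i.exists_leftInverse_of_injective (LinearMap.ker_eq_bot.2 hi)
  have hσ' : ∀ y, π (σ y) = y := fun y => LinearMap.congr_fun hσ y
  have hl0' : ∀ y, l0 (i y) = y := fun y => LinearMap.congr_fun hl0 y
  set l : r.W →ₗ[F] r1.W := l0 ∘ₗ (LinearMap.id - σ ∘ₗ π) with hl
  have e1 : r.ρ g = (i ∘ₗ r1.ρ g) ∘ₗ l + (r.ρ g ∘ₗ σ) ∘ₗ π := by
    ext w
    obtain ⟨u, hu⟩ := (hex (w - σ (π w))).1 (by rw [map_sub, hσ', sub_self])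
    have e : l w = u := by
      change l0 (w - σ (π w)) = u
      rw [← hu, hl0']
    change r.ρ g w = i (r1.ρ g (l w)) + r.ρ g (σ (π w))
    rw [e, h1, hu, ← map_add, sub_add_cancel]
  have e2 : r1.ρ g ∘ₗ (l ∘ₗ i) = r1.ρ g := by
    ext u
    change r1.ρ g (l0 (i u - σ (π (i u)))) = _
    rw [hex.apply_apply_eq_zero, map_zero, sub_zero, hl0']
  have e3 : π ∘ₗ (r.ρ g ∘ₗ σ) = r2.ρ g := by
    ext u
    change π (r.ρ g (σ u)) = _
    rw [h2, hσ']
  change LinearMap.trace F _ (r.ρ g) = LinearMap.trace F _ (r1.ρ g) + LinearMap.trace F _ (r2.ρ g)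
  rw [e1, map_add, LinearMap.trace_comp_comm' π, e3, LinearMap.comp_assoc,
    LinearMap.trace_comp_comm' _ i, LinearMap.comp_assoc, e2]

theorem char_triv : (FR.triv : FR F G).char = fun _ => 1 := by
  funext g
  change LinearMap.trace F F LinearMap.id = 1
  simp

theorem char_tensor (r s : FR F G) : (r.tensor s).char = fun g => r.char g * s.char g := by
  funext g
  exact LinearMap.trace_tensorProduct' (r.ρ g) (s.ρ g)

theorem char_dual (r : FR F G) : r.dual.char = fun g => r.char g⁻¹ := by
  funext g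
  exact LinearMap.trace_transpose' (r.ρ g⁻¹)

theorem char_one (r : FR F G) : r.char 1 = r.dim := by
  unfold FR.char FR.dim
  rw [map_one, LinearMap.trace_one]

/-- Density: an element of the ring acts as the projection on one isomorphism class. -/
theorem bn_proj {R ι : Type} [Ring R] [Algebra F R] [Finite ι] (N : ι → Type)
    [∀ j, AddCommGroup (N j)] [∀ j, Module F (N j)] [∀ j, Module R (N j)]
    [∀ j, IsScalarTower F R (N j)] [∀ j, Module.Finite F (N j)] [∀ j, IsSimpleModule R (N j)]
    (j₀ : ι) : ∃ x : R, ∀ j, (Nonempty (N j ≃ₗ[R] N j₀) → ∀ v : N j, x • v = v) ∧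
      (¬ Nonempty (N j ≃ₗ[R] N j₀) → ∀ v : N j, x • v = 0) := by
  classical
  cases nonempty_fintype ι
  let P : (∀ j, N j) →ₗ[R] ∀ j, N j :=
    LinearMap.pi fun j => if Nonempty (N j ≃ₗ[R] N j₀) then LinearMap.proj j else 0
  have hP : ∀ m j, P m j = if Nonempty (N j ≃ₗ[R] N j₀) then m j else 0 := fun m j => by
    simp only [P, LinearMap.pi_apply]
    split_ifs <;> rfl
  have hP1 : ∀ j (v : N j), P (Pi.single j v) =
      if Nonempty (N j ≃ₗ[R] N j₀) then Pi.single j v else 0 := fun j v => by
    funext k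
    rw [hP]
    by_cases h : k = j
    · subst h
      split_ifs <;> rfl
    · split_ifs <;> simp [Pi.single_eq_of_ne h]
  have hc : ∀ φ : Module.End R (∀ j, N j), P ∘ₗ φ = φ ∘ₗ P := fun φ => by
    refine LinearMap.pi_ext fun j v => funext fun k => ?_
    have hs : (Nonempty (N j ≃ₗ[R] N j₀) ↔ Nonempty (N k ≃ₗ[R] N j₀)) ∨
        φ (Pi.single j v) k = 0 := by
      rcases LinearMap.bijective_or_eq_zero
        (LinearMap.proj k ∘ₗ φ ∘ₗ LinearMap.single R N j) with h | h
      · exact Or.inl ⟨fun ⟨e⟩ => ⟨(LinearEquiv.ofBijective _ h).symm.trans e⟩,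
          fun ⟨e⟩ => ⟨(LinearEquiv.ofBijective _ h).trans e⟩⟩
      · exact Or.inr (LinearMap.congr_fun h v)
    rw [LinearMap.comp_apply, LinearMap.comp_apply, hP, hP1]
    by_cases h1 : Nonempty (N j ≃ₗ[R] N j₀) <;> by_cases h2 : Nonempty (N k ≃ₗ[R] N j₀)
    · rw [if_pos h1, if_pos h2]
    · rw [if_pos h1, if_neg h2, hs.resolve_left fun h => h2 (h.1 h1)]
    · rw [if_neg h1, if_pos h2, hs.resolve_left fun h => h1 (h.2 h2), map_zero, Pi.zero_apply]
    · rw [if_neg h1, if_neg h2, map_zero, Pi.zero_apply]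
  let f : Module.End (Module.End R (∀ j, N j)) (∀ j, N j) :=
    { toFun := P
      map_add' := P.map_add
      map_smul' := fun φ m => LinearMap.congr_fun (hc φ) m }
  obtain ⟨s, hs⟩ := Module.Finite.fg_top (R := F) (M := ∀ j, N j)
  obtain ⟨x, hx⟩ := jacobson_density f s
  have hall : ∀ m, P m = x • m := fun m => by
    induction hs.ge (trivial : m ∈ ⊤) using Submodule.span_induction with
    | mem m hm => exact hx m hm
    | zero => simp
    | add _ _ _ _ h₁ h₂ => rw [map_add, smul_add, h₁, h₂]
    | smul c m _ h => rw [P.map_smul_of_tower, h, smul_comm]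
  refine ⟨x, fun j => ⟨fun h v => ?_, fun h v => ?_⟩⟩
  · have := congrFun (hall (Pi.single j v)) j
    rw [hP, if_pos h, Pi.smul_apply, Pi.single_eq_same] at this
    exact this.symm
  · have := congrFun (hall (Pi.single j v)) j
    rw [hP, if_neg h, Pi.smul_apply, Pi.single_eq_same] at this
    exact this.symm

theorem bn_zero {Q : Type*} [AddCommGroup Q] {a : FR F G → Q} (ha : Addv a) (r : FR F G)
    [Subsingleton r.W] : a r = 0 := by
  have := ha r r r LinearMap.id LinearMap.id Function.injective_id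
    (fun y => iff_of_true (Subsingleton.elim _ _) ⟨y, rfl⟩) Function.surjective_id
    (fun _ _ => rfl) fun _ _ => rfl
  exact left_eq_add.1 this

theorem bn_iso {Q : Type*} [AddCommGroup Q] {a : FR F G → Q} (ha : Addv a) {r s : FR F G}
    (e : r.ρ.asModule ≃ₗ[MonoidAlgebra F G] s.ρ.asModule) : a r = a s := by
  let z : FR F G := ⟨ModuleCat.of F PUnit, inferInstance, Representation.trivial F G PUnit⟩
  have : Subsingleton z.W := inferInstanceAs (Subsingleton PUnit)
  let e' : r.W ≃ₗ[F] s.W :=
    r.ρ.asModuleEquiv.symm.trans ((e.restrictScalars F).trans s.ρ.asModuleEquiv)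
  have h := ha r s z e'.toLinearMap 0 e'.injective
    (fun y => iff_of_true rfl (e'.surjective y)) (fun y => ⟨0, Subsingleton.elim _ _⟩)
    (fun g u => by
      change s.ρ.asModuleEquiv (e (r.ρ.asModuleEquiv.symm (r.ρ g u))) = _
      rw [Representation.asModuleEquiv_symm_map_rho, map_smul,
        Representation.asModuleEquiv_map_smul, Representation.asAlgebraHom_of]
      rfl) fun _ _ => Subsingleton.elim _ _
  rw [h, bn_zero ha z, add_zero]

theorem bn_span {Q : Type*} [AddCommGroup Q] [Module ℚ Q] {a : FR F G → Q} (ha : Addv a)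
    (r : FR F G) : a r ∈ Submodule.span ℚ
      (a '' {s | IsSimpleModule (MonoidAlgebra F G) s.ρ.asModule}) := by
  induction hn : r.dim using Nat.strong_induction_on generalizing r with
  | _ n ih =>
  rcases subsingleton_or_nontrivial r.W with h0 | h0
  · rw [bn_zero ha]
    exact Submodule.zero_mem _
  by_cases hs : IsSimpleModule (MonoidAlgebra F G) r.ρ.asModule
  · exact Submodule.subset_span ⟨r, hs, rfl⟩
  have : Nontrivial r.ρ.asModule := h0
  obtain ⟨U, hU1, hU2⟩ : ∃ U : Submodule (MonoidAlgebra F G) r.ρ.asModule, U ≠ ⊥ ∧ U ≠ ⊤ := by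
    by_contra hc
    push Not at hc
    exact hs { eq_bot_or_eq_top := fun U => or_iff_not_imp_left.2 (hc U) }
  let U' : Submodule F r.W := (U.restrictScalars F).comap r.ρ.asModuleEquiv.symm.toLinearMap
  have hU : ∀ g, U' ≤ U'.comap (r.ρ g) := fun g u hu => by
    change r.ρ.asModuleEquiv.symm (r.ρ g u) ∈ U
    rw [Representation.asModuleEquiv_symm_map_rho]
    exact U.smul_mem _ hu
  have n1 : U' ≠ ⊥ := fun e => hU1 (eq_bot_iff.2 fun u hu => e.le (show _ ∈ U' from hu))
  have n2 : U' ≠ ⊤ := fun e => hU2 (eq_top_iff.2 fun u _ => e.ge (trivial : u ∈ ⊤))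
  have d1 : Module.finrank F U' < n := hn ▸ Submodule.finrank_lt n2
  have d2 : Module.finrank F (r.W ⧸ U') < n := by
    have e1 := U'.finrank_quotient_add_finrank
    have e2 : Module.finrank F U' ≠ 0 := fun e => n1 (Submodule.finrank_eq_zero.1 e)
    have e3 : Module.finrank F r.W = n := hn
    omega
  let r1 : FR F G := ⟨ModuleCat.of F U', inferInstance, r.ρ.subrepresentation U' hU⟩
  let r2 : FR F G := ⟨ModuleCat.of F (r.W ⧸ U'), inferInstance, r.ρ.quotient U' hU⟩
  rw [ha r1 r r2 U'.subtype U'.mkQ U'.injective_subtype (LinearMap.exact_subtype_mkQ U')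
    U'.mkQ_surjective (fun _ _ => rfl) fun _ _ => rfl]
  exact Submodule.add_mem _ (ih _ d1 r1 rfl) (ih _ d2 r2 rfl)

theorem bn_indep [CharZero F] {Q : Type*} [AddCommGroup Q] [Module ℚ Q] {a : FR F G → Q}
    (ha : Addv a) {n : ℕ} (s : Fin n → FR F G)
    (hs : ∀ j, IsSimpleModule (MonoidAlgebra F G) (s j).ρ.asModule) (m : Fin n → ℚ)
    (h : ∑ j, m j • (s j).char = 0) : ∑ j, m j • a (s j) = 0 := by
  classical
  have htr : ∀ x : MonoidAlgebra F G,
      ∑ j, (m j : F) * LinearMap.trace F _ ((s j).ρ.asAlgebraHom x) = 0 := fun x => by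
    induction x using MonoidAlgebra.induction_linear with
    | zero => simp
    | add x y hx hy => simp only [map_add, mul_add, Finset.sum_add_distrib, hx, hy, add_zero]
    | single g c =>
      have e := congrFun h g
      simp only [Finset.sum_apply, Pi.smul_apply, Rat.smul_def, Pi.zero_apply, FR.char] at e
      simp only [Representation.asAlgebraHom_single, map_smul, smul_eq_mul, mul_left_comm _ c,
        ← Finset.mul_sum, e, mul_zero]
  let R : Setoid (Fin n) :=
    ⟨fun j k => Nonempty ((s j).ρ.asModule ≃ₗ[MonoidAlgebra F G] (s k).ρ.asModule),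
      fun _ => ⟨.refl _ _⟩, fun ⟨e⟩ => ⟨e.symm⟩, fun ⟨e⟩ ⟨e'⟩ => ⟨e.trans e'⟩⟩
  refine Finset.sum_cancels_of_partition_cancels R fun j₀ _ => ?_
  obtain ⟨x, hx⟩ := bn_proj (F := F) (R := MonoidAlgebra F G) (fun j => (s j).ρ.asModule) j₀
  have e1 : ∀ j, (m j : F) * LinearMap.trace F _ ((s j).ρ.asAlgebraHom x) =
      if R j j₀ then (m j : F) * (s j₀).char 1 else 0 := fun j => by
    split_ifs with hj
    · have e : (s j).ρ.asAlgebraHom x = (s j).ρ 1 := by
        rw [map_one]
        exact LinearMap.ext fun v => (hx j).1 hj v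
      obtain ⟨e'⟩ := hj
      rw [e, ← congrFun (bn_iso char_addv e') 1]
      rfl
    · have e : (s j).ρ.asAlgebraHom x = 0 := LinearMap.ext fun v => (hx j).2 hj v
      rw [e, map_zero, mul_zero]
  have e2 := htr x
  rw [Finset.sum_congr rfl fun j _ => e1 j, ← Finset.sum_filter, ← Finset.sum_mul, char_one,
    ← Rat.cast_sum] at e2
  have : Nontrivial (s j₀).W := IsSimpleModule.nontrivial (MonoidAlgebra F G) (s j₀).ρ.asModule
  have e3 : ((s j₀).dim : F) ≠ 0 := Nat.cast_ne_zero.2 Module.finrank_pos.ne'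
  have e4 := Rat.cast_eq_zero.1 ((mul_eq_zero.1 e2).resolve_right e3)
  rw [Finset.sum_congr rfl (g := fun j => m j • a (s j₀)) fun j hj => by
    obtain ⟨e'⟩ := (Finset.mem_filter.1 hj).2
    rw [bn_iso ha e'], ← Finset.sum_smul, e4, zero_smul]

/-- Brauer-Nesbitt in characteristic `0`. Plan: (1) by induction on the dimension every `r` has a finite list of simple `s` (no invariant subspace except `⊥ ≠ ⊤`) with `a r = ∑ a s` and `r.char = ∑ s.char`;
`a` is constant on isomorphism classes and `0` on zero modules. (2) If `∑ j, m j • (s j).char = 0` with `s j` simple then for each `j₀` the sum of the `m j` over `s j ≅ s j₀` is `0`: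
with `R = MonoidAlgebra F G`, `M = ∏ j, (s j).ρ.asModule` is semisimple, the projection `f` on the factors isomorphic to `s j₀` commutes with `End R M` (Schur), so `jacobson_density` gives `x ∈ R` acting as `f`
on a finite spanning set; taking traces gives `(∑_{j ≅ j₀} m j) * dim = 0`. (3) So `∑ n i • (W i).char = 0 → ∑ n i • a (W i) = 0`, i.e. `a` descends to the span of the characters; extend by `LinearMap.exists_extend`. -/
theorem exists_ahat [CharZero F] {Q : Type*} [AddCommGroup Q] [Module ℚ Q] (a : FR F G → Q)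
    (ha : Addv a) : ∃ A : (G → F) →ₗ[ℚ] Q, ∀ r : FR F G, A r.char = a r := by
  have ha' : Addv fun r : FR F G => (a r, r.char) := fun r1 r r2 i π h1 h2 h3 h4 h5 =>
    Prod.ext (ha r1 r r2 i π h1 h2 h3 h4 h5) (char_addv r1 r r2 i π h1 h2 h3 h4 h5)
  set S := Submodule.span ℚ ((fun r : FR F G => (a r, r.char)) ''
    {s | IsSimpleModule (MonoidAlgebra F G) s.ρ.asModule}) with hS
  obtain ⟨L, hL⟩ := (LinearMap.snd ℚ Q (G → F) ∘ₗ S.subtype).exists_leftInverse_of_injective (by
    refine LinearMap.ker_eq_bot'.2 fun p hp => ?_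
    obtain ⟨n, m, v, hv⟩ := Submodule.mem_span_set'.1 p.2
    choose s hs hsv using fun j => (v j).2
    have e1 : ∑ j, m j • a (s j) = p.1.1 := by
      rw [← hv, Prod.fst_sum]
      exact Finset.sum_congr rfl fun j _ => by rw [← hsv j]; rfl
    have e2 : ∑ j, m j • (s j).char = p.1.2 := by
      rw [← hv, Prod.snd_sum]
      exact Finset.sum_congr rfl fun j _ => by rw [← hsv j]; rfl
    exact Subtype.ext (Prod.ext (e1.symm.trans (bn_indep ha s hs m (e2.trans hp))) hp))
  refine ⟨LinearMap.fst ℚ Q (G → F) ∘ₗ S.subtype ∘ₗ L, fun r => ?_⟩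
  exact congrArg (fun p : S => p.1.1) (LinearMap.congr_fun hL ⟨_, bn_span ha' r⟩)

end Pool.Agent.SR
end PartBN

section PartNewt
open CategoryTheory Polynomial

namespace Pool.Agent.SR

variable {F : Type} [Field F]

theorem lamL_finite (l : List ℕ) (M : ModuleCat.{0} F) [Module.Finite F M] :
    Module.Finite F ((lamL F l).obj M) := by
  induction l with
  | nil => exact inferInstanceAs (Module.Finite F (⋀[F]^0 M))
  | cons i l ih =>
    exact inferInstanceAs (Module.Finite F (TensorProduct F (⋀[F]^i M) ((lamL F l).obj M)))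

theorem lamL_sub (i : ℕ) (hi : 0 < i) (l : List ℕ) (M : ModuleCat.{0} F) (h : Subsingleton M) :
    Subsingleton ((lamL F (i :: l)).obj M) := by
  have h1 : Subsingleton (⋀[F]^i M) := by
    rw [← Module.finrank_zero_iff (R := F), exteriorPower.finrank_eq,
      Module.finrank_zero_of_subsingleton, Nat.choose_eq_zero_of_lt hi]
  exact inferInstanceAs (Subsingleton (TensorProduct F (⋀[F]^i M) ((lamL F l).obj M)))

theorem newt_ek_zero {V : Type} [AddCommGroup V] [Module F V] [Module.Finite F V]
    (g : V →ₗ[F] V) : ek 0 g = 1 := by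
  have h : exteriorPower.map 0 g = LinearMap.id := by
    refine exteriorPower.linearMap_ext ?_
    ext1 v
    simp only [LinearMap.compAlternatingMap_apply, exteriorPower.map_apply_ιMulti,
      LinearMap.id_apply]
    congr 1
    exact Subsingleton.elim _ _
  rw [ek, h, LinearMap.trace_id, exteriorPower.finrank_eq, Nat.choose_zero_right, Nat.cast_one]

theorem trace_lamL (l : List ℕ) (M : ModuleCat.{0} F) [Module.Finite F M] (g : M →ₗ[F] M) :
    LinearMap.trace F _ ((lamL F l).map (ModuleCat.ofHom g)).hom = (l.map fun i => ek i g).prod := by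
  induction l with
  | nil => exact newt_ek_zero g
  | cons i l ih =>
    have := lamL_finite l M
    rw [List.map_cons, List.prod_cons, ← ih]
    exact LinearMap.trace_tensorProduct' (exteriorPower.map i g)
      ((lamL F l).map (ModuleCat.ofHom g)).hom

theorem newt_ek_minors {V : Type} [AddCommGroup V] [Module F V] {n : ℕ}
    (b : Module.Basis (Fin n) F V) (g : V →ₗ[F] V) (i : ℕ) :
    ek i g = ∑ s ∈ (Finset.univ : Finset (Fin n)).powersetCard i,
      ((LinearMap.toMatrix b b g).submatrix (Subtype.val : s → Fin n)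
        (Subtype.val : s → Fin n)).det := by
  classical
  rw [ek, LinearMap.trace_eq_matrix_trace F (b.exteriorPower i), Matrix.trace]
  refine Finset.sum_bij (fun s _ => s.val) (fun s _ => ?_) (fun s _ t _ h => Subtype.ext h)
    (fun s hs => ⟨⟨s, (Finset.mem_powersetCard.1 hs).2⟩, Finset.mem_univ _, rfl⟩) fun s _ => ?_
  · exact Finset.mem_powersetCard.2 ⟨Finset.subset_univ _, s.prop⟩
  · rw [Matrix.diag_apply, LinearMap.toMatrix_apply, exteriorPower.basis_repr_apply,
      exteriorPower.basis_apply, exteriorPower.ιMulti_family, exteriorPower.map_apply_ιMulti,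
      exteriorPower.ιMultiDual_apply_ιMulti, ← Matrix.det_transpose,
      ← Matrix.det_submatrix_equiv_self (s.val.orderIsoOfFin s.prop).toEquiv]
    congr 1
    ext a c
    simp only [Matrix.transpose_apply, Matrix.of_apply, Matrix.submatrix_apply,
      LinearMap.toMatrix_apply, Module.Basis.coord_apply, Function.comp_apply]
    rfl

/-- Plan: with a basis `b`, `Module.Basis.exteriorPower` gives the trace as the sum of the principal minors; compare with `Matrix.charpoly_coeff_eq_sum_minors`. -/
theorem ek_charpoly {V : Type} [AddCommGroup V] [Module F V] [Module.Finite F V] (g : V →ₗ[F] V)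
    (i : ℕ) (hi : i ≤ Module.finrank F V) :
    g.charpoly.coeff (Module.finrank F V - i) = (-1) ^ i * ek i g := by
  have h := Matrix.charpoly_coeff_eq_sum_minors
    (LinearMap.toMatrix (Module.finBasis F V) (Module.finBasis F V) g) i (by simpa using hi)
  rw [Fintype.card_fin, LinearMap.charpoly_toMatrix] at h
  rw [h, newt_ek_minors (Module.finBasis F V)]

theorem ek_big {V : Type} [AddCommGroup V] [Module F V] [Module.Finite F V] (g : V →ₗ[F] V)
    (i : ℕ) (hi : Module.finrank F V < i) : ek i g = 0 := by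
  rw [newt_ek_minors (Module.finBasis F V), Finset.powersetCard_eq_empty.2 (by simpa using hi),
    Finset.sum_empty]

theorem newt_der {ι R A : Type} [Fintype ι] [DecidableEq ι] [CommRing R] [CommRing A]
    [Algebra R A] (δ : Derivation R A A) (M : Matrix ι ι A) :
    δ M.det = (M.adjugate * M.map δ).trace := by
  have hp : ∀ (s : Finset ι) (a : ι → A),
      δ (∏ i ∈ s, a i) = ∑ j ∈ s, ∏ i ∈ s, Function.update a j (δ (a j)) i := by
    intro s a
    induction s using Finset.induction_on with
    | empty => simp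
    | insert k s hk ih =>
      rw [Finset.prod_insert hk, Derivation.leibniz, ih, Finset.sum_insert hk,
        Finset.prod_insert hk, Function.update_self, smul_eq_mul, smul_eq_mul, Finset.mul_sum,
        add_comm, mul_comm, Finset.prod_update_of_notMem hk]
      congr 1
      refine Finset.sum_congr rfl fun j hj => ?_
      rw [Finset.prod_insert hk, Function.update_of_ne (by rintro rfl; exact hk hj)]
  have h1 : δ M.det = ∑ j, (M.updateCol j fun i => δ (M i j)).det := by
    simp only [Matrix.det_apply', map_sum]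
    rw [Finset.sum_comm]
    refine Finset.sum_congr rfl fun σ _ => ?_
    rw [Derivation.leibniz, Derivation.map_intCast, smul_zero, add_zero, hp, smul_eq_mul,
      Finset.mul_sum]
    refine Finset.sum_congr rfl fun j _ => ?_
    congr 1
    refine Finset.prod_congr rfl fun i _ => ?_
    by_cases hij : i = j
    · subst hij
      simp
    · simp [hij]
  rw [h1]
  refine Finset.sum_congr rfl fun j _ => ?_
  rw [← Matrix.cramer_apply, Matrix.cramer_eq_adjugate_mulVec]
  rfl

theorem newt_mat {ι R : Type} [Fintype ι] [DecidableEq ι] [CommRing R] (A : Matrix ι ι R) (k : ℕ) :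
    A.charpolyRev.coeff (k + 1) * (k + 1) =
      -∑ j ∈ Finset.range (k + 1), A.charpolyRev.coeff (k - j) * (A ^ (j + 1)).trace := by
  obtain ⟨B, hB⟩ : ∃ B, B = A.map (C : R → R[X]) := ⟨_, rfl⟩
  obtain ⟨M, hM⟩ : ∃ M, M = 1 - (X : R[X]) • B := ⟨_, rfl⟩
  have hq : A.charpolyRev = M.det := by rw [hM, hB]; rfl
  have h1 : M.map (derivative' (R := R)) = -B := by
    ext i j : 2
    by_cases h : i = j <;> simp [hM, hB, h]
  have h2 : M.adjugate = M.det • ∑ j ∈ Finset.range (k + 1), (X : R[X]) ^ j • B ^ j +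
      (X : R[X]) ^ (k + 1) • (M.adjugate * B ^ (k + 1)) := by
    have := mul_neg_geom_sum ((X : R[X]) • B) (k + 1)
    simp only [_root_.smul_pow, ← hM] at this
    rw [← Matrix.mul_smul, ← Matrix.one_mul (∑ j ∈ _, _), ← smul_mul_assoc, ← Matrix.adjugate_mul,
      mul_assoc, this, ← mul_add, sub_add_cancel, mul_one]
  have h3 := newt_der (derivative' (R := R)) M
  rw [h1, h2] at h3
  have h4 : ∀ j, (B ^ (j + 1)).trace = C (A ^ (j + 1)).trace := fun j => by
    rw [hB, ← RingHom.mapMatrix_apply, ← map_pow, RingHom.mapMatrix_apply, AddMonoidHom.map_trace]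
  simp only [mul_neg, add_mul, smul_mul_assoc, Finset.sum_mul, ← pow_succ, Matrix.trace_neg,
    Matrix.trace_add, Matrix.trace_smul, Matrix.trace_sum, h4, smul_eq_mul, Finset.mul_sum] at h3
  rw [← coeff_derivative, hq, show derivative M.det = _ from h3, coeff_neg, coeff_add,
    coeff_X_pow_mul', if_neg (by omega), add_zero, finsetSum_coeff]
  refine congrArg _ (Finset.sum_congr rfl fun j hj => ?_)
  rw [mul_left_comm, coeff_X_pow_mul', if_pos (Nat.le_of_lt_succ (Finset.mem_range.1 hj)),
    coeff_mul_C]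

/-- Newton's identity. Plan: extend scalars to an algebraic closure (matrices: `Matrix.charpoly_map`, traces of powers map), where `trace (g^k) = ∑ μ ∈ roots, μ^k` (generalised eigenspaces, or triangularisation, or induction
on the dimension) and `ek i g = esymm i roots`; `MvPolynomial.psum_eq_mul_esymm_sub_sum`. Alternative: `adjugate (1 - X g) * (1 - X g) = det`, derivative of the determinant. -/
theorem newton_rec {V : Type} [AddCommGroup V] [Module F V] [Module.Finite F V] (g : V →ₗ[F] V)
    (k : ℕ) : LinearMap.trace F V (g ^ (k + 1)) = (-1) ^ k * ((k + 1 : ℕ) : F) * ek (k + 1) g +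
      ∑ i ∈ Finset.range k, (-1) ^ i * ek (i + 1) g * LinearMap.trace F V (g ^ (k - i)) := by
  classical
  let b := Module.Free.chooseBasis F V
  have hc : ∀ i, (LinearMap.toMatrix b b g).charpolyRev.coeff i = (-1) ^ i * ek i g := fun i => by
    rw [← Matrix.reverse_charpoly, LinearMap.charpoly_toMatrix, coeff_reverse,
      LinearMap.charpoly_natDegree]
    rcases le_or_gt i (Module.finrank F V) with h | h
    · rw [revAt_le h, ek_charpoly g i h]
    · rw [revAt_eq_self_of_lt h, ek_big g i h, mul_zero]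
      exact coeff_eq_zero_of_natDegree_lt (by rwa [LinearMap.charpoly_natDegree])
  have h0 : (LinearMap.toMatrix b b g).charpolyRev.coeff 0 = 1 := by
    rw [coeff_zero_eq_eval_zero, Matrix.eval_charpolyRev]
  have h := newt_mat (LinearMap.toMatrix b b g) k
  rw [← Finset.sum_range_reflect, Finset.sum_range_succ'] at h
  simp only [Nat.add_sub_cancel, Nat.sub_zero, Nat.sub_self] at h
  rw [h0, Finset.sum_congr rfl (g := fun i => -((-1) ^ i * ek (i + 1) g *
    LinearMap.trace F V (g ^ (k - i)))) fun i hi => ?_, Finset.sum_neg_distrib, hc,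
    LinearMap.toMatrix_pow, ← LinearMap.trace_eq_matrix_trace] at h
  · push_cast
    linear_combination h
  · have := Finset.mem_range.1 hi
    rw [show k - (k - (i + 1)) = i + 1 by omega, show k - (i + 1) + 1 = k - i by omega, hc,
      LinearMap.toMatrix_pow, ← LinearMap.trace_eq_matrix_trace]
    ring

theorem newt_split {R : Type} [AddCommMonoid R] (φ : List ℕ → R) (k : ℕ) :
    ∑ c : Composition (k + 1), φ c.blocks = φ [k + 1] +
      ∑ i ∈ Finset.range k, ∑ c : Composition (k - i), φ (c.blocks ++ [i + 1]) := by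
  obtain ⟨S, hS⟩ : ∃ S : ℕ → Finset (List ℕ), S = fun n => Finset.univ.map
    ⟨Composition.blocks (n := n), fun _ _ h => Composition.ext h⟩ := ⟨_, rfl⟩
  have e : ∀ n (ψ : List ℕ → R), ∑ c : Composition n, ψ c.blocks = ∑ l ∈ S n, ψ l :=
    fun n ψ => by rw [hS, Finset.sum_map]; rfl
  have m : ∀ n l, l ∈ S n ↔ (∀ i ∈ l, 0 < i) ∧ l.sum = n := fun n l => by
    simp only [hS, Finset.mem_map, Finset.mem_univ, true_and]
    exact ⟨fun ⟨c, h⟩ => h ▸ ⟨fun _ => c.blocks_pos, c.blocks_sum⟩,
      fun h => ⟨⟨l, fun hi => h.1 _ hi, h.2⟩, rfl⟩⟩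
  have h0 : S (k - k) = {[]} := by
    ext l
    rw [m, Finset.mem_singleton, Nat.sub_self]
    refine ⟨fun h => ?_, fun h => by simp [h]⟩
    rcases l with _ | ⟨a, l⟩
    · rfl
    · have := h.1 a (by simp)
      have := h.2
      rw [List.sum_cons] at this
      omega
  have : ∑ l ∈ S (k + 1), φ l =
      ∑ i ∈ Finset.range (k + 1), ∑ l ∈ S (k - i), φ (l ++ [i + 1]) := by
    rw [Finset.sum_sigma']
    refine (Finset.sum_nbij (fun x : (Σ _ : ℕ, List ℕ) => x.2 ++ [x.1 + 1]) ?_ ?_ ?_
      fun _ _ => rfl).symm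
    · rintro ⟨i, l⟩ h
      simp only [Finset.mem_sigma, Finset.mem_range, m] at h
      refine (m _ _).2 ⟨fun a ha => ?_, ?_⟩
      · rcases List.mem_append.1 ha with ha | ha
        · exact h.2.1 a ha
        · rw [List.mem_singleton.1 ha]
          omega
      · simp only [List.sum_append, List.sum_singleton]
        omega
    · rintro ⟨i, l⟩ - ⟨i', l'⟩ - h
      obtain ⟨h1, h2⟩ := List.append_inj' h rfl
      simp only [List.cons.injEq, and_true, Nat.add_right_cancel_iff] at h1 h2
      rw [h1, h2]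
    · intro l hl
      obtain ⟨h1, h2⟩ := (m _ _).1 hl
      rcases List.eq_nil_or_concat' l with rfl | ⟨l', a, rfl⟩
      · simp at h2
      · have ha := h1 a (by simp)
        simp only [List.sum_append, List.sum_singleton] at h2
        refine ⟨⟨a - 1, l'⟩, ?_, by simp [Nat.sub_add_cancel ha]⟩
        simp only [Finset.coe_sigma, Set.mem_sigma_iff, Finset.mem_coe, Finset.mem_range, m]
        exact ⟨by omega, fun i hi => h1 i (by simp [hi]), by omega⟩
  rw [e, this, Finset.sum_range_succ, h0, Finset.sum_singleton, add_comm]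
  exact congrArg _ (Finset.sum_congr rfl fun i _ => (e _ fun l => φ (l ++ [i + 1])).symm)

/-- Unrolling the recursion (pure combinatorics: strong induction on `k`; split a composition by its LAST block, `headI` is unchanged unless the length is `1`). -/
theorem newton_comp {R : Type} [CommRing R] (e p : ℕ → R)
    (h : ∀ k, p (k + 1) = (-1) ^ k * ((k + 1 : ℕ) : R) * e (k + 1) +
      ∑ i ∈ Finset.range k, (-1) ^ i * e (i + 1) * p (k - i)) (k : ℕ) :
    ∑ c : Composition (k + 1), (-1) ^ (k + 1 - c.length) * (c.blocks.headI : R) *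
      (c.blocks.map e).prod = p (k + 1) := by
  induction k using Nat.strong_induction_on with
  | _ k ih =>
    rw [h, show ∑ c : Composition (k + 1), _ = _ from newt_split
      (fun l => (-1) ^ (k + 1 - l.length) * (l.headI : R) * (l.map e).prod) k]
    refine congrArg₂ _ (by simp) (Finset.sum_congr rfl fun i hi => ?_)
    have := Finset.mem_range.1 hi
    obtain ⟨j, hj⟩ : ∃ j, k - i = j + 1 := ⟨k - i - 1, by omega⟩
    rw [hj, ← ih j (by omega), Finset.mul_sum]
    refine Finset.sum_congr rfl fun c _ => ?_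
    have h1 := c.length_le
    have h2 : (c.blocks ++ [i + 1]).headI = c.blocks.headI := by
      have := c.blocks_sum
      rcases hc : c.blocks with _ | ⟨a, l⟩
      · simp [hc] at this
      · rfl
    rw [h2, List.length_append, c.blocks_length, List.length_singleton,
      show k + 1 - (c.length + 1) = i + (j + 1 - c.length) by omega, pow_add, List.map_append,
      List.prod_append]
    simp only [List.map_cons, List.map_nil, List.prod_cons, List.prod_nil]
    ring

end Pool.Agent.SR
end PartNewt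

section PartRing
open CategoryTheory

namespace Pool.Agent.SR

variable {F : Type} [Field F] [CharZero F] {G : Type} [Group G]

theorem ring_char_mem (r : FR F G) : r.char ∈ JJ F G 0 :=
  Submodule.subset_span ⟨r, Fin.elim0, by funext g; simp⟩

theorem ring_mul0 {m : ℕ} {f h : G → F} (hf : f ∈ JJ F G 0) (hh : h ∈ JJ F G m) :
    f * h ∈ JJ F G m := by
  induction hf using Submodule.span_induction with
  | mem f hf =>
    obtain ⟨r0, r, rfl⟩ := hf
    induction hh using Submodule.span_induction with
    | mem h hh =>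
      obtain ⟨s0, s, rfl⟩ := hh
      refine Submodule.subset_span ⟨r0.tensor s0, s, ?_⟩
      funext g
      simp [char_tensor, mul_assoc]
    | zero => simp
    | add a b _ _ ha hb => rw [mul_add]; exact add_mem ha hb
    | smul c a _ ha => rw [mul_smul_comm]; exact Submodule.smul_mem _ _ ha
  | zero => simp
  | add a b _ _ ha hb => rw [add_mul]; exact add_mem ha hb
  | smul c a _ ha => rw [smul_mul_assoc]; exact Submodule.smul_mem _ _ ha

theorem ring_red {m : ℕ} {f h : G → F} (hf : f ∈ JJ F G 0) (hh : h ∈ JJ F G m) :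
    (f - fun _ => f 1) * h ∈ JJ F G (m + 1) := by
  induction hf using Submodule.span_induction with
  | mem f hf =>
    obtain ⟨r0, r, rfl⟩ := hf
    induction hh using Submodule.span_induction with
    | mem h hh =>
      obtain ⟨s0, s, rfl⟩ := hh
      refine Submodule.subset_span ⟨s0, Fin.cons r0 s, ?_⟩
      funext g
      simp only [Finset.univ_eq_empty, Finset.prod_empty, mul_one, Pi.mul_apply, Pi.sub_apply,
        Fin.prod_univ_succ, Fin.cons_zero, Fin.cons_succ, char_one]
      ring
    | zero => simp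
    | add a b _ _ ha hb => rw [mul_add]; exact add_mem ha hb
    | smul c a _ ha => rw [mul_smul_comm]; exact Submodule.smul_mem _ _ ha
  | zero =>
    have : ((0 : G → F) - fun _ => (0 : G → F) 1) * h = 0 := by funext g; simp
    rw [this]; exact zero_mem _
  | add a b _ _ ha hb =>
    have : ((a + b) - fun _ => (a + b) 1) * h =
        (a - fun _ => a 1) * h + (b - fun _ => b 1) * h := by
      funext g; simp only [Pi.mul_apply, Pi.sub_apply, Pi.add_apply]; ring
    rw [this]; exact add_mem ha hb
  | smul c a _ ha =>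
    have : ((c • a) - fun _ => (c • a) 1) * h = c • ((a - fun _ => a 1) * h) := by
      funext g
      simp only [Pi.mul_apply, Pi.sub_apply, Pi.smul_apply, Rat.smul_def]; ring
    rw [this]; exact Submodule.smul_mem _ _ ha

variable (F G) in
/-- The span of the characters as a subring. -/
noncomputable def ring_S : Subring (G → F) where
  carrier := JJ F G 0
  mul_mem' := fun ha hb => ring_mul0 ha hb
  one_mem' := by
    have := ring_char_mem (FR.triv : FR F G)
    rw [char_triv] at this
    exact this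
  add_mem' := fun ha hb => (JJ F G 0).add_mem ha hb
  zero_mem' := (JJ F G 0).zero_mem
  neg_mem' := fun ha => (JJ F G 0).neg_mem ha

theorem ring_ek (r : FR F G) (i : ℕ) : (fun g => ek i (r.ρ g)) ∈ ring_S F G := by
  have h := ring_char_mem (r.ap (lamL F [i]) (lamL_finite [i] r.W))
  have e : (r.ap (lamL F [i]) (lamL_finite [i] r.W)).char = fun g => ek i (r.ρ g) := by
    funext g
    have := trace_lamL [i] r.W (r.ρ g)
    simp only [List.map_cons, List.map_nil, List.prod_cons, List.prod_nil, mul_one] at this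
    exact this
  rw [e] at h
  exact h

theorem ring_pow (r : FR F G) (k : ℕ) :
    (fun g => LinearMap.trace F r.W (r.ρ g ^ k)) ∈ ring_S F G := by
  induction k using Nat.strong_induction_on with
  | _ k ih =>
    rcases k with _ | k
    · have : (fun g => LinearMap.trace F r.W (r.ρ g ^ 0)) = ((r.dim : ℕ) : G → F) := by
        funext g; simp [FR.dim]
      rw [this]; exact natCast_mem _ _
    · have : (fun g => LinearMap.trace F r.W (r.ρ g ^ (k + 1))) =
          (-1) ^ k * ((k + 1 : ℕ) : G → F) * (fun g => ek (k + 1) (r.ρ g)) +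
            ∑ i ∈ Finset.range k, (-1) ^ i * (fun g => ek (i + 1) (r.ρ g)) *
              fun g => LinearMap.trace F r.W (r.ρ g ^ (k - i)) := by
        funext g
        rw [newton_rec]
        simp only [Pi.add_apply, Pi.mul_apply, Pi.pow_apply, Pi.neg_apply, Pi.one_apply,
          Pi.natCast_apply, Finset.sum_apply]
      rw [this]
      refine add_mem (mul_mem (mul_mem (pow_mem (neg_mem (one_mem _)) _) (natCast_mem _ _))
        (ring_ek r _)) (sum_mem fun i _ => mul_mem (mul_mem (pow_mem (neg_mem (one_mem _)) _)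
          (ring_ek r _)) (ih _ (by omega)))

theorem ring_base (r : FR F G) (N j : ℕ) :
    (fun g => LinearMap.trace F r.W (r.ρ g⁻¹ * r.ρ g ^ j * (r.ρ g - 1) ^ N)) ∈ ring_S F G := by
  induction N generalizing j with
  | zero =>
    rcases j with _ | j
    · have h := ring_char_mem r.dual
      rw [char_dual] at h
      simp only [pow_zero, mul_one]
      exact h
    · have : (fun g => LinearMap.trace F r.W (r.ρ g⁻¹ * r.ρ g ^ (j + 1) * (r.ρ g - 1) ^ 0)) =
          fun g => LinearMap.trace F r.W (r.ρ g ^ j) := by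
        funext g
        rw [pow_zero, mul_one, pow_succ', ← mul_assoc, ← map_mul, inv_mul_cancel, map_one, one_mul]
      rw [this]; exact ring_pow r j
  | succ N ih =>
    have : (fun g => LinearMap.trace F r.W (r.ρ g⁻¹ * r.ρ g ^ j * (r.ρ g - 1) ^ (N + 1))) =
        (fun g => LinearMap.trace F r.W (r.ρ g⁻¹ * r.ρ g ^ (j + 1) * (r.ρ g - 1) ^ N)) -
          fun g => LinearMap.trace F r.W (r.ρ g⁻¹ * r.ρ g ^ j * (r.ρ g - 1) ^ N) := by
      funext g
      rw [Pi.sub_apply, ← map_sub, pow_succ' (r.ρ g - 1), pow_succ (r.ρ g)]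
      congr 1
      noncomm_ring
    rw [this]; exact sub_mem (ih _) (ih _)

theorem ring_coeff (r : FR F G) (e : ℕ) (he : e ≤ r.dim) :
    (fun g => (r.ρ g).charpoly.coeff e) ∈ ring_S F G := by
  have : (fun g => (r.ρ g).charpoly.coeff e) =
      (-1) ^ (r.dim - e) * fun g => ek (r.dim - e) (r.ρ g) := by
    funext g
    have h := ek_charpoly (r.ρ g) (r.dim - e) (Nat.sub_le _ _)
    rw [show Module.finrank F r.W - (r.dim - e) = e from Nat.sub_sub_self he] at h
    rw [h]
    simp only [Pi.mul_apply, Pi.pow_apply, Pi.neg_apply, Pi.one_apply]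
  rw [this]
  exact mul_mem (pow_mem (neg_mem (one_mem _)) _) (ring_ek r _)

theorem ring_coeff' (r : FR F G) (j : ℕ) :
    (fun g => (r.ρ g - 1).charpoly.coeff j) ∈ ring_S F G := by
  have : (fun g => (r.ρ g - 1).charpoly.coeff j) = ∑ e ∈ Finset.range (r.dim + 1),
      (fun g => (r.ρ g).charpoly.coeff e) * ((e.choose j : ℕ) : G → F) := by
    funext g
    have h := LinearMap.charpoly_sub_smul (r.ρ g) (1 : F)
    rw [one_smul, Polynomial.C_1, Polynomial.comp_eq_sum_left,
      Polynomial.sum_over_range' _ (fun n => by simp) (r.dim + 1)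
        (by rw [LinearMap.charpoly_natDegree]; exact Nat.lt_succ_self _)] at h
    rw [h, Polynomial.finsetSum_coeff, Finset.sum_apply]
    refine Finset.sum_congr rfl fun e _ => ?_
    rw [Polynomial.coeff_C_mul, Polynomial.coeff_X_add_one_pow]
    rfl
  rw [this]
  exact sum_mem fun e he => mul_mem (ring_coeff r e (Nat.lt_succ_iff.1 (Finset.mem_range.1 he)))
    (natCast_mem _ _)

omit [CharZero F] in
theorem ring_CH (r : FR F G) (g : G) : (r.ρ g - 1) ^ r.dim =
    -∑ j ∈ Finset.range r.dim, (r.ρ g - 1).charpoly.coeff j • (r.ρ g - 1) ^ j := by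
  have h := LinearMap.aeval_self_charpoly (r.ρ g - 1)
  rw [(LinearMap.charpoly_monic (r.ρ g - 1)).as_sum, LinearMap.charpoly_natDegree] at h
  simp only [map_add, map_pow, Polynomial.aeval_X, map_sum, map_mul, Polynomial.aeval_C,
    ← Algebra.smul_def] at h
  exact eq_neg_of_add_eq_zero_left h

theorem ring_main (r : FR F G) (m N : ℕ) (hN : r.dim * m ≤ N) :
    (fun g => LinearMap.trace F r.W (r.ρ g⁻¹ * (r.ρ g - 1) ^ N)) ∈ JJ F G m := by
  induction m generalizing N with
  | zero =>
    have h := ring_base r N 0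
    simp only [pow_zero, mul_one] at h
    exact h
  | succ m ih =>
    obtain ⟨M, rfl⟩ : ∃ M, N = r.dim + M := ⟨N - r.dim, by rw [Nat.mul_succ] at hN; omega⟩
    have hM : r.dim * m ≤ M := by rw [Nat.mul_succ] at hN; omega
    have : (fun g => LinearMap.trace F r.W (r.ρ g⁻¹ * (r.ρ g - 1) ^ (r.dim + M))) =
        -∑ j ∈ Finset.range r.dim,
          ((fun g => (r.ρ g - 1).charpoly.coeff j) -
            fun _ => (fun g => (r.ρ g - 1).charpoly.coeff j) 1) *
          fun g => LinearMap.trace F r.W (r.ρ g⁻¹ * (r.ρ g - 1) ^ (j + M)) := by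
      funext g
      rw [pow_add, ring_CH, neg_mul, mul_neg, map_neg, Finset.sum_mul, Finset.mul_sum, map_sum,
        Pi.neg_apply, Finset.sum_apply]
      congr 1
      refine Finset.sum_congr rfl fun j hj => ?_
      have h0 : (r.ρ 1 - 1).charpoly.coeff j = 0 := by
        rw [map_one, sub_self, LinearMap.charpoly_zero, Polynomial.coeff_X_pow]
        exact if_neg (Finset.mem_range.1 hj).ne
      simp only [Pi.mul_apply, Pi.sub_apply, h0, sub_zero]
      rw [smul_mul_assoc, mul_smul_comm, map_smul, smul_eq_mul, pow_add]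
    rw [this]
    exact neg_mem (sum_mem fun j _ => ring_red (ring_coeff' r j) (ih _ (by omega)))

/-- Plan: `JJ 0` is the span of all characters, a subring containing the constants `ℚ`; it contains `g ↦ ek i (ρ g)` (character of `r.ap (lamL F [i])`), hence `g ↦ trace (ρ g ^ k)` (`newton_rec`), `g ↦ trace (ρ g⁻¹)`, and the
coefficients `c j g` of the characteristic polynomial of `1 - ρ g` (`charpoly (1 - u) = (-1)^n • (charpoly u).comp (1 - X)`, or Newton's identities applied to `1 - ρ g`). An element `h ∈ JJ 0` with `h 1 = 0` lies in the span of the `char - dim`, so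
`h * JJ m ⊆ JJ (m+1)`; `c j 1 = 0` for `j < n`. Cayley-Hamilton: `A^N = -∑ j < n, c j • A^(N - n + j)`. Induction on `m`. -/
theorem trace_mem_JJ (r : FR F G) (m N : ℕ) (hN : r.dim * m ≤ N) :
    (fun g => LinearMap.trace F r.W (r.ρ g⁻¹ * (1 - r.ρ g) ^ N)) ∈ JJ F G m := by
  have : (fun g => LinearMap.trace F r.W (r.ρ g⁻¹ * (1 - r.ρ g) ^ N)) =
      ((-1 : ℚ) ^ N) • fun g => LinearMap.trace F r.W (r.ρ g⁻¹ * (r.ρ g - 1) ^ N) := by
    funext g
    rw [← neg_sub (r.ρ g) 1, ← neg_one_smul F (r.ρ g - 1), smul_pow, mul_smul_comm, map_smul,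
      Pi.smul_apply, Rat.smul_def, smul_eq_mul]
    push_cast
    rfl
  rw [this]
  exact Submodule.smul_mem _ _ (ring_main r m N hN)

/-- Binomial expansion. -/
theorem trace_expand (r : FR F G) (N : ℕ) (g : G) :
    LinearMap.trace F r.W (r.ρ g⁻¹ * (1 - r.ρ g) ^ (N + 2)) = r.char g⁻¹ - ((N + 2 : ℕ) : F) * r.dim +
      ∑ k ∈ Finset.range (N + 1), (-1) ^ k * ((N + 2).choose (k + 2) : F) *
        LinearMap.trace F r.W (r.ρ g ^ (k + 1)) := by
  have hc : Commute (-r.ρ g) (1 : r.W →ₗ[F] r.W) := Commute.one_right _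
  have hi : r.ρ g⁻¹ * r.ρ g = 1 := by rw [← map_mul, inv_mul_cancel, map_one]
  rw [sub_eq_neg_add, hc.add_pow, Finset.sum_range_succ', Finset.sum_range_succ', mul_add, mul_add,
    map_add, map_add, Finset.mul_sum, map_sum]
  have h1 : ∀ k ∈ Finset.range (N + 1), LinearMap.trace F r.W (r.ρ g⁻¹ *
      ((-r.ρ g) ^ (k + 1 + 1) * 1 ^ (N + 2 - (k + 1 + 1)) * ((N + 2).choose (k + 1 + 1) : ℕ))) =
      (-1) ^ k * ((N + 2).choose (k + 2) : F) * LinearMap.trace F r.W (r.ρ g ^ (k + 1)) := by
    intro k _
    rw [one_pow, mul_one, ← neg_one_smul F (r.ρ g), smul_pow, ← nsmul_eq_mul', mul_smul_comm,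
      mul_smul_comm, map_nsmul, map_smul, pow_succ' (r.ρ g) (k + 1), ← mul_assoc, hi, one_mul,
      nsmul_eq_mul, smul_eq_mul]
    ring
  rw [Finset.sum_congr rfl h1]
  simp only [zero_add, pow_one, one_pow, mul_one, Nat.choose_one_right, pow_zero,
    Nat.choose_zero_right, Nat.cast_one]
  rw [← nsmul_eq_mul', mul_smul_comm, mul_neg, hi, map_nsmul, map_neg, LinearMap.trace_one,
    nsmul_eq_mul, FR.char, FR.dim]
  ring

/-- The `(N+2)`-th finite difference of `x ↦ (x - 1)^t` vanishes. -/
theorem findiff (N t : ℕ) (ht : 0 < t) (hN : t < N + 2) :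
    ∑ k ∈ Finset.range (N + 1), (-1 : ℚ) ^ k * ((N + 2).choose (k + 2) : ℚ) * ((k : ℚ) + 1) ^ t =
      -(-1) ^ t := by
  have h := fwdDiff_iter_eq_sum_shift (1 : ℚ) (fun x : ℚ => x ^ t) (N + 2) (-1)
  rw [fwdDiff_iter_pow_eq_zero_of_lt hN, Finset.sum_range_succ', Finset.sum_range_succ'] at h
  have h1 : ∀ k ∈ Finset.range (N + 1),
      ((-1 : ℤ) ^ (N + 2 - (k + 1 + 1)) * ((N + 2).choose (k + 1 + 1) : ℕ)) •
        ((-1 : ℚ) + (k + 1 + 1) • (1 : ℚ)) ^ t =
      (-1) ^ N * ((-1 : ℚ) ^ k * ((N + 2).choose (k + 2) : ℚ) * ((k : ℚ) + 1) ^ t) := by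
    intro k hk
    obtain ⟨d, rfl⟩ : ∃ d, N = k + d := ⟨N - k, by have := Finset.mem_range.1 hk; omega⟩
    rw [show k + d + 2 - (k + 1 + 1) = d by omega, zsmul_eq_mul, nsmul_eq_mul]
    push_cast
    rw [show (-1 : ℚ) + ((k : ℚ) + 1 + 1) * 1 = k + 1 by ring, pow_add]
    have : ((-1 : ℚ) ^ k) * (-1) ^ k = 1 := by rw [← mul_pow]; simp
    linear_combination (-((-1 : ℚ) ^ d * ((k + d + 2).choose (k + 2) : ℚ) * ((k : ℚ) + 1) ^ t)) * this
  rw [Finset.sum_congr rfl h1, ← Finset.mul_sum] at h
  simp only [Pi.zero_apply, zero_add, one_smul, neg_add_cancel, zero_pow ht.ne', smul_zero,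
    add_zero, Nat.sub_zero, Nat.choose_zero_right, Nat.cast_one, mul_one, zero_smul,
    zsmul_eq_mul] at h
  push_cast at h
  have h2 : ((-1 : ℚ) ^ N) * (-1) ^ N = 1 := by rw [← mul_pow]; simp
  rw [pow_add] at h
  linear_combination (-(-1 : ℚ) ^ N) * h - (∑ k ∈ Finset.range (N + 1),
    (-1 : ℚ) ^ k * ((N + 2).choose (k + 2) : ℚ) * ((k : ℚ) + 1) ^ t + (-1) ^ t) * h2

end Pool.Agent.SR
end PartRing

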