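import Pool.Agent.MP_24d90f_al.PG
import Pool.Agent.MP_24d90f_al.PL
import Pool.Agent.MP_24d90f_al.PR

section PartKDefs
/-! Simplices of the nerve given by trivialised vertices; duality. -/

open CategoryTheory

namespace Pool.Agent.SR

variable {F : Type} [Field F]

/-- The unique non-degenerate index of `Idx 0 0`. -/
def nd (α : Idx 0 0) : Prop := ∀ k, α.1.2.1 k = 0 ∧ α.1.2.2 k = 1

def sp {p : ℕ} (t : Idx p 0) : Idx 0 0 := ⟨(0, t.1.2), le_rfl, t.2.2⟩

/-- A vertex of the nerve together with an identification of its vector space with `W`. -/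
structure TO (W : ModuleCat.{0} F) : Type 1 where
  O : Idx 0 0 → ModuleCat.{0} F
  c : ∀ α, O α →ₗ[F] W
  s : ∀ α, W →ₗ[F] O α
  cs : ∀ α, nd α → ∀ w, c α (s α w) = w
  sc : ∀ α, nd α → ∀ u, s α (c α u) = u
  sub : ∀ α, ¬ nd α → Subsingleton (O α)

theorem nd_mid {a b c : Idx 0 0} (h : a ≤ b) (h' : b ≤ c) (ha : nd a) (hc : nd c) : nd b := by
  intro k
  have h1 : a.1.2.1 k ≤ b.1.2.1 k := h.2.1 k
  have h2 : a.1.2.2 k ≤ b.1.2.2 k := h.2.2 k
  have h3 : b.1.2.1 k ≤ c.1.2.1 k := h'.2.1 k
  have h4 : b.1.2.2 k ≤ c.1.2.2 k := h'.2.2 k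
  have := ha k; have := hc k
  omega

/-- Vertices over `W`, codiscrete in the nerve direction. -/
structure PW (W : ModuleCat.{0} F) : Type 1 where
  v : TO W
  α : Idx 0 0

instance pwPre (W : ModuleCat.{0} F) : Preorder (PW W) := Preorder.lift PW.α

noncomputable def bigM (W : ModuleCat.{0} F) : PW W ⥤ ModuleCat.{0} F where
  obj a := a.v.O a.α
  map {a b} _ := ModuleCat.ofHom ((b.v.s b.α).comp (a.v.c a.α))
  map_id a := by
    ext u
    by_cases h : nd a.α
    · simpa using a.v.sc _ h u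
    · have := a.v.sub _ h; exact Subsingleton.elim _ _
  map_comp {a b c} f g := by
    ext u
    by_cases hb : nd b.α
    · simp [b.v.cs _ hb]
    · by_cases ha : nd a.α
      · have h1 : a ≤ b := leOfHom f
        have h2 : b ≤ c := leOfHom g
        have hc : ¬ nd c.α := fun hc => hb (nd_mid (a := a.α) (c := c.α) h1 h2 ha hc)
        have := c.v.sub _ hc; exact Subsingleton.elim _ _
      · have := a.v.sub _ ha
        rw [Subsingleton.elim u 0]; simp

theorem kap_mono {W : ModuleCat.{0} F} (p : ℕ) (v : ℕ → TO W) :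
    Monotone fun t : Idx p 0 => (⟨v t.1.1, sp t⟩ : PW W) :=
  fun _ _ h => (show sp _ ≤ sp _ from ⟨le_rfl, h.2⟩)

/-- The `p`-simplex of the nerve with vertices `v 0, .., v p`. -/
noncomputable def kap {W : ModuleCat.{0} F} (p : ℕ) (v : ℕ → TO W) : Raw (ModuleCat.{0} F) :=
  ⟨p, 0, (kap_mono p v).functor ⋙ bigM W⟩

open Classical in
noncomputable def base (W : ModuleCat.{0} F) : TO W where
  O α := ModuleCat.of F (PLift (nd α) → W)
  c α := if h : nd α then LinearMap.proj (R := F) (φ := fun _ : PLift (nd α) => W) ⟨h⟩ else 0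
  s α := LinearMap.pi fun _ => LinearMap.id
  cs α h w := by rw [dif_pos h]; rfl
  sc α h u := by rw [dif_pos h]; rfl
  sub α h := ⟨fun _ _ => funext fun i => absurd i.down h⟩

/-- Change of the identification. -/
noncomputable def TO.cong {W W' : ModuleCat.{0} F} (φ : W ≃ₗ[F] W') (v : TO W) : TO W' where
  O := v.O
  c α := φ.toLinearMap.comp (v.c α)
  s α := (v.s α).comp φ.symm.toLinearMap
  cs α h w := by simp [v.cs α h]
  sc α h u := by simp [v.sc α h]
  sub := v.sub

/-- Apply a functor that preserves zero objects. -/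
noncomputable def TO.map (T : ModuleCat.{0} F ⥤ ModuleCat.{0} F)
    (hT : ∀ M : ModuleCat.{0} F, Subsingleton M → Subsingleton (T.obj M)) {W : ModuleCat.{0} F}
    (v : TO W) : TO (T.obj W) where
  O α := T.obj (v.O α)
  c α := (T.map (ModuleCat.ofHom (v.c α))).hom
  s α := (T.map (ModuleCat.ofHom (v.s α))).hom
  cs α h w := by
    have : ModuleCat.ofHom (v.s α) ≫ ModuleCat.ofHom (v.c α) = 𝟙 W := by
      ext u; simpa using v.cs α h u
    have h2 := congrArg (fun f => (T.map f).hom w) this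
    simpa using h2
  sc α h w := by
    have : ModuleCat.ofHom (v.c α) ≫ ModuleCat.ofHom (v.s α) = 𝟙 (v.O α) := by
      ext u; simpa using v.sc α h u
    have h2 := congrArg (fun f => (T.map f).hom w) this
    simpa using h2
  sub α h := hT _ (v.sub α h)

/-- Order reversal of the index poset. -/
def rev {p : ℕ} {q : ℕ →₀ ℕ} (t : Idx p q) : Idx p q :=
  ⟨(p - t.1.1, fun k => q k + 1 - t.1.2.2 k, fun k => q k + 1 - t.1.2.1 k), Nat.sub_le _ _,
    fun k => ⟨Nat.sub_le_sub_left (t.2.2 k).1 _, Nat.sub_le _ _⟩⟩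

theorem rev_le {p : ℕ} {q : ℕ →₀ ℕ} {a b : Idx p q} (h : a ≤ b) : rev b ≤ rev a :=
  ⟨Nat.sub_le_sub_left h.1 _, fun k => Nat.sub_le_sub_left (h.2.2 k) _,
    fun k => Nat.sub_le_sub_left (h.2.1 k) _⟩

theorem nd_rev {α : Idx 0 0} : nd (rev α) ↔ nd α := by
  refine forall_congr' fun k => ?_
  have := α.2.2 k
  simp only [rev, Finsupp.coe_zero, Pi.zero_apply] at this ⊢
  omega

noncomputable def TO.dual {W : ModuleCat.{0} F} (v : TO W) :
    TO (ModuleCat.of F (Module.Dual F W)) where
  O α := ModuleCat.of F (Module.Dual F (v.O (rev α)))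
  c α := (v.s (rev α)).dualMap
  s α := (v.c (rev α)).dualMap
  cs α h w := by ext u; simp [v.cs _ (nd_rev.2 h)]
  sc α h w := by ext u; simp [v.sc _ (nd_rev.2 h)]
  sub α h := by
    have := v.sub _ (fun h' => h (nd_rev.1 h'))
    exact ⟨fun a b => LinearMap.ext fun u => by rw [Subsingleton.elim u 0]; simp⟩

/-- The dual diagram. -/
noncomputable def dualRaw (x : Raw (ModuleCat.{0} F)) : Raw (ModuleCat.{0} F) :=
  ⟨x.1, x.2.1,
    { obj := fun t => ModuleCat.of F (Module.Dual F (x.2.2.obj (rev t)))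
      map := fun {_ _} f => ModuleCat.ofHom (mp F x.2.2 (rev_le (leOfHom f))).dualMap
      map_id := fun t => by
        ext u w
        simp [mp]
      map_comp := fun {a b c} f g => by
        ext u w
        have : homOfLE (rev_le (leOfHom (f ≫ g))) =
          homOfLE (rev_le (leOfHom g)) ≫ homOfLE (rev_le (leOfHom f)) := rfl
        simp [mp, this, -homOfLE_comp] }⟩

noncomputable def sgnD {C : Type 1} [Category.{0} C] (x : Raw C) : ℚ :=
  (-1) ^ (x.1 * (x.1 + 1) / 2 + x.2.1.sum fun _ n => n * (n + 3) / 2)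

variable (F) in
/-- The duality involution on chains. -/
noncomputable def Dm : Ch F →ₗ[ℚ] Ch F :=
  Finsupp.linearCombination ℚ fun x => sgnD x • Finsupp.single (dualRaw x) 1

/-- The chain of a list of vertices. -/
noncomputable def K1 {W : ModuleCat.{0} F} (l : List (TO W)) : Ch F :=
  if l.length = 0 then 0 else Finsupp.single (kap (l.length - 1) fun i => l.getD i (base W)) 1

noncomputable def KL (W : ModuleCat.{0} F) : LC (TO W) →ₗ[ℚ] Ch F := Finsupp.linearCombination ℚ K1

/-- The flagged chain of a list of vertices and a list of flags of `W`. -/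
noncomputable def PP {W : ModuleCat.{0} F} (n : ℕ) (l1 : List (TO W))
    (l2 : List (ℕ → Submodule F W)) : TF F n :=
  if l1.length = 0 then 0 else Finsupp.single
    (deco (kap (l1.length - 1) fun i => l1.getD i (base W)) fun t i j =>
      (l2.getD i (fun _ => ⊥) j).comap ((l1.getD t.1.1 (base W)).c (sp t))) 1

variable {G : Type} [Group G]

noncomputable def FR.std (r : FR F G) (g : G) : TO r.W := (base r.W).cong (r.eqv g)

/-- The class in reduced homology of a chain of `G` along a representation. -/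
noncomputable def aa (z : LC G) (r : FR F G) : Ch F ⧸ Bd F :=
  (Bd F).mkQ (KL r.W (lmap r.std z))

/-- Cycles of length 7 modulo left translations. -/
def Cy7 (z : LC G) : Prop := z ∈ Len G 7 ∧ lb G z ∈ Jsub fun g x : G => g * x

/-- The standard representation of a subgroup of `SL₂(F)`. -/
noncomputable def sl2rep (Γ : Subgroup (SL2 F)) : FR F Γ :=
  ⟨ModuleCat.of F (Fin 2 → F), inferInstance,
    { toFun := fun γ => Matrix.toLin' γ.1.1
      map_one' := by simp; rfl
      map_mul' := fun a b => by simp [Matrix.toLin'_mul]; rfl }⟩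

end Pool.Agent.SR
end PartKDefs

section PartKapB
open CategoryTheory

namespace Pool.Agent.SR

variable {F : Type} [Field F] {W W' : ModuleCat.{0} F}

theorem kapb_fun_congr {A B : Type*} [Preorder A] [Preorder B] {f g : A → B} (hf : Monotone f)
    (hg : Monotone g) (h : f = g) : hf.functor = hg.functor := by
  subst h
  rfl

/-- Equality of the monotone maps `Idx p 0 → PW W`, then `congr`. -/
theorem kap_congr (p : ℕ) (v v' : ℕ → TO W) (h : ∀ n ≤ p, v n = v' n) : kap p v = kap p v' := by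
  have e : (fun t : Idx p 0 => (⟨v t.1.1, sp t⟩ : PW W)) = fun t => ⟨v' t.1.1, sp t⟩ :=
    funext fun t => by rw [h _ t.2.1]
  exact congrArg (fun X => (⟨p, 0, X ⋙ bigM W⟩ : Raw _))
    (kapb_fun_congr (kap_mono p v) (kap_mono p v') e)

theorem faceN_kap (p : ℕ) (v : ℕ → TO W) (i : ℕ) :
    faceN (kap (p + 1) v) i = kap p fun n => v (skip i n) := by
  have e : ((fun t : Idx (p + 1) 0 => (⟨v t.1.1, sp t⟩ : PW W)) ∘
      (reidx (p + 1) 0 (skip i) fun _ => OrderHom.id : Idx p 0 → Idx (p + 1) 0)) =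
      fun t : Idx p 0 => ⟨v (skip i t.1.1), sp t⟩ := by
    funext t
    have h1 : min (skip i t.1.1) (p + 1) = skip i t.1.1 := by
      have := t.2.1
      refine min_eq_left ?_
      change (if t.1.1 < i then t.1.1 else t.1.1 + 1) ≤ p + 1
      split_ifs <;> omega
    have h2 : sp (reidx (p + 1) 0 (skip i) (fun _ => OrderHom.id) t) = sp t := by
      refine Subtype.ext (Prod.ext rfl (Prod.ext (funext fun k => ?_) (funext fun k => ?_)))
      · exact min_eq_left ((t.2.2 k).1.trans (t.2.2 k).2)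
      · exact min_eq_left (t.2.2 k).2
    change (⟨v (min (skip i t.1.1) (p + 1)), sp _⟩ : PW W) = _
    rw [h1, h2]
  exact congrArg (fun X => (⟨p, 0, X ⋙ bigM W⟩ : Raw _))
    (kapb_fun_congr ((kap_mono (p + 1) v).comp (reidx_mono (p + 1) 0 p 0 _ _))
      (kap_mono p fun n => v (skip i n)) e)

/-- Objects agree by `rfl`; `CategoryTheory.Functor.ext` / `hext`. -/
theorem kap_cong (φ : W ≃ₗ[F] W') (p : ℕ) (v : ℕ → TO W) :
    kap p (fun n => (v n).cong φ) = kap p v := by
  refine congrArg (fun X => (⟨p, 0, X⟩ : Raw _))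
    (CategoryTheory.Functor.hext (fun _ => rfl) fun a b f => heq_of_eq ?_)
  refine ModuleCat.hom_ext (LinearMap.ext fun u => ?_)
  change (v b.1.1).s (sp b) (φ.symm (φ ((v a.1.1).c (sp a) u))) =
    (v b.1.1).s (sp b) ((v a.1.1).c (sp a) u)
  rw [LinearEquiv.symm_apply_apply]

theorem kapb_c_bij (v : TO W) (α : Idx 0 0) (h : nd α) : Function.Bijective (v.c α) :=
  ⟨Function.LeftInverse.injective (v.sc α h), Function.RightInverse.surjective (v.cs α h)⟩

theorem kapb_s_bij (v : TO W) (α : Idx 0 0) (h : nd α) : Function.Bijective (v.s α) :=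
  ⟨Function.LeftInverse.injective (v.cs α h), Function.RightInverse.surjective (v.sc α h)⟩

theorem kapb_snd_eq {p : ℕ} {q : ℕ →₀ ℕ} {a b : Idx p q} (k : ℕ) (h : Along k a b)
    (h1 : a.1.2.1 k = b.1.2.1 k) (h2 : a.1.2.2 k = b.1.2.2 k) : a.1.2 = b.1.2 := by
  refine Prod.ext (funext fun l => ?_) (funext fun l => ?_)
  · by_cases hl : l = k
    · rw [hl, h1]
    · exact (h.2 l hl).1
  · by_cases hl : l = k
    · rw [hl, h2]
    · exact (h.2 l hl).2

theorem kap_good [Module.Finite F W] (p : ℕ) (v : ℕ → TO W) :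
    Good F (Module.finrank F W) (kap p v) := by
  have hzero : ∀ (a : Idx p 0) (k : ℕ), a.1.2.1 k = a.1.2.2 k →
      Subsingleton ((v a.1.1).O (sp a)) := by
    intro a k hk
    refine (v a.1.1).sub _ fun hn => ?_
    have h1 : a.1.2.1 k = 0 := (hn k).1
    have h2 : a.1.2.2 k = 1 := (hn k).2
    omega
  have hiso : ∀ a b : Idx p 0, a.1.2 = b.1.2 →
      Function.Bijective (((v b.1.1).s (sp b)).comp ((v a.1.1).c (sp a))) := by
    intro a b hab
    have e : sp a = sp b := Subtype.ext (Prod.ext rfl hab)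
    by_cases hn : nd (sp a)
    · exact (kapb_s_bij _ _ (e ▸ hn)).comp (kapb_c_bij _ _ hn)
    · have := (v a.1.1).sub _ hn
      have := (v b.1.1).sub (sp b) (e ▸ hn)
      exact ⟨fun _ _ _ => Subsingleton.elim _ _, fun y => ⟨0, Subsingleton.elim _ _⟩⟩
  have hex : ∀ (a b c : Idx p 0) (k : ℕ), Along k a b → Along k b c →
      a.1.2.1 k = b.1.2.1 k → a.1.2.2 k = c.1.2.1 k → b.1.2.2 k = c.1.2.2 k →
      Function.Injective (((v b.1.1).s (sp b)).comp ((v a.1.1).c (sp a))) ∧
      Function.Exact (((v b.1.1).s (sp b)).comp ((v a.1.1).c (sp a)))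
        (((v c.1.1).s (sp c)).comp ((v b.1.1).c (sp b))) ∧
      Function.Surjective (((v c.1.1).s (sp c)).comp ((v b.1.1).c (sp b))) := by
    intro a b c k hab hbc e1 e2 e3
    have h1 := a.2.2 k
    have h2 := b.2.2 k
    have h3 := c.2.2 k
    simp only [Finsupp.coe_zero, Pi.zero_apply] at h1 h2 h3
    by_cases hk : a.1.2.1 k = a.1.2.2 k
    · have := hzero a k hk
      have hb := hiso b c (kapb_snd_eq k hbc (by omega) e3)
      refine ⟨fun _ _ _ => Subsingleton.elim _ _, fun y => ⟨fun hy => ⟨0, ?_⟩, ?_⟩, hb.2⟩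
      · rw [map_zero]
        exact hb.1 (by rw [hy, map_zero])
      · rintro ⟨x, rfl⟩
        rw [Subsingleton.elim x 0, map_zero, map_zero]
    · have := hzero c k (by omega)
      have hb := hiso a b (kapb_snd_eq k hab e1 (by omega))
      exact ⟨hb.1, fun y => ⟨fun _ => hb.2 y, fun _ => Subsingleton.elim _ _⟩,
        fun y => ⟨0, Subsingleton.elim _ _⟩⟩
  refine ⟨fun a => ?_, fun a b _ hab => hiso a b hab, hzero,
    fun a b c _ _ k => hex a b c k, fun a ha => ?_⟩
  · change Module.Finite F ((v a.1.1).O (sp a))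
    by_cases hn : nd (sp a)
    · exact Module.Finite.of_surjective _ (kapb_s_bij _ _ hn).2
    · have := (v a.1.1).sub _ hn
      exact Module.Finite.of_finite
  · exact LinearMap.finrank_le_finrank_of_injective (kapb_c_bij (v a.1.1) (sp a) ha).1

theorem post_kap (T : ModuleCat.{0} F ⥤ ModuleCat.{0} F)
    (hT : ∀ M : ModuleCat.{0} F, Subsingleton M → Subsingleton (T.obj M)) (p : ℕ) (v : ℕ → TO W) :
    post T (kap p v) = kap p fun n => (v n).map T hT := by
  refine congrArg (fun X => (⟨p, 0, X⟩ : Raw _))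
    (CategoryTheory.Functor.hext (fun _ => rfl) fun a b f => heq_of_eq ?_)
  exact T.map_comp (ModuleCat.ofHom ((v a.1.1).c (sp a))) (ModuleCat.ofHom ((v b.1.1).s (sp b)))

theorem dual_kap (p : ℕ) (v : ℕ → TO W) :
    dualRaw (kap p v) = kap p fun n => (v (p - n)).dual := by
  refine congrArg (fun X => (⟨p, 0, X⟩ : Raw _))
    (CategoryTheory.Functor.hext (fun _ => rfl) fun a b f => heq_of_eq rfl)

theorem kapb_single (l : List (TO W)) : KL W (Finsupp.single l 1) = K1 l := by
  rw [KL, Finsupp.linearCombination_single, one_smul]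

theorem kapb_lmap {X Y : Type*} (u : X → Y) (l : List X) :
    lmap u (Finsupp.single l 1) = Finsupp.single (l.map u) 1 := by
  rw [lmap, Finsupp.lmapDomain_apply, Finsupp.mapDomain_single]

theorem kapb_K1 {l : List (TO W)} {p : ℕ} (h : l.length = p + 1) :
    K1 l = Finsupp.single (kap p fun i => l.getD i (base W)) 1 := by
  rw [K1, if_neg (by omega), h, Nat.add_sub_cancel]

theorem kapb_K1_map (u : TO W → TO W') {l : List (TO W)} {p : ℕ} (h : l.length = p + 1) :
    K1 (l.map u) = Finsupp.single (kap p fun i => u (l.getD i (base W))) 1 := by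
  rw [kapb_K1 (p := p) (by rw [List.length_map, h])]
  congr 1
  refine kap_congr _ _ _ fun n hn => ?_
  rw [List.getD_eq_getElem?_getD, List.getD_eq_getElem?_getD, List.getElem?_map,
    List.getElem?_eq_getElem (by omega)]
  rfl

theorem bd_KL (c : LC (TO W)) : bd _ (KL W c) = KL W (lb _ c) := by
  induction c using Finsupp.induction_linear with
  | zero => simp
  | add c c' h h' => simp only [map_add, h, h']
  | single l a =>
    rw [← Finsupp.smul_single_one]
    simp only [map_smul]
    rw [lb_single, kapb_single, lb1, map_sum]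
    congr 1
    simp only [map_smul, kapb_single]
    rcases hl : l.length with _ | _ | p
    · simp [K1, hl]
    · rw [kapb_K1 hl, bd_single, Finset.sum_range_one,
        show K1 (l.eraseIdx 0) = 0 from if_pos (by simp [hl])]
      simp [bd1, kap]
    · rw [kapb_K1 hl, bd_single]
      change (∑ i ∈ Finset.range (p + 1 + 1), _) + (∑ k ∈ ∅, _) = _
      rw [Finset.sum_empty, add_zero]
      refine Finset.sum_congr rfl fun i hi => ?_
      have hi' := Finset.mem_range.mp hi
      rw [faceN_kap, kapb_K1 (l := l.eraseIdx i) (p := p)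
        (by rw [List.length_eraseIdx_of_lt (by omega), hl]; rfl)]
      congr 2
      refine kap_congr _ _ _ fun n _ => ?_
      change l.getD (if n < i then n else n + 1) _ = _
      rw [List.getD_eq_getElem?_getD, List.getD_eq_getElem?_getD, List.getElem?_eraseIdx]
      split_ifs <;> rfl

theorem KL_cong (φ : W ≃ₗ[F] W') (c : LC (TO W)) : KL W' (lmap (TO.cong φ) c) = KL W c := by
  induction c using Finsupp.induction_linear with
  | zero => simp
  | add c c' h h' => simp only [map_add, h, h']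
  | single l a =>
    rw [← Finsupp.smul_single_one]
    simp only [map_smul]
    rw [kapb_lmap, kapb_single, kapb_single]
    congr 1
    rcases hl : l.length with _ | p
    · simp [K1, hl]
    · rw [kapb_K1_map _ hl, kapb_K1 hl, kap_cong]

theorem KL_Fil [Module.Finite F W] (c : LC (TO W)) : KL W c ∈ Fil F (Module.finrank F W) := by
  rw [KL, Finsupp.linearCombination_apply, Finsupp.sum]
  refine Submodule.sum_mem _ fun l _ => Submodule.smul_mem _ _ ?_
  rcases hl : l.length with _ | p
  · simp [K1, hl]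
  · rw [kapb_K1 hl]
    exact Finsupp.single_mem_supported _ _ (kap_good _ _)

theorem KL_Deg {n : ℕ} {c : LC (TO W)} (h : c ∈ Len _ (n + 1)) : KL W c ∈ Deg F n := by
  rw [KL, Finsupp.linearCombination_apply, Finsupp.sum]
  refine Submodule.sum_mem _ fun l hl => Submodule.smul_mem _ _ ?_
  have hl' : l.length = n + 1 := (Finsupp.mem_supported _ _).mp h hl
  rw [kapb_K1 hl']
  refine Finsupp.single_mem_supported _ _ ?_
  change n + (0 : ℕ →₀ ℕ).sum (fun _ n => n) = n
  simp

theorem post_KL (T : ModuleCat.{0} F ⥤ ModuleCat.{0} F)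
    (hT : ∀ M : ModuleCat.{0} F, Subsingleton M → Subsingleton (T.obj M)) (c : LC (TO W)) :
    Finsupp.lmapDomain ℚ ℚ (post T) (KL W c) = KL (T.obj W) (lmap (TO.map T hT) c) := by
  induction c using Finsupp.induction_linear with
  | zero => simp
  | add c c' h h' => simp only [map_add, h, h']
  | single l a =>
    rw [← Finsupp.smul_single_one]
    simp only [map_smul]
    rw [kapb_lmap, kapb_single, kapb_single]
    congr 1
    rcases hl : l.length with _ | p
    · simp [K1, hl]
    · rw [kapb_K1_map _ hl, kapb_K1 hl, Finsupp.lmapDomain_apply, Finsupp.mapDomain_single,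
        post_kap T hT]

theorem Dm_KL (c : LC (TO W)) : Dm F (KL W c) = KL _ (lmap TO.dual (revL _ c)) := by
  induction c using Finsupp.induction_linear with
  | zero => simp
  | add c c' h h' => simp only [map_add, h, h']
  | single l a =>
    rw [← Finsupp.smul_single_one]
    simp only [map_smul]
    rw [revL, Finsupp.linearCombination_single, one_smul, map_smul, map_smul, kapb_lmap,
      kapb_single, kapb_single]
    congr 1
    rcases hl : l.length with _ | p
    · simp [K1, hl]
    · rw [kapb_K1_map (p := p) _ (by rw [List.length_reverse, hl]), kapb_K1 hl, Dm,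
        Finsupp.linearCombination_single, one_smul, dual_kap]
      congr 1
      · change (-1 : ℚ) ^ (p * (p + 1) / 2 + (0 : ℕ →₀ ℕ).sum fun _ n => n * (n + 3) / 2) = _
        rw [Finsupp.sum_zero_index, add_zero, Nat.add_sub_cancel, mul_comm]
      · congr 1
        refine kap_congr _ _ _ fun n hn => ?_
        rw [List.getD_eq_getElem?_getD, List.getD_eq_getElem?_getD,
          List.getElem?_reverse (by omega), hl, Nat.add_sub_cancel]

theorem TO.ext' {v v' : TO W} (hO : v.O = v'.O) (hc : HEq v.c v'.c) (hs : HEq v.s v'.s) : v = v' := by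
  obtain ⟨O, c, s, _, _, _⟩ := v
  obtain ⟨O', c', s', _, _, _⟩ := v'
  dsimp only at hO hc hs
  subst hO
  obtain rfl := eq_of_heq hc
  obtain rfl := eq_of_heq hs
  rfl

theorem cong_cong {W'' : ModuleCat.{0} F} (φ : W ≃ₗ[F] W') (ψ : W' ≃ₗ[F] W'') (v : TO W) :
    (v.cong φ).cong ψ = v.cong (φ.trans ψ) := by
  rfl

variable {G : Type} [Group G]

theorem std_mul (r : FR F G) (g x : G) : r.std (g * x) = (r.std x).cong (r.eqv g) := by
  have e : r.eqv (g * x) = (r.eqv x).trans (r.eqv g) := by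
    refine LinearEquiv.ext fun w => ?_
    change r.ρ (g * x) w = r.ρ g (r.ρ x w)
    rw [map_mul]
    rfl
  rw [FR.std, FR.std, cong_cong, e]

theorem map_cong_eqv (r : FR F G) (T : ModuleCat.{0} F ⥤ ModuleCat.{0} F)
    (hT : ∀ M : ModuleCat.{0} F, Subsingleton M → Subsingleton (T.obj M))
    (h : Module.Finite F (T.obj r.W)) (g : G) (v : TO r.W) :
    (v.cong (r.eqv g)).map T hT = (v.map T hT).cong ((r.ap T h).eqv g) := by
  refine TO.ext' rfl (heq_of_eq (funext fun α => ?_)) (heq_of_eq (funext fun α => ?_))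
  · exact congrArg ModuleCat.Hom.hom
      (T.map_comp (ModuleCat.ofHom (v.c α)) (ModuleCat.ofHom (r.ρ g)))
  · exact congrArg ModuleCat.Hom.hom
      (T.map_comp (ModuleCat.ofHom (r.ρ g⁻¹)) (ModuleCat.ofHom (v.s α)))

theorem dual_cong_eqv (r : FR F G) (g : G) (v : TO r.W) :
    (v.cong (r.eqv g)).dual = v.dual.cong (r.dual.eqv g) := by
  refine TO.ext' rfl (heq_of_eq (funext fun α => ?_)) (heq_of_eq (funext fun α => ?_))
  · rfl
  · refine LinearMap.ext fun w => LinearMap.ext fun u => ?_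
    change w (r.ρ g (v.c (rev α) u)) = w (r.ρ g⁻¹⁻¹ (v.c (rev α) u))
    rw [inv_inv]

theorem kapb_KL_J (r : FR F G) {c : LC (TO r.W)}
    (h : c ∈ Jsub fun (g : G) (v : TO r.W) => v.cong (r.eqv g)) : KL r.W c = 0 := by
  refine lift_J _ K1 (fun g l => ?_) h
  have e := KL_cong (r.eqv g) (Finsupp.single l 1)
  rw [lmap, Finsupp.lmapDomain_apply, Finsupp.mapDomain_single, KL,
    Finsupp.linearCombination_single, Finsupp.linearCombination_single, one_smul, one_smul] at e
  exact e

theorem kapb_lmap_nil {X Y : Type*} (u : X → Y) :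
    lmap u (Finsupp.single [] 1) = Finsupp.single [] 1 := by
  rw [lmap, Finsupp.lmapDomain_apply, Finsupp.mapDomain_single, List.map_nil]

/-- `KL` kills coinvariant relations and sends boundaries to `Bd`. -/
theorem KL_mem_Bd (r : FR F G) {c : LC (TO r.W)}
    (h : c ∈ LinearMap.range (lb (TO r.W)) ⊔ Jsub fun (g : G) (v : TO r.W) => v.cong (r.eqv g)) :
    KL r.W c ∈ Bd F := by
  obtain ⟨a, ⟨d, rfl⟩, b, hb, rfl⟩ := Submodule.mem_sup.1 h
  rw [map_add, kapb_KL_J r hb, add_zero, ← bd_KL]
  exact Submodule.mem_sup_right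
    (Submodule.mem_map_of_mem (Submodule.mem_iSup_of_mem _ (KL_Fil d)))

theorem bd_KL_std (r : FR F G) {z : LC G} (hz : lb G z ∈ Jsub fun g x : G => g * x) :
    bd _ (KL r.W (lmap r.std z)) = 0 := by
  rw [bd_KL, lb_lmap]
  exact kapb_KL_J r (lmap_J _ _ r.std (std_mul r) hz)

/-- Any equivariant vertex map gives the same class (`htpy` with `φ = lmap u`, `ψ = lmap (r.std ∘ γ)`, `ap = u`). -/
theorem aa_eq {X : Type*} (σ : G → X → X) (r : FR F G) (u : X → TO r.W) (γ : X → G)
    (hu : ∀ g x, u (σ g x) = (u x).cong (r.eqv g)) (hγ : ∀ g x, γ (σ g x) = g * γ x)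
    {z : LC X} (hz : lb X z ∈ Jsub σ) : (Bd F).mkQ (KL r.W (lmap u z)) = aa (lmap γ z) r := by
  have h := htpy σ (fun (g : G) (v : TO r.W) => v.cong (r.eqv g)) (lmap u)
    (lmap fun x => r.std (γ x)) u hu (lb_lmap _) (lb_lmap _)
    (by rw [kapb_lmap_nil, kapb_lmap_nil])
    (fun g c => by rw [lmap_lmap, lmap_lmap]; simp only [hu])
    (fun g c => by rw [lmap_lmap, lmap_lmap]; simp only [hγ, std_mul]) hz
  have h2 := KL_mem_Bd r h
  rw [map_sub] at h2
  rw [aa, lmap_lmap]
  exact (Submodule.Quotient.eq _).2 h2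

theorem kapb_rev {X : Type*} (σ : G → X → X) (r : FR F G) (u : X → TO r.W) (γ : X → G)
    (hu : ∀ g x, u (σ g x) = (u x).cong (r.eqv g)) (hγ : ∀ g x, γ (σ g x) = g * γ x)
    {z : LC X} (hz : lb X z ∈ Jsub σ) :
    (Bd F).mkQ (KL r.W (lmap u (revL X z))) = aa (lmap γ z) r := by
  have h := htpy σ (fun (g : G) (v : TO r.W) => v.cong (r.eqv g)) ((lmap u).comp (revL X))
    (lmap fun x => r.std (γ x)) u hu
    (fun c => by rw [LinearMap.comp_apply, LinearMap.comp_apply, lb_lmap, lb_revL]) (lb_lmap _)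
    (by rw [LinearMap.comp_apply, revL_nil, kapb_lmap_nil, kapb_lmap_nil])
    (fun g c => by
      rw [LinearMap.comp_apply, LinearMap.comp_apply, revL_lmap, lmap_lmap, lmap_lmap]
      simp only [hu])
    (fun g c => by rw [lmap_lmap, lmap_lmap]; simp only [hγ, std_mul]) hz
  have h2 := KL_mem_Bd r h
  rw [map_sub] at h2
  rw [aa, lmap_lmap]
  exact (Submodule.Quotient.eq _).2 h2

/-- The same for the dual (`Dm_KL`, `htpy` for `revL` against the identity, then `aa_eq`). -/
theorem aa_dual {X : Type*} (σ : G → X → X) (r : FR F G) (u : X → TO r.W) (γ : X → G)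
    (hu : ∀ g x, u (σ g x) = (u x).cong (r.eqv g)) (hγ : ∀ g x, γ (σ g x) = g * γ x)
    {z : LC X} (hz : lb X z ∈ Jsub σ) :
    (Bd F).mkQ (Dm F (KL r.W (lmap u z))) = aa (lmap γ z) r.dual := by
  rw [Dm_KL, revL_lmap, lmap_lmap]
  exact kapb_rev σ r.dual (fun x => (u x).dual) γ
    (fun g x => (congrArg TO.dual (hu g x)).trans (dual_cong_eqv r g (u x))) hγ hz

theorem aa_triv {z : LC G} (hz : Cy7 z) : aa z (FR.triv : FR F G) = 0 := by
  have e : (FR.triv : FR F G).std = fun _ => (FR.triv : FR F G).std 1 := rfl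
  have e2 : lmap (FR.triv : FR F G).std z = Finsupp.linearCombination ℚ (fun _ => (1 : ℚ)) z •
      Finsupp.single (List.replicate 7 ((FR.triv : FR F G).std 1)) 1 := by
    rw [e, lmap, Finsupp.lmapDomain_apply, Finsupp.mapDomain, Finsupp.linearCombination_apply,
      Finsupp.sum, Finsupp.sum, Finset.sum_smul]
    refine Finset.sum_congr rfl fun l hl => ?_
    have h7 : l.length = 7 := (Finsupp.mem_supported ℚ z).1 hz.1 hl
    rw [List.map_const', h7, smul_eq_mul, mul_one, Finsupp.smul_single, smul_eq_mul, mul_one]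
  rw [aa, e2, mass_zero _ hz.1 hz.2, zero_smul, map_zero, map_zero]

theorem aa_res {H : Type} [Group H] (f : H →* G) (z : LC H) (r : FR F G) :
    aa z (r.res f) = aa (lmap f z) r := by
  have e : (r.res f).std = fun x => r.std (f x) := funext fun x =>
    congrArg (fun φ => (base r.W).cong φ)
      (LinearEquiv.ext fun _ => rfl : (r.res f).eqv x = r.eqv (f x))
  rw [aa, aa, lmap_lmap, e]
  rfl

end Pool.Agent.SR
end PartKapB

section PartDual
open CategoryTheory

namespace Pool.Agent.SR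

variable {F : Type} [Field F]

/-- The dual of a diagram along an antitone map of index posets. -/
noncomputable def dual_F {p p' : ℕ} {q q' : ℕ →₀ ℕ} (X : Idx p q ⥤ ModuleCat.{0} F)
    (φ : Idx p' q' → Idx p q) (hφ : Antitone φ) : Idx p' q' ⥤ ModuleCat.{0} F where
  obj t := ModuleCat.of F (Module.Dual F (X.obj (φ t)))
  map f := ModuleCat.ofHom (mp F X (hφ (leOfHom f))).dualMap
  map_id t := by
    ext u w
    simp [mp]
  map_comp {a b c} f g := by
    ext u w
    have : homOfLE (hφ (leOfHom (f ≫ g))) =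
      homOfLE (hφ (leOfHom g)) ≫ homOfLE (hφ (leOfHom f)) := rfl
    simp [mp, this, -homOfLE_comp]

theorem dual_congr {p p' : ℕ} {q q' : ℕ →₀ ℕ} (X : Idx p q ⥤ ModuleCat.{0} F)
    {φ ψ : Idx p' q' → Idx p q} (hφ : Antitone φ) (hψ : Antitone ψ) (h : φ = ψ) :
    dual_F X φ hφ = dual_F X ψ hψ := by
  subst h
  rfl

theorem dual_pull (x : Raw (ModuleCat.{0} F)) (p' : ℕ) (q' : ℕ →₀ ℕ) (f0 g0 : ℕ →o ℕ)
    (f g : ℕ → ℕ →o ℕ) (h0 : ∀ n ≤ p', x.1 - min (f0 n) x.1 = min (g0 (p' - n)) x.1)
    (h : ∀ k, ∀ n ≤ q' k + 1, x.2.1 k + 1 - min (f k n) (x.2.1 k + 1) =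
      min (g k (q' k + 1 - n)) (x.2.1 k + 1)) :
    pull (dualRaw x) p' q' f0 f = dualRaw (pull x p' q' g0 g) := by
  have a1 : Antitone fun t : Idx p' q' => rev (reidx x.1 x.2.1 f0 f t) :=
    fun _ _ hab => rev_le (reidx_mono x.1 x.2.1 p' q' f0 f hab)
  have a2 : Antitone fun t : Idx p' q' => reidx x.1 x.2.1 g0 g (rev t) :=
    fun _ _ hab => reidx_mono x.1 x.2.1 p' q' g0 g (rev_le hab)
  have e : (fun t : Idx p' q' => rev (reidx x.1 x.2.1 f0 f t)) =
      fun t : Idx p' q' => reidx x.1 x.2.1 g0 g (rev t) := by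
    funext t
    refine Subtype.ext (Prod.ext (h0 _ t.2.1) (Prod.ext (funext fun k => ?_) (funext fun k => ?_)))
    · exact h k _ (t.2.2 k).2
    · exact h k _ ((t.2.2 k).1.trans (t.2.2 k).2)
  exact congrArg (fun Y => (⟨p', q', Y⟩ : Raw (ModuleCat.{0} F))) (dual_congr x.2.2 a1 a2 e)

theorem dual_skip (i n : ℕ) : skip i n = if n < i then n else n + 1 := rfl

/-- Plan: `dualRaw x = ⟨p, q, revFunctor ⋙ x.op ⋙ dual⟩`; it is enough to compare the maps of index posets `rev ∘ reidx` and `reidx ∘ rev`. A convenient route: for a monotone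
`φ : (Idx p' q')ᵒᵈ → ..`, or directly: a lemma saying that the functor `t ↦ Dual (X (φ t))` built from an antitone `φ : Idx p' q' → Idx p q` depends only on `φ`. -/
theorem faceN_dual (x : Raw (ModuleCat.{0} F)) (h : 0 < x.1) (i : ℕ) (hi : i ≤ x.1) :
    faceN (dualRaw x) i = dualRaw (faceN x (x.1 - i)) := by
  refine dual_pull x _ _ _ _ _ _ (fun n hn => ?_) fun k n hn => ?_
  · change n ≤ x.1 - 1 at hn
    change x.1 - min (skip i n) x.1 = min (skip (x.1 - i) (x.1 - 1 - n)) x.1
    rw [dual_skip, dual_skip]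
    split_ifs <;> omega
  · change n ≤ x.2.1 k + 1 at hn
    change x.2.1 k + 1 - min n (x.2.1 k + 1) = min (x.2.1 k + 1 - n) (x.2.1 k + 1)
    omega

theorem faceS_dual (x : Raw (ModuleCat.{0} F)) (k : ℕ) (h : 0 < x.2.1 k) (i : ℕ)
    (hi : i ≤ x.2.1 k + 1) : faceS (dualRaw x) k i = dualRaw (faceS x k (x.2.1 k + 1 - i)) := by
  refine dual_pull x _ _ _ _ _ _ (fun n hn => ?_) fun l n hn => ?_
  · change n ≤ x.1 at hn
    change x.1 - min n x.1 = min (x.1 - n) x.1
    omega
  · change n ≤ (x.2.1 - Finsupp.single k 1 : ℕ →₀ ℕ) l + 1 at hn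
    change _ = min (Function.update (fun _ => OrderHom.id) k (skip (x.2.1 k + 1 - i)) l
      ((x.2.1 - Finsupp.single k 1 : ℕ →₀ ℕ) l + 1 - n)) _
    rw [Finsupp.tsub_apply] at hn ⊢
    by_cases hl : l = k
    · subst hl
      rw [Finsupp.single_eq_same] at hn ⊢
      rw [Function.update_self, Function.update_self, dual_skip, dual_skip]
      split_ifs <;> omega
    · rw [Finsupp.single_eq_of_ne hl] at hn ⊢
      rw [Function.update_of_ne hl, Function.update_of_ne hl, OrderHom.id_coe, id, id]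
      omega

theorem dual_sign (a n i : ℕ) (hi : i ≤ n) : (-1 : ℚ) ^ (a + n) * (-1) ^ i = (-1) ^ (n - i) * (-1) ^ a := by
  obtain ⟨m, rfl⟩ := Nat.exists_eq_add_of_le hi
  rw [Nat.add_sub_cancel_left, pow_add, pow_add]
  have : (-1 : ℚ) ^ i * (-1) ^ i = 1 := by rw [← mul_pow]; simp
  linear_combination (-1 : ℚ) ^ a * (-1) ^ m * this

theorem dual_sgnN {C : Type 1} [Category.{0} C] (x : Raw C) (h : 0 < x.1) (i j : ℕ) (hi : i ≤ x.1) :
    sgnD x * (-1) ^ i = (-1) ^ (x.1 - i) * sgnD (faceN x j) := by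
  have e : x.1 * (x.1 + 1) / 2 = (x.1 - 1) * (x.1 - 1 + 1) / 2 + x.1 := by
    obtain ⟨m, hm⟩ := Nat.exists_eq_add_of_lt h
    rw [hm, zero_add, Nat.add_sub_cancel, ← Nat.add_mul_div_right _ _ two_pos]
    congr 1
    ring
  rw [sgnD, e, add_right_comm, dual_sign _ _ _ hi]
  rfl

theorem dual_sgnS {C : Type 1} [Category.{0} C] (x : Raw C) (k : ℕ) (h : 0 < x.2.1 k) (i j : ℕ)
    (hi : i ≤ x.2.1 k + 1) :
    sgnD x * (-1) ^ i = (-1) ^ (x.2.1 k + 1 - i) * sgnD (faceS x k j) := by
  have hk : k ∈ x.2.1.support := Finsupp.mem_support_iff.2 h.ne'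
  have e : (x.2.1.sum fun _ n => n * (n + 3) / 2) =
      ((x.2.1 - Finsupp.single k 1).sum fun _ n => n * (n + 3) / 2) + (x.2.1 k + 1) := by
    rw [Finsupp.sum_of_support_subset (x.2.1 - Finsupp.single k 1) Finsupp.support_tsub _
      (fun _ _ => rfl), Finsupp.sum, ← Finset.add_sum_erase _ _ hk, ← Finset.add_sum_erase _ _ hk,
      add_right_comm]
    congr 1
    · rw [Finsupp.tsub_apply, Finsupp.single_eq_same]
      obtain ⟨m, hm⟩ := Nat.exists_eq_add_of_lt h
      rw [hm, zero_add, Nat.add_sub_cancel, ← Nat.add_mul_div_right _ _ two_pos]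
      congr 1
      ring
    · refine Finset.sum_congr rfl fun l hl => ?_
      rw [Finsupp.tsub_apply, Finsupp.single_eq_of_ne (Finset.ne_of_mem_erase hl), Nat.sub_zero]
  rw [sgnD, e, ← add_assoc, dual_sign _ _ _ hi]
  rfl

theorem dual_single (x : Raw (ModuleCat.{0} F)) :
    Dm F (Finsupp.single x 1) = sgnD x • Finsupp.single (dualRaw x) 1 := by
  rw [Dm, Finsupp.linearCombination_single, one_smul]

/-- Reflect the sums (`Finset.sum_range_reflect`); `sgnD x = (-1)^p sgnD (faceN x i)` and `sgnD x = (-1)^(q k + 1) sgnD (faceS x k i)`. -/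
theorem bd_Dm (c : Ch F) : bd _ (Dm F c) = Dm F (bd _ c) := by
  have e : (bd _).comp (Dm F) = (Dm F).comp (bd _) := by
    refine Finsupp.lhom_ext' fun x => LinearMap.ext_ring ?_
    simp only [LinearMap.comp_apply, Finsupp.lsingle_apply]
    rw [dual_single, map_smul, bd_single, bd_single, bd1, bd1, smul_add, map_add]
    congr 1
    · change sgnD x • ∑ i ∈ Finset.range (if x.1 = 0 then 0 else x.1 + 1), _ = _
      split_ifs with h
      · simp
      · have h' := Nat.pos_of_ne_zero h
        rw [map_sum, Finset.smul_sum]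
        refine Eq.trans ?_ (Finset.sum_range_reflect _ _)
        refine Finset.sum_congr rfl fun i hi => ?_
        have hi' : i ≤ x.1 := Nat.lt_succ_iff.1 (Finset.mem_range.1 hi)
        rw [map_smul, dual_single, smul_smul, smul_smul, Nat.add_sub_cancel, faceN_dual x h' i hi',
          dual_sgnN x h' i (x.1 - i) hi']
    · change sgnD x • ∑ k ∈ x.2.1.support, ∑ i ∈ Finset.range (x.2.1 k + 2),
        (-1 : ℚ) ^ (x.1 + ∑ l ∈ Finset.range k, (x.2.1 l + 1) + i) •
          Finsupp.single (faceS (dualRaw x) k i) 1 = _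
      rw [map_sum, Finset.smul_sum]
      refine Finset.sum_congr rfl fun k hk => ?_
      have h' := Nat.pos_of_ne_zero (Finsupp.mem_support_iff.1 hk)
      rw [map_sum, Finset.smul_sum]
      refine Eq.trans ?_ (Finset.sum_range_reflect _ _)
      refine Finset.sum_congr rfl fun i hi => ?_
      have hi' : i ≤ x.2.1 k + 1 := Nat.lt_succ_iff.1 (Finset.mem_range.1 hi)
      have e2 : x.2.1 k + 2 - 1 - i = x.2.1 k + 1 - i := rfl
      rw [map_smul, dual_single, smul_smul, smul_smul, e2, faceS_dual x k h' i hi', pow_add,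
        mul_left_comm, dual_sgnS x k h' i (x.2.1 k + 1 - i) hi', pow_add _ _ (x.2.1 k + 1 - i),
        mul_assoc]
  exact LinearMap.congr_fun e c

theorem Good.dual {r : ℕ} {x : Raw (ModuleCat.{0} F)} (hx : Good F r x) : Good F r (dualRaw x) := by
  refine ⟨fun a => ?_, fun a b h hab => ?_, fun a k h => ?_, fun a b c h h' k h1 h2 h3 h4 h5 => ?_,
    fun a _ => ?_⟩
  · have := hx.fin (rev a)
    change Module.Finite F (Module.Dual F (x.2.2.obj (rev a)))
    infer_instance
  · refine LinearMap.dualMap_bijective_iff.2 (hx.iso (rev b) (rev a) (rev_le h) ?_)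
    simp only [rev, hab]
  · have := hx.zero (rev a) k (by simp only [rev, h])
    change Subsingleton (Module.Dual F (x.2.2.obj (rev a)))
    infer_instance
  · obtain ⟨e1, e2, e3⟩ := hx.exact (rev c) (rev b) (rev a) (rev_le h') (rev_le h) k
      ⟨by simp only [rev, h2.1], fun l hl => by simp only [rev, (h2.2 l hl).1, (h2.2 l hl).2, and_self]⟩
      ⟨by simp only [rev, h1.1], fun l hl => by simp only [rev, (h1.2 l hl).1, (h1.2 l hl).2, and_self]⟩
      (by simp only [rev, h5]) (by simp only [rev, h4]) (by simp only [rev, h3])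
    refine ⟨LinearMap.dualMap_injective_of_surjective e3, ?_,
      LinearMap.dualMap_surjective_of_injective e1⟩
    change Function.Exact (mp F x.2.2 (rev_le h)).dualMap (mp F x.2.2 (rev_le h')).dualMap
    rw [LinearMap.exact_iff] at e2 ⊢
    rw [LinearMap.ker_dualMap_eq_dualAnnihilator_range,
      LinearMap.range_dualMap_eq_dualAnnihilator_ker, e2]
  · change Module.finrank F (Module.Dual F (x.2.2.obj (rev a))) ≤ r
    rw [Subspace.dual_finrank_eq]
    exact hx.finrank_le (rev a)

theorem Dm_Fil {r : ℕ} {c : Ch F} (hc : c ∈ Fil F r) : Dm F c ∈ Fil F r := by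
  rw [Dm, Finsupp.linearCombination_apply, Finsupp.sum]
  refine Submodule.sum_mem _ fun x hx => Submodule.smul_mem _ _ (Submodule.smul_mem _ _ ?_)
  exact Finsupp.single_mem_supported ℚ _ (Good.dual ((Finsupp.mem_supported ℚ c).1 hc hx))

theorem Dm_Bd {c : Ch F} (hc : c ∈ Bd F) : Dm F c ∈ Bd F := by
  obtain ⟨a, ha, _, ⟨b, hb, rfl⟩, rfl⟩ := Submodule.mem_sup.1 hc
  rw [map_add, ← bd_Dm]
  refine Submodule.add_mem_sup (Dm_Fil ha) ⟨_, ?_, rfl⟩
  have : (⨆ r, Fil F r) ≤ (⨆ r, Fil F r).comap (Dm F) :=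
    iSup_le fun r y hy => Submodule.mem_iSup_of_mem r (Dm_Fil hy)
  exact this hb

end Pool.Agent.SR
end PartDual

section PartKapP
open CategoryTheory

namespace Pool.Agent.SR

variable {F : Type} [Field F] {W : ModuleCat.{0} F}

/-- The flagged version of `bigM`. -/
noncomputable def kapp_Q {n : ℕ} (g : Fin n → ℕ → Submodule F W) : PW W ⥤ FM F n where
  obj a := ⟨a.v.O a.α, fun i j => (g i j).comap (a.v.c a.α)⟩
  map f := (bigM W).map f
  map_id a := (bigM W).map_id a
  map_comp f f' := (bigM W).map_comp f f'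

/-- The flagged version of `kap`. -/
noncomputable def kapp_k {n : ℕ} (p : ℕ) (v : ℕ → TO W) (g : Fin n → ℕ → Submodule F W) :
    Raw (FM F n) := ⟨p, 0, (kap_mono p v).functor ⋙ kapp_Q g⟩

theorem kapp_PP (n : ℕ) (l1 : List (TO W)) (l2 : List (ℕ → Submodule F W)) : PP n l1 l2 =
    if l1.length = 0 then 0 else Finsupp.single (kapp_k (l1.length - 1)
      (fun i => l1.getD i (base W)) fun i : Fin n => l2.getD i fun _ => ⊥) 1 := rfl

theorem kapp_ext {n p : ℕ} (Q : PW W ⥤ FM F n) {f f' : Idx p 0 → PW W} (hf : Monotone f)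
    (hf' : Monotone f') (e : ∀ t, f t = f' t) :
    (⟨p, 0, hf.functor ⋙ Q⟩ : Raw (FM F n)) = ⟨p, 0, hf'.functor ⋙ Q⟩ := by
  obtain rfl : f = f' := funext e
  rfl

theorem kapp_congr {n : ℕ} (p : ℕ) {v v' : ℕ → TO W} (g : Fin n → ℕ → Submodule F W)
    (h : ∀ m ≤ p, v m = v' m) : kapp_k p v g = kapp_k p v' g :=
  kapp_ext _ _ _ fun t => by rw [h _ t.2.1]

theorem kapp_face {n : ℕ} (p : ℕ) (v : ℕ → TO W) (g : Fin n → ℕ → Submodule F W) (i : ℕ) :
    faceN (kapp_k (p + 1) v g) i = kapp_k p (fun m => v (skip i m)) g := by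
  refine kapp_ext (kapp_Q g) ((kap_mono (p + 1) v).comp
    (reidx_mono (p + 1) 0 p 0 (skip i) fun _ => OrderHom.id)) _ fun t => ?_
  have h1 : min (skip i t.1.1) (p + 1) = skip i t.1.1 := min_eq_left (by
    have := t.2.1
    change (if t.1.1 < i then t.1.1 else t.1.1 + 1) ≤ p + 1
    split_ifs <;> omega)
  have h2 : sp (reidx (p + 1) 0 (skip i) (fun _ => OrderHom.id) t) = sp t :=
    Subtype.ext (Prod.ext rfl (Prod.ext
      (funext fun k => min_eq_left ((t.2.2 k).1.trans (t.2.2 k).2))
      (funext fun k => min_eq_left (t.2.2 k).2)))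
  change (⟨v (min (skip i t.1.1) (p + 1)), sp (reidx (p + 1) 0 (skip i)
    (fun _ => OrderHom.id) t)⟩ : PW W) = _
  rw [h1, h2]

theorem kapp_getD {α : Type*} (l : List α) (i m : ℕ) (b : α) :
    (l.eraseIdx i).getD m b = l.getD (skip i m) b := by
  change _ = l.getD (if m < i then m else m + 1) b
  rw [List.getD_eq_getElem?_getD, List.getD_eq_getElem?_getD, List.getElem?_eraseIdx]
  split_ifs <;> rfl

theorem kapp_comap (v : TO W) {α : Idx 0 0} (h : nd α) (N : Submodule F W) :
    N.comap (v.c α) = N.map (v.s α) := by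
  ext u
  constructor
  · intro hu
    exact ⟨_, hu, v.sc α h u⟩
  · rintro ⟨w, hw, rfl⟩
    rw [Submodule.mem_comap, v.cs α h]
    exact hw

theorem kapp_flag (v : TO W) (α : Idx 0 0) {f : ℕ → Submodule F W} (hf : IsFlag f) :
    IsFlag fun j => (f j).comap (v.c α) := by
  by_cases h : nd α
  · refine ⟨?_, ?_, fun j hj => ?_⟩
    · rw [kapp_comap v h, hf.bot, Submodule.map_bot]
    · rw [hf.top, Submodule.comap_top]
    · obtain ⟨w, hw⟩ := hf.step j hj
      refine ⟨v.s α w, ?_⟩
      rw [kapp_comap v h, kapp_comap v h, hw, Submodule.map_sup, Submodule.map_span,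
        Set.image_singleton]
  · have := v.sub α h
    exact ⟨Subsingleton.elim _ _, Subsingleton.elim _ _, fun _ _ => ⟨0, Subsingleton.elim _ _⟩⟩

theorem kapp_strict (v v' : TO W) (α β : Idx 0 0) (N : Submodule F W) :
    (N.comap (v.c α)).map ((v'.s β).comp (v.c α)) =
      N.comap (v'.c β) ⊓ LinearMap.range ((v'.s β).comp (v.c α)) := by
  by_cases hb : nd β
  · ext u
    constructor
    · rintro ⟨w, hw, rfl⟩
      refine ⟨?_, w, rfl⟩
      change v'.c β (v'.s β (v.c α w)) ∈ N
      rw [v'.cs β hb]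
      exact hw
    · rintro ⟨hu, w, rfl⟩
      refine ⟨w, ?_, rfl⟩
      change v'.c β (v'.s β (v.c α w)) ∈ N at hu
      rw [v'.cs β hb] at hu
      exact hu
  · have := v'.sub β hb
    exact Subsingleton.elim _ _

theorem kapp_good [Module.Finite F W] {r n : ℕ} (hr : Module.finrank F W ≤ r) (p : ℕ)
    (v : ℕ → TO W) (g : Fin n → ℕ → Submodule F W) (hg : ∀ i, IsFlag (g i)) :
    GoodF r (kapp_k p v g) := by
  refine ⟨(kap_good p v).mono hr, fun t i => kapp_flag _ _ (hg i),
    fun i j a b _ => kapp_strict _ _ _ _ _, fun _ s => if s = 0 then 0 else 𝟙 _,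
    fun k s t => ⟨fun h u => ?_, fun h u => ?_⟩, fun i j k s t u hu => ?_⟩
  · by_cases hs : s = 0
    · have := (v t.1.1).sub (sp t) fun e => by
        have e1 : t.1.2.2 k = 1 := (e k).2
        omega
      exact this.elim _ _
    · simp only [if_neg hs]
      rfl
  · by_cases hs : s = 0
    · simp only [if_pos hs]
      rfl
    · have := (v t.1.1).sub (sp t) fun e => by
        have e1 : t.1.2.1 k = 0 := (e k).1
        omega
      exact this.elim _ _
  · by_cases hs : s = 0
    · simp only [if_pos hs]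
      exact Submodule.zero_mem _
    · simp only [if_neg hs]
      exact hu

theorem kapp_mem {α : Type*} {l : List α} {i : ℕ} (h : i < l.length) (b : α) : l.getD i b ∈ l := by
  rw [List.getD_eq_getElem _ _ h]
  exact List.getElem_mem h

/-- Splitting: `ε k 0 = 0`, `ε k s = 𝟙` for `s ≥ 1`. On degenerate indices everything is a subsingleton. -/
theorem PP_good [Module.Finite F W] {r : ℕ} (hr : Module.finrank F W ≤ r) (n : ℕ) (l1 : List (TO W))
    (l2 : List (ℕ → Submodule F W)) (hl : l2.length = n) (hf : ∀ f ∈ l2, IsFlag f) :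
    PP n l1 l2 ∈ GF F r n := by
  rw [kapp_PP]
  split_ifs
  · exact Submodule.zero_mem _
  · exact Finsupp.single_mem_supported ℚ _
      (kapp_good hr _ _ _ fun i => hf _ (kapp_mem (hl ▸ i.2) _))

theorem bd_PP (n : ℕ) (l1 : List (TO W)) (l2 : List (ℕ → Submodule F W)) : bd _ (PP n l1 l2) =
    ∑ i ∈ Finset.range l1.length, (-1 : ℚ) ^ i • PP n (l1.eraseIdx i) l2 := by
  rw [kapp_PP]
  rcases h : l1.length with _ | _ | p
  · simp
  · rw [if_neg (by omega), bd_single, zero_add, Finset.sum_range_one, kapp_PP,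
      if_pos (by rw [List.length_eraseIdx_of_lt (by omega), h])]
    simp [bd1, kapp_k]
  · rw [if_neg (by omega), bd_single, show p + 1 + 1 - 1 = p + 1 from rfl, bd1]
    change (∑ i ∈ Finset.range (p + 1 + 1), _) + ∑ k ∈ (∅ : Finset ℕ), _ = _
    rw [Finset.sum_empty, add_zero]
    refine Finset.sum_congr rfl fun i hi => ?_
    have e : (l1.eraseIdx i).length = p + 1 := by
      rw [List.length_eraseIdx_of_lt (h ▸ Finset.mem_range.1 hi), h]
      rfl
    rw [kapp_face, kapp_PP, e, if_neg (by omega), show p + 1 - 1 = p from rfl]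
    simp only [kapp_getD]

theorem delta_PP (n : ℕ) (l1 : List (TO W)) (l2 : List (ℕ → Submodule F W)) :
    delta F n (PP (n + 1) l1 l2) =
      ∑ i ∈ Finset.range (n + 1), (-1 : ℚ) ^ i • PP n l1 (l2.eraseIdx i) := by
  rw [Finset.sum_range, delta, LinearMap.sum_apply]
  refine Finset.sum_congr rfl fun i _ => ?_
  rw [LinearMap.smul_apply, kapp_PP, kapp_PP]
  split_ifs
  · rw [map_zero]
  · rw [Finsupp.lmapDomain_apply, Finsupp.mapDomain_single]
    have e : (fun j : Fin n => (l2.eraseIdx i).getD j fun _ => ⊥) =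
        fun j : Fin n => l2.getD (i.succAbove j) fun _ => ⊥ := funext fun j => by
      rw [kapp_getD]
      refine congrArg (fun m => l2.getD m _) ?_
      change (if (j : ℕ) < i then (j : ℕ) else j + 1) = _
      rw [Fin.succAbove]
      by_cases a : (j : ℕ) < i
      · rw [if_pos a, if_pos (show j.castSucc < i from a)]
        rfl
      · rw [if_neg a, if_neg (show ¬j.castSucc < i from a)]
        rfl
    rw [e]
    rfl

theorem kapp_cong {n : ℕ} (φ : W ≃ₗ[F] W) (p : ℕ) (v : ℕ → TO W)
    (g : Fin n → ℕ → Submodule F W) :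
    kapp_k p (fun m => (v m).cong φ) (fun i j => (g i j).map φ.toLinearMap) = kapp_k p v g := by
  refine congrArg (fun X => (⟨p, 0, X⟩ : Raw (FM F n))) (Functor.hext (fun t => ?_) fun a b f => ?_)
  · refine congrArg (FM.mk ((v t.1.1).O (sp t))) (funext fun i => funext fun j => ?_)
    change ((g i j).map φ.toLinearMap).comap (φ.toLinearMap.comp ((v t.1.1).c (sp t))) = _
    rw [Submodule.comap_comp, Submodule.comap_map_eq_of_injective φ.injective]
    rfl
  · have e : (((v b.1.1).cong φ).s (sp b)).comp (((v a.1.1).cong φ).c (sp a)) =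
        ((v b.1.1).s (sp b)).comp ((v a.1.1).c (sp a)) :=
      LinearMap.ext fun u => congrArg ((v b.1.1).s (sp b)) (φ.symm_apply_apply _)
    exact heq_of_eq (congrArg ModuleCat.ofHom e)

theorem PP_cong (φ : W ≃ₗ[F] W) (n : ℕ) (l1 : List (TO W)) (l2 : List (ℕ → Submodule F W))
    (hl : l2.length = n) :
    PP n (l1.map (TO.cong φ)) (l2.map fun f j => (f j).map φ.toLinearMap) = PP n l1 l2 := by
  rw [kapp_PP, kapp_PP, List.length_map]
  split_ifs with h
  · rfl
  · have e : (fun i : Fin n => (l2.map fun f j => (f j).map φ.toLinearMap).getD i fun _ => ⊥) =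
        fun (i : Fin n) j => (l2.getD i (fun _ => ⊥) j).map φ.toLinearMap := funext fun i => by
      rw [List.getD_eq_getElem _ _ (by rw [List.length_map, hl]; exact i.2),
        List.getD_eq_getElem _ _ (hl ▸ i.2), List.getElem_map]
    rw [e, kapp_congr _ _ (v' := fun m => (l1.getD m (base W)).cong φ) fun m hm => by
      rw [List.getD_eq_getElem _ _ (by rw [List.length_map]; omega),
        List.getD_eq_getElem _ _ (by omega), List.getElem_map], kapp_cong]

theorem PP_zero (l1 : List (TO W)) :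
    PP 0 l1 [] = Finsupp.lmapDomain ℚ ℚ (post (emb F)) (K1 l1) := by
  rw [kapp_PP, K1]
  split_ifs
  · rw [map_zero]
  · rw [Finsupp.lmapDomain_apply, Finsupp.mapDomain_single]
    refine congrArg (fun X => Finsupp.single (⟨l1.length - 1, 0, X⟩ : Raw (FM F 0)) (1 : ℚ))
      (Functor.hext (fun t => ?_) fun a b f => HEq.rfl)
    exact congrArg (FM.mk _) (funext fun i => i.elim0)

theorem om_PP {D1 D2 : F → ℝ} (h1 : FiveTerm D1) (h2 : FiveTerm D2) (v : TO W)
    (l2 : List (ℕ → Submodule F W)) (hl : l2.length = 7) (hf : ∀ f ∈ l2, IsFlag f) :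
    om D1 D2 (PP 7 [v] l2) = cc D1 D2 fun i : Fin 7 => l2.getD i fun _ => ⊥ := by
  have hn : nd (sp (topI 0 0)) := fun _ => ⟨rfl, rfl⟩
  have hs : Function.Surjective (v.c (sp (topI 0 0))) := fun w => ⟨_, v.cs _ hn w⟩
  rw [kapp_PP, if_neg (by simp), om, Finsupp.linearCombination_single, one_smul, om1,
    if_pos ⟨rfl, rfl⟩]
  exact cc_iso h1 h2 (v.c (sp (topI 0 0)))
    ⟨Function.LeftInverse.injective (v.sc _ hn), hs⟩ _ _
    (fun i => kapp_flag v _ (hf _ (kapp_mem (i.2.trans_eq hl.symm) _)))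
    fun i j => Submodule.map_comap_eq_of_surjective hs _

end Pool.Agent.SR
end PartKapP

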