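import Pool.Agent.MP_24d90f_al.PW2
import Pool.Agent.MP_24d90f_al.PB
import Pool.Agent.MP_24d90f_al.PC

section PartMainA
open CategoryTheory

namespace Pool.Agent.SR

variable {F : Type} [Field F]

theorem maina_col_ne (g : SL2 F) : col0 g ≠ 0 := by
  intro h
  have h0 : g.1 0 0 = 0 := congrFun h 0
  have h1 : g.1 1 0 = 0 := congrFun h 1
  have h2 := g.2
  rw [Matrix.det_fin_two, h0, h1] at h2
  simp at h2

/-- The flag attached to a group element. -/
def mainaFl (Γ : Subgroup (SL2 F)) (γ : Γ) : ℕ → Submodule F (sl2rep Γ).W := pf (col0 γ.1)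

theorem maina_fl_mul (Γ : Subgroup (SL2 F)) (g γ : Γ) :
    mainaFl Γ (g * γ) = fun j => (mainaFl Γ γ j).map ((sl2rep Γ).eqv g).toLinearMap := by
  funext j
  have e : ((sl2rep Γ).eqv g).toLinearMap (col0 γ.1) = col0 (g * γ).1 := by
    funext i
    show (Matrix.toLin' g.1.1 (col0 γ.1)) i = (g.1.1 * γ.1.1) i 0
    rw [Matrix.toLin'_apply, Matrix.mul_apply]
    rfl
  unfold mainaFl pf
  split_ifs
  · exact (Submodule.map_bot _).symm
  · rw [← e]
    exact ((Submodule.map_span _ _).trans (congrArg _ Set.image_singleton)).symm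
  · exact ((Submodule.map_top _).trans (LinearEquiv.range _)).symm

theorem maina_om {D1 D2 : F → ℝ} (h1 : FiveTerm D1) (h2 : FiveTerm D2) (Γ : Subgroup (SL2 F))
    (l : List Γ) (hl : l.length = 7) :
    om D1 D2 (PP 7 ((l.take 1).map (sl2rep Γ).std) (l.map (mainaFl Γ))) =
      D1 (crv fun i => col0 (l.getD (lo4 i) 1).1) * D2 (crv fun i => col0 (l.getD (hi4 i) 1).1) := by
  have e (i : Fin 7) : ((l.map (mainaFl Γ)).getD i fun _ => ⊥) = pf (col0 (l.getD i 1).1) := by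
    rw [List.getD_eq_getElem _ _ (by rw [List.length_map, hl]; exact i.2),
      List.getD_eq_getElem _ _ (by rw [hl]; exact i.2), List.getElem_map]
    rfl
  obtain ⟨a, ha⟩ : ∃ a, l.take 1 = [a] := by
    cases l with
    | nil => simp at hl
    | cons a l => exact ⟨a, rfl⟩
  rw [ha, List.map_singleton, om_PP h1 h2 _ _ (by rw [List.length_map, hl]) (by
    intro f hf
    obtain ⟨γ, -, rfl⟩ := List.mem_map.1 hf
    exact pf_flag _ (maina_col_ne _)), funext e,
    ← BB_plane h1.zero _ fun i => maina_col_ne _, ← BB_plane h2.zero _ fun i => maina_col_ne _]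
  rfl

/-- The class of `z` survives. Plan: `aw` with `X = Γ`, `T = TF F`, `P n l1 l2 = PP n (l1.map std) (l2.map fun γ => pf (col0 γ))` (`pf (col0 (g * γ)) j = (pf (col0 γ) j).map (ρ g)`), then `zigzag` with `G1 = GF F 1`, `G3 = GF F 3`,
`ω = om D1 D2`, `u, w` the images under `post (emb F)`; finally `om_PP` and `BB_plane`. -/
theorem not_mem {D1 D2 : F → ℝ} (h1 : FiveTerm D1) (h2 : FiveTerm D2) (Γ : Subgroup (SL2 F))
    {z : LC Γ} (hz : Cy7 z)
    (hne : Finsupp.linearCombination ℚ (fun l : List Γ =>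
      D1 (crv fun i => col0 (l.getD (lo4 i) 1).1) * D2 (crv fun i => col0 (l.getD (hi4 i) 1).1)) z ≠ 0) :
    KL _ (lmap (sl2rep Γ).std z) ∉ Fil F 1 ⊔ (Fil F 3).map (bd _) := by
  intro hm
  have hr : Module.finrank F (sl2rep Γ).W ≤ 3 := by
    show Module.finrank F (Fin 2 → F) ≤ 3
    simp
  obtain ⟨t, ht, h0, hs, h6⟩ := aw (fun g x : Γ => g * x) (T := TF F) (GF F 3)
    (fun n => bd (FM F n)) (delta F)
    (fun n l1 l2 => PP n (l1.map (sl2rep Γ).std) (l2.map (mainaFl Γ)))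
    (fun n l1 l2 hl => PP_good hr n _ _ (by rw [List.length_map, hl]) (by
      intro f hf
      obtain ⟨γ, -, rfl⟩ := List.mem_map.1 hf
      exact pf_flag _ (maina_col_ne _)))
    (fun n l1 l2 => by simp only [bd_PP, List.length_map, List.eraseIdx_map])
    (fun n l1 l2 _ => by simp only [delta_PP, List.eraseIdx_map])
    (fun n g l1 l2 hl => by
      rw [← PP_cong ((sl2rep Γ).eqv g) n (l1.map _) (l2.map _) (by rw [List.length_map, hl])]
      simp only [List.map_map, Function.comp_def, std_mul, maina_fl_mul]) hz.1 hz.2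
  have e0 : delta F 0 (t 0) =
      Finsupp.lmapDomain ℚ ℚ (post (emb F)) (KL _ (lmap (sl2rep Γ).std z)) := by
    rw [h0]
    unfold KL lmap
    rw [Finsupp.lmapDomain_apply _ _ (List.map _), Finsupp.linearCombination_mapDomain,
      Finsupp.apply_linearCombination]
    simp only [List.map_nil, PP_zero, Function.comp_def]
  obtain ⟨u, hu, y, hy, e⟩ := Submodule.mem_sup.1 hm
  obtain ⟨w, hw, rfl⟩ := Submodule.mem_map.1 hy
  have key := zigzag (T := TF F) (GF F 1) (GF F 3) (GF_mono (by norm_num)) (fun n => bd (FM F n))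
    (delta F) (fun _ => bd_bd) delta_bd (fun _ _ => bd_GF) (fun _ _ => bd_GF)
    (exact0 (by norm_num)) (exact0 le_rfl) (exactS (by norm_num)) (exactS le_rfl) (om D1 D2)
    (om_rank1 h1) (om_bd h1 h2) (om_delta h1 h2) t ht hs _ _ (emb_GF hu) (emb_GF hw)
    (by rw [e0, ← e, map_add, bd_post]) (by rw [e0, bd_post, bd_KL_std _ hz.2, map_zero])
  rw [h6, map_neg, neg_eq_zero, Finsupp.apply_linearCombination] at key
  refine hne (Eq.trans ?_ key)
  rw [Finsupp.linearCombination_apply, Finsupp.linearCombination_apply]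
  refine Finsupp.sum_congr fun l hl => congrArg _ ?_
  exact (maina_om h1 h2 Γ l ((Finsupp.mem_supported ℚ z).1 hz.1 hl)).symm

theorem maina_phi : ∃ φ : (Fin 2 → F) ≃ₗ[F] Module.Dual F (Fin 2 → F),
    ∀ u v, φ u v = det2 u v := by
  let L : (Fin 2 → F) →ₗ[F] Module.Dual F (Fin 2 → F) := LinearMap.mk₂ F det2
    (fun a b c => by simp only [det2, Pi.add_apply]; ring)
    (fun a b c => by simp only [det2, Pi.smul_apply, smul_eq_mul]; ring)
    (fun a b c => by simp only [det2, Pi.add_apply]; ring)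
    (fun a b c => by simp only [det2, Pi.smul_apply, smul_eq_mul]; ring)
  have hL : Function.Injective L := by
    rw [injective_iff_map_eq_zero]
    intro u hu
    have a0 : det2 u ![0, 1] = 0 := LinearMap.congr_fun hu ![0, 1]
    have a1 : det2 u ![1, 0] = 0 := LinearMap.congr_fun hu ![1, 0]
    funext i
    fin_cases i
    · simpa [det2] using a0
    · simpa [det2] using a1
  exact ⟨L.linearEquivOfInjective hL Subspace.dual_finrank_eq.symm, fun u v => rfl⟩

theorem maina_det (g : SL2 F) (u v : Fin 2 → F) :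
    det2 (Matrix.toLin' g.1 u) v = det2 u (Matrix.toLin' (g⁻¹).1 v) := by
  rw [Matrix.SpecialLinearGroup.SL2_inv_expl]
  simp [det2, Matrix.mulVec, dotProduct, Fin.sum_univ_two]
  ring

/-- The standard representation of `SL₂` is self-dual (`u ↦ det2 u ·`); use `aa_add` with a zero third term, or `KL_cong` and `aa_eq`. -/
theorem aa_sl2_dual (Γ : Subgroup (SL2 F)) {z : LC Γ} (hz : Cy7 z) :
    aa z (sl2rep Γ).dual = aa z (sl2rep Γ) := by
  obtain ⟨φ, hφ⟩ := maina_phi (F := F)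
  let ψ : (sl2rep Γ).W ≃ₗ[F] (sl2rep Γ).dual.W := φ
  have e (g : Γ) : ((sl2rep Γ).eqv g).trans ψ = ψ.trans ((sl2rep Γ).dual.eqv g) := by
    refine LinearEquiv.ext fun u => LinearMap.ext fun v => ?_
    exact (hφ _ _).trans ((maina_det g.1 u v).trans (hφ _ _).symm)
  have h := aa_eq (fun g x : Γ => g * x) (sl2rep Γ).dual (fun γ => ((sl2rep Γ).std γ).cong ψ) id
    (fun g x => by rw [std_mul, cong_cong, cong_cong, e]) (fun _ _ => rfl) hz.2
  have e1 : lmap id z = z := by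
    unfold lmap
    rw [List.map_id_fun, Finsupp.lmapDomain_id]
    rfl
  rw [← lmap_lmap (sl2rep Γ).std (TO.cong ψ), KL_cong, e1] at h
  exact h.symm

end Pool.Agent.SR
end PartMainA

section PartMainB
open CategoryTheory

namespace Pool.Agent.SR

theorem exists_bw : ∃ D : ℂ → ℝ, BW D := by
  obtain ⟨D, h⟩ := exists_bwcore
  refine ⟨D, fiveTerm_of_xy D (by simpa using h.real 0) (by simpa using h.real 1) h.inv h.one_sub
    h.five_xy, h.cont, h.bdd, h.conj, h.ne⟩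

/-- A cycle of rank two and degree six, fixed by duality, that is not in `Fil 1 + bd (Fil 3)`. -/
theorem exists_bad : ∃ (F : Type) (_ : Field F) (_ : CharZero F) (y : Ch F),
    y ∈ Fil F 2 ∧ y ∈ Deg F 6 ∧ bd _ y = 0 ∧ Dm F y - y ∈ Bd F ∧
      y ∉ Fil F 1 ⊔ (Fil F 3).map (bd _) := by
  obtain ⟨D, hD⟩ := exists_bw
  obtain ⟨F, _, _, O, bar, φ1, φ2, hF⟩ := exists_fieldData
  obtain ⟨Γ, hΓ⟩ := exists_lattice hF
  obtain ⟨z, hz, hc, hne⟩ := exists_cycle _ (not_cob hD hΓ)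
  have hz7 : Cy7 z := ⟨hz, hc⟩
  refine ⟨F, inferInstance, inferInstance, KL _ (lmap (sl2rep Γ).std z), ?_,
    KL_Deg (lmap_len _ hz), bd_KL_std _ hc, ?_,
    not_mem (hD.five.comp φ1) (hD.five.comp φ2) Γ hz7 hne⟩
  · have h := KL_Fil (W := (sl2rep Γ).W) (lmap (sl2rep Γ).std z)
    have h2 : Module.finrank F (sl2rep Γ).W = 2 := by
      change Module.finrank F (Fin 2 → F) = 2
      simp
    rwa [h2] at h
  · have h := aa_dual (fun g x : Γ => g * x) (sl2rep Γ) (sl2rep Γ).std id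
      (fun g x => std_mul _ g x) (fun _ _ => rfl) hc
    have hid : lmap (id : Γ → Γ) z = z := by
      simp [lmap]
    rw [hid, aa_sl2_dual Γ hz7] at h
    exact (Submodule.Quotient.eq _).1 h

variable {F : Type} [Field F]

variable (F) in
/-- The page `E^ρ_{s,t}(rk)_ℚ`. -/
abbrev E (ρ s t : ℕ) : Type 1 :=
  Zs F ρ (s + 1) (s + t) ⧸ (Bs F ρ (s + 1) (s + t)).submoduleOf (Zs F ρ (s + 1) (s + t))

variable (F) in
/-- `H_j(K(F); ℚ)`. -/
abbrev H (j : ℕ) : Type 1 := Cyc F j ⧸ (Bd F).submoduleOf (Cyc F j)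

variable (F) in
/-- The Adams eigenspace `K_j(F)^{(t)}_ℚ` inside `H_j(K(F); ℚ)`. -/
noncomputable def Wt (t j : ℕ) : Submodule ℚ (H F j) :=
  ((Eig F t j).submoduleOf (Cyc F j)).map (Submodule.mkQ _)

theorem Bs_le_Bd (j : ℕ) : Bs F 2 1 j ≤ Bd F := by
  refine sup_le (fun c hc => Submodule.mem_sup_left hc.1.1) ?_
  refine le_trans (Submodule.map_mono fun c hc => ?_) le_sup_right
  exact Submodule.mem_iSup_of_mem _ hc.1.1

theorem map_Zs_le_Bd (ρ r j : ℕ) : (Zs F ρ r j).map (bd _) ≤ Bd F := by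
  refine le_trans (Submodule.map_mono fun c hc => ?_) le_sup_right
  exact Submodule.mem_iSup_of_mem _ hc.1.1

/-- The class of a cycle lying in the eigenspace of weight `t` is multiplied by `(-1)^t`. -/
theorem Dm_of_Wt [CharZero F] {t : ℕ} (ht : 0 < t) {c : Ch F} (h1 : c ∈ Cyc F 6)
    (h : (Submodule.Quotient.mk ⟨c, h1⟩ : H F 6) ∈ Wt F t 6) :
    Dm F c - ((-1 : ℚ) ^ t) • c ∈ Bd F := by
  obtain ⟨e, he, hec⟩ := h
  have h2 : e.1 - c ∈ Bd F := by
    have h := (Submodule.Quotient.eq _).1 hec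
    exact h
  have h3 := dual_weight ht (c := e.1) he
  have h4 := Dm_Bd h2
  have : Dm F c - ((-1 : ℚ) ^ t) • c = (Dm F e.1 - ((-1 : ℚ) ^ t) • e.1) - Dm F (e.1 - c) +
      ((-1 : ℚ) ^ t) • (e.1 - c) := by
    rw [map_sub, smul_sub]; abel
  rw [this]
  exact add_mem (sub_mem h3 h4) (Submodule.smul_mem _ _ h2)

theorem main : ∃ (F : Type) (_ : Field F), ¬ ∀ s t : ℕ, ∃ φ : Wt F t (s + t) ≃ₗ[ℚ] E F 2 s t,
    ∀ y : Wt F t (s + t), ∃ (c : Ch F) (h1 : c ∈ Cyc F (s + t)) (h2 : c ∈ Zs F 2 (s + 1) (s + t)),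
      y.1 = Submodule.Quotient.mk ⟨c, h1⟩ ∧ φ y = Submodule.Quotient.mk ⟨c, h2⟩ := by
  obtain ⟨F, _, _, y0, hF, hD, hb, hdual, hnot⟩ := exists_bad
  refine ⟨F, inferInstance, fun hQ => hnot ?_⟩
  obtain ⟨φ, hφ⟩ := hQ 1 5
  obtain ⟨ψ, hψ⟩ := hQ 0 6
  have hy0 : y0 ∈ Zs F 2 (1 + 1) (1 + 5) := ⟨⟨hF, hD⟩, by
    change bd _ y0 ∈ Fil F _
    rw [hb]; exact zero_mem _⟩
  obtain ⟨y, hy⟩ := φ.surjective (Submodule.Quotient.mk ⟨y0, hy0⟩)
  obtain ⟨c, h1, h2, hc1, hc2⟩ := hφ y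
  have hB : y0 - c ∈ Bs F 2 (1 + 1) (1 + 5) := by
    have h := (Submodule.Quotient.eq _).1 (hy.symm.trans hc2)
    exact h
  obtain ⟨u, hu, w, hw, huw⟩ := Submodule.mem_sup.1 hB
  have hu' : u ∈ Zs F 2 (0 + 1) (0 + 6) := ⟨hu.1, hu.2⟩
  obtain ⟨y1, hy1⟩ := ψ.surjective (Submodule.Quotient.mk ⟨u, hu'⟩)
  obtain ⟨c1, k1, k2, hk1, hk2⟩ := hψ y1
  have hB1 : u - c1 ∈ Bd F := by
    have h := (Submodule.Quotient.eq _).1 (hy1.symm.trans hk2)
    exact Bs_le_Bd (0 + 6) h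
  have hw' : w ∈ Bd F := map_Zs_le_Bd _ _ _ hw
  have e5 := Dm_of_Wt (t := 5) (by norm_num) h1 (hc1 ▸ y.2)
  have e6 := Dm_of_Wt (t := 6) (by norm_num) k1 (hk1 ▸ y1.2)
  have s1 : y0 - c - c1 ∈ Bd F := by
    have : y0 - c - c1 = (u - c1) + w := by rw [← huw]; abel
    rw [this]; exact add_mem hB1 hw'
  have s2 := Dm_Bd s1
  have s3 : (2 : ℚ) • c ∈ Bd F := by
    have : (2 : ℚ) • c = Dm F (y0 - c - c1) - (y0 - c - c1) - (Dm F y0 - y0) +
        (Dm F c - ((-1 : ℚ) ^ 5) • c) + (Dm F c1 - ((-1 : ℚ) ^ 6) • c1) := by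
      rw [map_sub, map_sub]; module
    rw [this]
    exact add_mem (add_mem (sub_mem (sub_mem s2 s1) hdual) e5) e6
  have s4 : c ∈ Bd F := by
    have := Submodule.smul_mem _ (1 / 2 : ℚ) s3
    rwa [smul_smul, show (1 / 2 : ℚ) * 2 = 1 by norm_num, one_smul] at this
  have hy00 : y = 0 := Subtype.ext (hc1.trans ((Submodule.Quotient.mk_eq_zero _).2 s4))
  have hz : y0 ∈ Bs F 2 (1 + 1) (1 + 5) := by
    rw [hy00, map_zero] at hy
    have h := (Submodule.Quotient.mk_eq_zero _).1 hy.symm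
    exact h
  have hle : Bs F 2 (1 + 1) (1 + 5) ≤ Fil F 1 ⊔ (Fil F 3).map (bd _) :=
    sup_le_sup (fun c hc => hc.1.1) (Submodule.map_mono fun c hc => hc.1.1)
  exact hle hz

end Pool.Agent.SR
end PartMainB

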