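import Pool.Agent.MP_24d90f_al.PK

section PartKapA
open CategoryTheory

namespace Pool.Agent.SR

variable {F : Type} [Field F] {G : Type} [Group G]

section sq

variable {W : Type} [AddCommGroup W] [Module F W]

/-- The filtration `0 ≤ U ≤ W`. -/
def kapaFl (U : Submodule F W) (j : ℕ) : Submodule F W :=
  if j = 0 then ⊥ else if j = 1 then U else ⊤

open Classical in
/-- The numerator of the subquotient. -/
noncomputable def kapaT (U : Submodule F W) (b : ℕ → ℕ) : Submodule F W :=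
  if ∀ k, k ≠ 0 → 1 ≤ b k then kapaFl U (b 0) else ⊥

open Classical in
/-- The denominator of the subquotient. -/
noncomputable def kapaB (U : Submodule F W) (a : ℕ → ℕ) : Submodule F W :=
  if ∀ k, k ≠ 0 → a k = 0 then kapaFl U (a 0) else ⊤

theorem kapa_fl_mono (U : Submodule F W) {j j' : ℕ} (h : j ≤ j') : kapaFl U j ≤ kapaFl U j' := by
  unfold kapaFl
  split_ifs <;> first | exact bot_le | exact le_top | exact le_rfl | omega

theorem kapa_T_mono (U : Submodule F W) {b b' : ℕ → ℕ} (h : b ≤ b') : kapaT U b ≤ kapaT U b' := by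
  unfold kapaT
  split_ifs with h1 h2
  · exact kapa_fl_mono U (h 0)
  · exact absurd (fun k hk => (h1 k hk).trans (h k)) h2
  · exact bot_le
  · exact bot_le

theorem kapa_B_mono (U : Submodule F W) {a a' : ℕ → ℕ} (h : a ≤ a') : kapaB U a ≤ kapaB U a' := by
  unfold kapaB
  split_ifs with h1 h2 h2
  · exact kapa_fl_mono U (h 0)
  · exact le_top
  · exact absurd (fun k hk => Nat.le_zero.1 ((h k).trans (h2 k hk).le)) h1
  · exact le_top

theorem kapa_fl_inv {U : Submodule F W} {φ : W →ₗ[F] W} (h : ∀ w ∈ U, φ w ∈ U) (j : ℕ) :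
    ∀ w ∈ kapaFl U j, φ w ∈ kapaFl U j := by
  unfold kapaFl
  split_ifs
  · intro w hw
    rw [(Submodule.mem_bot F).1 hw, map_zero]
    exact zero_mem _
  · exact h
  · exact fun _ _ => trivial

theorem kapa_T_inv {U : Submodule F W} {φ : W →ₗ[F] W} (h : ∀ w ∈ U, φ w ∈ U) {b b' : ℕ → ℕ}
    (hb : b ≤ b') : ∀ w ∈ kapaT U b, φ w ∈ kapaT U b' := by
  intro w hw
  refine kapa_T_mono U hb ?_
  unfold kapaT at hw ⊢
  split_ifs at hw ⊢
  · exact kapa_fl_inv h _ w hw
  · exact kapa_fl_inv h 0 w hw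

theorem kapa_B_inv {U : Submodule F W} {φ : W →ₗ[F] W} (h : ∀ w ∈ U, φ w ∈ U) {a a' : ℕ → ℕ}
    (ha : a ≤ a') : ∀ w ∈ kapaB U a, φ w ∈ kapaB U a' := by
  intro w hw
  refine kapa_B_mono U ha ?_
  unfold kapaB at hw ⊢
  split_ifs at hw ⊢
  · exact kapa_fl_inv h _ w hw
  · trivial

theorem kapa_T_le_B (U : Submodule F W) {a b : ℕ → ℕ} {k : ℕ} (h : b k ≤ a k) :
    kapaT U b ≤ kapaB U a := by
  unfold kapaT kapaB
  split_ifs with h1 h2
  · by_cases hk : k = 0
    · subst hk
      exact kapa_fl_mono U h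
    · have := h1 k hk
      have := h2 k hk
      omega
  · exact le_top
  · exact bot_le
  · exact bot_le

theorem kapa_ex (U : Submodule F W) {a a' b b' : ℕ → ℕ} {k : ℕ} (ha : ∀ l, l ≠ k → a l = a' l)
    (hb : ∀ l, l ≠ k → b l = b' l) (h : b k = a' k) :
    kapaT U b' ⊓ kapaB U a' ≤ kapaT U b ⊔ kapaB U a := by
  by_cases hk : k = 0
  · subst hk
    unfold kapaT kapaB
    by_cases h1 : ∀ l, l ≠ 0 → 1 ≤ b' l
    · by_cases h2 : ∀ l, l ≠ 0 → a l = 0
      · rw [if_pos (show ∀ l, l ≠ 0 → 1 ≤ b l from fun l hl => hb l hl ▸ h1 l hl),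
          if_pos (show ∀ l, l ≠ 0 → a' l = 0 from fun l hl => ha l hl ▸ h2 l hl), h]
        exact inf_le_right.trans le_sup_left
      · rw [if_neg h2]
        exact le_top.trans le_sup_right
    · rw [if_neg h1]
      exact inf_le_left.trans bot_le
  · by_cases h0 : a' k = 0
    · refine inf_le_right.trans ((kapa_B_mono U fun l => ?_).trans le_sup_right)
      by_cases hl : l = k
      · subst hl
        exact h0.le.trans (Nat.zero_le _)
      · exact (ha l hl).ge
    · refine inf_le_left.trans (le_trans ?_ le_sup_left)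
      unfold kapaT
      split_ifs with h1 h2
      · exact (congrArg (kapaFl U) (hb 0 (Ne.symm hk))).ge
      · refine absurd (fun l hl => ?_) h2
        by_cases hl' : l = k
        · rw [hl', h]
          omega
        · exact hb l hl' ▸ h1 l hl
      · exact bot_le
      · exact bot_le

/-- The subquotient. -/
abbrev kapaQ (T B : Submodule F W) : Type := T ⧸ B.submoduleOf T

/-- The class of a vector. -/
def kapaMk {T : Submodule F W} (B : Submodule F W) (w : W) (h : w ∈ T) : kapaQ T B :=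
  Submodule.Quotient.mk ⟨w, h⟩

theorem kapa_rep {T B : Submodule F W} (x : kapaQ T B) : ∃ w h, x = kapaMk B w h := by
  obtain ⟨⟨w, h⟩, rfl⟩ := Submodule.Quotient.mk_surjective _ x
  exact ⟨w, h, rfl⟩

theorem kapa_mk_eq {T B : Submodule F W} {w w' : W} (h : w ∈ T) (h' : w' ∈ T) :
    kapaMk B w h = kapaMk B w' h' ↔ w - w' ∈ B := Submodule.Quotient.eq _

theorem kapa_mk_zero {T B : Submodule F W} {w : W} (h : w ∈ T) : kapaMk B w h = 0 ↔ w ∈ B :=
  Submodule.Quotient.mk_eq_zero _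

theorem kapa_mk_congr {T B : Submodule F W} {w w' : W} (h : w ∈ T) (h' : w' ∈ T) (e : w = w') :
    kapaMk B w h = kapaMk B w' h' := by
  subst e
  rfl

theorem kapa_sub {T B : Submodule F W} (h : T ≤ B) : Subsingleton (kapaQ T B) := by
  refine subsingleton_of_forall_eq 0 fun x => ?_
  obtain ⟨w, hw, rfl⟩ := kapa_rep x
  exact (kapa_mk_zero hw).2 (h hw)

/-- The induced map. -/
def kapaMap {T B T' B' : Submodule F W} (φ : W →ₗ[F] W) (hT : ∀ w ∈ T, φ w ∈ T')
    (hB : ∀ w ∈ B, φ w ∈ B') : kapaQ T B →ₗ[F] kapaQ T' B' :=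
  Submodule.mapQ _ _ (φ.restrict hT) fun w hw => hB w.1 hw

theorem kapa_iso {T B : Submodule F W} {V V' : Type} [AddCommGroup V] [Module F V]
    [AddCommGroup V'] [Module F V'] (j : V →ₗ[F] W) (π : V →ₗ[F] V') (hπ : Function.Surjective π)
    (hT : ∀ w, w ∈ T ↔ ∃ v, j v = w) (hB : ∀ v, j v ∈ B ↔ π v = 0) :
    ∃ e : kapaQ T B ≃ₗ[F] V', ∀ v h, e (kapaMk B (j v) h) = π v := by
  let m : V →ₗ[F] kapaQ T B := (Submodule.mkQ _).comp (j.codRestrict T fun v => (hT _).2 ⟨v, rfl⟩)
  have hm : Function.Surjective m := fun x => by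
    obtain ⟨w, hw, rfl⟩ := kapa_rep x
    obtain ⟨v, rfl⟩ := (hT w).1 hw
    exact ⟨v, rfl⟩
  have hk : LinearMap.ker m = LinearMap.ker π := by
    ext v
    exact (kapa_mk_zero ((hT _).2 ⟨v, rfl⟩)).trans (hB v)
  refine ⟨(m.quotKerEquivOfSurjective hm).symm ≪≫ₗ (Submodule.quotEquivOfEq _ _ hk) ≪≫ₗ
    π.quotKerEquivOfSurjective hπ, fun v h => ?_⟩
  have h1 : (m.quotKerEquivOfSurjective hm).symm (kapaMk B (j v) h) = Submodule.Quotient.mk v :=
    (LinearEquiv.symm_apply_eq _).2 rfl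
  rw [LinearEquiv.trans_apply, LinearEquiv.trans_apply, h1]
  rfl

end sq

/-- Group elements with a family of arrows, codiscrete in the group element. -/
structure KapaP (G : Type) : Type where
  g : G
  ab : (ℕ → ℕ) × (ℕ → ℕ)

instance kapaPre : Preorder (KapaP G) := Preorder.lift KapaP.ab

section diag

variable (r : FR F G) {U : Submodule F r.W} (hU : ∀ g, ∀ w ∈ U, r.ρ g w ∈ U)

/-- The diagram of the subquotients. -/
noncomputable def kapaY : KapaP G ⥤ ModuleCat.{0} F where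
  obj x := ModuleCat.of F (kapaQ (kapaT U x.ab.2) (kapaB U x.ab.1))
  map {x y} f := ModuleCat.ofHom (kapaMap (r.ρ (y.g⁻¹ * x.g))
    (kapa_T_inv (hU _) (leOfHom f).2) (kapa_B_inv (hU _) (leOfHom f).1))
  map_id x := by
    refine ModuleCat.hom_ext (LinearMap.ext fun u => ?_)
    obtain ⟨w, hw, rfl⟩ := kapa_rep u
    exact kapa_mk_congr _ _ (by rw [inv_mul_cancel, map_one]; rfl)
  map_comp {x y z} f g := by
    refine ModuleCat.hom_ext (LinearMap.ext fun u => ?_)
    obtain ⟨w, hw, rfl⟩ := kapa_rep u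
    refine kapa_mk_congr _ _ ?_
    change r.ρ (z.g⁻¹ * x.g) w = (r.ρ (z.g⁻¹ * y.g) * r.ρ (y.g⁻¹ * x.g)) w
    rw [← map_mul, mul_assoc, mul_inv_cancel_left]

theorem kapa_mono (p : ℕ) (q : ℕ →₀ ℕ) (v : ℕ → G) :
    Monotone fun t : Idx p q => (⟨v t.1.1, t.1.2⟩ : KapaP G) := fun _ _ h => h.2

/-- The multisimplex with vertices `v 0, .., v p`. -/
noncomputable def kapaS (p : ℕ) (v : ℕ → G) : Raw (ModuleCat.{0} F) :=
  ⟨p, Finsupp.single 0 1, (kapa_mono p _ v).functor ⋙ kapaY r hU⟩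

theorem kapa_fun_congr {p : ℕ} {q : ℕ →₀ ℕ} {m m' : Idx p q → KapaP G} (hm : Monotone m)
    (hm' : Monotone m') (h : m = m') :
    (⟨p, q, hm.functor ⋙ kapaY r hU⟩ : Raw (ModuleCat.{0} F)) =
      ⟨p, q, hm'.functor ⋙ kapaY r hU⟩ := by
  subst h
  rfl

theorem kapa_congr (p : ℕ) (v v' : ℕ → G) (h : ∀ n ≤ p, v n = v' n) :
    kapaS r hU p v = kapaS r hU p v' :=
  kapa_fun_congr r hU _ _ (funext fun t => by rw [h _ t.2.1])

theorem kapa_faceN (p : ℕ) (v : ℕ → G) (i : ℕ) :
    faceN (kapaS r hU (p + 1) v) i = kapaS r hU p fun n => v (skip i n) := by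
  refine kapa_fun_congr r hU ((kapa_mono (p + 1) _ v).comp
    (reidx_mono (p + 1) _ p _ (skip i) fun _ => OrderHom.id)) _ (funext fun t => ?_)
  have h1 : min (skip i t.1.1) (p + 1) = skip i t.1.1 := by
    have := t.2.1
    change min (if t.1.1 < i then t.1.1 else t.1.1 + 1) (p + 1) =
      if t.1.1 < i then t.1.1 else t.1.1 + 1
    split_ifs <;> omega
  have h2 : (reidx (p + 1) (Finsupp.single 0 1) (skip i) (fun _ => OrderHom.id) t).1.2 = t.1.2 :=
    Prod.ext (funext fun k => min_eq_left ((t.2.2 k).1.trans (t.2.2 k).2))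
      (funext fun k => min_eq_left (t.2.2 k).2)
  exact congrArg₂ KapaP.mk (congrArg v h1) h2

theorem kapa_transl (p : ℕ) (v : ℕ → G) (g : G) :
    kapaS r hU p (fun n => g * v n) = kapaS r hU p v := by
  refine congrArg (fun X => (⟨p, Finsupp.single 0 1, X⟩ : Raw (ModuleCat.{0} F)))
    (CategoryTheory.Functor.hext (fun _ => rfl) fun a b f => heq_of_eq ?_)
  refine ModuleCat.hom_ext (LinearMap.ext fun u => ?_)
  obtain ⟨w, hw, rfl⟩ := kapa_rep u
  refine kapa_mk_congr _ _ ?_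
  change r.ρ ((g * v b.1.1)⁻¹ * (g * v a.1.1)) w = r.ρ ((v b.1.1)⁻¹ * v a.1.1) w
  rw [mul_inv_rev, mul_assoc, inv_mul_cancel_left]

theorem kapa_mp (p : ℕ) (v : ℕ → G) {a b : Idx p (Finsupp.single 0 1)} (h : a ≤ b)
    (hn : a.1.1 = b.1.1) (w : r.W) (hw : w ∈ kapaT U a.1.2.2) :
    mp F (kapaS r hU p v).2.2 h (kapaMk _ w hw) = kapaMk _ w (kapa_T_mono U h.2.2 hw) := by
  refine kapa_mk_congr _ _ ?_
  change r.ρ ((v b.1.1)⁻¹ * v a.1.1) w = w
  rw [hn, inv_mul_cancel, map_one]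
  rfl

theorem kapa_good (p : ℕ) (v : ℕ → G) : Good F (Module.finrank F r.W) (kapaS r hU p v) where
  fin a := inferInstanceAs (Module.Finite F (kapaQ _ _))
  iso a b h e := by
    have h1 : (⟨v a.1.1, a.1.2⟩ : KapaP G) ≤ ⟨v b.1.1, b.1.2⟩ := e.le
    have h2 : (⟨v b.1.1, b.1.2⟩ : KapaP G) ≤ ⟨v a.1.1, a.1.2⟩ := e.ge
    exact ((kapaY r hU).mapIso ⟨homOfLE h1, homOfLE h2, rfl, rfl⟩).toLinearEquiv.bijective
  zero a k h := kapa_sub (kapa_T_le_B U h.ge)
  exact a b c h h' k hab hbc e1 e2 e3 := by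
    have f1 : a.1.2.1 = b.1.2.1 := funext fun l => by
      by_cases hl : l = k
      · exact hl ▸ e1
      · exact (hab.2 l hl).1
    have f2 : b.1.2.2 = c.1.2.2 := funext fun l => by
      by_cases hl : l = k
      · exact hl ▸ e3
      · exact (hbc.2 l hl).2
    refine ⟨(injective_iff_map_eq_zero _).2 fun x hx => ?_, fun x => ?_, fun x => ?_⟩
    · obtain ⟨w, hw, rfl⟩ := kapa_rep x
      rw [kapa_mp r hU p v h hab.1] at hx
      refine (kapa_mk_zero hw).2 ?_
      change w ∈ kapaB U a.1.2.1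
      rw [f1]
      exact (kapa_mk_zero _).1 hx
    · obtain ⟨w, hw, rfl⟩ := kapa_rep x
      rw [kapa_mp r hU p v h' hbc.1]
      refine (kapa_mk_zero _).trans ⟨fun hx => ?_, fun ⟨y, hy⟩ => ?_⟩
      · obtain ⟨w1, h1, w2, h2, h3⟩ := Submodule.mem_sup.1 (kapa_ex U (fun l hl => (hbc.2 l hl).1)
          (fun l hl => (hab.2 l hl).2) e2 ⟨hw, hx⟩)
        refine ⟨kapaMk _ w1 h1, (kapa_mp r hU p v h hab.1 w1 h1).trans ((kapa_mk_eq _ _).2 ?_)⟩
        rw [← h3, sub_add_cancel_left]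
        exact neg_mem h2
      · obtain ⟨w1, h1, rfl⟩ := kapa_rep y
        have h2 := (kapa_mk_eq _ _).1 ((kapa_mp r hU p v h hab.1 w1 h1).symm.trans hy)
        have h3 := sub_mem (kapa_T_le_B U e2.le h1) (kapa_B_mono U h'.2.1 h2)
        rwa [sub_sub_cancel] at h3
    · obtain ⟨w, hw, rfl⟩ := kapa_rep x
      have hw' : w ∈ kapaT U b.1.2.2 := by
        rw [f2]
        exact hw
      exact ⟨kapaMk _ w hw', kapa_mp r hU p v h' hbc.1 w hw'⟩
  rank a _ := (Submodule.finrank_quotient_le _).trans (Submodule.finrank_le _)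

/-- The arrows of the `i`-th face. -/
noncomputable def kapaF (i : ℕ) (a : ℕ → ℕ) : ℕ → ℕ := fun k =>
  min (Function.update (fun _ => OrderHom.id) 0 (skip i) k (a k))
    ((Finsupp.single 0 1 : ℕ →₀ ℕ) k + 1)

theorem kapa_nd (i : ℕ) {α : Idx 0 0} (h : nd α) :
    kapaT U (kapaF i α.1.2.2) = kapaFl U (min (skip i 1) 2) ∧
      kapaB U (kapaF i α.1.2.1) = kapaFl U (min (skip i 0) 2) := by
  unfold kapaT kapaB
  rw [if_pos fun k hk => by simp [kapaF, Function.update_of_ne hk, (h k).2],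
    if_pos fun k hk => by simp [kapaF, Function.update_of_ne hk, (h k).1]]
  simp [kapaF, (h 0).1, (h 0).2]

theorem kapa_not_nd (i : ℕ) {α : Idx 0 0} (h : ¬ nd α) :
    kapaT U (kapaF i α.1.2.2) ≤ kapaB U (kapaF i α.1.2.1) := by
  obtain ⟨k, hk⟩ := not_forall.1 h
  have h1 := α.2.2 k
  simp only [Finsupp.coe_zero, Pi.zero_apply] at h1
  have h2 : α.1.2.2 k = α.1.2.1 k := by omega
  exact kapa_T_le_B U (k := k) (by simp only [kapaF, h2, le_refl])

theorem kapa_face (i : ℕ) (r' r'' : FR F G) (j : r''.W →ₗ[F] r.W) (π : r''.W →ₗ[F] r'.W)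
    (hj : ∀ g u, j (r''.ρ g u) = r.ρ g (j u)) (hπ : ∀ g u, π (r''.ρ g u) = r'.ρ g (π u))
    (hs : Function.Surjective π) (hT : ∀ w, w ∈ kapaFl U (min (skip i 1) 2) ↔ ∃ v, j v = w)
    (hB : ∀ v, j v ∈ kapaFl U (min (skip i 0) 2) ↔ π v = 0) :
    ∃ u : G → TO r'.W, (∀ g x, u (g * x) = (u x).cong (r'.eqv g)) ∧
      ∀ p v, faceS (kapaS r hU p v) 0 i = kap p fun n => u (v n) := by
  classical
  have h1 : ∀ α : Idx 0 0, nd α → ∃ e : kapaQ (kapaT U (kapaF i α.1.2.2))
      (kapaB U (kapaF i α.1.2.1)) ≃ₗ[F] r'.W, ∀ v h, e (kapaMk _ (j v) h) = π v := fun α h =>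
    kapa_iso j π hs (by rw [(kapa_nd r i h).1]; exact hT) (by rw [(kapa_nd r i h).2]; exact hB)
  choose e he using h1
  let u1 : TO r'.W :=
    { O := fun α => ModuleCat.of F (kapaQ (kapaT U (kapaF i α.1.2.2)) (kapaB U (kapaF i α.1.2.1)))
      c := fun α => if h : nd α then (e α h).toLinearMap else 0
      s := fun α => if h : nd α then (e α h).symm.toLinearMap else 0
      cs := fun α h w => by simp [dif_pos h]
      sc := fun α h w => by simp [dif_pos h]
      sub := fun α h => kapa_sub (kapa_not_nd r i h) }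
  refine ⟨fun g => u1.cong (r'.eqv g), fun g x => ?_, fun p v => ?_⟩
  · refine Eq.trans ?_ (cong_cong _ _ _).symm
    refine congrArg (fun φ => u1.cong φ) (LinearEquiv.ext fun w => ?_)
    change r'.ρ (g * x) w = (r'.ρ g * r'.ρ x) w
    rw [map_mul]
  refine (pull_congr _ rfl (tsub_self _) _ _ _ _ (fun _ _ => rfl) fun _ _ _ => rfl).trans ?_
  refine congrArg (fun X => (⟨p, 0, X⟩ : Raw (ModuleCat.{0} F)))
    (CategoryTheory.Functor.hext (fun _ => rfl) fun a b f => heq_of_eq ?_)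
  refine ModuleCat.hom_ext (LinearMap.ext fun x => ?_)
  by_cases hb : nd (sp b)
  swap
  · exact (u1.sub _ hb).elim _ _
  by_cases ha : nd (sp a)
  swap
  · have h0 : x = 0 := (u1.sub _ ha).elim x 0
    subst h0
    exact (map_zero _).trans (map_zero _).symm
  obtain ⟨w, hw, rfl⟩ := kapa_rep x
  obtain ⟨y, rfl⟩ := (hT w).1 ((kapa_nd r i ha).1 ▸ hw)
  have m1 : min a.1.1 p = a.1.1 := min_eq_left a.2.1
  have m2 : min b.1.1 p = b.1.1 := min_eq_left b.2.1
  have hw' : j (r''.ρ ((v b.1.1)⁻¹ * v a.1.1) y) ∈ kapaT U (kapaF i (sp b).1.2.2) :=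
    (kapa_nd r i hb).1 ▸ (hT _).2 ⟨_, rfl⟩
  refine (kapa_mk_congr _ hw' ?_).trans ?_
  · change r.ρ ((v (min b.1.1 p))⁻¹ * v (min a.1.1 p)) (j y) = _
    rw [m1, m2, hj]
  · change _ = u1.s (sp b) (r'.ρ (v b.1.1)⁻¹ (r'.ρ (v a.1.1) (u1.c (sp a) (kapaMk _ (j y) hw))))
    simp only [u1, dif_pos ha, dif_pos hb, LinearEquiv.coe_coe, he]
    refine (LinearEquiv.eq_symm_apply _).2 ((he _ hb _ hw').trans ?_)
    rw [hπ, map_mul]
    rfl

/-- The chain of a list of group elements. -/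
noncomputable def kapaL (l : List G) : Ch F :=
  if l.length = 0 then 0 else Finsupp.single (kapaS r hU (l.length - 1) fun i => l.getD i 1) 1

theorem kapa_L_transl (g : G) (l : List G) : kapaL r hU (l.map fun x => g * x) = kapaL r hU l := by
  unfold kapaL
  rw [List.length_map]
  split_ifs with h
  · rfl
  rw [← kapa_transl r hU _ (fun i => l.getD i 1) g]
  refine congrArg (fun x => Finsupp.single x 1) (kapa_congr r hU _ _ _ fun n hn => ?_)
  have hn' : n < l.length := by omega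
  simp [List.getD_eq_getElem?_getD, hn']

theorem kapa_L_Fil (z : LC G) :
    Finsupp.linearCombination ℚ (kapaL r hU) z ∈ Fil F (Module.finrank F r.W) := by
  rw [Finsupp.linearCombination_apply]
  refine Submodule.sum_mem _ fun l _ => Submodule.smul_mem _ _ ?_
  unfold kapaL
  split_ifs
  · exact zero_mem _
  · exact Finsupp.single_mem_supported ℚ _ (kapa_good r hU _ _)

theorem kapa_K {W : ModuleCat.{0} F} (u : G → TO W) {l : List G} (hl : l.length = 7) :
    KL W (lmap u (Finsupp.single l 1)) = Finsupp.single (kap 6 fun n => u (l.getD n 1)) 1 := by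
  rw [lmap, Finsupp.lmapDomain_apply, Finsupp.mapDomain_single, KL,
    Finsupp.linearCombination_single, one_smul, K1, List.length_map, hl, if_neg (by omega)]
  refine congrArg (fun x => Finsupp.single x 1) (kap_congr _ _ _ fun n hn => ?_)
  have hn' : n < l.length := by omega
  simp [List.getD_eq_getElem?_getD, hn']

theorem kapa_bd {l : List G} (hl : l.length = 7) :
    bd _ (kapaL r hU l) = Finsupp.linearCombination ℚ (kapaL r hU) (lb1 l) +
      (Finsupp.single (faceS (kapaS r hU 6 fun n => l.getD n 1) 0 0) 1 -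
        Finsupp.single (faceS (kapaS r hU 6 fun n => l.getD n 1) 0 1) 1 +
        Finsupp.single (faceS (kapaS r hU 6 fun n => l.getD n 1) 0 2) 1) := by
  rw [kapaL, hl, if_neg (by omega), bd_single, bd1, lb1, hl, map_sum]
  congr 1
  · refine Finset.sum_congr rfl fun i hi => ?_
    have h1 : (l.eraseIdx i).length = 6 := by
      rw [List.length_eraseIdx_of_lt (hl ▸ Finset.mem_range.1 hi), hl]
    rw [map_smul, Finsupp.linearCombination_single, one_smul, kapaL, h1, if_neg (by omega)]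
    refine congrArg (fun x => (-1 : ℚ) ^ i • Finsupp.single x (1 : ℚ))
      ((kapa_faceN r hU 5 _ i).trans (kapa_congr r hU _ _ _ fun n _ => ?_))
    simp only [List.getD_eq_getElem?_getD, List.getElem?_eraseIdx, skip, OrderHom.coe_mk]
    split_ifs <;> rfl
  · change ∑ k ∈ (Finsupp.single 0 1 : ℕ →₀ ℕ).support,
      ∑ i ∈ Finset.range ((Finsupp.single 0 1 : ℕ →₀ ℕ) k + 2), (-1 : ℚ) ^ (6 + _ + i) • _ = _
    rw [Finsupp.support_single _ one_ne_zero, Finset.sum_singleton,
      Finsupp.single_eq_same, Finset.range_zero, Finset.sum_empty]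
    simp only [Finset.sum_range_succ, Finset.range_zero, Finset.sum_empty]
    norm_num [sub_eq_add_neg]

end diag

/-- Additivity. Plan: for a list `l` of group elements of length `p + 1` build a diagram `y l` on `Idx p (single 0 1)`: at an index whose arrows in the directions `k ≠ 0` are all `0 ≤ 1`
it is `r1.W, r.W, r2.W` for the arrows `(0,1), (0,2), (1,2)` in direction `0`, and it is `0` elsewhere; the maps are `i, π, id` twisted by `ρ ((l b.n)⁻¹ * l a.n)`. One possible model: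
the object at `(A, B)` is `(PLift (P1 A B) → r1.W) × (PLift (P A B) → r.W) × (PLift (P2 A B) → r2.W)` for three mutually exclusive propositions; as for `kap`, define one functor on a preorder
`G × Idx 0 (single 0 1)` (codiscrete in `G`) and pull it back. It is `Good (finrank r.W)`, invariant under left translation of `l`, its nerve faces are the `y (l.eraseIdx i)`, and its three faces
`faceS · 0 i` are `kap p (u_i ∘ l)` for equivariant vertex maps `u₀ : G → TO r2.W, u₁ : G → TO r.W, u₂ : G → TO r1.W`. So `bd (lift y z) = 0 ± (KL u₀ z - KL u₁ z + KL u₂ z)` (`lift_J`), and `aa_eq` with `γ = id` finishes. -/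
theorem aa_add {z : LC G} (hz : Cy7 z) : Addv (aa (F := F) z) := by
  intro r1 r r2 i π hi hex hs ei eπ
  have hU : ∀ g, ∀ w ∈ LinearMap.range i, r.ρ g w ∈ LinearMap.range i := by
    rintro g _ ⟨u, rfl⟩
    exact ⟨_, ei g u⟩
  obtain ⟨u0, a0, b0⟩ := kapa_face r hU 0 r2 r LinearMap.id π (fun _ _ => rfl) eπ hs
    (fun w => ⟨fun _ => ⟨w, rfl⟩, fun _ => trivial⟩) fun v => (hex v).symm
  obtain ⟨u1, a1, b1⟩ := kapa_face r hU 1 r r LinearMap.id LinearMap.id (fun _ _ => rfl)
    (fun _ _ => rfl) Function.surjective_id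
    (fun w => ⟨fun _ => ⟨w, rfl⟩, fun _ => trivial⟩) fun v => Submodule.mem_bot F
  obtain ⟨u2, a2, b2⟩ := kapa_face r hU 2 r1 r1 i LinearMap.id ei
    (fun _ _ => rfl) Function.surjective_id
    (fun w => Iff.rfl) fun v => (Submodule.mem_bot F).trans (map_eq_zero_iff i hi)
  have h1 : ((bd _).comp (Finsupp.linearCombination ℚ (kapaL r hU))) z =
      ((Finsupp.linearCombination ℚ (kapaL r hU)).comp (lb G) + ((KL r2.W).comp (lmap u0) -
        (KL r.W).comp (lmap u1) + (KL r1.W).comp (lmap u2))) z := by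
    have h := hz.1
    rw [Len, Finsupp.supported_eq_span_single] at h
    refine LinearMap.eqOn_span' ?_ h
    rintro _ ⟨l, hl, rfl⟩
    simp only [LinearMap.comp_apply, LinearMap.add_apply, LinearMap.sub_apply]
    rw [Finsupp.linearCombination_single, one_smul, lb_single, kapa_K u0 hl, kapa_K u1 hl,
      kapa_K u2 hl, kapa_bd r hU hl, b0, b1, b2]
  simp only [LinearMap.comp_apply, LinearMap.add_apply, LinearMap.sub_apply] at h1
  rw [lift_J _ _ (kapa_L_transl r hU) hz.2, zero_add] at h1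
  have h2 : (Bd F).mkQ (bd _ (Finsupp.linearCombination ℚ (kapaL r hU) z)) = 0 :=
    (Submodule.Quotient.mk_eq_zero _).2 (Submodule.mem_sup_right
      (Submodule.mem_map_of_mem (Submodule.mem_iSup_of_mem _ (kapa_L_Fil r hU z))))
  have h3 : lmap (fun x : G => x) z = z := by
    rw [lmap, Finsupp.lmapDomain_apply, List.map_id_fun']
    exact Finsupp.mapDomain_id
  rw [h1, map_add, map_sub, aa_eq _ r2 u0 (fun x => x) a0 (fun _ _ => rfl) hz.2,
    aa_eq _ r u1 (fun x => x) a1 (fun _ _ => rfl) hz.2,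
    aa_eq _ r1 u2 (fun x => x) a2 (fun _ _ => rfl) hz.2, h3] at h2
  rw [← sub_eq_zero, ← neg_eq_zero, ← h2]
  abel

end Pool.Agent.SR
end PartKapA

section PartKapL
open CategoryTheory

namespace Pool.Agent.SR

variable {F : Type} [Field F]

theorem kapl_nd_top : nd (topI 0 0) := fun _ => ⟨rfl, rfl⟩

theorem kapl_nd_eq {α : Idx 0 0} (h : nd α) : α = topI 0 0 :=
  Subtype.ext (Prod.ext (Nat.le_zero.1 α.2.1)
    (Prod.ext (funext fun k => (h k).1) (funext fun k => (h k).2)))

/-- The identification of a vertex with `W`. -/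
noncomputable def kapl_eqv {W : ModuleCat.{0} F} (v : TO W) : v.O (topI 0 0) ≃ₗ[F] W :=
  LinearEquiv.ofLinearMap (v.c _) (v.s _) (LinearMap.ext (v.cs _ kapl_nd_top))
    (LinearMap.ext (v.sc _ kapl_nd_top))

def kapl_idx (p n : ℕ) (α : Idx 0 0) : Idx p 0 := ⟨(min n p, α.1.2), min_le_right _ _, α.2.2⟩

theorem kapl_top_le (p n : ℕ) {α : Idx 0 0} (h : nd α) : topI p 0 ≤ kapl_idx p n α :=
  ⟨Nat.zero_le _, fun _ => Nat.zero_le _, fun k => (h k).2.ge⟩

theorem kapl_top_eq (p n : ℕ) {α : Idx 0 0} (h : nd α) :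
    (topI p 0).1.2 = (kapl_idx p n α).1.2 := by
  rw [kapl_nd_eq h]; rfl

theorem kapl_deg {α : Idx 0 0} (h : ¬ nd α) : ∃ k, α.1.2.1 k = α.1.2.2 k := by
  by_contra hc
  refine h fun k => ?_
  have h1 := α.2.2 k
  have h2 : α.1.2.1 k ≠ α.1.2.2 k := fun e => hc ⟨k, e⟩
  simp only [Finsupp.coe_zero, Pi.zero_apply] at h1
  omega

noncomputable def kapl_e {r p : ℕ} {X : Idx p 0 ⥤ ModuleCat.{0} F} (hx : Good F r ⟨p, 0, X⟩)
    (n : ℕ) {α : Idx 0 0} (h : nd α) : X.obj (topI p 0) ≃ₗ[F] X.obj (kapl_idx p n α) :=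
  LinearEquiv.ofBijective (mp F X (kapl_top_le p n h)) (hx.iso _ _ _ (kapl_top_eq p n h))

open Classical in
noncomputable def kapl_v {r p : ℕ} {X : Idx p 0 ⥤ ModuleCat.{0} F} (hx : Good F r ⟨p, 0, X⟩)
    {W : ModuleCat.{0} F} (θ : X.obj (topI p 0) ≃ₗ[F] W) (n : ℕ) : TO W where
  O α := X.obj (kapl_idx p n α)
  c α := if h : nd α then ((kapl_e hx n h).symm.trans θ).toLinearMap else 0
  s α := if h : nd α then (θ.symm.trans (kapl_e hx n h)).toLinearMap else 0
  cs α h w := by simp [dif_pos h]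
  sc α h u := by simp [dif_pos h]
  sub α h := by
    obtain ⟨k, hk⟩ := kapl_deg h
    exact hx.zero (kapl_idx p n α) k hk

theorem kapl_j_mono (p : ℕ) : Monotone fun t : Idx p 0 => kapl_idx p t.1.1 (sp t) :=
  fun _ _ h => ⟨min_le_min_right _ h.1, h.2⟩

theorem kapl_comp_id {P : Type} [Preorder P] {C : Type 1} [Category.{0} C] (X : P ⥤ C)
    (j : P → P) (hj : Monotone j) (h : j = id) : hj.functor ⋙ X = X := by
  subst h; rfl

theorem kapl_mp_comp {p : ℕ} (X : Idx p 0 ⥤ ModuleCat.{0} F) {a b c : Idx p 0} (h : a ≤ b)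
    (h' : b ≤ c) (x : X.obj a) : mp F X h' (mp F X h x) = mp F X (h.trans h') x := by
  have : homOfLE (h.trans h') = homOfLE h ≫ homOfLE h' := rfl
  simp [mp, this, -homOfLE_comp]

theorem kapl_cong {W : ModuleCat.{0} F} (u u' : TO W) (g : W ≃ₗ[F] W) (hO : u.O = u'.O)
    (hs : HEq (u.s (topI 0 0)) ((u'.s (topI 0 0)).comp g.toLinearMap)) : u' = u.cong g := by
  obtain ⟨O, c, s, cs, sc, sub⟩ := u
  obtain ⟨O', c', s', cs', sc', sub'⟩ := u'
  dsimp only at hO hs
  subst hO
  have hs1 : ∀ w, s _ w = s' (topI 0 0) (g w) := fun w => LinearMap.congr_fun (eq_of_heq hs) w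
  refine TO.ext' rfl (heq_of_eq (funext fun α => LinearMap.ext fun x => ?_))
    (heq_of_eq (funext fun α => LinearMap.ext fun x => ?_))
  · by_cases h : nd α
    · obtain rfl := kapl_nd_eq h
      change c' _ x = g (c _ x)
      rw [← cs' _ h (g (c _ x)), ← hs1, sc _ h]
    · have := sub α h
      rw [Subsingleton.elim x 0, map_zero, map_zero]
  · by_cases h : nd α
    · obtain rfl := kapl_nd_eq h
      change s' _ x = s _ (g.symm x)
      rw [hs1, g.apply_symm_apply]
    · exact (sub α h).elim _ _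

theorem kapl_first {W : ModuleCat.{0} F} (u u' : TO W) (hO : u.O = u'.O) :
    ∃ g : W ≃ₗ[F] W, u' = u.cong g := by
  obtain ⟨O, c, s, cs, sc, sub⟩ := u
  obtain ⟨O', c', s', cs', sc', sub'⟩ := u'
  dsimp only at hO
  subst hO
  refine ⟨(kapl_eqv ⟨O, c, s, cs, sc, sub⟩).symm.trans (kapl_eqv ⟨O, c', s', cs', sc', sub'⟩),
    kapl_cong _ _ _ rfl (heq_of_eq (LinearMap.ext fun w => ?_))⟩
  exact (sc' _ kapl_nd_top (s _ w)).symm

theorem kapl_next {W : ModuleCat.{0} F} (u0 u u' : TO W) (g : W ≃ₗ[F] W) (hO : u.O = u'.O)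
    (hm : HEq (ModuleCat.ofHom ((u.s (topI 0 0)).comp (u0.c (topI 0 0))))
      (ModuleCat.ofHom ((u'.s (topI 0 0)).comp ((u0.cong g).c (topI 0 0))))) :
    u' = u.cong g := by
  refine kapl_cong u u' g hO ?_
  obtain ⟨O, c, s, cs, sc, sub⟩ := u
  obtain ⟨O', c', s', cs', sc', sub'⟩ := u'
  dsimp only at hO hm ⊢
  subst hO
  refine heq_of_eq (LinearMap.ext fun w => ?_)
  have h1 := LinearMap.congr_fun (congrArg ModuleCat.Hom.hom (eq_of_heq hm)) (u0.s _ w)
  have h2 : s _ (u0.c _ (u0.s (topI 0 0) w)) = s' _ (g (u0.c _ (u0.s (topI 0 0) w))) := h1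
  rw [u0.cs _ kapl_nd_top] at h2
  exact h2

/-- An equivariant map from vertices to the automorphism group: `γ v = θ(v.O top)⁻¹` followed by `v.c top`, where `θ M : M ≃ W` is chosen as a function of the module `M` only. -/
theorem exists_gauge (W : ModuleCat.{0} F) : ∃ γ : TO W → (W ≃ₗ[F] W),
    ∀ (g : W ≃ₗ[F] W) (v : TO W), γ (v.cong g) = g * γ v := by
  refine ⟨fun v => (Nonempty.some ⟨kapl_eqv v⟩).symm.trans (kapl_eqv v), fun g v => ?_⟩
  ext w
  rfl

/-- Every good simplex of the nerve is a `kap`: vertex `i` has `O α = x(i, α)` and is identified with `W` through `x(i, top) ≅ x(0, top) ≅ W`. Two presentations of the same simplex differ by a `cong`. -/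
theorem exists_kap {r : ℕ} (p : ℕ) (X : Idx p 0 ⥤ ModuleCat.{0} F) (hx : Good F r ⟨p, 0, X⟩)
    (W : ModuleCat.{0} F) (θ : X.obj (topI p 0) ≃ₗ[F] W) : ∃ v : ℕ → TO W, kap p v = ⟨p, 0, X⟩ := by
  refine ⟨kapl_v hx θ, ?_⟩
  have hj : (fun t : Idx p 0 => kapl_idx p t.1.1 (sp t)) = id :=
    funext fun t => Subtype.ext (Prod.ext (min_eq_left t.2.1) rfl)
  have h1 : (kap_mono p (kapl_v hx θ)).functor ⋙ bigM W = (kapl_j_mono p).functor ⋙ X := by
    refine CategoryTheory.Functor.hext (fun _ => rfl) fun a b f => heq_of_eq ?_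
    refine ModuleCat.hom_ext (LinearMap.ext fun u => ?_)
    have hab : a ≤ b := leOfHom f
    change ((kapl_v hx θ b.1.1).s (sp b)) ((kapl_v hx θ a.1.1).c (sp a) u) =
      mp F X (kapl_j_mono p hab) u
    by_cases ha : nd (sp a)
    · by_cases hb : nd (sp b)
      · obtain ⟨x, rfl⟩ := (kapl_e hx a.1.1 ha).surjective u
        have e1 : (kapl_v hx θ a.1.1).c (sp a) (kapl_e hx a.1.1 ha x) = θ x := by
          simp only [kapl_v, dif_pos ha]
          exact congrArg θ ((kapl_e hx a.1.1 ha).symm_apply_apply x)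
        have e2 : (kapl_v hx θ b.1.1).s (sp b) (θ x) = kapl_e hx b.1.1 hb x := by
          simp only [kapl_v, dif_pos hb]
          exact congrArg (kapl_e hx b.1.1 hb) (θ.symm_apply_apply x)
        rw [e1, e2]
        exact (kapl_mp_comp X (kapl_top_le p a.1.1 ha) (kapl_j_mono p hab) x).symm
      · exact ((kapl_v hx θ b.1.1).sub _ hb).elim _ _
    · have := (kapl_v hx θ a.1.1).sub _ ha
      have hu : u = 0 := this.elim _ _
      subst hu
      exact (by rw [map_zero, map_zero] : ((kapl_v hx θ b.1.1).s (sp b))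
        ((kapl_v hx θ a.1.1).c (sp a) 0) = 0).trans (map_zero _).symm
  unfold kap
  rw [h1, kapl_comp_id X _ _ hj]

theorem kap_unique {W : ModuleCat.{0} F} (p : ℕ) (v v' : ℕ → TO W) (h : kap p v = kap p v') :
    ∃ g : W ≃ₗ[F] W, ∀ n ≤ p, v' n = (v n).cong g := by
  have hF : (kap_mono p v).functor ⋙ bigM W = (kap_mono p v').functor ⋙ bigM W :=
    eq_of_heq (Sigma.mk.inj (eq_of_heq (Sigma.mk.inj h).2)).2
  have hO : ∀ n ≤ p, (v n).O = (v' n).O := fun n hn => funext fun α => by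
    have h1 := congrArg (fun G : Idx p 0 ⥤ ModuleCat.{0} F => G.obj ⟨(n, α.1.2), hn, α.2.2⟩) hF
    have h2 : sp (⟨(n, α.1.2), hn, α.2.2⟩ : Idx p 0) = α :=
      Subtype.ext (Prod.ext (Nat.le_zero.1 α.2.1).symm rfl)
    have h3 : (v n).O (sp (⟨(n, α.1.2), hn, α.2.2⟩ : Idx p 0)) =
      (v' n).O (sp (⟨(n, α.1.2), hn, α.2.2⟩ : Idx p 0)) := h1
    rwa [h2] at h3
  obtain ⟨g, hg⟩ := kapl_first (v 0) (v' 0) (hO 0 (Nat.zero_le _))
  refine ⟨g, fun n hn => kapl_next (v 0) (v n) (v' n) g (hO n hn) ?_⟩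
  have hle : topI p 0 ≤ (⟨(n, (topI 0 0).1.2), hn, (topI 0 0).2.2⟩ : Idx p 0) :=
    ⟨Nat.zero_le _, le_rfl⟩
  have h1 := CategoryTheory.Functor.hcongr_hom hF (homOfLE hle)
  rw [← hg]
  exact h1

/-- The rank of the terminal vertex. -/
noncomputable def kapl2_rk (x : Raw (ModuleCat.{0} F)) : ℕ :=
  Module.finrank F (x.2.2.obj (topI x.1 x.2.1))

theorem kapl2_rk_eq {r : ℕ} {x : Raw (ModuleCat.{0} F)} (hx : Good F r x) (a : Idx x.1 x.2.1)
    (ha : ∀ k, a.1.2.1 k = 0 ∧ a.1.2.2 k = x.2.1 k + 1) :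
    Module.finrank F (x.2.2.obj a) = kapl2_rk x := by
  have e : (topI x.1 x.2.1).1.2 = a.1.2 :=
    Prod.ext (funext fun k => (ha k).1.symm) (funext fun k => (ha k).2.symm)
  have h : topI x.1 x.2.1 ≤ a := ⟨Nat.zero_le _, e.le⟩
  exact (LinearEquiv.ofBijective _ (hx.iso _ _ h e)).finrank_eq.symm

theorem kapl2_good {r : ℕ} {x : Raw (ModuleCat.{0} F)} (hx : Good F r x) :
    Good F (kapl2_rk x) x :=
  ⟨hx.fin, hx.iso, hx.zero, hx.exact, fun a ha => (kapl2_rk_eq hx a ha).le⟩

theorem kapl2_face {r : ℕ} {x : Raw (ModuleCat.{0} F)} (hx : Good F r x) (i : ℕ) :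
    kapl2_rk (faceN x i) = kapl2_rk x :=
  kapl2_rk_eq hx (reidx x.1 x.2.1 (skip i) (fun _ => OrderHom.id) (topI (x.1 - 1) x.2.1))
    fun _ => ⟨Nat.zero_min _, Nat.min_self _⟩

theorem kapl2_K1 {W : ModuleCat.{0} F} {m : ℕ} {l : List (TO W)} (hl : l.length = m + 1) :
    K1 l = Finsupp.single (kap m fun i => l.getD i (base W)) 1 := by
  rw [K1, if_neg (by omega), hl, Nat.add_sub_cancel]

theorem kapl2_KL {W : ModuleCat.{0} F} (l : List (TO W)) (a : ℚ) :
    KL W (Finsupp.single l a) = a • K1 l := by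
  rw [KL, Finsupp.linearCombination_single]

theorem kapl2_ker {W : ModuleCat.{0} F} {m : ℕ} {w : LC (TO W)} (hw : w ∈ Len _ (m + 1))
    (h0 : KL W w = 0) : w ∈ Jsub fun (g : W ≃ₗ[F] W) (v : TO W) => v.cong g := by
  classical
  have hμ : ∀ x : Raw (ModuleCat.{0} F), ∃ l' : List (TO W), ∀ l : List (TO W),
      l.length = m + 1 → (kap m fun i => l.getD i (base W)) = x →
        l'.length = m + 1 ∧ (kap m fun i => l'.getD i (base W)) = x := fun x => by
    by_cases h : ∃ l : List (TO W), l.length = m + 1 ∧ (kap m fun i => l.getD i (base W)) = x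
    · obtain ⟨l, hl⟩ := h
      exact ⟨l, fun _ _ _ => hl⟩
    · exact ⟨[], fun l h1 h2 => absurd ⟨l, h1, h2⟩ h⟩
  choose μ hμ using hμ
  have key : Len (TO W) (m + 1) ≤ (Jsub fun (g : W ≃ₗ[F] W) (v : TO W) => v.cong g).comap
      (LinearMap.id - (Finsupp.lmapDomain ℚ ℚ μ).comp (KL W)) := by
    rw [Len, Finsupp.supported_eq_span_single, Submodule.span_le]
    rintro _ ⟨l, hl, rfl⟩
    have hl' : l.length = m + 1 := hl
    obtain ⟨h1, h2⟩ := hμ _ l hl' rfl
    obtain ⟨g, hg⟩ := kap_unique m _ _ h2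
    have e : l = (μ (kap m fun i => l.getD i (base W))).map (TO.cong g) := by
      refine List.ext_getElem (by rw [List.length_map, h1, hl']) fun n hn hn' => ?_
      have := hg n (by omega)
      rw [List.getD_eq_getElem _ _ hn, List.getD_eq_getElem _ _ (by omega)] at this
      rw [List.getElem_map, this]
    simp only [SetLike.mem_coe, Submodule.mem_comap, LinearMap.sub_apply, LinearMap.id_apply,
      LinearMap.comp_apply]
    rw [kapl2_KL, one_smul, kapl2_K1 hl', Finsupp.lmapDomain_apply, Finsupp.mapDomain_single]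
    exact Submodule.subset_span ⟨g, _, by rw [← e]⟩
  have := key hw
  rwa [Submodule.mem_comap, LinearMap.sub_apply, LinearMap.id_apply, LinearMap.comp_apply, h0,
    map_zero, sub_zero] at this

theorem kapl2_list {r n : ℕ} {x : Raw (ModuleCat.{0} F)} (hx : Good F r x) (h1 : deg x = 6)
    (h2 : x.2.1 = 0) (h3 : kapl2_rk x = n) :
    ∃ l : List (TO (ModuleCat.of F (Fin n → F))), l.length = 7 ∧ K1 l = Finsupp.single x 1 := by
  obtain ⟨p, q, X⟩ := x
  obtain rfl : q = 0 := h2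
  obtain rfl : p = 6 := by simpa [deg] using h1
  have := hx.fin (topI 6 0)
  have θ : X.obj (topI 6 0) ≃ₗ[F] (Fin n → F) :=
    LinearEquiv.ofFinrankEq _ _ (by rw [Module.finrank_fin_fun]; exact h3)
  obtain ⟨v, hv⟩ := exists_kap 6 X hx (ModuleCat.of F (Fin n → F)) θ
  have hl : ((List.range 7).map v).length = 6 + 1 := by simp
  refine ⟨(List.range 7).map v, hl, ?_⟩
  rw [kapl2_K1 hl, ← hv]
  congr 1
  refine kap_congr _ _ _ fun i hi => ?_
  rw [List.getD_eq_getElem _ _ (by omega), List.getElem_map, List.getElem_range]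

/-- Lifting a cycle of the nerve. Plan: let `c n` be the part of `c` supported on simplices with `finrank x(topI) = n` (`Finsupp.filter`); nerve faces preserve this rank, so `bd (c n)` is the rank `n` part of
`bd c ∈ Fil 0`, which is `0` for `n > 0`. For `x` in the support of `c n` choose a list `λ x` of length 7 with `K1 (λ x) = single x 1` (`exists_kap`), `w n = mapDomain λ (c n)`, `w 0 = 0`.
By `kap_unique`, two non-empty lists of the same length with the same `K1` differ by an element of `Jsub`; hence `KL w' = 0` with `w' ∈ Len 6` implies `w' ∈ Jsub`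
(choose a section `μ` of `K1` on its image: `w' - mapDomain (μ ∘ kap) w' ∈ Jsub` and `mapDomain (μ ∘ kap) w' = mapDomain μ (KL w') = 0`); apply this to `w' = lb (w n)`. -/
theorem exists_lift {c : Ch F} (hc : c ∈ Cyc F 6)
    (hq : c ∈ Finsupp.supported ℚ ℚ {x : Raw (ModuleCat.{0} F) | x.2.1 = 0}) :
    ∃ (N : ℕ) (w : ∀ n : ℕ, LC (TO (ModuleCat.of F (Fin n → F)))),
      (∀ n, w n ∈ Len _ 7 ∧ lb _ (w n) ∈
        Jsub fun (g : (Fin n → F) ≃ₗ[F] (Fin n → F)) (v : TO (ModuleCat.of F (Fin n → F))) =>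
          v.cong (W' := ModuleCat.of F (Fin n → F)) g) ∧
      c - ∑ n ∈ Finset.range N, KL _ (w n) ∈ Fil F 0 := by
  classical
  obtain ⟨⟨hc1, hc2⟩, hc3⟩ := hc
  have hG : ∀ x ∈ c.support, ∃ r, Good F r x := by
    have : (⨆ r, Fil F r) ≤ Finsupp.supported ℚ ℚ {x | ∃ r, Good F r x} :=
      iSup_le fun r => Finsupp.supported_mono fun x hx => ⟨r, hx⟩
    exact (Finsupp.mem_supported ℚ c).1 (this hc1)
  have hD : ∀ x ∈ c.support, deg x = 6 := (Finsupp.mem_supported ℚ c).1 hc2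
  have hQ : ∀ x ∈ c.support, x.2.1 = 0 := (Finsupp.mem_supported ℚ c).1 hq
  have hl : ∀ (n : ℕ) (x : Raw (ModuleCat.{0} F)), ∃ l : List (TO (ModuleCat.of F (Fin n → F))),
      l.length = 7 ∧ (x ∈ c.support → kapl2_rk x = n → K1 l = Finsupp.single x 1) := by
    intro n x
    by_cases h : x ∈ c.support ∧ kapl2_rk x = n
    · obtain ⟨r, hr⟩ := hG x h.1
      obtain ⟨l, h1, h2⟩ := kapl2_list hr (hD x h.1) (hQ x h.1) h.2
      exact ⟨l, h1, fun _ _ => h2⟩
    · exact ⟨List.replicate 7 (base _), List.length_replicate, fun h1 h2 => absurd ⟨h1, h2⟩ h⟩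
  choose lam hlen hlam using hl
  obtain ⟨cn, hcn⟩ : ∃ cn : ℕ → Ch F, ∀ n, cn n = c.filter fun x => kapl2_rk x = n ∧ 0 < n :=
    ⟨_, fun _ => rfl⟩
  have hsup : ∀ n, ∀ x ∈ (cn n).support, x ∈ c.support ∧ kapl2_rk x = n := fun n x hx => by
    rw [hcn, Finsupp.support_filter, Finset.mem_filter] at hx
    exact ⟨hx.1, hx.2.1⟩
  have hK : ∀ n, KL _ (Finsupp.lmapDomain ℚ ℚ (lam n) (cn n)) = cn n := fun n => by
    conv_lhs => rw [← Finsupp.sum_single (cn n), Finsupp.sum, map_sum, map_sum]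
    conv_rhs => rw [← Finsupp.sum_single (cn n), Finsupp.sum]
    refine Finset.sum_congr rfl fun x hx => ?_
    rw [Finsupp.lmapDomain_apply, Finsupp.mapDomain_single, kapl2_KL,
      hlam n x (hsup n x hx).1 (hsup n x hx).2, Finsupp.smul_single, smul_eq_mul, mul_one]
  have hbd : ∀ (P : ℕ → Prop) (d : Ch F), (∀ x ∈ d.support, x ∈ c.support ∧ P (kapl2_rk x)) →
      bd _ d ∈ Finsupp.supported ℚ ℚ {x | P (kapl2_rk x)} := fun P d hd => by
    refine bd_supported {x | x ∈ c.support ∧ P (kapl2_rk x)} _ (fun x hx _ i _ => ?_)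
      (fun x hx k hk => ?_) ((Finsupp.mem_supported ℚ d).2 hd)
    · obtain ⟨r, hr⟩ := hG x hx.1
      change P (kapl2_rk (faceN x i))
      rw [kapl2_face hr]
      exact hx.2
    · rw [hQ x hx.1] at hk
      exact absurd hk (lt_irrefl 0)
  have hz : ∀ n, bd _ (cn n) = 0 := fun n => by
    rcases Nat.eq_zero_or_pos n with rfl | hn
    · rw [hcn, (Finsupp.filter_eq_zero_iff _ _).2 fun x hx => absurd hx.2 (lt_irrefl 0), map_zero]
    have h1 := hbd (fun m => m = n) (cn n) (hsup n)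
    have h2 := hbd (fun m => m ≠ n) (c - cn n) fun x hx => by
      rw [Finsupp.mem_support_iff, Finsupp.sub_apply, hcn, Finsupp.filter_apply] at hx
      split_ifs at hx with h
      · exact absurd (sub_self _) hx
      · rw [sub_zero] at hx
        exact ⟨Finsupp.mem_support_iff.2 hx, fun h' => h ⟨h', hn⟩⟩
    have h3 : bd _ c ∈ Finsupp.supported ℚ ℚ {x | kapl2_rk x ≠ n} := by
      refine Finsupp.supported_mono (fun x hx => ?_) hc3
      have : kapl2_rk x ≤ 0 := GoodX.rank hx (topI _ _) fun _ => ⟨rfl, rfl⟩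
      change kapl2_rk x ≠ n
      omega
    have h4 := Submodule.sub_mem _ h3 h2
    rw [map_sub, sub_sub_cancel] at h4
    ext x
    by_cases hx : kapl2_rk x = n
    · exact (Finsupp.mem_supported' ℚ _).1 h4 x fun h => h hx
    · exact (Finsupp.mem_supported' ℚ _).1 h1 x hx
  refine ⟨c.support.sup kapl2_rk + 1, fun n => Finsupp.lmapDomain ℚ ℚ (lam n) (cn n),
    fun n => ?_, ?_⟩
  · have h1 : Finsupp.lmapDomain ℚ ℚ (lam n) (cn n) ∈ Len _ 7 := by
      refine (Finsupp.mem_supported ℚ _).2 fun l hl => ?_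
      obtain ⟨x, -, rfl⟩ := Finset.mem_image.1 (Finsupp.mapDomain_support hl)
      exact hlen n x
    exact ⟨h1, kapl2_ker (m := 5) (lb_len h1) (by rw [← bd_KL, hK, hz])⟩
  · simp only [hK]
    refine (Finsupp.mem_supported' ℚ _).2 fun x hx => ?_
    rw [Finsupp.sub_apply, Finsupp.finsetSum_apply, sub_eq_zero]
    simp only [hcn, Finsupp.filter_apply]
    by_cases h : x ∈ c.support
    · obtain ⟨r, hr⟩ := hG x h
      have h0 : 0 < kapl2_rk x := Nat.pos_of_ne_zero fun h' => hx (h' ▸ kapl2_good hr)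
      rw [Finset.sum_eq_single (kapl2_rk x), if_pos ⟨rfl, h0⟩]
      · exact fun b _ hb => if_neg fun h' => hb h'.1.symm
      · exact fun h' => absurd (Finset.mem_range.2 (Nat.lt_succ_of_le (Finset.le_sup h))) h'
    · simp [Finsupp.notMem_support_iff.1 h]

end Pool.Agent.SR
end PartKapL

section PartNilC
open CategoryTheory

namespace Pool.Agent.SR

variable {F : Type} [Field F] [CharZero F] {G : Type} [Group G]

/-- `aa` as a linear map in the chain. -/
noncomputable def nilc_aL {H : Type} [Group H] (r : FR F H) : LC H →ₗ[ℚ] (Ch F ⧸ Bd F) :=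
  (Bd F).mkQ ∘ₗ KL r.W ∘ₗ lmap r.std

omit [CharZero F] in
theorem nilc_aL_apply {H : Type} [Group H] (r : FR F H) (c : LC H) : nilc_aL r c = aa c r := rfl

theorem nilc_lmap_single {X Y : Type*} (u : X → Y) (l : List X) :
    lmap u (Finsupp.single l 1) = Finsupp.single (l.map u) 1 := by
  simp [lmap]

omit [CharZero F] in
theorem nilc_inv {H : Type} [Group H] (r : FR F H) (g : H) (l : List H) :
    aa (Finsupp.single (l.map (g * ·)) 1) r = aa (Finsupp.single l 1) r := by
  rw [aa, aa, ← KL_cong (r.eqv g) (lmap r.std (Finsupp.single l 1)), ← nilc_lmap_single,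
    lmap_lmap, lmap_lmap]
  simp only [std_mul]

omit [CharZero F] in
theorem nilc_lb {H : Type} [Group H] (r : FR F H) (c : LC H) : aa (lb H c) r = 0 := by
  rw [aa, ← lb_lmap, Submodule.mkQ_apply, Submodule.Quotient.mk_eq_zero]
  exact KL_mem_Bd r (Submodule.mem_sup_left ⟨_, rfl⟩)

/-- Replace the coordinates in `S` by `1`. -/
def nilc_pi (S : Finset (Fin 7)) : (Option (Fin 7) → G) →* (Option (Fin 7) → G) where
  toFun h o := if o ∈ S.image some then 1 else h o
  map_one' := by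
    funext o
    simp
  map_mul' a b := by
    funext o
    simp only [Pi.mul_apply]
    split_ifs <;> simp

theorem nilc_pi_none (S : Finset (Fin 7)) (h : Option (Fin 7) → G) :
    nilc_pi S h none = h none := if_neg (by simp)

theorem nilc_pi_some (S : Finset (Fin 7)) (h : Option (Fin 7) → G) (i : Fin 7) :
    nilc_pi S h (some i) = if i ∈ S then 1 else h (some i) :=
  if_congr (by simp) rfl rfl

theorem nilc_pi_insert (S : Finset (Fin 7)) (i : Fin 7) {h : Option (Fin 7) → G}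
    (hh : h (some i) = 1) : nilc_pi (insert i S) h = nilc_pi S h := by
  funext o
  cases o with
  | none => rw [nilc_pi_none, nilc_pi_none]
  | some j =>
    rw [nilc_pi_some, nilc_pi_some]
    rcases eq_or_ne j i with rfl | hj
    · simp [hh]
    · simp [hj]

omit [CharZero F] in
theorem nilc_exists (r0 : FR F G) (r : Fin 7 → FR F G) (s : Finset (Fin 7)) :
    ∃ W : FR F (Option (Fin 7) → G),
      ∀ h, W.char h = r0.char (h none) * ∏ i ∈ s, (r i).char (h (some i)) := by
  induction s using Finset.induction_on with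
  | empty => exact ⟨r0.res (Pi.evalMonoidHom _ none), fun h => by rw [Finset.prod_empty, mul_one]; rfl⟩
  | insert i s hi ih =>
    obtain ⟨W, hW⟩ := ih
    refine ⟨W.tensor ((r i).res (Pi.evalMonoidHom _ (some i))), fun h => ?_⟩
    rw [char_tensor, Finset.prod_insert hi, mul_comm ((r i).char _), ← mul_assoc, ← hW]
    rfl

omit [CharZero F] in
theorem nilc_sum (W : FR F (Option (Fin 7) → G)) {z : LC (Option (Fin 7) → G)} (hz : Cy7 z) :
    ∑ S ∈ (Finset.univ : Finset (Fin 7)).powerset,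
      (-1 : ℚ) ^ S.card • aa z (W.res (nilc_pi S)) = 0 := by
  let v : List (Option (Fin 7) → G) → Ch F ⧸ Bd F := fun l =>
    ∑ S ∈ (Finset.univ : Finset (Fin 7)).powerset,
      (-1 : ℚ) ^ S.card • aa (Finsupp.single l 1) (W.res (nilc_pi S))
  have hv : ∀ c, Finsupp.linearCombination ℚ v c = ∑ S ∈ (Finset.univ : Finset (Fin 7)).powerset,
      (-1 : ℚ) ^ S.card • aa c (W.res (nilc_pi S)) := by
    intro c
    have : Finsupp.linearCombination ℚ v = ∑ S ∈ (Finset.univ : Finset (Fin 7)).powerset,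
        (-1 : ℚ) ^ S.card • nilc_aL (W.res (nilc_pi S)) := by
      refine Finsupp.lhom_ext' fun l => LinearMap.ext_ring ?_
      simp only [LinearMap.comp_apply, Finsupp.lsingle_apply, Finsupp.linearCombination_single,
        one_smul, LinearMap.sum_apply, LinearMap.smul_apply, nilc_aL_apply, v]
    rw [this]
    simp only [LinearMap.sum_apply, LinearMap.smul_apply, nilc_aL_apply]
  have hinv : ∀ g l, v (l.map (g * ·)) = v l := fun g l => by simp only [v, nilc_inv]
  rw [← hv]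
  refine carrier (Cst ((Finset.univ : Finset (Fin 7)).image some)) 7 ?_ ?_ ?_ v hinv ?_ ?_ le_rfl
    hz.1 hz.2
  · rintro g l ⟨o, ho, h⟩
    refine ⟨o, ho, fun a ha b hb => ?_⟩
    obtain ⟨a, ha', rfl⟩ := List.mem_map.1 ha
    obtain ⟨b, hb', rfl⟩ := List.mem_map.1 hb
    rw [Pi.mul_apply, Pi.mul_apply, h a ha' b hb']
  · intro l hl
    refine ⟨some 0, by simp, fun a ha b hb => ?_⟩
    match l, hl, ha, hb with
    | [x], _, ha, hb => rw [List.mem_singleton.1 ha, List.mem_singleton.1 hb]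
  · intro n hn c hc hl h0
    refine cst_acyclic _ n ?_ c hc hl h0
    rwa [Finset.card_image_of_injective _ (Option.some_injective _), Finset.card_fin]
  · intro c
    simp only [hv, nilc_lb, smul_zero, Finset.sum_const_zero]
  · rintro l ⟨o, ho, h⟩
    obtain ⟨i, -, rfl⟩ := Finset.mem_image.1 ho
    obtain ⟨g, hg⟩ : ∃ g : Option (Fin 7) → G, ∀ a ∈ l, (g * a) (some i) = 1 := by
      cases l with
      | nil => exact ⟨1, by simp⟩
      | cons x l => exact ⟨x⁻¹, fun a ha => by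
          rw [Pi.mul_apply, Pi.inv_apply, h a ha x List.mem_cons_self, inv_mul_cancel]⟩
    rw [← hinv g]
    have hg' : ∀ a ∈ l.map (g * ·), a (some i) = 1 := fun a ha => by
      obtain ⟨a, ha', rfl⟩ := List.mem_map.1 ha
      exact hg a ha'
    generalize l.map (g * ·) = l' at hg'
    have hi := Finset.notMem_erase i (Finset.univ : Finset (Fin 7))
    simp only [v]
    rw [← Finset.insert_erase (Finset.mem_univ i), Finset.sum_powerset_insert hi,
      ← Finset.sum_add_distrib]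
    refine Finset.sum_eq_zero fun S hS => ?_
    rw [Finset.card_insert_of_notMem fun h' => hi (Finset.mem_powerset.1 hS h'), aa_res, aa_res,
      nilc_lmap_single, nilc_lmap_single,
      List.map_congr_left fun a ha => nilc_pi_insert S i (hg' a ha), pow_succ, mul_neg_one,
      neg_smul, add_neg_cancel]

/-- Nilpotence. Plan: it suffices to treat a generator `r0.char * ∏ i, ((r i).char - dim)`. Let `H = Option (Fin 7) → G`, `𝕎 : FR F H` with character `h ↦ r0.char (h none) * ∏ i, (r i).char (h (some i))`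
(iterated `tensor` of `res (Pi.evalMonoidHom ..)`; existence by induction on a list or `Finset`). For `S : Finset (Fin 7)` let `π S : H →* H` replace the coordinates `some i`, `i ∉ S`, by `1`; `Δ : G →* H` the diagonal.
`v l = ∑ S, (-1)^(7 - card S) • aa (single l 1) (𝕎.res (π S))` is invariant under left translation (`std_mul`, `KL_cong`), kills boundaries (`KL_mem_Bd`), and vanishes on `Cst (image some univ)`
(translate the constant coordinate `some i` to `1`, then the terms `S` and `S ∆ {i}` cancel: `Finset.sum_involution`). `carrier` with `m = 7` and `cst_acyclic` give `lift v (lmap Δ z) = 0`, and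
`lift v (lmap Δ z) = ∑ S, ± aa z ((𝕎.res (π S)).res Δ) = A (∑ S, ± char)` (`aa_res`, `Finset.prod_sub` or `prod_add`). -/
theorem nilp {z : LC G} (hz : Cy7 z) (A : (G → F) →ₗ[ℚ] (Ch F ⧸ Bd F))
    (hA : ∀ r : FR F G, A r.char = aa z r) {f : G → F} (hf : f ∈ JJ F G 7) : A f = 0 := by
  refine (Submodule.span_le (p := LinearMap.ker A)).2 ?_ hf
  rintro _ ⟨r0, r, rfl⟩
  obtain ⟨W, hW⟩ := nilc_exists r0 r Finset.univ
  let Δ : G →* Option (Fin 7) → G := Pi.constMonoidHom _ G
  have hz' : Cy7 (lmap Δ z) := by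
    refine ⟨lmap_len _ hz.1, ?_⟩
    rw [lb_lmap]
    refine Submodule.span_mono ?_
      (lmap_J _ (fun (g : G) (x : Option (Fin 7) → G) => Δ g * x) Δ (map_mul Δ) hz.2)
    rintro _ ⟨g, l, rfl⟩
    exact ⟨Δ g, l, rfl⟩
  have e : (fun g => r0.char g * ∏ i, ((r i).char g - (r i).dim)) =
      ∑ S ∈ (Finset.univ : Finset (Fin 7)).powerset,
        (-1 : ℚ) ^ S.card • ((W.res (nilc_pi S)).res Δ).char := by
    funext g
    rw [Finset.prod_sub, Finset.mul_sum, Finset.sum_apply]
    refine Finset.sum_congr rfl fun S _ => ?_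
    have e1 : ((W.res (nilc_pi S)).res Δ).char g = W.char (nilc_pi S (Δ g)) := rfl
    have e2 : ∏ i, (r i).char (nilc_pi S (Δ g) (some i)) =
        (∏ i ∈ Finset.univ \ S, (r i).char g) * ∏ i ∈ S, ((r i).dim : F) := by
      rw [← Finset.prod_sdiff (Finset.subset_univ S)]
      congr 1
      · exact Finset.prod_congr rfl fun i hi => by
          rw [nilc_pi_some, if_neg (Finset.mem_sdiff.1 hi).2]; rfl
      · exact Finset.prod_congr rfl fun i hi => by rw [nilc_pi_some, if_pos hi, char_one]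
    rw [Pi.smul_apply, e1, hW, e2, nilc_pi_none, Rat.smul_def]
    push_cast
    change _ = _ * (r0.char g * _)
    ring
  change A _ = 0
  rw [e, map_sum, ← nilc_sum W hz']
  exact Finset.sum_congr rfl fun S _ => by rw [map_smul, hA, aa_res]

end Pool.Agent.SR
end PartNilC

section PartPW
open CategoryTheory

namespace Pool.Agent.SR

variable {F : Type} [Field F] [CharZero F]

omit [CharZero F] in
theorem pw_sub {k : ℕ} (c : Composition (k + 1)) (M : ModuleCat.{0} F) (h : Subsingleton M) :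
    Subsingleton ((lamL F c.blocks).obj M) := by
  obtain ⟨l, h1, h2⟩ := c
  cases l with
  | nil => simp at h2
  | cons i l => exact lamL_sub i (h1 List.mem_cons_self) l M h

theorem pw_adams {G : Type} [Group G] (r : FR F G) (γ : TO r.W → G)
    (hγ : ∀ g v, γ (v.cong (r.eqv g)) = g * γ v) {w : LC (TO r.W)}
    (hc : lb _ w ∈ Jsub fun (g : G) (v : TO r.W) => v.cong (r.eqv g))
    (A : (G → F) →ₗ[ℚ] (Ch F ⧸ Bd F)) (hA : ∀ s : FR F G, A s.char = aa (lmap γ w) s) (k : ℕ) :
    (Bd F).mkQ (adams F (k + 1) (KL r.W w)) =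
      A fun g => LinearMap.trace F r.W (r.ρ g ^ (k + 1)) := by
  have h1 : ∀ c : Composition (k + 1),
      (Bd F).mkQ (Finsupp.lmapDomain ℚ ℚ (post (lamL F c.blocks)) (KL r.W w)) =
        A fun g => (c.blocks.map fun i => ek i (r.ρ g)).prod := fun c => by
    rw [post_KL _ (pw_sub c)]
    refine (aa_eq _ (r.ap _ (lamL_finite c.blocks r.W)) (TO.map _ (pw_sub c)) γ
      (fun g v => map_cong_eqv r _ _ _ g v) hγ hc).trans ?_
    rw [← hA]
    exact congrArg A (funext fun g => trace_lamL c.blocks r.W (r.ρ g))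
  rw [adams, LinearMap.sum_apply, map_sum]
  simp only [LinearMap.smul_apply, map_smul, h1]
  simp only [← map_smul]
  rw [← map_sum]
  refine congrArg A (funext fun g => ?_)
  rw [← newton_comp (fun i => ek i (r.ρ g)) (fun k => LinearMap.trace F r.W (r.ρ g ^ k))
    (newton_rec (r.ρ g)) k, Finset.sum_apply]
  refine Finset.sum_congr rfl fun c _ => ?_
  rw [Pi.smul_apply, Rat.smul_def]
  push_cast
  rfl

theorem pw_rep {G : Type} [Group G] (r : FR F G) (γ : TO r.W → G)
    (hγ : ∀ g v, γ (v.cong (r.eqv g)) = g * γ v) {w : LC (TO r.W)} (hw : w ∈ Len _ 7)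
    (hc : lb _ w ∈ Jsub fun (g : G) (v : TO r.W) => v.cong (r.eqv g)) (N : ℕ)
    (hN : r.dim * 7 ≤ N + 2) :
    Dm F (KL r.W w) + ∑ k ∈ Finset.range (N + 1),
      ((-1 : ℚ) ^ k * ((N + 2).choose (k + 2) : ℚ)) • adams F (k + 1) (KL r.W w) ∈ Bd F := by
  have hz : Cy7 (lmap γ w) :=
    ⟨lmap_len γ hw, by rw [lb_lmap]; exact lmap_J _ _ γ hγ hc⟩
  obtain ⟨A, hA⟩ := exists_ahat (aa (F := F) (lmap γ w)) (aa_add hz)
  have h1 : (Bd F).mkQ (Dm F (KL r.W w)) = A fun g => r.char g⁻¹ := by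
    have e : lmap (fun v : TO r.W => v) w = w := by
      rw [lmap, Finsupp.lmapDomain_apply, List.map_id_fun', Finsupp.mapDomain_id]
    have := aa_dual _ r (fun v => v) γ (fun _ _ => rfl) hγ hc
    rw [e] at this
    rw [this, ← hA, char_dual]
  have h3 : A (fun _ => 1) = 0 := by rw [← char_triv, hA, aa_triv hz]
  have h4 := nilp hz A hA (trace_mem_JJ r 7 (N + 2) hN)
  have h5 : (fun g => LinearMap.trace F r.W (r.ρ g⁻¹ * (1 - r.ρ g) ^ (N + 2))) =
      (fun g => r.char g⁻¹) - (((N + 2 : ℕ) : ℚ) * r.dim) • (fun _ => (1 : F)) +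
        ∑ k ∈ Finset.range (N + 1), ((-1 : ℚ) ^ k * ((N + 2).choose (k + 2) : ℚ)) •
          fun g => LinearMap.trace F r.W (r.ρ g ^ (k + 1)) := by
    funext g
    rw [trace_expand]
    simp only [Pi.add_apply, Pi.sub_apply, Pi.smul_apply, Finset.sum_apply, Rat.smul_def]
    push_cast
    rw [mul_one]
  rw [h5, map_add, map_sub, map_smul, h3, smul_zero, sub_zero, map_sum] at h4
  rw [← Submodule.ker_mkQ (Bd F), LinearMap.mem_ker, map_add, map_sum, h1, ← h4]
  simp only [map_smul, pw_adams r γ hγ hc A hA]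

/-- One rank at a time: the finite difference identity in `Ch F ⧸ Bd F`. Plan: `G = W ≃ₗ W`, `r = FR.taut W _` (`r.eqv g = g`), `γ` from `exists_gauge`, `z = lmap γ w` (`Cy7`), `A` from `exists_ahat (aa z) (aa_add _)`.
`mk (Dm (KL w)) = aa z r.dual = A (g ↦ r.char g⁻¹)` (`aa_dual`, `u = id`); `mk (adams (k+1) (KL w)) = ∑ c, coef • aa z (r.ap (lamL c.blocks)) = A (g ↦ trace (ρ g ^ (k+1)))`
(`post_KL`, `lamL_sub`, `aa_eq`, `map_cong_eqv`, `trace_lamL`, `newton_rec`, `newton_comp`); `A 1 = aa z triv = 0`; `nilp`, `trace_mem_JJ`, `trace_expand`. -/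
theorem pw_one (W : ModuleCat.{0} F) [Module.Finite F W] {w : LC (TO W)} (hw : w ∈ Len _ 7)
    (hc : lb _ w ∈ Jsub fun (g : W ≃ₗ[F] W) (v : TO W) => v.cong g) (N : ℕ)
    (hN : Module.finrank F W * 7 ≤ N + 2) :
    Dm F (KL W w) + ∑ k ∈ Finset.range (N + 1),
      ((-1 : ℚ) ^ k * ((N + 2).choose (k + 2) : ℚ)) • adams F (k + 1) (KL W w) ∈ Bd F := by
  obtain ⟨γ, hγ⟩ := exists_gauge W
  exact pw_rep (FR.taut W inferInstance) γ hγ hw hc N hN

theorem adams_Fil0 (k : ℕ) {c : Ch F} (hc : c ∈ Fil F 0) : adams F (k + 1) c ∈ Fil F 0 := by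
  rw [adams, LinearMap.sum_apply]
  refine Submodule.sum_mem _ fun b _ => Submodule.smul_mem _ _ ?_
  refine Finsupp.supported_comap_lmapDomain ℚ ℚ _ _ (Finsupp.supported_mono ?_ hc)
  exact fun x hx => (good_zero_iff _).2 fun a => pw_sub b _ ((good_zero_iff x).1 hx a)

/-- Duality acts by `(-1)^t` on the Adams eigenspace of weight `t` (`exists_lift`, `pw_one` with one large `N`, `findiff`). -/
theorem dual_weight {t : ℕ} (ht : 0 < t) {c : Ch F} (hc : c ∈ Eig F t 6) :
    Dm F c - ((-1 : ℚ) ^ t) • c ∈ Bd F := by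
  obtain ⟨⟨h1, h2⟩, h3⟩ := hc
  obtain ⟨M, w, hw, h0⟩ := exists_lift h1 h2
  set L : Ch F →ₗ[ℚ] Ch F := Dm F + ∑ k ∈ Finset.range (M * 7 + t + 1),
    ((-1 : ℚ) ^ k * ((M * 7 + t + 2).choose (k + 2) : ℚ)) • adams F (k + 1) with hL
  have eL : ∀ y, L y = Dm F y + ∑ k ∈ Finset.range (M * 7 + t + 1),
      ((-1 : ℚ) ^ k * ((M * 7 + t + 2).choose (k + 2) : ℚ)) • adams F (k + 1) y := fun y => by
    simp only [hL, LinearMap.add_apply, LinearMap.sum_apply, LinearMap.smul_apply]
  have b0 : Fil F 0 ≤ Bd F := le_sup_left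
  have a1 : L c ∈ Bd F := by
    rw [← sub_add_cancel c (∑ n ∈ Finset.range M, KL _ (w n)), map_add, map_sum]
    refine add_mem (b0 ?_) (Submodule.sum_mem _ fun n hn => ?_)
    · rw [eL]
      exact add_mem (Dm_Fil h0)
        (Submodule.sum_mem _ fun k _ => Submodule.smul_mem _ _ (adams_Fil0 k h0))
    · rw [eL]
      refine pw_one _ (hw n).1 (hw n).2 _ ?_
      have := Finset.mem_range.1 hn
      have e : Module.finrank F (ModuleCat.of F (Fin n → F)) = n := Module.finrank_fin_fun F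
      omega
  have a2 : ∑ k ∈ Finset.range (M * 7 + t + 1),
      ((-1 : ℚ) ^ k * ((M * 7 + t + 2).choose (k + 2) : ℚ)) •
        (adams F (k + 1) c - ((k + 1 : ℚ) ^ t) • c) ∈ Bd F :=
    Submodule.sum_mem _ fun k _ => Submodule.smul_mem _ _ ((Submodule.mem_iInf _).1 h3 k)
  have a3 := sub_mem a1 a2
  simp only [eL, smul_sub, Finset.sum_sub_distrib, smul_smul, ← Finset.sum_smul] at a3
  rw [findiff _ t ht (by omega)] at a3
  convert a3 using 1
  rw [neg_smul]
  abel

end Pool.Agent.SR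
end PartPW

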